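import Pool.Agent.DT3.AppC

/-!
`parts` and `s1r` for an arbitrary type: let `β = {x // x ∈ E}` (a finite type), `r' Y = r (Y.map (Embedding.subtype _))`
(a rank function on `Finset β`), `E' = univ`; translate the conclusions back by `Finset.map`.
(Subsets of `E` correspond to the finsets of `β`: `Y ↦ Y.subtype (· ∈ E)`, `Finset.subtype_map`,
`Finset.map_union`, `Finset.map_inter`, ...)
-/

set_option autoImplicit false

namespace Pool.Agent.DT3

open Finset

variable {α : Type*} [DecidableEq α] {r : Finset α → ℕ}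

/-- The inclusion of a finset. -/
def emE (E : Finset α) : {x // x ∈ E} ↪ α := Function.Embedding.subtype _

/-- The induced function on the finsets of the subtype. -/
def rE (r : Finset α → ℕ) (E : Finset α) (Y : Finset {x // x ∈ E}) : ℕ := r (Y.map (emE E))

theorem rE_rank (h : RankFn r) (E : Finset α) : RankFn (rE r E) where
  empty := by simp [rE, h.empty]
  mono X Y hXY := h.mono _ _ (Finset.map_subset_map.2 hXY)
  insert_le x X := by
    unfold rE
    rw [Finset.map_insert]
    exact h.insert_le _ _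
  submod X Y := by
    unfold rE
    rw [Finset.map_union, Finset.map_inter]
    exact h.submod _ _

theorem univ_map_emE (E : Finset α) : (univ : Finset {x // x ∈ E}).map (emE E) = E := by
  ext x
  simp [emE]

theorem map_emE_subset (E : Finset α) (Y : Finset {x // x ∈ E}) : Y.map (emE E) ⊆ E := by
  intro x hx
  obtain ⟨y, _, rfl⟩ := Finset.mem_map.1 hx
  exact y.2

theorem subtype_map_emE {E Y : Finset α} (hY : Y ⊆ E) :
    (Y.subtype (· ∈ E)).map (emE E) = Y := by
  ext x
  simp only [emE, Finset.mem_map, Finset.mem_subtype, Function.Embedding.subtype_apply,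
    Subtype.exists, exists_and_right, exists_eq_right]
  constructor
  · rintro ⟨_, hx⟩
    exact hx
  · intro hx
    exact ⟨hY hx, hx⟩

theorem card_univ_emE (E : Finset α) : (univ : Finset {x // x ∈ E}).card = E.card := by
  simp

theorem parts_any (h : RankFn r) {k m : ℕ} (E : Finset α) (hE : E.card = m * k)
    (hY : ∀ Y ⊆ E, Y.card ≤ m * r Y) (hk : ∀ Y ⊆ E, r Y ≤ k) :
    ∃ B : Fin m → Finset α, (∀ i, B i ⊆ E) ∧ (∀ i, (B i).card = k ∧ r (B i) = k) ∧
      (∀ i j, i ≠ j → Disjoint (B i) (B j)) ∧ ∀ x ∈ E, ∃ i, x ∈ B i := by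
  obtain ⟨B, _, h2, h3, h4⟩ := parts (rE_rank h E) (k := k) m univ
    (by rw [card_univ_emE]; exact hE)
    (fun Y _ => by
      have := hY _ (map_emE_subset E Y)
      rwa [Finset.card_map] at this)
    (fun Y _ => hk _ (map_emE_subset E Y))
  refine ⟨fun i => (B i).map (emE E), fun i => map_emE_subset E _, fun i => ?_, ?_, ?_⟩
  · obtain ⟨ha, hb⟩ := h2 i
    refine ⟨?_, hb⟩
    rw [Finset.card_map]
    exact ha
  · intro i j hij
    exact (Finset.disjoint_map (emE E)).2 (h3 i j hij)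
  · intro x hx
    obtain ⟨i, hi⟩ := h4 ⟨x, hx⟩ (mem_univ _)
    exact ⟨i, Finset.mem_map.2 ⟨⟨x, hx⟩, hi, rfl⟩⟩

theorem s1r_any (h : RankFn r) {m : ℕ} {E : Finset α} {c d : α} (hm : 2 ≤ m)
    (hE : E.card = (m + 1) * r E + 1)
    (hY : ∀ Y ⊆ E, Y ≠ E → Y.card ≤ (m + 1) * r Y) (hc : c ∈ E) (hd : d ∈ E) (hcd : c ≠ d) :
    S1Concl r m E c d := by
  have hrE : rE r E univ = r E := by
    unfold rE
    rw [univ_map_emE]
  obtain ⟨T, _, hcT, hdT, hT1, hT2, hTc, hTd⟩ := s1r (r := rE r E) (E := univ)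
    (c := (⟨c, hc⟩ : {x // x ∈ E})) (d := ⟨d, hd⟩) (rE_rank h E) hm
    (by rw [card_univ_emE, hrE]; exact hE)
    (fun Y _ hYu => by
      have h1 : Y.map (emE E) ≠ E := by
        intro h2
        apply hYu
        rw [← Finset.map_inj (f := emE E), h2, univ_map_emE]
      have := hY _ (map_emE_subset E Y) h1
      rwa [Finset.card_map] at this)
    (mem_univ _) (mem_univ _) (fun h0 => hcd (congrArg Subtype.val h0))
  have key : ∀ Y ⊆ E \ T.map (emE E), (Y.subtype (· ∈ E)) ⊆ univ \ T := by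
    intro Y hYs y hy
    rw [Finset.mem_sdiff]
    refine ⟨mem_univ _, fun hyT => ?_⟩
    rw [Finset.mem_subtype] at hy
    exact (Finset.mem_sdiff.1 (hYs hy)).2 (Finset.mem_map.2 ⟨y, hyT, rfl⟩)
  have hsub : ∀ Y ⊆ E \ T.map (emE E), Y ⊆ E := fun Y hYs => hYs.trans Finset.sdiff_subset
  refine ⟨T.map (emE E), map_emE_subset E T, ?_, ?_, ?_, ?_, ?_, ?_⟩
  · intro h0
    obtain ⟨y, hy, hy2⟩ := Finset.mem_map.1 h0
    have : y = ⟨c, hc⟩ := Subtype.ext hy2
    exact hcT (this ▸ hy)
  · intro h0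
    obtain ⟨y, hy, hy2⟩ := Finset.mem_map.1 h0
    have : y = ⟨d, hd⟩ := Subtype.ext hy2
    exact hdT (this ▸ hy)
  · rw [Finset.card_map, hT1, hrE]
  · rw [← hrE]
    exact hT2
  · intro Y hYs hcY
    have h1 := hTc (Y.subtype (· ∈ E)) (key Y hYs) (fun h0 => hcY (Finset.mem_subtype.1 h0))
    have h2 : (Y.subtype (· ∈ E)).card = Y.card := by
      rw [← Finset.card_map (emE E), subtype_map_emE (hsub Y hYs)]
    unfold rE at h1
    rwa [subtype_map_emE (hsub Y hYs), h2] at h1
  · intro Y hYs hdY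
    have h1 := hTd (Y.subtype (· ∈ E)) (key Y hYs) (fun h0 => hdY (Finset.mem_subtype.1 h0))
    have h2 : (Y.subtype (· ∈ E)).card = Y.card := by
      rw [← Finset.card_map (emE E), subtype_map_emE (hsub Y hYs)]
    unfold rE at h1
    rwa [subtype_map_emE (hsub Y hYs), h2] at h1

end Pool.Agent.DT3
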