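import Pool.Agent.DT3.Defs

/-!
Elementary facts about `nu φ X = max_{Y ⊆ X} φ Y`.

* `nu_super`: take maximisers `A' ⊆ A`, `B' ⊆ B`: `φ A' + φ B' ≤ φ (A' ∪ B') + φ (A' ∩ B')`.
* `nu_insert_le`: a maximiser `Y` of `insert v X`: if `v ∉ Y` then `Y ⊆ X`; otherwise
  `φ Y = φ (insert v (Y.erase v)) ≤ φ (Y.erase v) + 1`, `Y.erase v ⊆ X`.
* `nu_union_le`, `nu_sdiff_ge`: induction on `T`.
* `nu_marg`: `nu_super` with `A = insert v X`, `B = X'` (`A ∪ B = insert v X'`, `A ∩ B = X`).
* `nu_union_marg`: if every `t ∈ R` has `nu φ (insert t X) ≥ nu φ X + 1` then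
  `nu φ (X ∪ R) ≥ nu φ X + |R|` (`R` disjoint from `X`; induction on `R` with `nu_marg`).
-/

set_option autoImplicit false

namespace Pool.Agent.DT3

open Finset

variable {α : Type*} [DecidableEq α] {φ : Finset α → ℤ} {X X' Y : Finset α}

theorem le_nu (φ : Finset α → ℤ) (h : Y ⊆ X) : φ Y ≤ nu φ X :=
  Finset.le_sup' φ (mem_powerset.2 h)

theorem exists_nu (φ : Finset α → ℤ) (X : Finset α) : ∃ Y ⊆ X, φ Y = nu φ X := by
  obtain ⟨Y, hY, h⟩ := Finset.exists_mem_eq_sup' (s := X.powerset) ⟨∅, empty_mem_powerset X⟩ φ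
  exact ⟨Y, mem_powerset.1 hY, h.symm⟩

theorem nu_le_iff {k : ℤ} : nu φ X ≤ k ↔ ∀ Y ⊆ X, φ Y ≤ k := by
  unfold nu
  rw [Finset.sup'_le_iff]
  exact ⟨fun h Y hY => h Y (mem_powerset.2 hY), fun h Y hY => h Y (mem_powerset.1 hY)⟩

theorem nu_mono (φ : Finset α → ℤ) (h : X ⊆ X') : nu φ X ≤ nu φ X' :=
  nu_le_iff.2 fun _ hY => le_nu φ (hY.trans h)

theorem nu_nonneg (h : φ ∅ = 0) (X : Finset α) : 0 ≤ nu φ X := by
  rw [← h]
  exact le_nu φ (empty_subset X)

theorem nu_empty (h : φ ∅ = 0) : nu φ ∅ = 0 := by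
  refine le_antisymm (nu_le_iff.2 fun Y hY => ?_) (nu_nonneg h ∅)
  rw [subset_empty.1 hY, h]

theorem nu_super (h : SM φ) (A B : Finset α) :
    nu φ A + nu φ B ≤ nu φ (A ∪ B) + nu φ (A ∩ B) := by
  obtain ⟨A', hA, eA⟩ := exists_nu φ A
  obtain ⟨B', hB, eB⟩ := exists_nu φ B
  have h1 := h.super A' B'
  have h2 := le_nu φ (union_subset_union hA hB)
  have h3 := le_nu φ (inter_subset_inter hA hB)
  omega

theorem nu_insert_le {v : α} (hv : ∀ Y, φ (insert v Y) ≤ φ Y + 1) (X : Finset α) :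
    nu φ (insert v X) ≤ nu φ X + 1 := by
  refine nu_le_iff.2 fun Y hY => ?_
  have h1 : Y.erase v ⊆ X := by
    intro x hx
    rw [mem_erase] at hx
    exact (mem_insert.1 (hY hx.2)).resolve_left hx.1
  have h2 := le_nu φ h1
  by_cases hvY : v ∈ Y
  · have h3 := hv (Y.erase v)
    rw [insert_erase hvY] at h3
    omega
  · rw [erase_eq_of_notMem hvY] at h2
    omega

theorem nu_le_erase {v : α} (hv : ∀ Y, φ (insert v Y) ≤ φ Y + 1) (X : Finset α) :
    nu φ X ≤ nu φ (X.erase v) + 1 := by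
  by_cases hvX : v ∈ X
  · have h := nu_insert_le hv (X.erase v)
    rwa [insert_erase hvX] at h
  · rw [erase_eq_of_notMem hvX]
    omega

theorem nu_union_le {V T : Finset α} (hV : Marg φ V) (hT : T ⊆ V) (X : Finset α) :
    nu φ (X ∪ T) ≤ nu φ X + T.card := by
  induction T using Finset.induction_on with
  | empty => simp
  | insert t T ht ih =>
    rw [union_insert, card_insert_of_notMem ht]
    have h1 := ih ((subset_insert t T).trans hT)
    have h2 := nu_insert_le (hV t (hT (mem_insert_self t T))) (X ∪ T)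
    push_cast
    omega

theorem nu_sdiff_ge {V T : Finset α} (hV : Marg φ V) (hT : T ⊆ V) (X : Finset α) :
    nu φ X - T.card ≤ nu φ (X \ T) := by
  have h1 := nu_union_le hV hT (X \ T)
  have h2 : nu φ X ≤ nu φ (X \ T ∪ T) := nu_mono φ (by
    intro x hx
    by_cases hxT : x ∈ T
    · exact mem_union_right _ hxT
    · exact mem_union_left _ (mem_sdiff.2 ⟨hx, hxT⟩))
  omega

private theorem phi_union_le {V T : Finset α} (hV : Marg φ V) (hT : T ⊆ V) (X : Finset α) :
    φ (X ∪ T) ≤ φ X + T.card := by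
  induction T using Finset.induction_on with
  | empty => simp
  | insert t T ht ih =>
    rw [union_insert, card_insert_of_notMem ht]
    have h1 := ih ((subset_insert t T).trans hT)
    have h2 := hV t (hT (mem_insert_self t T)) (X ∪ T)
    push_cast
    omega

theorem phi_sdiff_ge {V T : Finset α} (hV : Marg φ V) (hT : T ⊆ V) (Y : Finset α) :
    φ Y - T.card ≤ φ (Y \ T) := by
  have h1 := phi_union_le hV ((inter_subset_right (s₁ := Y)).trans hT) (Y \ T)
  rw [sdiff_union_inter] at h1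
  have h2 : (Y ∩ T).card ≤ T.card := card_le_card inter_subset_right
  omega

theorem nu_marg (h : SM φ) {v : α} (hX : X ⊆ X') (hv : v ∉ X') :
    nu φ (insert v X) - nu φ X ≤ nu φ (insert v X') - nu φ X' := by
  have h1 := nu_super h (insert v X) X'
  rw [insert_union, union_eq_right.2 hX, insert_inter_of_notMem hv, inter_eq_left.2 hX] at h1
  omega

theorem nu_union_marg (h : SM φ) {R : Finset α} (hR : Disjoint R X)
    (ht : ∀ t ∈ R, nu φ X + 1 ≤ nu φ (insert t X)) : nu φ X + R.card ≤ nu φ (X ∪ R) := by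
  induction R using Finset.induction_on with
  | empty => simp
  | insert t R htR ih =>
    rw [union_insert, card_insert_of_notMem htR]
    rw [disjoint_insert_left] at hR
    have h1 := ih hR.2 (fun s hs => ht s (mem_insert_of_mem hs))
    have h2 := ht t (mem_insert_self t R)
    have h3 := nu_marg h (v := t) (subset_union_left (s₁ := X) (s₂ := R))
      (by rw [mem_union]; exact fun c => c.elim hR.1 htR)
    push_cast
    omega

/-- Supermodularity for several disjoint elements or sets in the form of a marginal. -/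
theorem SM.marg (h : SM φ) {A B C : Finset α} (hAB : A ⊆ B) (hC : Disjoint C B) :
    φ (A ∪ C) - φ A ≤ φ (B ∪ C) - φ B := by
  have h1 := h.super (A ∪ C) B
  have e1 : A ∪ C ∪ B = B ∪ C := by
    rw [union_right_comm, union_eq_right.2 hAB]
  have e2 : (A ∪ C) ∩ B = A := by
    rw [union_inter_distrib_right, inter_eq_left.2 hAB, disjoint_iff_inter_eq_empty.1 hC,
      union_empty]
  rw [e1, e2] at h1
  omega

end Pool.Agent.DT3
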