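import Pool.Agent.DT3.HFlat
import Pool.Agent.DT3.Nu

/-!
The function `wr m r Y = |Y| - m r Y` of a matroid rank function.

* `wr_good`: the gap of `A, B` is `m (r A + r B - r (A ∪ B) - r (A ∩ B))`, a non-negative multiple of `m ≥ 2`
  (`|A ∪ B| + |A ∩ B| = |A| + |B|`).
* `wr_marg`: `|insert v Y| ≤ |Y| + 1`, `r` monotone.
* `contr_rank`: `r' Y = r (Y ∪ X) - r X` is a rank function.
* `loopless_of`: if `|Y| ≤ p r Y` for all `Y ⊆ E`, `Y ≠ E`, and `2 ≤ |E|`, there are no loops in `E`.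
-/

set_option autoImplicit false

namespace Pool.Agent.DT3

open Finset

/-- `|Y| - m r Y`. -/
def wr {α : Type*} (m : ℕ) (r : Finset α → ℕ) (Y : Finset α) : ℤ := (Y.card : ℤ) - m * r Y

variable {α : Type*} [DecidableEq α] {r : Finset α → ℕ} {E : Finset α} {m : ℕ}

theorem wr_sm (h : RankFn r) (m : ℕ) : SM (wr m r) := by
  refine ⟨by simp [wr, h.empty], fun A B => ?_⟩
  have h1 : ((A ∪ B).card : ℤ) + (A ∩ B).card = A.card + B.card := by
    exact_mod_cast card_union_add_card_inter A B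
  have h2 : (r (A ∪ B) : ℤ) + r (A ∩ B) ≤ r A + r B := by exact_mod_cast h.submod A B
  have h3 : (m : ℤ) * (r (A ∪ B) + r (A ∩ B)) ≤ m * (r A + r B) :=
    mul_le_mul_of_nonneg_left h2 (by positivity)
  unfold wr
  nlinarith

theorem wr_good (h : RankFn r) (hm : 2 ≤ m) : Good (wr m r) := by
  refine ⟨wr_sm h m, fun A B hAB => ?_⟩
  have h1 : ((A ∪ B).card : ℤ) + (A ∩ B).card = A.card + B.card := by
    exact_mod_cast card_union_add_card_inter A B
  unfold wr at hAB
  have h4 : (m : ℤ) * (r A + r B - r (A ∪ B) - r (A ∩ B)) = 1 := by linarith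
  have h5 : (m : ℤ) ∣ 1 := ⟨_, h4.symm⟩
  have h6 : (m : ℤ) ≤ 1 := Int.le_of_dvd one_pos h5
  omega

theorem wr_marg (h : RankFn r) (m : ℕ) (V : Finset α) : Marg (wr m r) V := by
  intro v _ Y
  have h1 : ((insert v Y).card : ℤ) ≤ Y.card + 1 := by exact_mod_cast card_insert_le v Y
  have h2 : (r Y : ℤ) ≤ r (insert v Y) := by exact_mod_cast h.mono _ _ (subset_insert v Y)
  have h3 : (m : ℤ) * r Y ≤ m * r (insert v Y) := mul_le_mul_of_nonneg_left h2 (by positivity)
  unfold wr
  linarith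

theorem contr_rank (h : RankFn r) (X : Finset α) : RankFn (fun Y => r (Y ∪ X) - r X) := by
  have hX : ∀ Y : Finset α, r X ≤ r (Y ∪ X) := fun Y => h.mono _ _ subset_union_right
  refine ⟨by simp, fun A B hAB => ?_, fun x Y => ?_, fun A B => ?_⟩
  · exact Nat.sub_le_sub_right (h.mono _ _ (union_subset_union_left hAB)) _
  · have h1 := h.insert_le x (Y ∪ X)
    have h2 : insert x Y ∪ X = insert x (Y ∪ X) := insert_union x Y X
    simp only [h2]
    omega
  · have h1 := h.submod (A ∪ X) (B ∪ X)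
    have h2 : A ∪ X ∪ (B ∪ X) = A ∪ B ∪ X := by
      ext x; simp only [mem_union]; tauto
    have h3 : (A ∪ X) ∩ (B ∪ X) = A ∩ B ∪ X := by
      ext x; simp only [mem_union, mem_inter]; tauto
    rw [h2, h3] at h1
    have h4 := hX A
    have h5 := hX B
    have h6 := hX (A ∪ B)
    have h7 := hX (A ∩ B)
    omega

theorem loopless_of {p : ℕ} (hY : ∀ Y ⊆ E, Y ≠ E → Y.card ≤ p * r Y) (hE : 2 ≤ E.card) :
    ∀ e ∈ E, 0 < r {e} := by
  intro e he
  have h1 : ({e} : Finset α) ≠ E := by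
    intro h
    rw [← h, card_singleton] at hE
    omega
  have h2 := hY {e} (singleton_subset_iff.mpr he) h1
  rw [card_singleton] at h2
  rcases Nat.eq_zero_or_pos (r {e}) with h0 | h0
  · rw [h0] at h2
    omega
  · exact h0

end Pool.Agent.DT3
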