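import Pool.Agent.DT3.Link
import Pool.Agent.WL.Core
import Pool.Agent.WD.Main

set_option autoImplicit false

namespace Pool.Agent.DT3

open Pool.Agent.H94 Pool.Agent.WD

/-- For a finite matroid `M` of positive rank and a field `K`, the toric ideal of `M` is generated
by its homogeneous elements of degree at most three. -/
theorem main {α : Type*} (K : Type*) [Field K] (M : Matroid α) [M.Finite] [M.RankPos] :
    toricIdeal K M =
      Ideal.span {f | f ∈ toricIdeal K M ∧ ∃ n ≤ 3, f.IsHomogeneous n} := by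
  classical
  obtain ⟨m, hm⟩ : ∃ m : ℕ, M.eRank ≤ (m : ℕ∞) := by
    obtain ⟨B, hB⟩ := M.exists_isBase
    refine ⟨B.ncard, ?_⟩
    rw [← hB.encard_eq_eRank, hB.finite.cast_ncard_eq]
  have hS : ∀ q, 3 ≤ q → WL.S1 (α × ℕ) q m := by
    intro q hq
    obtain ⟨p, rfl⟩ : ∃ p, q = p + 1 := ⟨q - 1, by omega⟩
    exact s1_all (α × ℕ) (by omega) m
  exact toric_of_shareConn M (WL.shareConn_of_S1 (by norm_num) hS hm)

end Pool.Agent.DT3
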