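import Pool.Agent.DT3.AppT
import Pool.Agent.WD.TightOps
import Pool.Agent.WL.Defs

/-!
The property `WL.S1 α (m + 1) k` (`m ≥ 2`, all `k`) from `s1r_any`, `parts_any`.

Let `M`, `A : Fin (m + 1) → Set α`, `x`, `y` be as in `WL.S1`; `M` has finite rank, the bases `A l` are finite.
Let `F₀` be the least `univ`-tight flat containing `x` (`WD.exists_least`, `{x} ⊆ M.E`); `y ∈ F₀` by `Reach`.
`r Y = (M.eRk Y).toNat` for finite sets `Y` (`rkFn`), a `RankFn`.  `A l ∩ F₀` is a basis of `F₀`; `k₀ = |A l ∩ F₀|` is the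
rank of `F₀`.  `E₀ = ((⋃ l, A l) ∩ F₀) ∪ {x}` (a finite set; `Finset`), `|E₀| = (m + 1) k₀ + 1`, `r E₀ = k₀`.
(1) `|Y| ≤ (m + 1) r Y` for `Y ⊆ E₀`, `Y ≠ E₀`: if `x ∉ Y`, `|Y| = ∑ |Y ∩ A l| ≤ (m + 1) r Y`.  If `x ∈ Y` and
`|Y| > (m + 1) r Y`: `|Y \ {x}| = ∑ |Y ∩ A l| ≤ (m + 1) r Y`, so `|Y ∩ A l| = r Y` for all `l`: `G = M.closure Y` is spanned by
`Y ∩ A l ⊆ A l ∩ G` for all `l`, so it is `univ`-tight, and contains `x`; so `F₀ ⊆ G`, `r Y ≥ k₀`,
`|Y| > (m + 1) k₀`, so `Y = E₀`, a contradiction.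
(2) `s1r_any` with `E = E₀`, `c = x`, `d = y`: `T`.  `parts_any` for `E₁ = (E₀ \ T) \ {x}` (`|E₁| = m k₀`, all its subsets
`Y` satisfy `|Y| ≤ m r Y` and `r Y ≤ k₀`): `B : Fin m → Finset α`, disjoint bases of `F₀` with union `E₁`.
(3) `A' 0 = T ∪ (A 0 \ F₀)`, `A' (i.succ) = B i ∪ (A i.succ \ F₀)` (`Fin.cons`).  These are bases (`link_base`): if `I ⊆ F₀` is
independent with `|I| = k₀` then `F₀ ⊆ closure I`, so `I ∪ (A l \ F₀)` spans `A l`, hence is spanning, and it has
`|A l|` elements.  They are disjoint, and `⋃ A' l = ⋃ A l` (`T ∪ ⋃ B i = E₀ \ {x} = (⋃ A l) ∩ F₀`).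
(4) `Reach M A' {0}ᶜ x y`: `y ∈ E₁` (`y ∉ T`, `y ≠ x`), so `y ∈ B i` for some `i`.  Let `F` be `{0}ᶜ`-tight for `A'`,
`x ∈ F`, `y ∉ F`.  `F₀` is `{0}ᶜ`-tight for `A'` (`B i` spans `F₀`), so `F' = F ∩ F₀` is (`WD.tight_sInter`).  Let `ρ` be its
rank; `|A' (i.succ) ∩ F'| = |B i ∩ F| = ρ` for all `i`.  `Y = {x} ∪ ⋃ (B i ∩ F) ⊆ E₀ \ T`, `y ∉ Y`, `|Y| = m ρ + 1`, `Y ⊆ F'`, so
`r Y ≤ ρ`: this contradicts `|Y| ≤ m r Y`.
-/

set_option autoImplicit false

namespace Pool.Agent.DT3

open Set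

/-- The rank function of a matroid on finite sets. -/
noncomputable def rkFn {α : Type*} (M : Matroid α) (Y : Finset α) : ℕ :=
  (M.eRk (Y : Set α)).toNat

private theorem rkFn_coe {α : Type*} (M : Matroid α) (Y : Finset α) :
    ((rkFn M Y : ℕ) : ℕ∞) = M.eRk (Y : Set α) := by
  unfold rkFn
  apply ENat.natCast_toNat
  have h1 := M.eRk_le_encard (Y : Set α)
  have h2 : (Y : Set α).encard ≠ ⊤ := by
    rw [Set.encard_ne_top_iff]
    exact Y.finite_toSet
  exact ne_top_of_le_ne_top h2 h1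

theorem rkFn_rank {α : Type*} [DecidableEq α] (M : Matroid α) : RankFn (rkFn M) := by
  refine ⟨?_, ?_, ?_, ?_⟩
  · unfold rkFn
    simp
  · intro X Y h
    have h1 : ((rkFn M X : ℕ) : ℕ∞) ≤ (rkFn M Y : ℕ) := by
      rw [rkFn_coe, rkFn_coe]
      exact M.eRk_mono (Finset.coe_subset.mpr h)
    exact_mod_cast h1
  · intro x X
    have h1 : ((rkFn M (insert x X) : ℕ) : ℕ∞) ≤ (rkFn M X : ℕ) + 1 := by
      rw [rkFn_coe, rkFn_coe, Finset.coe_insert]
      exact M.eRk_insert_le_add_one x X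
    exact_mod_cast h1
  · intro X Y
    have h1 := M.eRk_inter_add_eRk_union_le (X : Set α) (Y : Set α)
    rw [← Finset.coe_inter, ← Finset.coe_union, ← rkFn_coe, ← rkFn_coe, ← rkFn_coe,
      ← rkFn_coe] at h1
    have h2 : rkFn M (X ∩ Y) + rkFn M (X ∪ Y) ≤ rkFn M X + rkFn M Y := by exact_mod_cast h1
    omega

theorem link_base {α : Type*} {M : Matroid α} [M.RankFinite] {A F I : Set α} (hA : M.IsBase A)
    (hF : M.IsFlat F) (hAF : M.closure (A ∩ F) = F) (hI : M.Indep I) (hIF : I ⊆ F)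
    (hc : I.encard = (A ∩ F).encard) : M.IsBase (I ∪ (A \ F)) := by
  have hAfin : A.Finite := hA.finite
  have hIfin : I.Finite := by
    rw [← encard_ne_top_iff, hc, encard_ne_top_iff]
    exact hAfin.subset inter_subset_left
  have hAFi : M.Indep (A ∩ F) := hA.indep.subset inter_subset_left
  have hIb : M.IsBasis I F := by
    apply hI.isBasis_of_eRk_ge hIfin hIF _ hF.subset_ground
    rw [hI.eRk_eq_encard, hc, ← hAFi.eRk_eq_encard, ← M.eRk_closure_eq (A ∩ F), hAF]
  have hFI : F ⊆ M.closure I := hIb.subset_closure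
  have hsub : A ⊆ M.closure (I ∪ (A \ F)) := by
    intro e he
    by_cases heF : e ∈ F
    · exact M.closure_subset_closure subset_union_left (hFI heF)
    · exact M.mem_closure_of_mem (Or.inr ⟨he, heF⟩)
        (union_subset hI.subset_ground (sdiff_subset.trans hA.subset_ground))
  have hrk : M.eRank ≤ M.eRk (I ∪ (A \ F)) := by
    rw [← hA.eRk_eq_eRank, ← M.eRk_closure_eq (I ∪ (A \ F))]
    exact M.eRk_mono hsub
  have hcard : (I ∪ (A \ F)).encard ≤ M.eRank := by
    rw [← hA.encard_eq_eRank, ← encard_sdiff_add_encard_inter A F]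
    calc _ ≤ I.encard + (A \ F).encard := encard_union_le _ _
      _ = _ := by rw [hc, add_comm]
  have hfinu : (I ∪ (A \ F)).Finite := hIfin.union hAfin.sdiff
  have hind : M.Indep (I ∪ (A \ F)) := by
    rw [Matroid.indep_iff_eRk_eq_encard_of_finite hfinu]
    exact le_antisymm (M.eRk_le_encard _) (hcard.trans hrk)
  exact hind.isBase_of_eRk_ge hfinu hrk

private theorem card_eq_sum_link {α : Type*} [DecidableEq α] {n : ℕ} {C : Fin n → Finset α}
    (hC : ∀ i j, i ≠ j → Disjoint (C i) (C j)) {Y : Finset α}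
    (hY : Y ⊆ Finset.univ.biUnion C) : Y.card = ∑ l, (Y ∩ C l).card := by
  rw [← Finset.card_biUnion]
  · congr 1
    ext e
    rw [Finset.mem_biUnion]
    constructor
    · intro he
      obtain ⟨l, _, hl⟩ := Finset.mem_biUnion.mp (hY he)
      exact ⟨l, Finset.mem_univ _, Finset.mem_inter.mpr ⟨he, hl⟩⟩
    · rintro ⟨l, _, hl⟩
      exact (Finset.mem_inter.mp hl).1
  · intro i _ j _ hij
    exact (hC i j hij).mono Finset.inter_subset_right Finset.inter_subset_right

private theorem card_inter_le_link {α : Type*} [DecidableEq α] {M : Matroid α} {C : Finset α}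
    (hC : M.Indep (C : Set α)) {Z Y : Finset α} (hZY : Z ⊆ Y) :
    (Z ∩ C).card ≤ rkFn M Y := by
  have h1 : ((Z ∩ C).card : ℕ∞) ≤ (rkFn M Y : ℕ) := by
    rw [rkFn_coe, ← Set.encard_coe_eq_coe_finsetCard]
    apply Matroid.Indep.encard_le_eRk_of_subset
    · exact hC.subset (Finset.coe_subset.mpr Finset.inter_subset_right)
    · exact Finset.coe_subset.mpr (Finset.inter_subset_left.trans hZY)
  exact_mod_cast h1

theorem s1_all (α : Type*) {m : ℕ} (hm : 2 ≤ m) (k : ℕ) : WL.S1 α (m + 1) k := by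
  classical
  intro M A x y hM hA hx hxA hr
  have hRF : M.RankFinite := Matroid.eRank_lt_top_iff.mp (lt_of_le_of_lt hM (ENat.natCast_lt_top _))
  obtain ⟨F₀, hT, hxF', hleast⟩ := WD.exists_least hA.1 univ (X := {x})
    (singleton_subset_iff.mpr hx)
  have hxF : x ∈ F₀ := hxF' rfl
  have hyF : y ∈ F₀ := hr.2 F₀ hT hxF
  have hFE : F₀ ⊆ M.E := hT.1.subset_ground
  -- the finsets `C l = A l ∩ F₀`
  have hfin : ∀ l, (A l ∩ F₀).Finite := fun l => (hA.1 l).finite.subset inter_subset_left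
  obtain ⟨C, hC⟩ : ∃ C : Fin (m + 1) → Finset α, ∀ l, (C l : Set α) = A l ∩ F₀ :=
    ⟨fun l => (hfin l).toFinset, fun l => (hfin l).coe_toFinset⟩
  have hCi : ∀ l, M.Indep (C l : Set α) := fun l => by
    rw [hC]
    exact (hA.1 l).indep.subset inter_subset_left
  have hCd : ∀ i j, i ≠ j → Disjoint (C i) (C j) := by
    intro i j hij
    rw [← Finset.disjoint_coe, hC, hC]
    exact (hA.2 hij).mono inter_subset_left inter_subset_left
  obtain ⟨k₀, hk₀⟩ : ∃ k₀ : ℕ, (k₀ : ℕ∞) = M.eRk F₀ := by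
    refine ⟨(C 0).card, ?_⟩
    rw [← Set.encard_coe_eq_coe_finsetCard, ← (hCi 0).eRk_eq_encard, hC,
      ← M.eRk_closure_eq (A 0 ∩ F₀), hT.2 0 (mem_univ _)]
  have hCc : ∀ l, (C l).card = k₀ := by
    intro l
    have h1 : ((C l).card : ℕ∞) = k₀ := by
      rw [hk₀, ← Set.encard_coe_eq_coe_finsetCard, ← (hCi l).eRk_eq_encard, hC,
        ← M.eRk_closure_eq (A l ∩ F₀), hT.2 l (mem_univ _)]
    exact_mod_cast h1
  obtain ⟨U, hU⟩ : ∃ U : Finset α, U = Finset.univ.biUnion C := ⟨_, rfl⟩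
  have hUmem : ∀ e, e ∈ U ↔ ∃ l, e ∈ A l ∧ e ∈ F₀ := by
    intro e
    rw [hU, Finset.mem_biUnion]
    constructor
    · rintro ⟨l, _, hl⟩
      have h1 : e ∈ (C l : Set α) := hl
      rw [hC] at h1
      exact ⟨l, h1.1, h1.2⟩
    · rintro ⟨l, h1, h2⟩
      refine ⟨l, Finset.mem_univ _, ?_⟩
      have h3 : e ∈ (C l : Set α) := by
        rw [hC]
        exact ⟨h1, h2⟩
      exact h3
  have hUcard : U.card = (m + 1) * k₀ := by
    rw [hU, Finset.card_biUnion]
    · rw [Finset.sum_congr rfl (fun l _ => hCc l)]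
      simp
    · intro i _ j _ hij
      exact hCd i j hij
  have hxU : x ∉ U := by
    intro h
    obtain ⟨l, h1, _⟩ := (hUmem x).mp h
    exact hxA l h1
  obtain ⟨E₀, hE₀⟩ : ∃ E₀ : Finset α, E₀ = insert x U := ⟨_, rfl⟩
  have hE₀card : E₀.card = (m + 1) * k₀ + 1 := by
    rw [hE₀, Finset.card_insert_of_notMem hxU, hUcard]
  have hE₀F : (E₀ : Set α) ⊆ F₀ := by
    intro e he
    have he' : e ∈ insert x U := by
      rw [← hE₀]
      exact he
    rcases Finset.mem_insert.mp he' with h | h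
    · rw [h]
      exact hxF
    · obtain ⟨l, _, h2⟩ := (hUmem e).mp h
      exact h2
  have hrle : ∀ Y : Finset α, (Y : Set α) ⊆ F₀ → rkFn M Y ≤ k₀ := by
    intro Y hY
    have h1 : ((rkFn M Y : ℕ) : ℕ∞) ≤ k₀ := by
      rw [rkFn_coe, hk₀]
      exact M.eRk_mono hY
    exact_mod_cast h1
  have hCU : ∀ l, C l ⊆ U := by
    intro l
    rw [hU]
    exact Finset.subset_biUnion_of_mem C (Finset.mem_univ l)
  have hUE : U ⊆ E₀ := by
    rw [hE₀]
    exact Finset.subset_insert _ _
  have hrE₀ : rkFn M E₀ = k₀ := by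
    apply le_antisymm (hrle E₀ hE₀F)
    have h1 := card_inter_le_link (hCi 0) ((hCU 0).trans hUE)
    rw [Finset.inter_self, hCc] at h1
    exact h1
  -- Step (1)
  have hsum : ∀ Y ⊆ U, ∀ Z, Y ⊆ Z → Y.card ≤ (m + 1) * rkFn M Z := by
    intro Y hY Z hZ
    rw [card_eq_sum_link hCd (hU ▸ hY)]
    calc ∑ l, (Y ∩ C l).card ≤ ∑ _l : Fin (m + 1), rkFn M Z :=
          Finset.sum_le_sum fun l _ => card_inter_le_link (hCi l) hZ
      _ = (m + 1) * rkFn M Z := by simp
  have h1 : ∀ Y ⊆ E₀, Y ≠ E₀ → Y.card ≤ (m + 1) * rkFn M Y := by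
    intro Y hY hne
    by_cases hxY : x ∈ Y
    · by_contra hlt
      rw [not_le] at hlt
      have hY' : Y.erase x ⊆ U := by
        intro e he
        obtain ⟨h1, h2⟩ := Finset.mem_erase.mp he
        have h3 := hY h2
        rw [hE₀] at h3
        exact (Finset.mem_insert.mp h3).resolve_left h1
      have hc' : (Y.erase x).card + 1 = Y.card := Finset.card_erase_add_one hxY
      have hle := hsum _ hY' Y (Finset.erase_subset _ _)
      have heq : (Y.erase x).card = (m + 1) * rkFn M Y := by omega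
      have heach : ∀ l, (Y.erase x ∩ C l).card = rkFn M Y := by
        rw [card_eq_sum_link hCd (hU ▸ hY')] at heq
        have h2 : ∑ l, (Y.erase x ∩ C l).card = ∑ _l : Fin (m + 1), rkFn M Y := by
          rw [heq]
          simp
        have h3 := (Finset.sum_eq_sum_iff_of_le (fun l _ =>
          card_inter_le_link (hCi l) (Finset.erase_subset x Y))).mp h2
        exact fun l => h3 l (Finset.mem_univ l)
      have hYE : (Y : Set α) ⊆ M.E :=
        (Finset.coe_subset.mpr hY).trans (hE₀F.trans hFE)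
      have htight : WD.Tight M A univ (M.closure (Y : Set α)) := by
        refine ⟨M.isFlat_closure _, fun l _ => ?_⟩
        apply Subset.antisymm
        · have h := M.closure_subset_closure
            (inter_subset_right (s := A l) (t := M.closure (Y : Set α)))
          rwa [M.closure_closure] at h
        · apply M.closure_subset_closure_of_subset_closure
          have hind : M.Indep ((Y.erase x ∩ C l : Finset α) : Set α) :=
            (hCi l).subset (Finset.coe_subset.mpr Finset.inter_subset_right)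
          have hsubY : ((Y.erase x ∩ C l : Finset α) : Set α) ⊆ (Y : Set α) :=
            Finset.coe_subset.mpr (Finset.inter_subset_left.trans (Finset.erase_subset _ _))
          have hbas : M.IsBasis ((Y.erase x ∩ C l : Finset α) : Set α) (Y : Set α) := by
            apply hind.isBasis_of_eRk_ge (Finset.finite_toSet _) hsubY _ hYE
            rw [hind.eRk_eq_encard, Set.encard_coe_eq_coe_finsetCard, heach, rkFn_coe]
          apply hbas.subset_closure.trans
          apply M.closure_subset_closure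
          apply subset_inter
          · intro e he
            have he' : e ∈ (C l : Set α) := (Finset.mem_inter.mp he).2
            rw [hC] at he'
            exact he'.1
          · exact hsubY.trans (M.subset_closure _ hYE)
      have hFG : F₀ ⊆ M.closure (Y : Set α) := by
        apply hleast _ htight
        rw [singleton_subset_iff]
        exact M.mem_closure_of_mem (Finset.mem_coe.mpr hxY) hYE
      have hk' : k₀ ≤ rkFn M Y := by
        have h2 : ((k₀ : ℕ) : ℕ∞) ≤ (rkFn M Y : ℕ) := by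
          rw [rkFn_coe, hk₀, ← M.eRk_closure_eq (Y : Set α)]
          exact M.eRk_mono hFG
        exact_mod_cast h2
      apply hne
      apply Finset.eq_of_subset_of_card_le hY
      rw [hE₀card]
      have h3 : (m + 1) * k₀ ≤ (m + 1) * rkFn M Y := Nat.mul_le_mul_left _ hk'
      omega
    · apply hsum Y _ Y Finset.Subset.rfl
      intro e he
      have h3 := hY he
      rw [hE₀] at h3
      rcases Finset.mem_insert.mp h3 with h | h
      · exact absurd (h ▸ he) hxY
      · exact h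
  -- Step (2)
  obtain ⟨l₀, _, hl₀⟩ := hr.1
  have hyU : y ∈ U := (hUmem y).mpr ⟨l₀, hl₀, hyF⟩
  have hxy : x ≠ y := fun h => hxA l₀ (h ▸ hl₀)
  have hxE : x ∈ E₀ := by
    rw [hE₀]
    exact Finset.mem_insert_self _ _
  obtain ⟨T, hTE, hxT, hyT, hTc, hTr, hTx, hTy⟩ := s1r_any (rkFn_rank M) hm
    (by rw [hrE₀]; exact hE₀card) h1 hxE (hUE hyU) hxy
  rw [hrE₀] at hTc hTr
  obtain ⟨E₁, hE₁⟩ : ∃ E₁ : Finset α, E₁ = (E₀ \ T).erase x := ⟨_, rfl⟩
  have hE₁sub : E₁ ⊆ E₀ \ T := by
    rw [hE₁]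
    exact Finset.erase_subset _ _
  have hE₁U : E₁ ⊆ U := by
    intro e he
    rw [hE₁] at he
    obtain ⟨h2, h3⟩ := Finset.mem_erase.mp he
    have h4 := (Finset.mem_sdiff.mp h3).1
    rw [hE₀] at h4
    exact (Finset.mem_insert.mp h4).resolve_left h2
  have hTU : T ⊆ U := by
    intro e he
    have h4 := hTE he
    rw [hE₀] at h4
    rcases Finset.mem_insert.mp h4 with h | h
    · exact absurd (h ▸ he) hxT
    · exact h
  have hE₁card : E₁.card = m * k₀ := by
    have h2 : ((E₀ \ T).erase x).card + 1 = (E₀ \ T).card :=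
      Finset.card_erase_add_one (Finset.mem_sdiff.mpr ⟨hxE, hxT⟩)
    have h3 := Finset.card_sdiff_add_card_eq_card hTE
    rw [← hE₁] at h2
    rw [hE₀card, hTc] at h3
    have h4 : (m + 1) * k₀ = m * k₀ + k₀ := by ring
    omega
  obtain ⟨B, hBE, hBc, hBd, hBcov⟩ := parts_any (rkFn_rank M) (k := k₀) (m := m) E₁ hE₁card
    (fun Y hY => hTx Y (hY.trans hE₁sub) (fun h => by
      have h2 := hY h
      rw [hE₁] at h2
      exact (Finset.mem_erase.mp h2).1 rfl))
    (fun Y hY => hrle Y ((Finset.coe_subset.mpr (hY.trans (hE₁U.trans hUE))).trans hE₀F))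
  -- Step (3)
  obtain ⟨D, hD⟩ : ∃ D : Fin (m + 1) → Finset α, D = Fin.cons T B := ⟨_, rfl⟩
  have hD0 : D 0 = T := by
    rw [hD, Fin.cons_zero]
  have hDs : ∀ i : Fin m, D i.succ = B i := by
    intro i
    rw [hD, Fin.cons_succ]
  have hDU : ∀ l, D l ⊆ U := by
    intro l
    refine Fin.cases ?_ (fun i => ?_) l
    · rw [hD0]
      exact hTU
    · rw [hDs]
      exact (hBE i).trans hE₁U
  have hDF : ∀ l, (D l : Set α) ⊆ F₀ := fun l =>
    (Finset.coe_subset.mpr ((hDU l).trans hUE)).trans hE₀F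
  have hDc : ∀ l, (D l).card = k₀ ∧ rkFn M (D l) = k₀ := by
    intro l
    refine Fin.cases ?_ (fun i => ?_) l
    · rw [hD0]
      exact ⟨hTc, hTr⟩
    · rw [hDs]
      exact hBc i
  have hTB : ∀ i, Disjoint T (B i) := by
    intro i
    rw [Finset.disjoint_left]
    intro e he1 he2
    exact (Finset.mem_sdiff.mp (hE₁sub (hBE i he2))).2 he1
  have hDd : ∀ i j, i ≠ j → Disjoint (D i) (D j) := by
    intro i
    refine Fin.cases ?_ (fun i' => ?_) i
    · intro j
      refine Fin.cases ?_ (fun j' => ?_) j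
      · intro h
        exact absurd rfl h
      · intro _
        rw [hD0, hDs]
        exact hTB j'
    · intro j
      refine Fin.cases ?_ (fun j' => ?_) j
      · intro _
        rw [hD0, hDs]
        exact (hTB i').symm
      · intro h
        rw [hDs, hDs]
        exact hBd i' j' (fun h2 => h (by rw [h2]))
  have hDcov : ∀ e ∈ U, ∃ l, e ∈ D l := by
    intro e he
    by_cases heT : e ∈ T
    · exact ⟨0, by rw [hD0]; exact heT⟩
    · have h2 : e ∈ E₁ := by
        rw [hE₁]
        refine Finset.mem_erase.mpr ⟨fun h => hxU (h ▸ he), Finset.mem_sdiff.mpr ⟨hUE he, heT⟩⟩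
      obtain ⟨i, hi⟩ := hBcov e h2
      exact ⟨i.succ, by rw [hDs]; exact hi⟩
  have hDi : ∀ l, M.Indep (D l : Set α) := by
    intro l
    rw [Matroid.indep_iff_eRk_eq_encard_of_finite (Finset.finite_toSet _), ← rkFn_coe,
      Set.encard_coe_eq_coe_finsetCard, (hDc l).1, (hDc l).2]
  have hbase : ∀ l, M.IsBase ((D l : Set α) ∪ (A l \ F₀)) := by
    intro l
    apply link_base (hA.1 l) hT.1 (hT.2 l (mem_univ _)) (hDi l) (hDF l)
    rw [← hC, Set.encard_coe_eq_coe_finsetCard, Set.encard_coe_eq_coe_finsetCard, (hDc l).1,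
      hCc]
  have hDb : ∀ l, M.closure (D l : Set α) = F₀ := by
    intro l
    have h2 : M.IsBasis (D l : Set α) F₀ := by
      apply (hDi l).isBasis_of_eRk_ge (Finset.finite_toSet _) (hDF l) _ hFE
      rw [(hDi l).eRk_eq_encard, Set.encard_coe_eq_coe_finsetCard, (hDc l).1, hk₀]
    apply Subset.antisymm _ h2.subset_closure
    have h3 := M.closure_subset_closure (hDF l)
    rwa [hT.1.closure] at h3
  have hfam : WD.IsFam M (fun l => (D l : Set α) ∪ (A l \ F₀)) := by
    refine ⟨hbase, ?_⟩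
    intro i j hij
    simp only [Function.onFun]
    rw [Set.disjoint_left]
    intro e he1 he2
    rcases he1 with h2 | h2 <;> rcases he2 with h3 | h3
    · exact Finset.disjoint_left.mp (hDd i j hij) h2 h3
    · exact h3.2 (hDF i h2)
    · exact h2.2 (hDF j h3)
    · exact Set.disjoint_left.mp (hA.2 hij) h2.1 h3.1
  have hinter : ∀ l, ((D l : Set α) ∪ (A l \ F₀)) ∩ F₀ = (D l : Set α) := by
    intro l
    ext e
    constructor
    · rintro ⟨h2 | h2, h3⟩
      · exact h2
      · exact absurd h3 h2.2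
    · intro h2
      exact ⟨Or.inl h2, hDF l h2⟩
  refine ⟨fun l => (D l : Set α) ∪ (A l \ F₀), 0, hfam, ?_, ?_, ?_⟩
  · ext e
    rw [mem_iUnion, mem_iUnion]
    constructor
    · rintro ⟨l, h2 | h2⟩
      · obtain ⟨l', h3, _⟩ := (hUmem e).mp (hDU l h2)
        exact ⟨l', h3⟩
      · exact ⟨l, h2.1⟩
    · rintro ⟨l, h2⟩
      by_cases h3 : e ∈ F₀
      · obtain ⟨l', h4⟩ := hDcov e ((hUmem e).mpr ⟨l, h2, h3⟩)
        exact ⟨l', Or.inl h4⟩
      · exact ⟨l, Or.inr ⟨h2, h3⟩⟩
  · -- Step (4), first part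
    obtain ⟨l', h4⟩ := hDcov y hyU
    refine ⟨l', ?_, Or.inl h4⟩
    intro h
    rw [mem_singleton_iff.mp h, hD0] at h4
    exact hyT h4
  · intro F hF hxF1
    by_contra hyF1
    have hF₀t : WD.Tight M (fun l => (D l : Set α) ∪ (A l \ F₀)) {0}ᶜ F₀ := by
      refine ⟨hT.1, fun l _ => ?_⟩
      beta_reduce
      rw [hinter, hDb]
    have hF't := WD.tight_sInter (J := ({0}ᶜ : Set (Fin (m + 1)))) hbase (Fs := {F, F₀})
      ⟨F, Or.inl rfl⟩ (by
        rintro G (hG | hG)
        · rw [hG]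
          exact hF
        · rw [mem_singleton_iff.mp hG]
          exact hF₀t)
    rw [sInter_pair] at hF't
    obtain ⟨B', hB'⟩ : ∃ B' : Fin m → Finset α, B' = fun i => (B i).filter fun e => e ∈ F :=
      ⟨_, rfl⟩
    have hB's : ∀ i, (B' i : Set α) = (D i.succ : Set α) ∩ F := by
      intro i
      rw [hB', hDs]
      ext e
      simp
    have hBi' : ∀ i, M.Indep (B' i : Set α) := by
      intro i
      rw [hB's]
      exact (hDi _).subset inter_subset_left
    have hBr : ∀ i, M.eRk (F ∩ F₀) = (B' i).card := by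
      intro i
      have h2 := hF't.2 i.succ (by
        intro h
        exact absurd (mem_singleton_iff.mp h) (Fin.succ_ne_zero i))
      beta_reduce at h2
      have h3 : ((D i.succ : Set α) ∪ (A i.succ \ F₀)) ∩ (F ∩ F₀) = (B' i : Set α) := by
        rw [hB's, inter_comm F F₀, ← inter_assoc, hinter]
      rw [h3] at h2
      rw [← Set.encard_coe_eq_coe_finsetCard, ← (hBi' i).eRk_eq_encard,
        ← M.eRk_closure_eq (B' i : Set α), h2]
    have hB'B : ∀ i, B' i ⊆ B i := by
      intro i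
      rw [hB']
      exact Finset.filter_subset _ _
    obtain ⟨V, hV⟩ : ∃ V : Finset α, V = Finset.univ.biUnion B' := ⟨_, rfl⟩
    have hVE : V ⊆ E₁ := by
      rw [hV]
      intro e he
      obtain ⟨i, _, hi⟩ := Finset.mem_biUnion.mp he
      exact hBE i (hB'B i hi)
    have hxV : x ∉ V := fun h => hxU (hE₁U (hVE h))
    have hVcard : V.card = ∑ i, (B' i).card := by
      rw [hV, Finset.card_biUnion]
      intro i _ j _ hij
      exact (hBd i j hij).mono (hB'B i) (hB'B j)
    have hVF : ∀ e ∈ V, e ∈ F := by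
      intro e he
      rw [hV] at he
      obtain ⟨i, _, hi⟩ := Finset.mem_biUnion.mp he
      rw [hB'] at hi
      exact (Finset.mem_filter.mp hi).2
    have hYF : ((insert x V : Finset α) : Set α) ⊆ F ∩ F₀ := by
      intro e he
      rcases Finset.mem_insert.mp he with h | h
      · rw [h]
        exact ⟨hxF1, hxF⟩
      · exact ⟨hVF e h, hE₀F (hUE (hE₁U (hVE h)))⟩
    have hYr : ∀ i, rkFn M (insert x V) ≤ (B' i).card := by
      intro i
      have h2 : ((rkFn M (insert x V) : ℕ) : ℕ∞) ≤ ((B' i).card : ℕ) := by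
        rw [rkFn_coe, ← hBr i]
        exact M.eRk_mono hYF
      exact_mod_cast h2
    have hYcard : (insert x V).card = ∑ i, (B' i).card + 1 := by
      rw [Finset.card_insert_of_notMem hxV, hVcard]
    have hYle := hTy (insert x V) (by
        intro e he
        rcases Finset.mem_insert.mp he with h | h
        · rw [h]
          exact Finset.mem_sdiff.mpr ⟨hxE, hxT⟩
        · exact hE₁sub (hVE h))
      (by
        intro h
        rcases Finset.mem_insert.mp h with h' | h'
        · exact hxy h'.symm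
        · exact hyF1 (hVF y h'))
    have hfinal : m * rkFn M (insert x V) ≤ ∑ i, (B' i).card := by
      calc m * rkFn M (insert x V) = ∑ _i : Fin m, rkFn M (insert x V) := by simp
        _ ≤ _ := Finset.sum_le_sum fun i _ => hYr i
    omega

end Pool.Agent.DT3
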