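import Pool.Agent.DT3.Ch

/-!
The acyclic carrier lemma (existence of chain maps and of homotopies in one statement).

`CC` is a family of finite sets `C : Finset β`, closed downwards.  For every non-empty `C ∈ CC` a
simplicial complex `K C` is given, `K C' ⊆ K C` for `∅ ≠ C' ⊆ C`.  Given: `u₀` (the value at `∅`),
chains `τ C` of size `|C| - 1 + j` in `K C` with `bd (τ C) = ∑_{F ∈ C} τ (C - F)`, and `bd u₀ = τ ∅`.  If
`K C` is acyclic in degree `|C| - 1 + j` for all non-empty `C ∈ CC` then there are chains `u C` of size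
`|C| + j` in `K C`, `u ∅ = u₀`, `bd (u C) = ∑_{F ∈ C} u (C - F) + τ C`.

Proof.  Construct `u C` by recursion on `|C|` (strong recursion on `C`, or: prove by induction on `k` that
there is a `u` with the properties for all `C` with `|C| ≤ k`, extending; then take `k` large.
`CC` may be infinite, so it is convenient to define `u` by well-founded recursion on `C.card` with
`Classical.choose` of a chain with the right support and boundary).
For non-empty `C ∈ CC` put `R = ∑_{F ∈ C} u (C - F) + τ C`.  It is a chain of size `|C| - 1 + j`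
in `K C` (`K (C - F) ⊆ K C`; if `C = {F}` the term is `u₀`, which is a chain in `K C` by hypothesis).
Its boundary (everywhere) is
`∑_{F ∈ C} (∑_{F' ∈ C - F} u (C - F - F') + τ (C - F)) + ∑_{F ∈ C} τ (C - F) = 0`: the double sum vanishes
modulo 2 by symmetry in `(F, F')`.  (For `C = {F}`: `bd u₀ + bd (τ C) = τ ∅ + τ ∅ = 0`.)
By `Acyc` there is `b` in `K C`, of size `|C| + j`, with `bd b T = R T` for `T ∈ K C`; for `T ∉ K C` both
sides are zero because `K C` is a simplicial complex.  Put `u C = b`.
-/

set_option autoImplicit false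

namespace Pool.Agent.DT3

open Finset

variable {α : Type*} [Fintype α] [DecidableEq α] {β : Type*} [DecidableEq β]

/-- The recursive choice of the carrier chains. -/
private noncomputable def carU (K : Finset β → Set (Finset α)) (j : ℤ)
    (τ : Finset β → Finset α → ZMod 2) (u₀ : Finset α → ZMod 2) (C : Finset β) :
    Finset α → ZMod 2 :=
  open Classical in
  if C = ∅ then u₀ else
    if h : ∃ b : Finset α → ZMod 2, Supp (K C) (C.card + j) b ∧
        ∀ T, bd b T = ∑ F ∈ C.attach, carU K j τ u₀ (C.erase F.1) T + τ C T then h.choose else 0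
termination_by C.card
decreasing_by all_goals exact Finset.card_erase_lt_of_mem F.2

private theorem carU_empty (K : Finset β → Set (Finset α)) (j : ℤ)
    (τ : Finset β → Finset α → ZMod 2) (u₀ : Finset α → ZMod 2) : carU K j τ u₀ ∅ = u₀ := by
  rw [carU]; simp

private theorem carU_spec (K : Finset β → Set (Finset α)) (j : ℤ)
    (τ : Finset β → Finset α → ZMod 2) (u₀ : Finset α → ZMod 2) (C : Finset β) (hC : C.Nonempty)
    (h : ∃ b : Finset α → ZMod 2, Supp (K C) (C.card + j) b ∧
        ∀ T, bd b T = ∑ F ∈ C, carU K j τ u₀ (C.erase F) T + τ C T) :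
    Supp (K C) (C.card + j) (carU K j τ u₀ C) ∧
        ∀ T, bd (carU K j τ u₀ C) T = ∑ F ∈ C, carU K j τ u₀ (C.erase F) T + τ C T := by
  have h' : ∃ b : Finset α → ZMod 2, Supp (K C) (C.card + j) b ∧
        ∀ T, bd b T = ∑ F ∈ C.attach, carU K j τ u₀ (C.erase F.1) T + τ C T := by
    obtain ⟨b, hb, hb'⟩ := h
    refine ⟨b, hb, fun T => ?_⟩
    rw [hb' T, ← Finset.sum_attach C (fun F => carU K j τ u₀ (C.erase F) T)]
  have e : carU K j τ u₀ C = h'.choose := by
    rw [carU, if_neg hC.ne_empty, dif_pos h']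
  refine ⟨e ▸ h'.choose_spec.1, fun T => ?_⟩
  rw [← Finset.sum_attach C (fun F => carU K j τ u₀ (C.erase F) T), e]
  exact h'.choose_spec.2 T

private theorem sum_sym (C : Finset β) (g : β → β → ZMod 2) (hg : ∀ a b, g a b = g b a) :
    ∑ F ∈ C, ∑ F' ∈ C.erase F, g F F' = 0 := by
  rw [Finset.sum_sigma']
  refine Finset.sum_involution (fun x _ => ⟨x.2, x.1⟩) ?_ ?_ ?_ ?_
  · intro a _
    change g a.1 a.2 + g a.2 a.1 = 0
    rw [hg a.2 a.1]; exact CharTwo.add_self_eq_zero _
  · intro a ha _ h
    rw [Finset.mem_sigma, Finset.mem_erase] at ha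
    have : a.2 = a.1 := congrArg Sigma.fst h
    exact ha.2.1 this
  · intro a ha
    rw [Finset.mem_sigma, Finset.mem_erase] at ha ⊢
    exact ⟨ha.2.2, ha.2.1.symm, ha.1⟩
  · intro a _
    rfl

theorem carrier (CC : Set (Finset β)) (hCC : ∀ C ∈ CC, ∀ C' ⊆ C, C' ∈ CC)
    (K : Finset β → Set (Finset α)) (hK : ∀ C ∈ CC, C.Nonempty → Cpx (K C))
    (hmono : ∀ C ∈ CC, ∀ C' ⊆ C, C'.Nonempty → K C' ⊆ K C) (j : ℤ)
    (τ : Finset β → Finset α → ZMod 2) (u₀ : Finset α → ZMod 2)
    (hτ : ∀ C ∈ CC, C.Nonempty → Supp (K C) (C.card - 1 + j) (τ C))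
    (hτb : ∀ C ∈ CC, C.Nonempty → ∀ T, bd (τ C) T = ∑ F ∈ C, τ (C.erase F) T)
    (hu₀ : ∀ C ∈ CC, C.Nonempty → Supp (K C) j u₀) (hu₀b : ∀ T, bd u₀ T = τ ∅ T)
    (hac : ∀ C ∈ CC, C.Nonempty → Acyc (K C) (C.card - 1 + j)) :
    ∃ u : Finset β → Finset α → ZMod 2, u ∅ = u₀ ∧
      (∀ C ∈ CC, C.Nonempty → Supp (K C) (C.card + j) (u C)) ∧
      ∀ C ∈ CC, C.Nonempty → ∀ T, bd (u C) T = ∑ F ∈ C, u (C.erase F) T + τ C T := by
  refine ⟨carU K j τ u₀, carU_empty K j τ u₀, ?_⟩
  set u := carU K j τ u₀ with hu
  have hu0 : u ∅ = u₀ := carU_empty K j τ u₀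
  have key : ∀ C : Finset β, C ∈ CC → C.Nonempty → Supp (K C) (C.card + j) (u C) ∧
      ∀ T, bd (u C) T = ∑ F ∈ C, u (C.erase F) T + τ C T := by
    intro C
    induction C using Finset.strongInduction with
    | H C ih =>
      intro hC hCne
      refine carU_spec K j τ u₀ C hCne ?_
      rw [← hu]
      -- facts on the faces
      have hsub : ∀ F ∈ C, C.erase F ∈ CC := fun F _ => hCC C hC _ (Finset.erase_subset _ _)
      have hss : ∀ F ∈ C, C.erase F ⊂ C := fun F hF => Finset.erase_ssubset hF
      have hR1 : Supp (K C) (C.card - 1 + j) (fun T => ∑ F ∈ C, u (C.erase F) T + τ C T) := by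
        intro T hT
        by_cases h1 : τ C T = 0
        · have hT' : ∑ F ∈ C, u (C.erase F) T ≠ 0 := by
            simpa [h1] using hT
          obtain ⟨F, hF, hFT⟩ := Finset.exists_ne_zero_of_sum_ne_zero hT'
          have hcard : ((C.erase F).card : ℤ) = C.card - 1 := by
            rw [Finset.card_erase_of_mem hF, Nat.cast_sub hCne.card_pos]; simp
          rcases (C.erase F).eq_empty_or_nonempty with he | hne
          · rw [he, hu0] at hFT
            have h2 := hu₀ C hC hCne T hFT
            rw [he] at hcard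
            simp only [Finset.card_empty, Nat.cast_zero] at hcard
            refine ⟨h2.1, ?_⟩
            rw [h2.2]; omega
          · have h2 := (ih _ (hss F hF) (hsub F hF) hne).1 T hFT
            refine ⟨hmono C hC _ (Finset.erase_subset _ _) hne h2.1, ?_⟩
            rw [h2.2, hcard]
        · exact hτ C hC hCne T h1
      have hR2 : ∀ S, bd (fun T => ∑ F ∈ C, u (C.erase F) T + τ C T) S = 0 := by
        intro S
        have e1 : bd (fun T => ∑ F ∈ C, u (C.erase F) T + τ C T) S
            = ∑ F ∈ C, bd (u (C.erase F)) S + ∑ F ∈ C, τ (C.erase F) S := by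
          have := bd_add (fun T => ∑ F ∈ C, u (C.erase F) T) (τ C) S
          rw [bd_sum, hτb C hC hCne S] at this
          exact this
        rw [e1, ← Finset.sum_add_distrib]
        have e2 : ∀ F ∈ C, bd (u (C.erase F)) S + τ (C.erase F) S
            = ∑ F' ∈ C.erase F, u ((C.erase F).erase F') S := by
          intro F hF
          rcases (C.erase F).eq_empty_or_nonempty with he | hne
          · rw [he, hu0, hu₀b S, Finset.sum_empty]
            exact CharTwo.add_self_eq_zero _
          · rw [(ih _ (hss F hF) (hsub F hF) hne).2 S, add_assoc, CharTwo.add_self_eq_zero, add_zero]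
        rw [Finset.sum_congr rfl e2]
        exact sum_sym C (fun F F' => u ((C.erase F).erase F') S) fun a b => by
          simp only [Finset.erase_right_comm]
      obtain ⟨b, hb1, hb2⟩ := hac C hC hCne _ hR1 (fun S _ => hR2 S)
      refine ⟨b, ?_, ?_⟩
      · have : (C.card : ℤ) - 1 + j + 1 = C.card + j := by ring
        rw [← this]; exact hb1
      · intro T
        by_cases hT : T ∈ K C
        · exact hb2 T hT
        · have h0 : ∑ F ∈ C, u (C.erase F) T + τ C T = 0 := by
            by_contra hne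
            exact hT (hR1 T hne).1
          rw [h0]
          refine Finset.sum_eq_zero fun x _ => ?_
          by_contra hne
          exact hT (hK C hC hCne _ (hb1 _ hne).1 _ (Finset.subset_insert _ _))
  exact ⟨fun C hC hne => (key C hC hne).1, fun C hC hne => (key C hC hne).2⟩

end Pool.Agent.DT3
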