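import Pool.Agent.DT3.HFlat

/-!
(C) The count of the vertex map is `1`.  `v F ∈ E \ F` for every proper flat `F`, no loops, `f = r E`.

* Uniqueness.  Let `C` be a complete flag on which `v` is injective with `Trv r E C (C.image v)`;
  `T = C.image v`.  For `F ∈ C`: `T ∩ F` has `r F` elements; an element `v F'` of `T`, `F' ∈ C`, with `F ⊆ F'` is
  not in `F' ⊇ F`.  So `T ∩ F ⊆ {v F' | F' ∈ C, r F' < r F}`, a set with at most `r F` elements; so there is
  equality: `v F' ∈ F` for all `F' ∈ C` with `r F' < r F`.  (*)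
  So if `F', F ∈ C` have ranks `i`, `i + 1` then `F' ⊆ F`, `v F' ∈ F`, `F = clo (insert (v F') F')`
  (`flat_cover`).  Therefore two such flags have the same member of rank `i` for all `i < f`, by
  induction on `i` (rank `0`: `∅`, `rank_zero_flat`; the flags have members of all ranks `< f`,
  `ff_exists`).
* Existence.  Define `G 0 = ∅`, `G (i + 1) = clo (insert (v (G i)) (G i))`; for `i < f` `G i` is a proper
  flat of rank `i` (`flat_cover`), `G i ⊆ G (i + 1)`, `v (G i) ∈ G (i + 1)`; put `C = {G i | i < f}`.  It is in `PF r E`,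
  has `f` members.  `v (G i) ∈ G j` iff `i < j` (for `i, j < f`; if `j ≤ i` then `v (G i) ∉ G i ⊇ G j`), so `v` is
  injective on `C`, and `|T ∩ G j| = j`.
-/

set_option autoImplicit false

namespace Pool.Agent.DT3

open Finset

variable {α : Type*} [DecidableEq α] {r : Finset α → ℕ} {E : Finset α}

/-- The flag of the vertex map. -/
private def HOne_G (r : Finset α → ℕ) (E : Finset α) (v : Finset α → α) : ℕ → Finset α
  | 0 => ∅
  | i + 1 => clo r E (insert (v (HOne_G r E v i)) (HOne_G r E v i))

private theorem HOne_flat (h : RankFn r) (hl : ∀ e ∈ E, 0 < r {e}) (v : Finset α → α)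
    (hv : ∀ F, IsFlat r E F → F ≠ E → v F ∈ E \ F) :
    ∀ i, i ≤ r E → IsFlat r E (HOne_G r E v i) ∧ r (HOne_G r E v i) = i := by
  intro i
  induction i with
  | zero => intro _; exact ⟨empty_flat h hl, h.empty⟩
  | succ i ih =>
    intro hi
    obtain ⟨h1, h2⟩ := ih (by omega)
    have hne : HOne_G r E v i ≠ E := by
      intro he
      rw [he] at h2
      omega
    have h3 := hv _ h1 hne
    have h4 := (flat_cover h h1 h3).1
    refine ⟨clo_flat h (insert_subset (mem_sdiff.1 h3).1 h1.1), ?_⟩
    show r (clo r E (insert (v (HOne_G r E v i)) (HOne_G r E v i))) = i + 1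
    rw [h4, h2]

private theorem HOne_step (h : RankFn r) (hl : ∀ e ∈ E, 0 < r {e}) (v : Finset α → α)
    (hv : ∀ F, IsFlat r E F → F ≠ E → v F ∈ E \ F) (i : ℕ) (hi : i < r E) :
    v (HOne_G r E v i) ∈ E \ HOne_G r E v i ∧
    insert (v (HOne_G r E v i)) (HOne_G r E v i) ⊆ HOne_G r E v (i + 1) := by
  obtain ⟨h1, h2⟩ := HOne_flat h hl v hv i hi.le
  have hne : HOne_G r E v i ≠ E := by
    intro he
    rw [he] at h2
    omega
  have h3 := hv _ h1 hne
  exact ⟨h3, subset_clo (insert_subset (mem_sdiff.1 h3).1 h1.1)⟩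

private theorem HOne_mono (h : RankFn r) (hl : ∀ e ∈ E, 0 < r {e}) (v : Finset α → α)
    (hv : ∀ F, IsFlat r E F → F ≠ E → v F ∈ E \ F) (i : ℕ) :
    ∀ j, i ≤ j → j ≤ r E → HOne_G r E v i ⊆ HOne_G r E v j := by
  intro j hij
  induction j, hij using Nat.le_induction with
  | base => intro _; exact Subset.refl _
  | succ j hij ih =>
    intro hj
    have h1 := (HOne_step h hl v hv j (by omega)).2
    exact (ih (by omega)).trans ((subset_insert _ _).trans h1)

private theorem HOne_lt (h : RankFn r) (hl : ∀ e ∈ E, 0 < r {e}) (v : Finset α → α)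
    (hv : ∀ F, IsFlat r E F → F ≠ E → v F ∈ E \ F) {i j : ℕ} (hi : i < r E) (hj : j < r E) :
    v (HOne_G r E v i) ∈ HOne_G r E v j ↔ i < j := by
  constructor
  · intro hm
    by_contra hn
    exact (mem_sdiff.1 (HOne_step h hl v hv i hi).1).2
      (HOne_mono h hl v hv j i (by omega) hi.le hm)
  · intro hij
    exact HOne_mono h hl v hv (i + 1) j (by omega) hj.le
      ((HOne_step h hl v hv i hi).2 (mem_insert_self _ _))

theorem one_flag (h : RankFn r) (hl : ∀ e ∈ E, 0 < r {e}) (v : Finset α → α)
    (hv : ∀ F, IsFlat r E F → F ≠ E → v F ∈ E \ F) :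
    ∃ C₀ ∈ PF r E, C₀.card = r E ∧ Set.InjOn v C₀ ∧ Trv r E C₀ (C₀.image v) ∧
      ∀ C ∈ PF r E, C.card = r E → Set.InjOn v C → Trv r E C (C.image v) → C = C₀ := by
  set G := HOne_G r E v with hG
  have hflat := HOne_flat h hl v hv
  have hGinj : Set.InjOn G (range (r E) : Finset ℕ) := by
    intro i hi j hj hij
    have h1 := (hflat i (mem_range.1 (mem_coe.1 hi)).le).2
    have h2 := (hflat j (mem_range.1 (mem_coe.1 hj)).le).2
    rw [← h1, ← h2, ← hG, hij]
  have hvG : ∀ i j, i < r E → j < r E → v (G i) = v (G j) → i = j := by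
    intro i j hi hj hij
    rcases lt_trichotomy i j with hlt | heq | hlt
    · exfalso
      have h1 := (HOne_lt h hl v hv hi hj).2 hlt
      rw [← hG, hij] at h1
      exact (mem_sdiff.1 (HOne_step h hl v hv j hj).1).2 h1
    · exact heq
    · exfalso
      have h1 := (HOne_lt h hl v hv hj hi).2 hlt
      rw [← hG, ← hij] at h1
      exact (mem_sdiff.1 (HOne_step h hl v hv i hi).1).2 h1
  have hcard : ((range (r E)).image G).card = r E := by
    rw [card_image_of_injOn hGinj, card_range]
  have hPF : (range (r E)).image G ∈ PF r E := by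
    constructor
    · intro F hF
      obtain ⟨i, hi, rfl⟩ := mem_image.1 hF
      rw [mem_range] at hi
      obtain ⟨h1, h2⟩ := hflat i hi.le
      refine ⟨h1, fun he => ?_⟩
      rw [← hG, he] at h2
      omega
    · intro F hF F' hF'
      obtain ⟨i, hi, rfl⟩ := mem_image.1 hF
      obtain ⟨j, hj, rfl⟩ := mem_image.1 hF'
      rw [mem_range] at hi hj
      rcases le_total i j with hij | hij
      · exact Or.inl (HOne_mono h hl v hv i j hij hj.le)
      · exact Or.inr (HOne_mono h hl v hv j i hij hi.le)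
  have hvinj : Set.InjOn v ((range (r E)).image G : Finset (Finset α)) := by
    intro F hF F' hF' hFF
    obtain ⟨i, hi, rfl⟩ := mem_image.1 (mem_coe.1 hF)
    obtain ⟨j, hj, rfl⟩ := mem_image.1 (mem_coe.1 hF')
    rw [hvG i j (mem_range.1 hi) (mem_range.1 hj) hFF]
  refine ⟨(range (r E)).image G, hPF, hcard, hvinj, ⟨?_, ?_, ?_⟩, ?_⟩
  · intro x hx
    obtain ⟨F, hF, rfl⟩ := mem_image.1 hx
    exact (mem_sdiff.1 (hv F (hPF.1 F hF).1 (hPF.1 F hF).2)).1
  · rw [card_image_of_injOn hvinj, hcard]
  · intro F hF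
    obtain ⟨j, hj, rfl⟩ := mem_image.1 hF
    rw [mem_range] at hj
    have e1 : ((range (r E)).image G).image v ∩ G j = (range j).image (fun i => v (G i)) := by
      ext x
      rw [mem_inter, mem_image, mem_image]
      constructor
      · rintro ⟨⟨F', hF', rfl⟩, hx⟩
        obtain ⟨i, hi, rfl⟩ := mem_image.1 hF'
        exact ⟨i, mem_range.2 ((HOne_lt h hl v hv (mem_range.1 hi) hj).1 hx), rfl⟩
      · rintro ⟨i, hi, rfl⟩
        rw [mem_range] at hi
        exact ⟨⟨G i, mem_image_of_mem _ (mem_range.2 (by omega)), rfl⟩,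
          (HOne_lt h hl v hv (by omega) hj).2 hi⟩
    rw [e1, card_image_of_injOn, card_range]
    · exact ((hflat j hj.le).2).symm
    · intro a ha b hb hab
      have ha' := mem_range.1 (mem_coe.1 ha)
      have hb' := mem_range.1 (mem_coe.1 hb)
      exact hvG a b (by omega) (by omega) hab
  · intro C hC hCc hCv hT
    have star : ∀ F ∈ C, ∀ F' ∈ C, r F' < r F → v F' ∈ F := by
      intro F hF
      have h1 : C.image v ∩ F ⊆ (C.filter fun F' => r F' < r F).image v := by
        intro x hx
        rw [mem_inter] at hx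
        obtain ⟨F', hF', rfl⟩ := mem_image.1 hx.1
        refine mem_image_of_mem _ (mem_filter.2 ⟨hF', ?_⟩)
        by_contra hn
        have h2 := pf_sub_of_le h hC hF hF' (by omega)
        exact (mem_sdiff.1 (hv F' (hC.1 F' hF').1 (hC.1 F' hF').2)).2 (h2 hx.2)
      have h3 : (C.filter fun F' => r F' < r F).card ≤ (range (r F)).card := by
        apply card_le_card_of_injOn r
        · intro F' hF'
          exact mem_coe.2 (mem_range.2 (mem_filter.1 (mem_coe.1 hF')).2)
        · intro F₁ h₁ F₂ h₂ h₃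
          exact pf_eq_of_rank h hC (mem_filter.1 (mem_coe.1 h₁)).1
            (mem_filter.1 (mem_coe.1 h₂)).1 h₃
      have h4 : C.image v ∩ F = (C.filter fun F' => r F' < r F).image v := by
        apply eq_of_subset_of_card_le h1
        rw [hT.2.2 F hF]
        exact card_image_le.trans (by rw [card_range] at h3; exact h3)
      intro F' hF' hlt
      have h5 : v F' ∈ C.image v ∩ F := by
        rw [h4]
        exact mem_image_of_mem _ (mem_filter.2 ⟨hF', hlt⟩)
      exact (mem_inter.1 h5).2
    have hEq : ∀ i, ∀ F ∈ C, r F = i → F = G i := by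
      intro i
      induction i with
      | zero =>
        intro F hF h0
        exact rank_zero_flat h hl (hC.1 F hF).1.1 h0
      | succ i ih =>
        intro F hF hi
        have hlt := flat_lt_E h (hC.1 F hF).1 (hC.1 F hF).2
        obtain ⟨F', hF', hri⟩ := ff_exists h hC hCc (i := i) (by omega)
        have h1 := ih F' hF' hri
        have h2 := pf_sub_of_le h hC hF' hF (by omega)
        have h3 := star F hF F' hF' (by omega)
        have h4 := hv F' (hC.1 F' hF').1 (hC.1 F' hF').2
        have h5 := ((flat_cover h (hC.1 F' hF').1 h4).2 F (hC.1 F hF).1 h2 h3).2 (by omega)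
        rw [h5, h1]
        rfl
    apply eq_of_subset_of_card_le
    · intro F hF
      have hlt := flat_lt_E h (hC.1 F hF).1 (hC.1 F hF).2
      rw [hEq (r F) F hF rfl]
      exact mem_image_of_mem _ (mem_range.2 hlt)
    · rw [hcard, hCc]

end Pool.Agent.DT3
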