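import Pool.Agent.DT3.Ch

/-!
* `acyc_cone`: if `D` is a cone with apex `v` (for `v ∉ T`: `T ∈ D ↔ T + v ∈ D`), then `D` is acyclic in all
  degrees.  Given a relative cycle `c` put `b T = c (T.erase v)` if `v ∈ T`, `0` otherwise.  Support:
  `v ∈ T`, `T.erase v ∈ D`, so `T ∈ D`.  For `S ∈ D`, `v ∉ S`: in `bd b S` only `x = v` contributes, it gives
  `c S`.  For `S ∈ D`, `v ∈ S`: `bd b S = ∑_{x ∉ S} c ((S.erase v) + x) = bd c (S.erase v) - c S`
  (the missing term of `bd c (S.erase v)` is `x = v`), and `bd c (S.erase v) = 0` as `S.erase v ∈ D`.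
* `acyc_split`: if `D = D₁ ∪ D₂` and there are no covering pairs between `D₁` and `D₂`, then
  `Acyc D n → Acyc D₁ n`.  A relative cycle `c` in `D₁` is one in `D` (for `S ∈ D₂` all terms vanish), so
  `c = bd b` on `D`; restrict `b` to `D₁` (the terms `b (T + x)`, `T ∈ D₁`, `T + x ∈ D \ D₁ ⊆ D₂` do not
  occur).
-/

set_option autoImplicit false

namespace Pool.Agent.DT3

open Finset

variable {α : Type*} [Fintype α] [DecidableEq α]

theorem acyc_cone {D : Set (Finset α)} (v : α) (hv : ∀ T, v ∉ T → (T ∈ D ↔ insert v T ∈ D))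
    (n : ℤ) : Acyc D n := by
  intro c hc hcyc
  refine ⟨fun T => if v ∈ T then c (T.erase v) else 0, ?_, ?_⟩
  · intro T hT
    beta_reduce at hT
    by_cases hvT : v ∈ T
    · rw [if_pos hvT] at hT
      obtain ⟨h1, h2⟩ := hc _ hT
      have h3 := (hv (T.erase v) (notMem_erase v T)).1 h1
      rw [insert_erase hvT] at h3
      refine ⟨h3, ?_⟩
      have h4 := card_erase_add_one hvT
      omega
    · rw [if_neg hvT] at hT
      exact absurd rfl hT
  · intro T hT
    unfold bd
    by_cases hvT : v ∈ T
    · have h1 : T.erase v ∈ D := by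
        refine (hv (T.erase v) (notMem_erase v T)).2 ?_
        rw [insert_erase hvT]
        exact hT
      have h2 := hcyc _ h1
      unfold bd at h2
      rw [compl_erase, sum_insert (by rw [mem_compl]; exact fun h => h hvT), insert_erase hvT] at h2
      have h3 : ∑ x ∈ Tᶜ, (if v ∈ insert x T then c ((insert x T).erase v) else 0) =
          ∑ x ∈ Tᶜ, c (insert x (T.erase v)) := by
        refine sum_congr rfl fun x hx => ?_
        rw [mem_compl] at hx
        have hxv : x ≠ v := fun h => hx (h ▸ hvT)
        rw [if_pos (mem_insert_of_mem hvT), erase_insert_of_ne hxv]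
      rw [h3]
      exact (CharTwo.add_eq_zero.1 h2).symm
    · rw [sum_eq_single v]
      · beta_reduce
        rw [if_pos (mem_insert_self v T), erase_insert hvT]
      · intro x _ hxv
        beta_reduce
        rw [if_neg]
        rw [mem_insert]
        rintro (h | h)
        · exact hxv h.symm
        · exact hvT h
      · intro h
        exact absurd (mem_compl.2 hvT) h


theorem acyc_split {D D₁ D₂ : Set (Finset α)} (hD : D = D₁ ∪ D₂)
    (h12 : ∀ S ∈ D₁, ∀ x, x ∉ S → insert x S ∉ D₂)
    (h21 : ∀ S ∈ D₂, ∀ x, x ∉ S → insert x S ∉ D₁) {n : ℤ} (h : Acyc D n) : Acyc D₁ n := by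
  classical
  intro c hc hcyc
  have hcD : Supp D n c := hc.mono (by rw [hD]; exact Set.subset_union_left)
  obtain ⟨b, hb, hbc⟩ := h c hcD (by
    intro S hS
    rw [hD] at hS
    rcases hS with hS | hS
    · exact hcyc S hS
    · unfold bd
      refine sum_eq_zero fun x hx => ?_
      rw [mem_compl] at hx
      by_contra hne
      exact h21 S hS x hx (hc _ hne).1)
  refine ⟨fun T => if T ∈ D₁ then b T else 0, ?_, ?_⟩
  · intro T hT
    beta_reduce at hT
    by_cases h1 : T ∈ D₁
    · rw [if_pos h1] at hT
      exact ⟨h1, (hb T hT).2⟩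
    · rw [if_neg h1] at hT
      exact absurd rfl hT
  · intro T hT
    rw [← hbc T (by rw [hD]; exact Or.inl hT)]
    refine bd_congr fun x hx => ?_
    by_cases h1 : insert x T ∈ D₁
    · rw [if_pos h1]
    · rw [if_neg h1]
      by_contra hne
      have h2 := (hb _ (fun h => hne h.symm)).1
      rw [hD] at h2
      rcases h2 with h2 | h2
      · exact h1 h2
      · exact h12 T hT x hx h2


end Pool.Agent.DT3
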