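import Pool.Agent.DT3.HDefs
import Pool.Agent.DT3.ChCone

/-!
(D) `gv v` is a chain map: `bd (gv v C) T = ∑ F ∈ C, gv v (C.erase F) T`.

If `v` is injective on `C`, `U = C.image v`, `|U| = |C|`: the left side is the number of `x ∉ T` with
`insert x T = U` (`1` if `T = U.erase x` for some `x ∈ U`, i.e. `T ⊆ U`, `|T| + 1 = |U|`, else `0`); the
right side is the number of `F ∈ C` with `(C.erase F).image v = U.erase (v F) = T`: the same.
If `v` is not injective on `C`: the left side is `0`.  On the right side `F` counts if `v` is injective on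
`C.erase F` and `(C.erase F).image v = T`.  If there is such an `F`: as `v` is not injective on `C` there is a
unique `F' ∈ C.erase F` with `v F' = v F`; then `F'` counts as well (`(C.erase F').image v = T`, injective),
and no other `F''` counts (`F, F' ∈ C.erase F''`).  So the sum is `0` or `2 = 0`.

`gv_supp`: `gv v C` is supported on the single set `C.image v` of `|C|` elements; for `C ∈ PF r E` non-empty
with `v F ∈ E \ F` for all `F ∈ C` it lies in `Kf E C`: it is disjoint from the least member of `C`
(`v F' ∉ F' ⊇ F`).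

(E) `acyc_Kf`: for a non-empty chain `C ∈ PF r E` with least member `F` (`F ≠ E`, `F ⊆ E`): `Kf E C` is the set of
all subsets of `E \ F` (a set disjoint from a member is disjoint from the least member), a cone
with apex any element of `E \ F`.
-/

set_option autoImplicit false

namespace Pool.Agent.DT3

open Finset

variable {α : Type*} [Fintype α] [DecidableEq α] {r : Finset α → ℕ} {E : Finset α}

omit [Fintype α] in
private theorem hv_gv_zero {β : Type*} (v : β → α) (C : Finset β) (T : Finset α)
    (h : ¬ (Set.InjOn v C ∧ C.image v = T)) : gv v C T = 0 := by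
  unfold gv
  rw [if_neg h]

omit [Fintype α] in
private theorem hv_gv_one {β : Type*} (v : β → α) (C : Finset β) (T : Finset α)
    (h : Set.InjOn v C ∧ C.image v = T) : gv v C T = 1 := by
  unfold gv
  rw [if_pos h]

omit [Fintype α] in
private theorem hv_gv_ne {β : Type*} {v : β → α} {C : Finset β} {T : Finset α}
    (h : gv v C T ≠ 0) : Set.InjOn v C ∧ C.image v = T := by
  by_contra hcon
  exact h (hv_gv_zero v C T hcon)

omit [Fintype α] in
private theorem hv_gv_inj {β : Type*} (v : β → α) (C : Finset β) (T : Finset α)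
    (h : Set.InjOn v C) : gv v C T = if C.image v = T then 1 else 0 := by
  by_cases h' : C.image v = T
  · rw [if_pos h', hv_gv_one v C T ⟨h, h'⟩]
  · rw [if_neg h', hv_gv_zero v C T (fun h2 => h' h2.2)]

omit [Fintype α] in
private theorem hv_image_erase {β : Type*} [DecidableEq β] {v : β → α} {C : Finset β}
    (h : Set.InjOn v C) {F : β} (hF : F ∈ C) : (C.erase F).image v = (C.image v).erase (v F) := by
  ext x
  rw [mem_image, mem_erase, mem_image]
  constructor
  · rintro ⟨a, ha, rfl⟩
    rw [mem_erase] at ha
    exact ⟨fun he => ha.1 (h ha.2 hF he), a, ha.2, rfl⟩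
  · rintro ⟨hne, a, ha, rfl⟩
    exact ⟨a, mem_erase.mpr ⟨fun he => hne (by rw [he]), ha⟩, rfl⟩

theorem gv_bd {β : Type*} [DecidableEq β] (v : β → α) (C : Finset β) (T : Finset α) :
    bd (gv v C) T = ∑ F ∈ C, gv v (C.erase F) T := by
  by_cases hinj : Set.InjOn v C
  · have h1 : bd (gv v C) T = ∑ x ∈ Tᶜ, if C.image v = insert x T then 1 else 0 := by
      unfold bd
      exact sum_congr rfl fun x _ => hv_gv_inj v C _ hinj
    have h2 : ∑ F ∈ C, gv v (C.erase F) T =
        ∑ F ∈ C, if (C.image v).erase (v F) = T then 1 else 0 := by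
      apply sum_congr rfl
      intro F hF
      rw [hv_gv_inj v _ _ (hinj.mono (coe_subset.mpr (erase_subset F C))),
        hv_image_erase hinj hF]
    have h3 : ∑ F ∈ C, (if (C.image v).erase (v F) = T then (1 : ZMod 2) else 0) =
        ∑ x ∈ C.image v, if (C.image v).erase x = T then 1 else 0 := by
      rw [sum_image hinj]
    rw [h1, h2, h3, ← sum_filter, ← sum_filter]
    apply sum_congr _ (fun _ _ => rfl)
    ext x
    rw [mem_filter, mem_filter, mem_compl]
    constructor
    · rintro ⟨hx, hU⟩
      rw [hU]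
      exact ⟨mem_insert_self x T, erase_insert hx⟩
    · rintro ⟨hx, hU⟩
      rw [← hU]
      exact ⟨notMem_erase x _, (insert_erase hx).symm⟩
  · have h1 : bd (gv v C) T = 0 := by
      unfold bd
      exact sum_eq_zero fun x _ => hv_gv_zero v C _ (fun h => hinj h.1)
    rw [h1]
    symm
    by_cases hall : ∀ F ∈ C, gv v (C.erase F) T = 0
    · exact sum_eq_zero hall
    · push Not at hall
      obtain ⟨F, hF, hne⟩ := hall
      obtain ⟨hi, him⟩ := hv_gv_ne hne
      -- the partner
      have hex : ∃ F' ∈ C.erase F, v F' = v F := by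
        by_contra hcon
        push Not at hcon
        apply hinj
        intro a ha b hb hab
        by_cases haF : a = F
        · by_cases hbF : b = F
          · rw [haF, hbF]
          · exact absurd (hab.symm.trans (by rw [haF])) (hcon b (mem_erase.mpr ⟨hbF, hb⟩))
        · by_cases hbF : b = F
          · exact absurd (hab.trans (by rw [hbF])) (hcon a (mem_erase.mpr ⟨haF, ha⟩))
          · exact hi (mem_coe.mpr (mem_erase.mpr ⟨haF, ha⟩)) (mem_coe.mpr (mem_erase.mpr ⟨hbF, hb⟩))
              hab
      obtain ⟨F', hF', hv'⟩ := hex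
      have hF'C : F' ∈ C := (mem_erase.mp hF').2
      have hF'F : F' ≠ F := (mem_erase.mp hF').1
      rw [sum_eq_add F F' hF'F.symm]
      · have e1 : gv v (C.erase F) T = 1 := hv_gv_one v _ _ ⟨hi, him⟩
        have e2 : gv v (C.erase F') T = 1 := by
          apply hv_gv_one
          constructor
          · intro a ha b hb hab
            rw [mem_coe, mem_erase] at ha hb
            by_cases haF : a = F
            · by_cases hbF : b = F
              · rw [haF, hbF]
              · exfalso
                apply hb.1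
                apply hi (mem_coe.mpr (mem_erase.mpr ⟨hbF, hb.2⟩)) (mem_coe.mpr hF')
                rw [hv', ← haF, hab]
            · by_cases hbF : b = F
              · exfalso
                apply ha.1
                apply hi (mem_coe.mpr (mem_erase.mpr ⟨haF, ha.2⟩)) (mem_coe.mpr hF')
                rw [hv', ← hbF, hab]
              · exact hi (mem_coe.mpr (mem_erase.mpr ⟨haF, ha.2⟩))
                  (mem_coe.mpr (mem_erase.mpr ⟨hbF, hb.2⟩)) hab
          · rw [← him]
            ext x
            rw [mem_image, mem_image]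
            constructor
            · rintro ⟨a, ha, rfl⟩
              rw [mem_erase] at ha
              by_cases haF : a = F
              · exact ⟨F', hF', by rw [hv', haF]⟩
              · exact ⟨a, mem_erase.mpr ⟨haF, ha.2⟩, rfl⟩
            · rintro ⟨a, ha, rfl⟩
              rw [mem_erase] at ha
              by_cases haF : a = F'
              · exact ⟨F, mem_erase.mpr ⟨hF'F.symm, hF⟩, by rw [haF, hv']⟩
              · exact ⟨a, mem_erase.mpr ⟨haF, ha.2⟩, rfl⟩
        rw [e1, e2]
        decide
      · intro G hG hGne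
        apply hv_gv_zero
        rintro ⟨hi', _⟩
        apply hF'F
        exact hi' (mem_coe.mpr (mem_erase.mpr ⟨hGne.2.symm, hF'C⟩))
          (mem_coe.mpr (mem_erase.mpr ⟨hGne.1.symm, hF⟩)) hv'
      · intro h'
        exact absurd hF h'
      · intro h'
        exact absurd hF'C h'

theorem gv_empty {β : Type*} (v : β → α) : gv v (∅ : Finset β) = dlt := by
  funext T
  unfold dlt
  by_cases hT : T = ∅
  · rw [if_pos hT]
    apply hv_gv_one
    rw [hT]
    exact ⟨by simp, image_empty v⟩
  · rw [if_neg hT]
    apply hv_gv_zero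
    rintro ⟨_, h⟩
    rw [image_empty] at h
    exact hT h.symm

theorem dlt_bd (T : Finset α) : bd dlt T = 0 := by
  unfold bd
  apply sum_eq_zero
  intro x _
  unfold dlt
  rw [if_neg (insert_ne_empty x T)]

omit [Fintype α] in
private theorem hv_least {C : Finset (Finset α)} (hC : C ∈ PF r E) (hne : C.Nonempty) :
    ∃ F₀ ∈ C, ∀ F ∈ C, F₀ ⊆ F := by
  obtain ⟨F₀, hF₀, hmin⟩ := exists_min_image C card hne
  refine ⟨F₀, hF₀, fun F hF => ?_⟩
  rcases hC.2 F₀ hF₀ F hF with h | h
  · exact h
  · exact (eq_of_subset_of_card_le h (hmin F hF)).symm.subset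

theorem gv_supp (v : Finset α → α) {C : Finset (Finset α)} (hC : C ∈ PF r E)
    (hne : C.Nonempty) (hv : ∀ F ∈ C, v F ∈ E \ F) : Supp (Kf E C) C.card (gv v C) := by
  intro T hT
  obtain ⟨hi, him⟩ := hv_gv_ne hT
  obtain ⟨F₀, hF₀, hmin⟩ := hv_least hC hne
  refine ⟨⟨?_, F₀, hF₀, ?_⟩, ?_⟩
  · intro x hx
    rw [← him, mem_image] at hx
    obtain ⟨F, hF, rfl⟩ := hx
    exact (mem_sdiff.mp (hv F hF)).1
  · rw [disjoint_left]
    intro x hx hxF
    rw [← him, mem_image] at hx
    obtain ⟨F, hF, rfl⟩ := hx
    exact (mem_sdiff.mp (hv F hF)).2 (hmin F hF hxF)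
  · rw [← him, card_image_of_injOn hi]

theorem cpx_Kf (C : Finset (Finset α)) : Cpx (Kf E C) := by
  rintro T ⟨hT, F, hF, hd⟩ S hST
  exact ⟨hST.trans hT, F, hF, disjoint_of_subset_left hST hd⟩

theorem acyc_Kf {C : Finset (Finset α)} (hC : C ∈ PF r E) (hne : C.Nonempty) (n : ℤ) :
    Acyc (Kf E C) n := by
  obtain ⟨F₀, hF₀, hmin⟩ := hv_least hC hne
  obtain ⟨hfl, hFE⟩ := hC.1 F₀ hF₀
  have hex : (E \ F₀).Nonempty := by
    rw [sdiff_nonempty]
    intro h
    exact hFE (Subset.antisymm hfl.1 h)
  obtain ⟨v, hv⟩ := hex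
  rw [mem_sdiff] at hv
  apply acyc_cone v
  intro T _
  constructor
  · rintro ⟨hT, F, hF, hd⟩
    refine ⟨insert_subset hv.1 hT, F₀, hF₀, ?_⟩
    rw [disjoint_insert_left]
    exact ⟨hv.2, disjoint_of_subset_right (hmin F hF) hd⟩
  · intro h
    exact cpx_Kf C _ h T (subset_insert _ _)

end Pool.Agent.DT3
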