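import Pool.Agent.DT3.HCount
import Pool.Agent.DT3.HOne
import Pool.Agent.DT3.HVert
import Pool.Agent.DT3.ChCar

/-!
TOPOLOGICAL HALL (chain form).  `r` a matroid rank function without loops on `E`, `0 < r E`, `K` a simplicial
complex of subsets of `E` with `∅ ∈ K`.  If for every flat `F ≠ E` the complex `{T ∈ K | T ∩ F = ∅}` is
acyclic in all degrees `n` with `n + 1 + r F ≤ r E`, then `K` contains a basis.

Proof.  `hall_carrier`: a carrier map `g` with values in `K`: `carrier` with `CC = PF r E`,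
`K C = {T ∈ K | ∃ F ∈ C, Disjoint T F}`, `j = 0`, `τ = 0`, `u₀ = dlt`.  For non-empty `C ∈ PF r E` with least member `F₁`
(`pf_min`): `K C = {T ∈ K | Disjoint T F₁}`, acyclic in degree `|C| - 1` because `|C| + r F₁ ≤ r E` (`pf_card`).
`∅ ∈ K` gives `Supp (K C) 0 dlt`; `dlt_bd`.

Choose `v F ∈ E \ F` for the proper flats `F`.  `hall_homotopy`: `carrier` with `K C = Kf E C`, `j = 1`,
`τ C = g C + gv v C`, `u₀ = 0` (`τ ∅ = dlt + dlt = 0`): there is `H` with `H ∅ = 0`, supports `Kf E C`,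
sizes `|C| + 1`, `bd (H C) T = ∑_{F ∈ C} H (C - F) T + g C T + gv v C T` for non-empty `C`.

Sum over `C ∈ FF r E` (non-empty because `0 < r E`) and `T` with `Trv r E C T`: by `count_A`, `count_B`:
`∑ ∑ g C T = ∑ ∑ gv v C T`, and the right side is `1`: by `one_flag` exactly one pair `(C, T)` (`C = C₀`,
`T = C₀.image v`) has `gv v C T ≠ 0`.  So some `g C T ≠ 0` with `Trv r E C T`, `C ∈ FF r E`: `T ∈ K`, `|T| = r E`, and
`r T = r E` by `trv_basis`.
-/

set_option autoImplicit false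

namespace Pool.Agent.DT3

open Finset

variable {α : Type*} [Fintype α] [DecidableEq α] {r : Finset α → ℕ} {E : Finset α}

theorem hall_carrier (h : RankFn r) {K : Set (Finset α)} (hK : Cpx K)
    (hKE : ∀ T ∈ K, T ⊆ E) (h0 : ∅ ∈ K)
    (hac : ∀ F, IsFlat r E F → F ≠ E → ∀ n : ℤ, n + 1 + r F ≤ r E →
      Acyc {T | T ∈ K ∧ Disjoint T F} n) :
    ∃ g : Finset (Finset α) → Finset α → ZMod 2, g ∅ = dlt ∧
      (∀ C ∈ PF r E, C.Nonempty → ∀ T, g C T ≠ 0 → T ∈ K ∧ T ∈ Kf E C ∧ T.card = C.card) ∧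
      ∀ C ∈ PF r E, C.Nonempty → ∀ T, bd (g C) T = ∑ F ∈ C, g (C.erase F) T := by
  obtain ⟨g, hg0, hgs, hgb⟩ := carrier (α := α) (PF r E) (fun C hC C' hC' => pf_sub hC hC')
    (fun C => {T | T ∈ K ∧ ∃ F ∈ C, Disjoint T F})
    (fun C _ _ T hT B hB => by
      obtain ⟨h1, F, hF, h2⟩ := hT
      exact ⟨hK T h1 B hB, F, hF, h2.mono_left hB⟩)
    (fun C _ C' hC' _ T hT => by
      obtain ⟨h1, F, hF, h2⟩ := hT
      exact ⟨h1, F, hC' hF, h2⟩) 0 (fun _ => 0) dlt
    (fun C _ _ T hT => absurd rfl hT)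
    (fun C _ _ T => by
      rw [bd_zero]
      exact (sum_eq_zero fun _ _ => rfl).symm)
    (fun C _ hne T hT => by
      have h1 : T = ∅ := by
        by_contra hc
        exact hT (if_neg hc)
      obtain ⟨F, hF⟩ := hne
      subst h1
      exact ⟨⟨h0, F, hF, disjoint_empty_left _⟩, by simp⟩)
    (fun T => dlt_bd T)
    (fun C hC hne => by
      obtain ⟨F, hF, hmin⟩ := pf_min hC hne
      have e : {T | T ∈ K ∧ ∃ F ∈ C, Disjoint T F} = {T | T ∈ K ∧ Disjoint T F} := by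
        ext T
        constructor
        · rintro ⟨h1, F', hF', h2⟩
          exact ⟨h1, h2.mono_right (hmin F' hF')⟩
        · rintro ⟨h1, h2⟩
          exact ⟨h1, F, hF, h2⟩
      rw [e]
      refine hac F (hC.1 F hF).1 (hC.1 F hF).2 _ ?_
      have h1 := pf_card h hC hF hmin
      omega)
  refine ⟨g, hg0, fun C hC hne T hT => ?_, fun C hC hne T => ?_⟩
  · obtain ⟨⟨h1, h2⟩, h3⟩ := hgs C hC hne T hT
    refine ⟨h1, ⟨hKE T h1, h2⟩, ?_⟩
    omega
  · rw [hgb C hC hne T]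
    exact add_zero _


theorem hall_homotopy (h : RankFn r) (v : Finset α → α)
    (hv : ∀ F, IsFlat r E F → F ≠ E → v F ∈ E \ F)
    (g : Finset (Finset α) → Finset α → ZMod 2) (hg0 : g ∅ = dlt)
    (hgs : ∀ C ∈ PF r E, C.Nonempty → ∀ T, g C T ≠ 0 → T ∈ Kf E C ∧ T.card = C.card)
    (hgb : ∀ C ∈ PF r E, C.Nonempty → ∀ T, bd (g C) T = ∑ F ∈ C, g (C.erase F) T) :
    ∃ H : Finset (Finset α) → Finset α → ZMod 2, H ∅ = 0 ∧
      (∀ C ∈ PF r E, C.Nonempty → ∀ T, H C T ≠ 0 → T ∈ Kf E C ∧ T.card = C.card + 1) ∧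
      ∀ C ∈ PF r E, C.Nonempty → ∀ T,
        bd (H C) T = ∑ F ∈ C, H (C.erase F) T + (g C T + gv v C T) := by
  obtain ⟨H, hH0, hHs, hHb⟩ := carrier (α := α) (PF r E) (fun C hC C' hC' => pf_sub hC hC')
    (Kf E) (fun C _ _ => cpx_Kf C)
    (fun C _ C' hC' _ T hT => by
      obtain ⟨h1, F, hF, h2⟩ := hT
      exact ⟨h1, F, hC' hF, h2⟩) 1 (fun C => g C + gv v C) 0
    (fun C hC hne => by
      have e : (C.card : ℤ) - 1 + 1 = C.card := by ring
      rw [e]
      refine Supp.add (fun T hT => ?_)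
        (gv_supp v hC hne fun F hF => hv F (hC.1 F hF).1 (hC.1 F hF).2)
      obtain ⟨h1, h2⟩ := hgs C hC hne T hT
      exact ⟨h1, by rw [h2]⟩)
    (fun C hC hne T => by
      rw [bd_add, hgb C hC hne T, gv_bd, ← sum_add_distrib]
      rfl)
    (fun C _ _ T hT => absurd rfl hT)
    (fun T => by
      rw [bd_zero]
      show 0 = g ∅ T + gv v (∅ : Finset (Finset α)) T
      rw [hg0, gv_empty]
      exact (CharTwo.add_self_eq_zero _).symm)
    (fun C hC hne => acyc_Kf hC hne _)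
  refine ⟨H, hH0, fun C hC hne T hT => ?_, fun C hC hne T => hHb C hC hne T⟩
  obtain ⟨h1, h2⟩ := hHs C hC hne T hT
  refine ⟨h1, ?_⟩
  omega


theorem hall (h : RankFn r) (hl : ∀ e ∈ E, 0 < r {e}) (hpos : 0 < r E) {K : Set (Finset α)}
    (hK : Cpx K) (hKE : ∀ T ∈ K, T ⊆ E) (h0 : ∅ ∈ K)
    (hac : ∀ F, IsFlat r E F → F ≠ E → ∀ n : ℤ, n + 1 + r F ≤ r E →
      Acyc {T | T ∈ K ∧ Disjoint T F} n) :
    ∃ T ∈ K, T.card = r E ∧ r T = r E := by
  classical
  obtain ⟨g, hg0, hgs, hgb⟩ := hall_carrier h hK hKE h0 hac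
  have hEne : E.Nonempty := by
    rw [nonempty_iff_ne_empty]
    rintro rfl
    rw [h.empty] at hpos
    exact lt_irrefl _ hpos
  obtain ⟨x0, -⟩ := hEne
  have hvex : ∀ F : Finset α, ∃ x, IsFlat r E F → F ≠ E → x ∈ E \ F := by
    intro F
    by_cases hF : IsFlat r E F ∧ F ≠ E
    · have h1 : (E \ F).Nonempty := by
        rw [nonempty_iff_ne_empty]
        intro he
        exact hF.2 (subset_antisymm hF.1.1 (sdiff_eq_empty_iff_subset.1 he))
      obtain ⟨x, hx⟩ := h1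
      exact ⟨x, fun _ _ => hx⟩
    · exact ⟨x0, fun h1 h2 => absurd ⟨h1, h2⟩ hF⟩
  choose v hv using hvex
  obtain ⟨H, hH0, hHs, hHb⟩ := hall_homotopy h v hv g hg0
    (fun C hC hne T hT => (hgs C hC hne T hT).2) hgb
  have hFF : ∀ C ∈ FF r E, C ∈ PF r E ∧ C.card = r E := by
    intro C hC
    unfold FF at hC
    exact (mem_filter.1 hC).2
  have hFne : ∀ C ∈ FF r E, C.Nonempty := by
    intro C hC
    rw [← card_pos, (hFF C hC).2]
    exact hpos
  have hA : ∑ C ∈ FF r E, ∑ T ∈ (Finset.univ : Finset (Finset α)).filter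
      (fun T => Trv r E C T), bd (H C) T = 0 := by
    refine sum_eq_zero fun C hC => ?_
    obtain ⟨h1, h2⟩ := hFF C hC
    refine count_A h hl h1 h2 (H C) fun B hB => ?_
    obtain ⟨h3, h4⟩ := hHs C h1 (hFne C hC) B hB
    exact ⟨h3.1, by rw [h4, h2]⟩
  have hB := count_B h hl H hH0 hHs
  have hG : ∑ C ∈ FF r E, ∑ T ∈ (Finset.univ : Finset (Finset α)).filter
      (fun T => Trv r E C T), gv v C T = 1 := by
    obtain ⟨C₀, hC0, hc0, hinj, htr, huniq⟩ := one_flag h hl v hv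
    have hmem : C₀ ∈ FF r E := by
      unfold FF
      exact mem_filter.2 ⟨mem_univ _, hC0, hc0⟩
    rw [sum_eq_single C₀]
    · rw [sum_eq_single (C₀.image v)]
      · unfold gv
        rw [if_pos ⟨hinj, rfl⟩]
      · intro T _ hT
        unfold gv
        rw [if_neg]
        rintro ⟨-, h1⟩
        exact hT h1.symm
      · intro hn
        exact absurd (mem_filter.2 ⟨mem_univ _, htr⟩) hn
    · intro C hC hne
      refine sum_eq_zero fun T hT => ?_
      unfold gv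
      rw [if_neg]
      rintro ⟨h1, rfl⟩
      exact hne (huniq C (hFF C hC).1 (hFF C hC).2 h1 (mem_filter.1 hT).2)
    · intro hn
      exact absurd hmem hn
  by_contra hcon
  have hg : ∑ C ∈ FF r E, ∑ T ∈ (Finset.univ : Finset (Finset α)).filter
      (fun T => Trv r E C T), g C T = 0 := by
    refine sum_eq_zero fun C hC => sum_eq_zero fun T hT => ?_
    by_contra hne
    obtain ⟨h1, h2⟩ := hFF C hC
    obtain ⟨h3, -, h4⟩ := hgs C h1 (hFne C hC) T hne
    exact hcon ⟨T, h3, by rw [h4, h2], trv_basis h h1 h2 (mem_filter.1 hT).2⟩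
  have hsum : ∑ C ∈ FF r E, ∑ T ∈ (Finset.univ : Finset (Finset α)).filter
      (fun T => Trv r E C T), bd (H C) T =
      ∑ C ∈ FF r E, ∑ T ∈ (Finset.univ : Finset (Finset α)).filter
        (fun T => Trv r E C T), ∑ F ∈ C, H (C.erase F) T +
      (∑ C ∈ FF r E, ∑ T ∈ (Finset.univ : Finset (Finset α)).filter
        (fun T => Trv r E C T), g C T +
      ∑ C ∈ FF r E, ∑ T ∈ (Finset.univ : Finset (Finset α)).filter
        (fun T => Trv r E C T), gv v C T) := by
    rw [← sum_add_distrib, ← sum_add_distrib]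
    refine sum_congr rfl fun C hC => ?_
    rw [← sum_add_distrib, ← sum_add_distrib]
    refine sum_congr rfl fun T _ => ?_
    exact hHb C (hFF C hC).1 (hFne C hC) T
  rw [hA, hg, hG] at hsum
  have hB' : ∑ C ∈ FF r E, ∑ T ∈ (Finset.univ : Finset (Finset α)).filter
        (fun T => Trv r E C T), ∑ F ∈ C, H (C.erase F) T = 0 := by
    convert hB
  rw [hB'] at hsum
  exact absurd hsum (by decide)


end Pool.Agent.DT3
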