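import Pool.Agent.DT3.Ch

/-!
* `acyc_fib` (direct sum over the frozen parts).  `σ T ⊆ T` for `T ∈ D`, and `σ` does not change along
  covering pairs of `D`.  The piece of `S` is `D_S = {T' | T' ∩ S = ∅, S ∪ T' ∈ D, σ (S ∪ T') = S}`.
  If all pieces are acyclic in degree `n - |S|` then `D` is acyclic in degree `n`.
  Proof.  `c` relative cycle in `D` of size `n`.  For each `S` put `c_S T' = c (S ∪ T')` if `T' ∈ D_S` and `0`
  otherwise; its sets have size `n - |S|`.  It is a relative cycle in `D_S`: let `R' ∈ D_S`, `R = S ∪ R'`;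
  `0 = bd c R = ∑_{x ∉ R} c (R + x)`; if `c (R + x) ≠ 0` then `R + x ∈ D`, `σ (R + x) = σ R = S`, so
  `R' + x ∈ D_S` and `c_S (R' + x) = c (R + x)`; if `c (R + x) = 0` then also `c_S (R' + x) = 0`; and for
  `x ∈ S` we have `c_S (R' + x) = 0` because `R' + x` meets `S`.  So `bd c_S R' = bd c R = 0`.
  Choose `b_S` with `bd b_S = c_S` on `D_S` and put `b T = b_{σ T} (T \ σ T)` for `T ∈ D`, `0` otherwise.
  For `T ∈ D`, `S = σ T`, `T' = T \ S ∈ D_S`: `bd b T = ∑_{x ∉ T} b (T + x)`; if `T + x ∈ D` then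
  `σ (T + x) = S`, so the term is `b_S (T' + x)`; if `T + x ∉ D` then `T' + x ∉ D_S` and
  `b_S (T' + x) = 0`; the terms `x ∈ S` of `bd b_S T'` vanish (`T' + x ∉ D_S`).  So
  `bd b T = bd b_S T' = c_S T' = c T`.
* `acyc_link`: the special case `σ = {v}`.  The piece of `{v}` is `D'`, the others are empty.
-/

set_option autoImplicit false

namespace Pool.Agent.DT3

open Finset

variable {α : Type*} [Fintype α] [DecidableEq α]

private theorem bd_piece {D : Set (Finset α)} (σ : Finset α → Finset α)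
    (hcov : ∀ T ∈ D, ∀ x, x ∉ T → insert x T ∈ D → σ (insert x T) = σ T)
    {c : Finset α → ZMod 2} (hc : ∀ T, c T ≠ 0 → T ∈ D) (S : Finset α)
    {cS : Finset α → ZMod 2}
    (h1 : ∀ T' : Finset α, Disjoint S T' ∧ S ∪ T' ∈ D ∧ σ (S ∪ T') = S → cS T' = c (S ∪ T'))
    (h2 : ∀ T' : Finset α, ¬ (Disjoint S T' ∧ S ∪ T' ∈ D ∧ σ (S ∪ T') = S) → cS T' = 0)
    {R : Finset α} (hR : Disjoint S R ∧ S ∪ R ∈ D ∧ σ (S ∪ R) = S) :
    bd cS R = bd c (S ∪ R) := by
  unfold bd
  have hsub : (S ∪ R)ᶜ ⊆ Rᶜ := by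
    intro x hx
    rw [mem_compl] at hx ⊢
    exact fun h => hx (mem_union_right _ h)
  rw [← sum_subset hsub]
  · refine sum_congr rfl fun x hx => ?_
    rw [mem_compl, mem_union, not_or] at hx
    have hins : S ∪ insert x R = insert x (S ∪ R) := union_insert x S R
    by_cases hD : insert x (S ∪ R) ∈ D
    · rw [h1, hins]
      refine ⟨?_, by rw [hins]; exact hD, ?_⟩
      · rw [disjoint_insert_right]
        exact ⟨hx.1, hR.1⟩
      · rw [hins, hcov _ hR.2.1 x (by rw [mem_union, not_or]; exact hx) hD]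
        exact hR.2.2
    · rw [h2]
      · by_contra h
        exact hD (hc _ (Ne.symm h))
      · rintro ⟨-, h, -⟩
        rw [hins] at h
        exact hD h
  · intro x hx hx'
    apply h2
    rintro ⟨h, -, -⟩
    rw [disjoint_insert_right] at h
    rw [mem_compl] at hx
    rw [mem_compl, not_not, mem_union] at hx'
    exact hx'.elim h.1 hx

theorem acyc_fib {D : Set (Finset α)} (σ : Finset α → Finset α) (hσ : ∀ T ∈ D, σ T ⊆ T)
    (hcov : ∀ T ∈ D, ∀ x, x ∉ T → insert x T ∈ D → σ (insert x T) = σ T) (n : ℤ)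
    (h : ∀ S : Finset α,
      Acyc {T' : Finset α | Disjoint S T' ∧ S ∪ T' ∈ D ∧ σ (S ∪ T') = S} (n - S.card)) :
    Acyc D n := by
  classical
  intro c hc hcyc
  have hcD : ∀ T, c T ≠ 0 → T ∈ D := fun T hT => (hc T hT).1
  -- the pieces of the cycle
  set cS : Finset α → Finset α → ZMod 2 := fun S T' =>
    if Disjoint S T' ∧ S ∪ T' ∈ D ∧ σ (S ∪ T') = S then c (S ∪ T') else 0 with hcS
  have h1 : ∀ S T' : Finset α, Disjoint S T' ∧ S ∪ T' ∈ D ∧ σ (S ∪ T') = S →
      cS S T' = c (S ∪ T') := fun S T' hT => by simp only [hcS]; rw [if_pos hT]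
  have h2 : ∀ S T' : Finset α, ¬ (Disjoint S T' ∧ S ∪ T' ∈ D ∧ σ (S ∪ T') = S) →
      cS S T' = 0 := fun S T' hT => by simp only [hcS]; rw [if_neg hT]
  have hex : ∀ S : Finset α, ∃ b : Finset α → ZMod 2,
      Supp {T' : Finset α | Disjoint S T' ∧ S ∪ T' ∈ D ∧ σ (S ∪ T') = S} (n - S.card + 1) b ∧
      ∀ T ∈ {T' : Finset α | Disjoint S T' ∧ S ∪ T' ∈ D ∧ σ (S ∪ T') = S},
        bd b T = cS S T := by
    intro S
    apply h S (cS S)
    · intro T' hT'
      have hm : Disjoint S T' ∧ S ∪ T' ∈ D ∧ σ (S ∪ T') = S := by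
        by_contra hn
        exact hT' (h2 S T' hn)
      refine ⟨hm, ?_⟩
      rw [h1 S T' hm] at hT'
      have := (hc _ hT').2
      rw [card_union_of_disjoint hm.1] at this
      push_cast at this
      linarith
    · intro R hR
      rw [bd_piece σ hcov hcD S (h1 S) (h2 S) hR]
      exact hcyc _ hR.2.1
  choose b hb hbd using hex
  refine ⟨fun T => if T ∈ D then b (σ T) (T \ σ T) else 0, ?_, ?_⟩
  · intro T hT
    simp only [ne_eq, ite_eq_right_iff, not_forall] at hT
    obtain ⟨hTD, hT⟩ := hT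
    refine ⟨hTD, ?_⟩
    have h3 := (hb _ _ hT).2
    have h4 := card_sdiff_add_card_eq_card (hσ T hTD)
    have h5 : ((T \ σ T).card : ℤ) + (σ T).card = T.card := by exact_mod_cast h4
    linarith
  · intro T hT
    have hu : σ T ∪ (T \ σ T) = T := union_sdiff_of_subset (hσ T hT)
    have hm : Disjoint (σ T) (T \ σ T) ∧ σ T ∪ (T \ σ T) ∈ D ∧ σ (σ T ∪ (T \ σ T)) = σ T := by
      rw [hu]
      exact ⟨disjoint_sdiff, hT, rfl⟩
    have h6 : bd (b (σ T)) (T \ σ T) =
        bd (fun T => if T ∈ D then b (σ T) (T \ σ T) else 0) (σ T ∪ (T \ σ T)) := by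
      apply bd_piece σ hcov _ (σ T) _ _ hm
      · intro T' hT'
        by_contra hn
        exact hT' (if_neg hn)
      · rintro T' ⟨hd, hD, hs⟩
        rw [if_pos hD, hs, union_sdiff_cancel_left hd]
      · intro T' hT'
        by_contra hn
        exact hT' (hb _ _ hn).1
    rw [hu] at h6
    rw [← h6, hbd (σ T) _ hm, h1 _ _ hm, hu]

theorem acyc_link {D' : Set (Finset α)} {v : α} (hv : ∀ T ∈ D', v ∉ T) {n : ℤ}
    (h : Acyc D' (n - 1)) : Acyc {T : Finset α | v ∈ T ∧ T.erase v ∈ D'} n := by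
  apply acyc_fib (fun _ => {v})
  · rintro T ⟨hT, -⟩
    exact singleton_subset_iff.2 hT
  · intro T _ x _ _
    rfl
  · intro S
    by_cases hS : S = {v}
    · subst hS
      have he : {T' : Finset α | Disjoint {v} T' ∧
          {v} ∪ T' ∈ {T : Finset α | v ∈ T ∧ T.erase v ∈ D'} ∧ ({v} : Finset α) = {v}} = D' := by
        ext T'
        simp only [Set.mem_setOf_eq, disjoint_singleton_left, and_true]
        constructor
        · rintro ⟨h1, -, h2⟩
          have : ({v} ∪ T').erase v = T' := by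
            rw [← insert_eq, erase_insert h1]
          rwa [this] at h2
        · intro hT
          refine ⟨hv T' hT, mem_union_left _ (mem_singleton_self v), ?_⟩
          rw [← insert_eq, erase_insert (hv T' hT)]
          exact hT
      rw [he, card_singleton]
      exact_mod_cast h
    · have he : {T' : Finset α | Disjoint S T' ∧
          S ∪ T' ∈ {T : Finset α | v ∈ T ∧ T.erase v ∈ D'} ∧ ({v} : Finset α) = S} = ∅ := by
        ext T'
        simp only [Set.mem_setOf_eq, Set.mem_empty_iff_false, iff_false]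
        rintro ⟨-, -, h⟩
        exact hS h.symm
      rw [he]
      exact acyc_empty _

end Pool.Agent.DT3
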