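import Pool.Agent.DT3.Ch

/-!
Two out of three.  `D` is a convex family, `D₀ ⊆ D` is closed downwards in `D`; `D₁ = D \ D₀`.

Write `c|X` for the restriction of a chain to a family `X` (zero outside).  Facts used all the time:
(a) if `c` is supported in `D₀` and `S ∈ D \ D₀` then `bd c S = 0` (a term `c (S + x) ≠ 0` has
`S + x ∈ D₀`, hence `S ∈ D₀`);
(b) if `c` is supported in `D`, `S ∈ D`, then every term of `bd (bd c) S` has its middle set
`S + x` in `D` if it is non-zero (convexity), so `bd ((bd c)|D) S = bd (bd c) S = 0`.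

* `acyc_down`.  Let `c` be a relative cycle in `D₀` (size `n`).  By (a) it is a relative cycle in `D`, so
  `c = bd b` on `D`, `b` supported in `D`, size `n + 1`.  `b₁ = b|D₁` is a relative cycle in `D₁`: for
  `T ∈ D₁` we have `bd b₁ T = bd b T = c T = 0` (by (a) the part `b|D₀` contributes zero).  Hence
  `b₁ = bd a` on `D₁` with `a` supported in `D₁`, size `n + 2`.  Put `b' T = b T + bd a T` for `T ∈ D₀` and
  `0` otherwise.  `b + bd a` vanishes on `D₁`, and for `S ∈ D₀` and `S + x ∉ D` both `b (S + x) = 0` and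
  `bd a (S + x) = 0` (if `a (S + x + y) ≠ 0` then `S + x + y ∈ D`, and `S + x ∈ D` by convexity), so
  `bd b' S = bd b S + bd (bd a) S = c S`.  The support of `b'` has size `n + 1` by `bd_card`.
* `acyc_glue`.  Let `c` be a relative cycle in `D`; `c₁ = c|D₁` is a relative cycle in `D₁` (fact (a)), so
  `c₁ = bd b₁` on `D₁`, `b₁` supported in `D₁`.  Put `c' T = c T + bd b₁ T` for `T ∈ D` and `0` otherwise:
  it vanishes on `D₁`, so it is supported in `D₀`, and it is a relative cycle in `D₀` (for `S ∈ D₀`: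
  `bd c' S = bd c S + bd (bd b₁) S = 0`, again the sets outside `D` give nothing).  So `c' = bd b₀` on `D₀`,
  and `b = b₀ + b₁` works: on `D₁` `bd b₀ = 0` by (a); on `D₀` `bd b₀ + bd b₁ = c' + bd b₁ = c`.
* `acyc_up`.  Let `c` be a relative cycle in `D₁` of size `n`.  `w T = bd c T` for `T ∈ D₀`, `0` otherwise,
  is a relative cycle of size `n - 1` in `D₀` (for `S ∈ D₀`: `bd w S = bd (bd c) S = 0`: the sets `S + x`
  in `D₁` contribute `bd c (S + x) = 0`, those outside `D` contribute zero by convexity).  So `w = bd u`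
  on `D₀` with `u` supported in `D₀` of size `n`.  `c + u` is a relative cycle in `D`, so it is `bd b` on
  `D`; `b₁ = b|D₁` satisfies `bd b₁ T = bd b T = c T + u T = c T` for `T ∈ D₁`.
-/

set_option autoImplicit false

namespace Pool.Agent.DT3

open Finset

variable {α : Type*} [Fintype α] [DecidableEq α]

open Classical in
/-- restriction of a chain to a family -/
private noncomputable def rs (X : Set (Finset α)) (c : Finset α → ZMod 2) : Finset α → ZMod 2 :=
  fun T => if T ∈ X then c T else 0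

omit [Fintype α] [DecidableEq α] in
private theorem rs_mem {X : Set (Finset α)} {c : Finset α → ZMod 2} {T : Finset α} (h : T ∈ X) :
    rs X c T = c T := by
  unfold rs
  rw [if_pos h]

omit [Fintype α] [DecidableEq α] in
private theorem rs_not_mem {X : Set (Finset α)} {c : Finset α → ZMod 2} {T : Finset α}
    (h : T ∉ X) : rs X c T = 0 := by
  unfold rs
  rw [if_neg h]

omit [Fintype α] [DecidableEq α] in
private theorem rs_ne {X : Set (Finset α)} {c : Finset α → ZMod 2} {T : Finset α}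
    (h : rs X c T ≠ 0) : T ∈ X ∧ c T ≠ 0 := by
  by_cases hT : T ∈ X
  · rw [rs_mem hT] at h
    exact ⟨hT, h⟩
  · exact absurd (rs_not_mem hT) h

/-- (a) -/
private theorem bd_off {D D₀ : Set (Finset α)}
    (hdown : ∀ S ∈ D, ∀ T ∈ D₀, S ⊆ T → S ∈ D₀) {n : ℤ} {c : Finset α → ZMod 2}
    (hc : Supp D₀ n c) {S : Finset α} (hS : S ∈ D) (hS' : S ∉ D₀) : bd c S = 0 := by
  unfold bd
  refine Finset.sum_eq_zero fun x _ => ?_
  by_contra hne
  exact hS' (hdown S hS _ (hc _ hne).1 (Finset.subset_insert x S))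

/-- (b) -/
private theorem bd_mid {D : Set (Finset α)} (hD : Cvx D) {n : ℤ} {c : Finset α → ZMod 2}
    (hc : Supp D n c) {S : Finset α} (hS : S ∈ D) {x : α} (hx : insert x S ∉ D) :
    bd c (insert x S) = 0 := by
  unfold bd
  refine Finset.sum_eq_zero fun y _ => ?_
  by_contra hne
  exact hx (hD S hS _ (hc _ hne).1 _ (Finset.subset_insert x S) (Finset.subset_insert y _))

/-- restriction to the upper part does not change the boundary there -/
private theorem bd_rs {D D₀ : Set (Finset α)}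
    (hdown : ∀ S ∈ D, ∀ T ∈ D₀, S ⊆ T → S ∈ D₀) {n : ℤ} {c : Finset α → ZMod 2}
    (hc : Supp D n c) {S : Finset α} (hS : S ∈ D) (hS' : S ∉ D₀) :
    bd (rs (D \ D₀) c) S = bd c S := by
  refine bd_congr fun x _ => ?_
  by_cases hT : insert x S ∈ D \ D₀
  · exact rs_mem hT
  · rw [rs_not_mem hT]
    by_contra hne
    have h1 := (hc _ (Ne.symm hne)).1
    have h2 : insert x S ∈ D₀ := by
      by_contra h3
      exact hT ⟨h1, h3⟩
    exact hS' (hdown S hS _ h2 (Finset.subset_insert x S))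

omit [Fintype α] [DecidableEq α] in
private theorem supp_rs {D X : Set (Finset α)} {n : ℤ} {c : Finset α → ZMod 2}
    (hc : Supp D n c) : Supp X n (rs X c) := by
  intro T hT
  exact ⟨(rs_ne hT).1, (hc T (rs_ne hT).2).2⟩

omit [Fintype α] [DecidableEq α] in
private theorem eq_zero_of_supp {X : Set (Finset α)} {n : ℤ} {c : Finset α → ZMod 2}
    (hc : Supp X n c) {T : Finset α} (hT : T ∉ X) : c T = 0 := by
  by_contra hne
  exact hT (hc T hne).1

theorem acyc_down {D D₀ : Set (Finset α)} (hD : Cvx D) (h₀ : D₀ ⊆ D)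
    (hdown : ∀ S ∈ D, ∀ T ∈ D₀, S ⊆ T → S ∈ D₀) {n : ℤ} (h : Acyc D n)
    (h₁ : Acyc (D \ D₀) (n + 1)) : Acyc D₀ n := by
  intro c hc hcyc
  obtain ⟨b, hb, hbc⟩ := h c (hc.mono h₀) (by
    intro S hS
    by_cases hS' : S ∈ D₀
    · exact hcyc S hS'
    · exact bd_off hdown hc hS hS')
  obtain ⟨a, ha, hab⟩ := h₁ (rs (D \ D₀) b) (supp_rs hb) (by
    rintro T ⟨hT, hT'⟩
    rw [bd_rs hdown hb hT hT', hbc T hT]
    exact eq_zero_of_supp hc hT')
  refine ⟨rs D₀ (b + bd a), ?_, ?_⟩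
  · intro T hT
    obtain ⟨hT0, hne⟩ := rs_ne hT
    refine ⟨hT0, ?_⟩
    by_cases h1 : b T = 0
    · have h2 : bd a T ≠ 0 := by
        intro h3
        exact hne (by simp [h1, h3])
      have h3 := bd_card ha h2
      linarith
    · exact (hb T h1).2
  · intro S hS
    have hSD : S ∈ D := h₀ hS
    have e : bd (rs D₀ (b + bd a)) S = bd (b + bd a) S := by
      refine bd_congr fun x _ => ?_
      by_cases h1 : insert x S ∈ D₀
      · exact rs_mem h1
      · rw [rs_not_mem h1, Pi.add_apply]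
        by_cases h2 : insert x S ∈ D
        · rw [hab _ ⟨h2, h1⟩, rs_mem (show insert x S ∈ D \ D₀ from ⟨h2, h1⟩)]
          exact (CharTwo.add_self_eq_zero _).symm
        · rw [eq_zero_of_supp hb h2, bd_mid hD (ha.mono Set.sdiff_subset) hSD h2, add_zero]
    rw [e, bd_add, bd_bd, add_zero]
    exact hbc S hSD

theorem acyc_glue {D D₀ : Set (Finset α)} (hD : Cvx D) (h₀ : D₀ ⊆ D)
    (hdown : ∀ S ∈ D, ∀ T ∈ D₀, S ⊆ T → S ∈ D₀) {n : ℤ} (h : Acyc D₀ n)
    (h₁ : Acyc (D \ D₀) n) : Acyc D n := by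
  intro c hc hcyc
  obtain ⟨b₁, hb₁, hbc₁⟩ := h₁ (rs (D \ D₀) c) (supp_rs hc) (by
    rintro T ⟨hT, hT'⟩
    rw [bd_rs hdown hc hT hT']
    exact hcyc T hT)
  have hb₁D : Supp D (n + 1) b₁ := hb₁.mono Set.sdiff_subset
  obtain ⟨b₀, hb₀, hbc₀⟩ := h (rs D (c + bd b₁)) (by
    intro T hT
    obtain ⟨hTD, hne⟩ := rs_ne hT
    have hT0 : T ∈ D₀ := by
      by_contra hT0
      apply hne
      rw [Pi.add_apply, hbc₁ T ⟨hTD, hT0⟩, rs_mem (show T ∈ D \ D₀ from ⟨hTD, hT0⟩)]
      exact CharTwo.add_self_eq_zero _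
    refine ⟨hT0, ?_⟩
    by_cases h1 : c T = 0
    · have h2 : bd b₁ T ≠ 0 := by
        intro h3
        exact hne (by simp [h1, h3])
      have h3 := bd_card hb₁ h2
      linarith
    · exact (hc T h1).2) (by
    intro S hS
    have hSD : S ∈ D := h₀ hS
    have e : bd (rs D (c + bd b₁)) S = bd (c + bd b₁) S := by
      refine bd_congr fun x _ => ?_
      by_cases h1 : insert x S ∈ D
      · exact rs_mem h1
      · rw [rs_not_mem h1, Pi.add_apply, eq_zero_of_supp hc h1, bd_mid hD hb₁D hSD h1, add_zero]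
    rw [e, bd_add, bd_bd, add_zero]
    exact hcyc S hSD)
  refine ⟨b₀ + b₁, (hb₀.mono h₀).add hb₁D, ?_⟩
  intro T hT
  rw [bd_add]
  by_cases hT0 : T ∈ D₀
  · rw [hbc₀ T hT0, rs_mem hT, Pi.add_apply, add_assoc, CharTwo.add_self_eq_zero, add_zero]
  · rw [bd_off hdown hb₀ hT hT0, hbc₁ T ⟨hT, hT0⟩, rs_mem (show T ∈ D \ D₀ from ⟨hT, hT0⟩),
      zero_add]

theorem acyc_up {D D₀ : Set (Finset α)} (hD : Cvx D) (h₀ : D₀ ⊆ D)
    (hdown : ∀ S ∈ D, ∀ T ∈ D₀, S ⊆ T → S ∈ D₀) {n : ℤ} (h : Acyc D n)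
    (h₁ : Acyc D₀ (n - 1)) : Acyc (D \ D₀) n := by
  intro c hc hcyc
  have hcD : Supp D n c := hc.mono Set.sdiff_subset
  obtain ⟨u, hu, huw⟩ := h₁ (rs D₀ (bd c)) (by
    intro T hT
    obtain ⟨hT0, hne⟩ := rs_ne hT
    exact ⟨hT0, bd_card hc hne⟩) (by
    intro S hS
    have hSD : S ∈ D := h₀ hS
    have e : bd (rs D₀ (bd c)) S = bd (bd c) S := by
      refine bd_congr fun x _ => ?_
      by_cases h1 : insert x S ∈ D₀
      · exact rs_mem h1
      · rw [rs_not_mem h1]
        by_cases h2 : insert x S ∈ D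
        · exact (hcyc _ ⟨h2, h1⟩).symm
        · exact (bd_mid hD hcD hSD h2).symm
    rw [e, bd_bd])
  have hu' : Supp D₀ n u := by
    intro T hT
    obtain ⟨h1, h2⟩ := hu T hT
    exact ⟨h1, by linarith⟩
  obtain ⟨b, hb, hbc⟩ := h (c + u) (hcD.add (hu'.mono h₀)) (by
    intro S hS
    rw [bd_add]
    by_cases hS0 : S ∈ D₀
    · rw [huw S hS0, rs_mem hS0]
      exact CharTwo.add_self_eq_zero _
    · rw [hcyc S ⟨hS, hS0⟩, bd_off hdown hu' hS hS0, add_zero])
  refine ⟨rs (D \ D₀) b, supp_rs hb, ?_⟩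
  rintro T ⟨hT, hT0⟩
  rw [bd_rs hdown hb hT hT0, hbc T hT, Pi.add_apply, eq_zero_of_supp hu' hT0, add_zero]

end Pool.Agent.DT3
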