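import Pool.Agent.DT3.Cplx
import Pool.Agent.DT3.ChTwo
import Pool.Agent.DT3.ChCone
import Pool.Agent.DT3.ChFib

/-!
LEMMA 0: `n + 1 + nu φ Z ≤ nu φ E → Acyc (II φ E Z) n` (`φ` supermodular, no gap condition).

Proof.  Induction on `|E \ Z|` (for all `E`, `Z`, `n`; say strong induction on `(E \ Z).card`).
If `n < 0`: `acyc_neg`.  If `E \ Z = ∅` then `E = Z` and the hypothesis says `n + 1 ≤ 0`.
Otherwise take any `v ∈ E \ Z`.  `nu φ (E.erase v)` is `nu φ E` or `nu φ E - 1` (`nu_le_erase`).

(1) `nu φ (E.erase v) = nu φ E`.  Then no `T ∈ II φ E Z` contains `v` (`{v}` would be in the complex), and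
`II φ E Z = II φ (E.erase v) Z`: for `v ∉ T`, `T ⊆ E \ Z`: in terms of `kap`: `kap φ E ⊆ E.erase v`, and
by `II_kap` both complexes are equal to `II φ (kap φ E) (Z ∩ kap φ E)` (`kap φ (E.erase v) = kap φ E` by
`kap_congr`).  Induction (`(E.erase v) \ Z` is smaller, `Z ⊆ E.erase v`).

(2) `nu φ (E.erase v) = nu φ E - 1` and `nu φ (insert v Z) = nu φ Z + 1`.  Then `II φ E Z` is a cone with apex
`v` (`acyc_cone`): let `v ∉ T ∈ II φ E Z`; `insert v Z ⊆ E \ T`, and `nu_marg` with
`Z ⊆ (E \ T).erase v`: `nu φ (E \ T) - nu φ ((E \ T).erase v) ≥ nu φ (insert v Z) - nu φ Z = 1`, so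
`nu φ (E \ insert v T) ≤ nu φ (E \ T) - 1 = nu φ E - |insert v T|`, and `≥` holds by `nu_sdiff_ge`.
The converse (`insert v T ∈ II → T ∈ II`) is `cpx_II`.

(3) `nu φ (E.erase v) = nu φ E - 1` and `nu φ (insert v Z) = nu φ Z` (`nu_insert_le`, `nu_mono`: there is no
other case).  `acyc_glue` with `D = II φ E Z`, `D₀ = II φ E (insert v Z) = {T ∈ D | v ∉ T}` (`II_avoid`;
acyclic in degree `n` by induction, `insert v Z ⊆ E`), `D \ D₀ = {T ∈ D | v ∈ T} =
{T | v ∈ T ∧ T.erase v ∈ II φ (E.erase v) Z}` (`II_link`), acyclic in degree `n` by `acyc_link` and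
induction for `E.erase v`, `Z`, `n - 1`: `(n - 1) + 1 + nu φ Z ≤ nu φ E - 1 = nu φ (E.erase v)`.
-/

set_option autoImplicit false

namespace Pool.Agent.DT3

open Finset

variable {α : Type*} [Fintype α] [DecidableEq α] {φ : Finset α → ℤ}

omit [Fintype α] in
private theorem l0_marg_sub {V W : Finset α} (h : Marg φ V) (hW : W ⊆ V) : Marg φ W :=
  fun v hv Y => h v (hW hv) Y

private theorem l0_aux (h : SM φ) (k : ℕ) : ∀ (E Z : Finset α) (n : ℤ), (E \ Z).card ≤ k →
    Z ⊆ E → Marg φ (E \ Z) → n + 1 + nu φ Z ≤ nu φ E → Acyc (II φ E Z) n := by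
  induction k with
  | zero =>
    intro E Z n hk hZ hm hn
    have h0 : E \ Z = ∅ := by
      apply card_eq_zero.mp; omega
    have hEZ : E = Z := Subset.antisymm (sdiff_eq_empty_iff_subset.mp h0) hZ
    subst hEZ
    exact acyc_neg (by omega)
  | succ k ih =>
    intro E Z n hk hZ hm hn
    rcases (E \ Z).eq_empty_or_nonempty with h0 | ⟨v, hv⟩
    · have hEZ : E = Z := Subset.antisymm (sdiff_eq_empty_iff_subset.mp h0) hZ
      subst hEZ
      exact acyc_neg (by omega)
    · have hvE : v ∈ E := (mem_sdiff.mp hv).1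
      have hvZ : v ∉ Z := (mem_sdiff.mp hv).2
      have hmv : ∀ Y, φ (insert v Y) ≤ φ Y + 1 := fun Y => hm v hv Y
      have hZe : Z ⊆ E.erase v := fun z hz => mem_erase.mpr ⟨fun e => hvZ (e ▸ hz), hZ hz⟩
      have hsub1 : E.erase v \ Z ⊆ (E \ Z).erase v := by
        intro x hx
        rw [mem_sdiff, mem_erase] at hx
        rw [mem_erase, mem_sdiff]
        exact ⟨hx.1.1, hx.1.2, hx.2⟩
      have hsub1' : E.erase v \ Z ⊆ E \ Z := hsub1.trans (erase_subset _ _)
      have hcard : ((E \ Z).erase v).card ≤ k := by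
        rw [card_erase_of_mem hv]; omega
      have hc1 : (E.erase v \ Z).card ≤ k := (card_le_card hsub1).trans hcard
      have hsub2 : E \ insert v Z ⊆ (E \ Z).erase v := by
        intro x hx
        rw [mem_sdiff, mem_insert, not_or] at hx
        rw [mem_erase, mem_sdiff]
        exact ⟨hx.2.1, hx.1, hx.2.2⟩
      have hc2 : (E \ insert v Z).card ≤ k := (card_le_card hsub2).trans hcard
      have hm1 : Marg φ (E.erase v \ Z) := l0_marg_sub hm hsub1'
      have hle1 : nu φ (E.erase v) ≤ nu φ E := nu_mono φ (erase_subset _ _)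
      have hle2 : nu φ E ≤ nu φ (E.erase v) + 1 := nu_le_erase hmv E
      rcases (by omega : nu φ (E.erase v) = nu φ E ∨ nu φ (E.erase v) = nu φ E - 1) with he | he
      · -- case 1
        have hvk : v ∉ kap φ E := by
          rw [mem_kap]
          rintro ⟨_, h2⟩
          omega
        have hks : kap φ E ⊆ E.erase v := fun x hx =>
          mem_erase.mpr ⟨fun e => hvk (e ▸ hx), kap_sub φ E hx⟩
        have hkc : kap φ (E.erase v) = kap φ E := kap_congr h hks (erase_subset _ _)
        have hII : II φ E Z = II φ (E.erase v) Z := by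
          rw [II_kap h hm, II_kap h hm1, hkc]
        rw [hII]
        exact ih (E.erase v) Z n hc1 hZe hm1 (by omega)
      · have hle3 : nu φ Z ≤ nu φ (insert v Z) := nu_mono φ (subset_insert _ _)
        have hle4 : nu φ (insert v Z) ≤ nu φ Z + 1 := nu_insert_le hmv Z
        rcases (by omega : nu φ (insert v Z) = nu φ Z + 1 ∨ nu φ (insert v Z) = nu φ Z) with hz | hz
        · -- case 2: cone
          apply acyc_cone v
          intro T hvT
          constructor
          · intro hT
            have hTs : T ⊆ E \ Z := hT.1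
            have hTn : nu φ (E \ T) = nu φ E - T.card := hT.2
            have hiT : insert v T ⊆ E \ Z := insert_subset hv hTs
            refine ⟨hiT, ?_⟩
            have hset : E \ insert v T = (E \ T).erase v := by
              ext x
              rw [mem_sdiff, mem_insert, not_or, mem_erase, mem_sdiff]
              tauto
            have hZT : Z ⊆ (E \ T).erase v := by
              intro z hz'
              rw [mem_erase, mem_sdiff]
              exact ⟨fun e => hvZ (e ▸ hz'), hZ hz', fun hzT => (mem_sdiff.mp (hTs hzT)).2 hz'⟩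
            have hins : insert v ((E \ T).erase v) = E \ T :=
              insert_erase (mem_sdiff.mpr ⟨hvE, hvT⟩)
            have hmg := nu_marg h (v := v) hZT (notMem_erase v (E \ T))
            rw [hins] at hmg
            have hge := nu_sdiff_ge hm hiT E
            have hcd : ((insert v T).card : ℤ) = T.card + 1 := by
              rw [card_insert_of_notMem hvT]; push_cast; ring
            rw [hcd] at hge ⊢
            rw [hset] at hge ⊢
            omega
          · intro hT
            exact cpx_II h hm _ hT T (subset_insert _ _)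
        · -- case 3: glue
          have hcp := cpx_II h hm
          refine acyc_glue (D := II φ E Z) (D₀ := II φ E (insert v Z)) hcp.cvx ?_ ?_ ?_ ?_
          · intro T hT
            exact ((II_avoid hv T).mp hT).1
          · intro S hS T hT hST
            rw [II_avoid hv] at hT ⊢
            exact ⟨hS, fun hvS => hT.2 (hST hvS)⟩
          · exact ih E (insert v Z) n hc2 (insert_subset hvE hZ)
              (l0_marg_sub hm (hsub2.trans (erase_subset _ _))) (by omega)
          · have hset : II φ E Z \ II φ E (insert v Z) =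
                {T : Finset α | v ∈ T ∧ T.erase v ∈ II φ (E.erase v) Z} := by
              ext T
              rw [Set.mem_sdiff, Set.mem_ofPred_eq, II_link hv he T, II_avoid hv T]
              tauto
            rw [hset]
            apply acyc_link
            · intro T hT hvT
              exact (mem_erase.mp (mem_sdiff.mp (hT.1 hvT)).1).1 rfl
            · exact ih (E.erase v) Z (n - 1) hc1 hZe hm1 (by omega)

theorem lemma0 (h : SM φ) {E Z : Finset α} (hZ : Z ⊆ E) (hm : Marg φ (E \ Z)) {n : ℤ}
    (hn : n + 1 + nu φ Z ≤ nu φ E) : Acyc (II φ E Z) n :=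
  l0_aux h _ E Z n le_rfl hZ hm hn

end Pool.Agent.DT3
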