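import Pool.Agent.DT3.Rk
import Pool.Agent.DT3.Hall
import Pool.Agent.DT3.Lem0

/-!
Edmonds' partition theorem from `hall` and `lemma0`.

`block`: `|E| = (m + 1) r E`, `|Y| ≤ (m + 1) r Y` for `Y ⊆ E`; there is a basis `T` of `E` with `|Y| ≤ m r Y` for all
`Y ⊆ E \ T`.  Proof.  If `r E = 0` then `E = ∅`, `T = ∅`.  Otherwise `φ = wr m r`, `K = II φ E ∅` (a complex, `cpx_II`,
contains `∅`).  `φ Y ≤ r Y` for `Y ⊆ E`, so `nu φ F ≤ r F` for `F ⊆ E` and `nu φ E = φ E = r E`.  No loops
(`|{e}| ≤ (m + 1) r {e}`).  For a flat `F ≠ E`: `{T ∈ K | Disjoint T F} = II φ E F`, and `lemma0` applies: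
`n + 1 + nu φ F ≤ n + 1 + r F ≤ r E = nu φ E`.  `hall` gives `T ∈ II φ E ∅` with `|T| = r E = r T`:
`nu φ (E \ T) = r E - |T| = 0`, so `φ Y ≤ 0` for `Y ⊆ E \ T`.

`parts`: induction on `m` (for all `E`): `|E| = m k`, `|Y| ≤ m r Y` and `r Y ≤ k` for all `Y ⊆ E`: then `E` is the disjoint
union of `B i`, `i < m`, with `|B i| = r (B i) = k`.  `m = 0`: `E = ∅`.  `m + 1`: `(m + 1) k = |E| ≤ (m + 1) r E`, so
`r E = k`; `T` from `block`; apply the induction hypothesis to `E \ T` (`|E \ T| = m k`), and
`B = Fin.cons T B'`.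
-/

set_option autoImplicit false

namespace Pool.Agent.DT3

open Finset

variable {α : Type*} [Fintype α] [DecidableEq α] {r : Finset α → ℕ}

theorem block (h : RankFn r) {m : ℕ} {E : Finset α} (hE : E.card = (m + 1) * r E)
    (hY : ∀ Y ⊆ E, Y.card ≤ (m + 1) * r Y) :
    ∃ T ⊆ E, T.card = r E ∧ r T = r E ∧ ∀ Y ⊆ E \ T, Y.card ≤ m * r Y := by
  rcases Nat.eq_zero_or_pos (r E) with h0 | hpos
  · have hE0 : E = ∅ := by
      rw [h0, Nat.mul_zero] at hE
      exact card_eq_zero.1 hE
    refine ⟨∅, empty_subset E, ?_, ?_, ?_⟩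
    · rw [h0, card_empty]
    · rw [h0, h.empty]
    · intro Y hYE
      rw [hE0] at hYE
      have hY0 : Y = ∅ := by
        apply subset_empty.1
        exact hYE.trans sdiff_subset
      rw [hY0, card_empty]
      exact Nat.zero_le _
  · have hφ : ∀ Y ⊆ E, wr m r Y ≤ r Y := by
      intro Y hYE
      have h1 := hY Y hYE
      unfold wr
      have h2 : (Y.card : ℤ) ≤ (m + 1) * r Y := by exact_mod_cast h1
      linarith
    have hnu : ∀ F ⊆ E, nu (wr m r) F ≤ r F := by
      intro F hF
      refine nu_le_iff.2 fun Y hYF => ?_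
      have h1 := hφ Y (hYF.trans hF)
      have h2 : (r Y : ℤ) ≤ r F := by exact_mod_cast h.mono Y F hYF
      exact h1.trans h2
    have hnuE : nu (wr m r) E = r E := by
      apply le_antisymm (hnu E (Subset.refl E))
      have h1 : wr m r E ≤ nu (wr m r) E := le_nu _ (Subset.refl E)
      have h2 : wr m r E = r E := by
        unfold wr
        rw [hE]
        push_cast
        ring
      rwa [h2] at h1
    have hl : ∀ e ∈ E, 0 < r {e} := by
      intro e he
      have h1 := hY {e} (singleton_subset_iff.2 he)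
      rw [card_singleton] at h1
      rcases Nat.eq_zero_or_pos (r {e}) with h2 | h2
      · rw [h2, Nat.mul_zero] at h1
        omega
      · exact h2
    obtain ⟨T, hTK, hTc, hTr⟩ := hall h hl hpos (K := II (wr m r) E ∅)
      (cpx_II (wr_sm h m) (wr_marg h m _))
      (fun T hT => hT.1.trans sdiff_subset)
      ⟨empty_subset _, by simp⟩
      (by
        intro F hF hFE n hn
        have hset : {T | T ∈ II (wr m r) E ∅ ∧ Disjoint T F} = II (wr m r) E F := by
          ext T
          constructor
          · rintro ⟨⟨h1, h2⟩, h3⟩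
            refine ⟨?_, h2⟩
            intro x hx
            rw [mem_sdiff]
            exact ⟨sdiff_subset (h1 hx), fun hxF => (disjoint_left.1 h3 hx) hxF⟩
          · rintro ⟨h1, h2⟩
            refine ⟨⟨?_, h2⟩, ?_⟩
            · intro x hx
              rw [sdiff_empty]
              exact sdiff_subset (h1 hx)
            · rw [disjoint_left]
              intro x hx
              exact (mem_sdiff.1 (h1 hx)).2
        rw [hset]
        apply lemma0 (wr_sm h m) hF.1 (wr_marg h m _)
        rw [hnuE]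
        have h1 := hnu F hF.1
        linarith)
    have hTE : T ⊆ E := hTK.1.trans sdiff_subset
    refine ⟨T, hTE, hTc, hTr, ?_⟩
    intro Y hYT
    have h1 : nu (wr m r) (E \ T) = 0 := by
      rw [hTK.2, hnuE, hTc, sub_self]
    have h2 : wr m r Y ≤ nu (wr m r) (E \ T) := le_nu _ hYT
    rw [h1] at h2
    unfold wr at h2
    have h3 : (Y.card : ℤ) ≤ m * r Y := by linarith
    exact_mod_cast h3

theorem parts (h : RankFn r) {k : ℕ} : ∀ (m : ℕ) (E : Finset α), E.card = m * k →
    (∀ Y ⊆ E, Y.card ≤ m * r Y) → (∀ Y ⊆ E, r Y ≤ k) →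
    ∃ B : Fin m → Finset α, (∀ i, B i ⊆ E) ∧ (∀ i, (B i).card = k ∧ r (B i) = k) ∧
      (∀ i j, i ≠ j → Disjoint (B i) (B j)) ∧ ∀ x ∈ E, ∃ i, x ∈ B i := by
  intro m
  induction m with
  | zero =>
    intro E hE _ _
    have hE0 : E = ∅ := by
      rw [Nat.zero_mul] at hE
      exact card_eq_zero.1 hE
    refine ⟨fun i => i.elim0, fun i => i.elim0, fun i => i.elim0, fun i => i.elim0, ?_⟩
    intro x hx
    rw [hE0] at hx
    exact absurd hx (notMem_empty x)
  | succ m ih =>
    intro E hE hY hk
    have hrE : r E = k := by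
      apply le_antisymm (hk E (Subset.refl E))
      have h1 := hY E (Subset.refl E)
      rw [hE] at h1
      exact Nat.le_of_mul_le_mul_left h1 (Nat.succ_pos m)
    obtain ⟨T, hTE, hTc, hTr, hTY⟩ := block h (m := m) (E := E) (by rw [hE, hrE]) hY
    have hc : (E \ T).card = m * k := by
      rw [card_sdiff_of_subset hTE, hE, hTc, hrE, Nat.succ_mul, Nat.add_sub_cancel]
    obtain ⟨B, hB1, hB2, hB3, hB4⟩ := ih (E \ T) hc hTY
      (fun Y hYE => hk Y (hYE.trans sdiff_subset))
    refine ⟨Fin.cons T B, ?_, ?_, ?_, ?_⟩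
    · intro i
      refine Fin.cases ?_ (fun i => ?_) i
      · rw [Fin.cons_zero]
        exact hTE
      · rw [Fin.cons_succ]
        exact (hB1 i).trans sdiff_subset
    · intro i
      refine Fin.cases ?_ (fun i => ?_) i
      · rw [Fin.cons_zero]
        exact ⟨hTc.trans hrE, hTr.trans hrE⟩
      · rw [Fin.cons_succ]
        exact hB2 i
    · have hTB : ∀ i, Disjoint T (B i) := by
        intro i
        rw [disjoint_left]
        intro x hxT hxB
        exact (mem_sdiff.1 (hB1 i hxB)).2 hxT
      intro i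
      refine Fin.cases ?_ (fun i => ?_) i
      · intro j
        refine Fin.cases ?_ (fun j => ?_) j
        · intro hij
          exact absurd rfl hij
        · intro _
          rw [Fin.cons_zero, Fin.cons_succ]
          exact hTB j
      · intro j
        refine Fin.cases ?_ (fun j => ?_) j
        · intro _
          rw [Fin.cons_zero, Fin.cons_succ]
          exact (hTB i).symm
        · intro hij
          rw [Fin.cons_succ, Fin.cons_succ]
          exact hB3 i j (fun hij' => hij (by rw [hij']))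
    · intro x hx
      by_cases hxT : x ∈ T
      · exact ⟨0, by rw [Fin.cons_zero]; exact hxT⟩
      · obtain ⟨i, hi⟩ := hB4 x (mem_sdiff.2 ⟨hx, hxT⟩)
        exact ⟨i.succ, by rw [Fin.cons_succ]; exact hi⟩

end Pool.Agent.DT3
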