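import Pool.Agent.DT3.Cnn

/-!
Elementary facts on `EB` (the bound for separated families; definitions in `Defs`).

* `EB.nonneg`: `P = ∅`.
* `EB.mono`: a separated family in `Z' ⊆ Z` is one in `Z`.
* `EB.single`: for `∅ ≠ A ⊆ Z`: `P = {A}`.
* `EB.symm`: `gg φ c d = gg φ d c`.
* `EB.nu_le`: `c, d ∉ Z'`, `Z' ⊆ Z`: `nu φ Z' ≤ e`: take a maximiser `A ⊆ Z'`; if `A = ∅` use `0 ≤ e`;
  otherwise `P = {A}`: `φ A + 1 ≤ e`.
* `SepFam.subfam`: if `P` is separated in `Z` and for every `A ∈ P` a set `f A ⊆ A` is given then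
  `φ (⋃ f A) = ∑ φ (f A)` (supermodularity: write the union of `P` in a sequence; by induction on subfamilies
  `Q ⊆ P`: `φ (⋃_Q A) = ∑_Q φ A` [both `φ (⋃_Q) ≥ ∑_Q φ` and
  `φ (⋃_P) ≥ φ (⋃_Q) + φ (⋃_{P \ Q}) ≥ ∑_P φ`], then for `A ∉ Q`: `sep_restrict` with
  `Y₁ = ⋃_Q A'`, `Y₂ = A`, `W = (⋃_Q f A') ∪ f A`).
* `SepFam.replace`: the main tool: remove a member `A` and put in a finite family `R` of disjoint nonempty
  subsets of `A` with `φ (⋃ R) = ∑_R φ` (`R = ∅` allowed); the result is a separated family: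
  by the previous item `φ (⋃_{P - A} ∪ ⋃ R) = ∑_{P - A} φ + φ (⋃ R)`.
-/

set_option autoImplicit false

namespace Pool.Agent.DT3

open Finset

variable {α : Type*} [DecidableEq α] {φ : Finset α → ℤ} {Z Z' : Finset α} {c d : α} {e : ℤ}
  {P : Finset (Finset α)}

theorem EB.nonneg (hz : φ ∅ = 0) (h : EB φ Z c d e) : 0 ≤ e := by
  have h1 := h ∅ ⟨by simp, by simp, by simp, by simp [hz]⟩
  simpa using h1

theorem EB.mono (h : EB φ Z c d e) (hZ : Z' ⊆ Z) : EB φ Z' c d e := by
  intro P hP
  exact h P ⟨hP.nonempty, fun A hA => (hP.sub A hA).trans hZ, hP.disj, hP.sep⟩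

theorem EB.single (h : EB φ Z c d e) {A : Finset α} (hA : A.Nonempty) (hAZ : A ⊆ Z) :
    gg φ c d A ≤ e := by
  have h1 := h {A} ⟨by simpa using hA, by simpa using hAZ, by
    intro B hB C hC hBC
    rw [mem_singleton] at hB hC
    exact absurd (hB.trans hC.symm) hBC, by simp⟩
  simpa using h1

theorem EB.symm (h : EB φ Z c d e) : EB φ Z d c e := by
  intro P hP
  have h1 := h P hP
  have h2 : ∑ A ∈ P, gg φ d c A = ∑ A ∈ P, gg φ c d A := by
    refine sum_congr rfl fun A _ => ?_
    unfold gg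
    omega
  rw [h2]
  exact h1

theorem EB.nu_le (hz : φ ∅ = 0) (h : EB φ Z c d e) (hZ : Z' ⊆ Z) (hc : c ∉ Z') (hd : d ∉ Z') :
    nu φ Z' ≤ e := by
  rw [nu_le_iff]
  intro Y hY
  rcases Y.eq_empty_or_nonempty with h0 | h0
  · rw [h0, hz]
    exact h.nonneg hz
  · have h1 := h.single h0 (hY.trans hZ)
    have hcY : c ∉ Y := fun hh => hc (hY hh)
    have hdY : d ∉ Y := fun hh => hd (hY hh)
    unfold gg at h1
    rw [if_neg hcY, if_neg hdY] at h1
    omega

private theorem ebb_super_sum (h : SM φ) (f : Finset α → Finset α) (Q : Finset (Finset α)) :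
    (∀ A ∈ Q, ∀ B ∈ Q, A ≠ B → Disjoint (f A) (f B)) → ∑ A ∈ Q, φ (f A) ≤ φ (Q.biUnion f) := by
  induction Q using Finset.induction_on with
  | empty =>
    intro _
    simp [h.zero]
  | insert A Q hA ih =>
    intro hd
    have h1 := ih fun B hB C hC => hd B (mem_insert_of_mem hB) C (mem_insert_of_mem hC)
    have h2 : Disjoint (f A) (Q.biUnion f) := by
      rw [disjoint_biUnion_right]
      intro B hB
      exact hd A (mem_insert_self A Q) B (mem_insert_of_mem hB) fun e => hA (e ▸ hB)
    have h3 := h.add_le h2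
    rw [sum_insert hA, biUnion_insert]
    omega

private theorem ebb_sub_eq (h : SM φ) (hP : SepFam φ Z P) {Q : Finset (Finset α)} (hQ : Q ⊆ P) :
    φ (Q.biUnion id) = ∑ A ∈ Q, φ A := by
  have h1 : ∑ A ∈ Q, φ (id A) ≤ φ (Q.biUnion id) := ebb_super_sum h id Q fun A hA B hB hAB =>
    hP.disj A (hQ hA) B (hQ hB) hAB
  have h2 : ∑ A ∈ P \ Q, φ (id A) ≤ φ ((P \ Q).biUnion id) :=
    ebb_super_sum h id (P \ Q) fun A hA B hB hAB =>
      hP.disj A (mem_sdiff.1 hA).1 B (mem_sdiff.1 hB).1 hAB
  have h3 : Disjoint (Q.biUnion id) ((P \ Q).biUnion id) := by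
    rw [disjoint_biUnion_left]
    intro A hA
    rw [disjoint_biUnion_right]
    intro B hB
    exact hP.disj A (hQ hA) B (mem_sdiff.1 hB).1 fun e => (mem_sdiff.1 hB).2 (e ▸ hA)
  have h4 := h.add_le h3
  have h5 : Q.biUnion id ∪ (P \ Q).biUnion id = P.biUnion id := by
    rw [← union_biUnion, union_sdiff_of_subset hQ]
  rw [h5, hP.sep] at h4
  have h6 : ∑ A ∈ P \ Q, φ A + ∑ A ∈ Q, φ A = ∑ A ∈ P, φ A := sum_sdiff hQ
  simp only [id] at h1 h2
  omega

theorem SepFam.shrink (hφ : SM φ) (hP : SepFam φ Z P) (f : Finset α → Finset α)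
    (hf : ∀ A ∈ P, f A ⊆ A) : φ (P.biUnion f) = ∑ A ∈ P, φ (f A) := by
  have key : ∀ Q : Finset (Finset α), Q ⊆ P → φ (Q.biUnion f) = ∑ A ∈ Q, φ (f A) := by
    intro Q
    induction Q using Finset.induction_on with
    | empty =>
      intro _
      simp [hφ.zero]
    | insert A Q hA ih =>
      intro hQ
      have hQ' : Q ⊆ P := (subset_insert A Q).trans hQ
      have hAP : A ∈ P := hQ (mem_insert_self A Q)
      have h1 := ih hQ'
      have hd : Disjoint (Q.biUnion id) A := by
        rw [disjoint_biUnion_left]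
        intro B hB
        exact hP.disj B (hQ' hB) A hAP fun e => hA (e ▸ hB)
      have hs : φ (Q.biUnion id ∪ A) ≤ φ (Q.biUnion id) + φ A := by
        have h2 := ebb_sub_eq hφ hP hQ
        rw [biUnion_insert, sum_insert hA] at h2
        have h3 := ebb_sub_eq hφ hP hQ'
        rw [union_comm]
        simp only [id] at h2 h3 ⊢
        omega
      have hfQ : Q.biUnion f ⊆ Q.biUnion id := by
        intro x hx
        rw [mem_biUnion] at hx ⊢
        obtain ⟨B, hB, hx⟩ := hx
        exact ⟨B, hB, hf B (hQ' hB) hx⟩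
      have hW : Q.biUnion f ∪ f A ⊆ Q.biUnion id ∪ A := union_subset_union hfQ (hf A hAP)
      have h4 := sep_restrict hφ hd hs hW
      have h5 : (Q.biUnion f ∪ f A) ∩ Q.biUnion id = Q.biUnion f := by
        ext x
        rw [mem_inter, mem_union]
        constructor
        · rintro ⟨hx | hx, hx'⟩
          · exact hx
          · exact absurd (hf A hAP hx) (disjoint_left.1 hd hx')
        · intro hx
          exact ⟨Or.inl hx, hfQ hx⟩
      have h6 : (Q.biUnion f ∪ f A) ∩ A = f A := by
        ext x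
        rw [mem_inter, mem_union]
        constructor
        · rintro ⟨hx | hx, hx'⟩
          · exact absurd hx' (disjoint_left.1 hd (hfQ hx))
          · exact hx
        · intro hx
          exact ⟨Or.inr hx, hf A hAP hx⟩
      rw [h5, h6] at h4
      have h7 : Disjoint (f A) (Q.biUnion f) :=
        (hd.symm.mono_left (hf A hAP)).mono_right hfQ
      have h8 := hφ.add_le h7
      rw [biUnion_insert, sum_insert hA]
      rw [union_comm] at h4
      omega
  exact key P (Subset.refl P)

theorem SepFam.replace (hφ : SM φ) (hP : SepFam φ Z P) {A : Finset α} (hA : A ∈ P)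
    (R : Finset (Finset α)) (hR : ∀ B ∈ R, B.Nonempty ∧ B ⊆ A ∧ B ⊆ Z')
    (hRd : ∀ B ∈ R, ∀ B' ∈ R, B ≠ B' → Disjoint B B') (hRs : φ (R.biUnion id) = ∑ B ∈ R, φ B)
    (hrest : ∀ B ∈ P, B ≠ A → B ⊆ Z') :
    SepFam φ Z' (P.erase A ∪ R) ∧ Disjoint (P.erase A) R := by
  have hdisj : ∀ B ∈ P.erase A, ∀ C ∈ R, Disjoint B C := by
    intro B hB C hC
    rw [mem_erase] at hB
    exact (hP.disj B hB.2 A hA hB.1).mono_right (hR C hC).2.1
  have hPR : Disjoint (P.erase A) R := by
    rw [disjoint_left]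
    intro B hB hB'
    have h1 := hdisj B hB B hB'
    have h2 := (hR B hB').1
    rw [disjoint_self_iff_empty] at h1
    exact h2.ne_empty h1
  refine ⟨⟨?_, ?_, ?_, ?_⟩, hPR⟩
  · intro B hB
    rcases mem_union.1 hB with hB | hB
    · exact hP.nonempty B (mem_erase.1 hB).2
    · exact (hR B hB).1
  · intro B hB
    rcases mem_union.1 hB with hB | hB
    · exact hrest B (mem_erase.1 hB).2 (mem_erase.1 hB).1
    · exact (hR B hB).2.2
  · intro B hB C hC hBC
    rcases mem_union.1 hB with hB | hB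
    · rcases mem_union.1 hC with hC | hC
      · exact hP.disj B (mem_erase.1 hB).2 C (mem_erase.1 hC).2 hBC
      · exact hdisj B hB C hC
    · rcases mem_union.1 hC with hC | hC
      · exact (hdisj C hC B hB).symm
      · exact hRd B hB C hC hBC
  · have hRA : R.biUnion id ⊆ A := by
      rw [biUnion_subset]
      intro B hB
      exact (hR B hB).2.1
    have h1 := hP.shrink hφ (fun B => if B = A then R.biUnion id else B) (by
      intro B _
      by_cases hBA : B = A
      · simp only [hBA, if_true]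
        exact hRA
      · simp only [hBA, if_false]
        exact Subset.refl B)
    have h2 : P = insert A (P.erase A) := (insert_erase hA).symm
    have h3 : A ∉ P.erase A := notMem_erase A P
    have h4 : P.biUnion (fun B => if B = A then R.biUnion id else B)
        = (P.erase A ∪ R).biUnion id := by
      rw [union_biUnion]
      ext x
      rw [mem_biUnion, mem_union, mem_biUnion]
      constructor
      · rintro ⟨B, hB, hx⟩
        by_cases hBA : B = A
        · simp only [hBA, if_true] at hx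
          exact Or.inr hx
        · simp only [hBA, if_false] at hx
          exact Or.inl ⟨B, mem_erase.2 ⟨hBA, hB⟩, hx⟩
      · rintro (⟨B, hB, hx⟩ | hx)
        · rw [mem_erase] at hB
          refine ⟨B, hB.2, ?_⟩
          simp only [hB.1, if_false]
          exact hx
        · refine ⟨A, hA, ?_⟩
          simp only [if_true]
          exact hx
    have h5 : ∑ B ∈ P, φ (if B = A then R.biUnion id else B)
        = φ (R.biUnion id) + ∑ B ∈ P.erase A, φ B := by
      rw [← add_sum_erase P _ hA]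
      simp only [if_true]
      refine congrArg (fun t => φ (R.biUnion id) + t) ?_
      refine sum_congr rfl fun B hB => ?_
      rw [if_neg (mem_erase.1 hB).1]
    rw [← h4, h1, h5, sum_union hPR, hRs]
    ring

end Pool.Agent.DT3
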