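import Pool.Agent.DT3.Cplx
import Pool.Agent.DT3.ChCone
import Pool.Agent.DT3.EBb

/-!
STEP 0 of the proof of Theorem Theta.

* `st0_vertex`: `v ∈ E \ Z` not in `kap φ E`.  `kap φ (E.erase v) = kap φ E` (`kap_congr`), so by `KK_kap`
  both `KK φ E Z c d` and `KK φ (E.erase v) Z c d` are `KK φ (kap φ E) (Z ∩ kap φ E) c d`; `nu` is the same.
* `st0_frozen`: `z ∈ Z`, `z ∉ kap φ E`.  Let `c, d, e, n` be given.  If `c = z` or `d = z` then
  `KK φ E Z c d = ∅`: it is a complex (`cpx_KK`) and `∅` is not in it (`Conn φ E c d` fails by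
  `Conn.mem_left / mem_right`); `acyc_empty`.  Otherwise `c, d ∈ Z.erase z`, and again by `KK_kap`
  `KK φ E Z c d = KK φ (E.erase z) (Z.erase z) c d` (both are `KK φ (kap φ E) (Z ∩ kap φ E) c d`, because
  `Z.erase z ∩ kap φ E = Z ∩ kap φ E`), `EB.mono`, `nu φ (E.erase z) = nu φ E`.
* `st0_cone`: `v ∈ E \ Z` with `φ {v} = 1`.  For `v ∉ Y`: `φ (insert v Y) = φ Y + 1` (`≤` by `Marg`,
  `≥` by supermodularity), so `nu φ X = nu φ (X.erase v) + 1` for `v ∈ X`.  `KK φ E Z c d` is a cone with apex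
  `v`: let `v ∉ T ∈ KK`.  `nu φ (E \ insert v T) = nu φ (E \ T) - 1`.  `Conn φ (E \ insert v T) c d`: given
  `Y₁, Y₂` with `φ Y₁ + φ Y₂ ≥ nu φ (E \ T) - 1`, the pair `insert v Y₁, Y₂` contradicts
  `Conn φ (E \ T) c d` (`v ≠ d` because `d ∈ Z`).  The converse direction is `cpx_KK`.
* `st0_pos`: if `φ E = nu φ E`, `v ∈ kap φ E ∩ (E \ Z)` then the marginal of `v` is never `0`:
  `φ E = nu φ E` and `φ (E.erase v) ≥ φ E - 1` (`Marg`), `φ (E.erase v) ≤ nu φ (E.erase v) ≤ nu φ E - 1`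
  (`mem_kap`), so the top marginal is `1`; for `Y ⊆ E`, `v ∉ Y`, the gap of `insert v Y` and `E.erase v` is
  `φ E + φ Y - φ (insert v Y) - φ (E.erase v) = 1 - (φ (insert v Y) - φ Y) ≠ 1`.
* `st0_phi`: if `kap φ E = E` then `φ E = nu φ E` (`phi_kap`).
-/

set_option autoImplicit false

namespace Pool.Agent.DT3

open Finset

variable {α : Type*} [Fintype α] [DecidableEq α] {φ : Finset α → ℤ} {E Z : Finset α}

omit [Fintype α] in
private theorem s0_sub_erase {A B : Finset α} {v : α} (h : A ⊆ B) (hv : v ∉ A) : A ⊆ B.erase v :=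
  fun _ hz => mem_erase.mpr ⟨fun e => hv (e ▸ hz), h hz⟩

theorem st0_adm_vertex (hA : Adm φ E Z) {v : α} (hv : v ∈ E \ Z) : Adm φ (E.erase v) Z := by
  refine ⟨hA.good, s0_sub_erase hA.sub (mem_sdiff.mp hv).2, ?_⟩
  intro x hx Y
  refine hA.marg x ?_ Y
  rw [mem_sdiff, mem_erase] at hx
  exact mem_sdiff.mpr ⟨hx.1.2, hx.2⟩

theorem st0_adm_frozen (hA : Adm φ E Z) {z : α} (hz : z ∈ Z) :
    Adm φ (E.erase z) (Z.erase z) := by
  refine ⟨hA.good, erase_subset_erase z hA.sub, ?_⟩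
  intro x hx Y
  refine hA.marg x ?_ Y
  rw [mem_sdiff, mem_erase, mem_erase] at hx
  exact mem_sdiff.mpr ⟨hx.1.2, fun hxZ => hx.2 ⟨hx.1.1, hxZ⟩⟩

theorem st0_vertex (hA : Adm φ E Z) {v : α} (hv : v ∈ E \ Z) (hk : v ∉ kap φ E)
    (h : Th φ (E.erase v) Z) : Th φ E Z := by
  intro c d e n hc hd hcd hEB hn
  have hS : SM φ := hA.good.toSM
  have hA' := st0_adm_vertex hA hv
  have hks : kap φ E ⊆ E.erase v := s0_sub_erase (kap_sub φ E) hk
  have hkc : kap φ (E.erase v) = kap φ E := kap_congr hS hks (erase_subset _ _)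
  have hnu : nu φ (E.erase v) = nu φ E := nu_congr hS hks (erase_subset _ _)
  have hKK : KK φ E Z c d = KK φ (E.erase v) Z c d := by
    rw [KK_kap hS hA.marg, KK_kap hS hA'.marg, hkc]
  rw [hKK]
  exact h c d e n hc hd hcd hEB (by rw [hnu]; exact hn)

theorem st0_frozen (hA : Adm φ E Z) {z : α} (hz : z ∈ Z) (hk : z ∉ kap φ E)
    (h : Th φ (E.erase z) (Z.erase z)) : Th φ E Z := by
  intro c d e n hc hd hcd hEB hn
  have hS : SM φ := hA.good.toSM
  have hA' := st0_adm_frozen hA hz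
  by_cases hcz : c = z ∨ d = z
  · have hempty : KK φ E Z c d = ∅ := by
      rw [Set.eq_empty_iff_forall_notMem]
      intro T hT
      have h0 := cpx_KK hS hA.marg hc hd T hT ∅ (empty_subset _)
      have hconn : Conn φ (E \ ∅) c d := h0.2.2
      rw [sdiff_empty] at hconn
      rcases hcz with hcz | hcz
      · exact hk (hcz ▸ Conn.mem_left hS hconn)
      · exact hk (hcz ▸ Conn.mem_right hS hconn)
    rw [hempty]
    exact acyc_empty n
  · rw [not_or] at hcz
    have hks : kap φ E ⊆ E.erase z := s0_sub_erase (kap_sub φ E) hk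
    have hkc : kap φ (E.erase z) = kap φ E := kap_congr hS hks (erase_subset _ _)
    have hnu : nu φ (E.erase z) = nu φ E := nu_congr hS hks (erase_subset _ _)
    have hZ : Z.erase z ∩ kap φ E = Z ∩ kap φ E := by
      ext x
      rw [mem_inter, mem_inter, mem_erase]
      constructor
      · rintro ⟨⟨_, h1⟩, h2⟩
        exact ⟨h1, h2⟩
      · rintro ⟨h1, h2⟩
        exact ⟨⟨fun e' => hk (e' ▸ h2), h1⟩, h2⟩
    have hKK : KK φ E Z c d = KK φ (E.erase z) (Z.erase z) c d := by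
      rw [KK_kap hS hA.marg, KK_kap hS hA'.marg, hkc, hZ]
    rw [hKK]
    exact h c d e n (mem_erase.mpr ⟨hcz.1, hc⟩) (mem_erase.mpr ⟨hcz.2, hd⟩) hcd
      (EB.mono hEB (erase_subset _ _)) (by rw [hnu]; exact hn)

theorem st0_cone (hA : Adm φ E Z) {v : α} (hv : v ∈ E \ Z) (h1 : φ {v} = 1) : Th φ E Z := by
  intro c d e n hc hd hcd hEB hn
  have hS : SM φ := hA.good.toSM
  have hmv : ∀ Y, φ (insert v Y) ≤ φ Y + 1 := fun Y => hA.marg v hv Y
  have hvE : v ∈ E := (mem_sdiff.mp hv).1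
  have hvZ : v ∉ Z := (mem_sdiff.mp hv).2
  have hins : ∀ Y : Finset α, v ∉ Y → φ (insert v Y) = φ Y + 1 := by
    intro Y hY
    have h2 := hS.super {v} Y
    have h3 : ({v} : Finset α) ∩ Y = ∅ := singleton_inter_of_notMem hY
    have h4 : ({v} : Finset α) ∪ Y = insert v Y := (insert_eq v Y).symm
    rw [h3, h4, hS.zero, h1] at h2
    have := hmv Y
    omega
  have hnu : ∀ X : Finset α, v ∈ X → nu φ (X.erase v) = nu φ X - 1 := by
    intro X hX
    have h2 := nu_le_erase hmv X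
    obtain ⟨Y, hY, hYn⟩ := exists_nu φ (X.erase v)
    have hvY : v ∉ Y := fun hvY => notMem_erase v X (hY hvY)
    have h3 := le_nu φ (show insert v Y ⊆ X from
      insert_subset hX (hY.trans (erase_subset _ _)))
    rw [hins Y hvY] at h3
    omega
  apply acyc_cone v
  intro T hvT
  constructor
  · rintro ⟨hTs, hTn, hTc⟩
    have hiT : insert v T ⊆ E \ Z := insert_subset hv hTs
    have hset : E \ insert v T = (E \ T).erase v := by
      ext x
      rw [mem_sdiff, mem_insert, not_or, mem_erase, mem_sdiff]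
      tauto
    have hvX : v ∈ E \ T := mem_sdiff.mpr ⟨hvE, hvT⟩
    have hcd' : ((insert v T).card : ℤ) = T.card + 1 := by
      rw [card_insert_of_notMem hvT]; push_cast; ring
    have hn' := hnu (E \ T) hvX
    refine ⟨hiT, ?_, ?_⟩
    · rw [hcd', hset, hn', hTn]; ring
    · rw [hset]
      intro Y₁ Y₂ hY₁ hY₂ hdis hdY hcY
      have hv1 : v ∉ Y₁ := fun h' => notMem_erase v _ (hY₁ h')
      have hv2 : v ∉ Y₂ := fun h' => notMem_erase v _ (hY₂ h')
      have h5 := hTc (insert v Y₁) Y₂ (insert_subset hvX (hY₁.trans (erase_subset _ _)))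
        (hY₂.trans (erase_subset _ _))
        (disjoint_insert_left.mpr ⟨hv2, hdis⟩)
        (fun h' => by
          rcases mem_insert.mp h' with h' | h'
          · exact hvZ (h' ▸ hd)
          · exact hdY h') hcY
      rw [hins Y₁ hv1] at h5
      omega
  · intro hT
    exact cpx_KK hS hA.marg hc hd _ hT T (subset_insert _ _)

theorem st0_pos (hA : Adm φ E Z) (hk : kap φ E = E) {v : α} (hv : v ∈ E \ Z) {Y : Finset α}
    (hY : Y ⊆ E) (hvY : v ∉ Y) : φ (insert v Y) ≠ φ Y := by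
  have hS : SM φ := hA.good.toSM
  have hvE : v ∈ E := (mem_sdiff.mp hv).1
  have h1 : φ E = nu φ E := by
    have := phi_kap hS E
    rw [hk] at this
    exact this
  have h2 : φ E ≤ φ (E.erase v) + 1 := by
    have := hA.marg v hv (E.erase v)
    rw [insert_erase hvE] at this
    exact this
  have h3 : φ (E.erase v) ≤ nu φ (E.erase v) := le_nu φ (Subset.refl _)
  have h4 : nu φ (E.erase v) < nu φ E := by
    have : v ∈ kap φ E := by rw [hk]; exact hvE
    exact (mem_kap.mp this).2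
  have hg := hA.good.gap (insert v Y) (E.erase v)
  have hU : insert v Y ∪ E.erase v = E := by
    rw [insert_union, ← union_insert, insert_erase hvE]
    exact union_eq_right.mpr hY
  have hI : insert v Y ∩ E.erase v = Y := by
    ext x
    rw [mem_inter, mem_insert, mem_erase]
    constructor
    · rintro ⟨h5 | h5, h6, _⟩
      · exact absurd h5 h6
      · exact h5
    · intro h5
      exact ⟨Or.inr h5, fun e' => hvY (e' ▸ h5), hY h5⟩
  rw [hU, hI] at hg
  intro he
  apply hg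
  omega

end Pool.Agent.DT3
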