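import Pool.Agent.DT3.Lem0
import Pool.Agent.DT3.EBb

/-!
STEP 2, case (a): all elements of `Z` have `φ {z} ≥ 0` and `Z` has no separation between `c` and `d`.

* `st2a_conn`: for every `X ⊇ Z`: `Conn φ X c d`.  Proof: let `Y₁, Y₂ ⊆ X` be disjoint, `d ∉ Y₁`, `c ∉ Y₂`,
  `φ Y₁ + φ Y₂ ≥ nu φ X`.  Let `Z₃ = Z \ (Y₁ ∪ Y₂)`; `Y₁' = Y₁ ∪ (Z₃.erase d)`, `Y₂' = Y₂ ∪ (Z₃ ∩ {d})`.
  `φ Y₁' ≥ φ Y₁`, `φ Y₂' ≥ φ Y₂` (adding disjoint elements with `φ {z} ≥ 0`: `SM.add_le`; for a set `R` of such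
  elements `φ R ≥ 0` by induction).  `Y₁', Y₂'` are disjoint, their union contains `Z`, `c ∈ Y₁'`
  (`c ∉ Y₂`, `c ≠ d`), `d ∈ Y₂'`, `c ∉ Y₂'`.  `φ (Y₁' ∪ Y₂') ≤ nu φ X ≤ φ Y₁' + φ Y₂'`, so by `sep_restrict`
  with `W = Z`: `φ Z ≤ φ (Z ∩ Y₁') + φ (Z ∩ Y₂')`, and `Z ∩ Y₂' = Z \ (Z ∩ Y₁')`: this contradicts `hns`
  for `Y = Z ∩ Y₁'` (contains `c`, not `d`).
* `st2a`: `KK φ E Z c d = II φ E Z` by `st2a_conn` (`Z ⊆ E \ T`).  `nu φ Z = φ Z` (a maximiser `Y ⊆ Z`: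
  `φ Z ≥ φ Y + φ (Z \ Y) ≥ φ Y`), and `EB.single` for `A = Z`: `φ Z + 1 - 1 - 1 ≤ e`.  So
  `n + 1 + nu φ Z ≤ n + 2 + e ≤ nu φ E`: `lemma0`.
-/

set_option autoImplicit false

namespace Pool.Agent.DT3

open Finset

variable {α : Type*} [DecidableEq α] {φ : Finset α → ℤ} {E Z X : Finset α} {c d : α}

private lemma St2a_grow (h : SM φ) (Y R : Finset α) (hR : ∀ z ∈ R, 0 ≤ φ {z})
    (hd : Disjoint Y R) : φ Y ≤ φ (Y ∪ R) := by
  induction R using Finset.induction_on with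
  | empty => simp
  | insert z R hz ih =>
    have h1 := ih (fun x hx => hR x (mem_insert_of_mem hx))
      (hd.mono_right (subset_insert z R))
    have hzY : z ∉ Y := fun hzY => (disjoint_left.1 hd hzY) (mem_insert_self z R)
    have h2 : Disjoint (Y ∪ R) {z} := by
      rw [disjoint_singleton_right, mem_union]
      tauto
    have h3 := h.add_le h2
    have h4 := hR z (mem_insert_self z R)
    have h5 : Y ∪ insert z R = Y ∪ R ∪ {z} := by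
      ext x
      simp only [mem_union, mem_insert, mem_singleton]
      tauto
    rw [h5]
    omega

theorem st2a_conn (h : SM φ) (hfull : ∀ z ∈ Z, 0 ≤ φ {z}) (hc : c ∈ Z) (hd : d ∈ Z)
    (hcd : c ≠ d) (hns : ∀ Y ⊆ Z, c ∈ Y → d ∉ Y → φ Y + φ (Z \ Y) < φ Z) (hX : Z ⊆ X) :
    Conn φ X c d := by
  intro Y₁ Y₂ h1 h2 hdis hd1 hc2
  by_contra hcon
  push Not at hcon
  set Z₃ := Z \ (Y₁ ∪ Y₂) with hZ₃
  have hz3 : ∀ x, x ∈ Z₃ ↔ x ∈ Z ∧ x ∉ Y₁ ∧ x ∉ Y₂ := by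
    intro x
    rw [hZ₃, mem_sdiff, mem_union]
    tauto
  have hdis' : ∀ x, x ∈ Y₁ → x ∉ Y₂ := fun x hx hx' => disjoint_left.1 hdis hx hx'
  set Y₁' := Y₁ ∪ Z₃.erase d with hY1'
  set Y₂' := Y₂ ∪ (Z₃ ∩ {d}) with hY2'
  have m1 : ∀ x, x ∈ Y₁' ↔ x ∈ Y₁ ∨ (x ≠ d ∧ x ∈ Z ∧ x ∉ Y₁ ∧ x ∉ Y₂) := by
    intro x
    rw [hY1', mem_union, mem_erase, hz3]
  have m2 : ∀ x, x ∈ Y₂' ↔ x ∈ Y₂ ∨ ((x ∈ Z ∧ x ∉ Y₁ ∧ x ∉ Y₂) ∧ x = d) := by
    intro x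
    rw [hY2', mem_union, mem_inter, hz3, mem_singleton]
  have g1 : φ Y₁ ≤ φ Y₁' := by
    apply St2a_grow h
    · intro z hz
      exact hfull z ((hz3 z).1 (mem_of_mem_erase hz)).1
    · rw [disjoint_left]
      intro x hx hx'
      exact ((hz3 x).1 (mem_of_mem_erase hx')).2.1 hx
  have g2 : φ Y₂ ≤ φ Y₂' := by
    apply St2a_grow h
    · intro z hz
      exact hfull z ((hz3 z).1 (mem_inter.1 hz).1).1
    · rw [disjoint_left]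
      intro x hx hx'
      exact ((hz3 x).1 (mem_inter.1 hx').1).2.2 hx
  have hdisj : Disjoint Y₁' Y₂' := by
    rw [disjoint_left]
    intro x hx hx'
    have a := (m1 x).1 hx
    have b := (m2 x).1 hx'
    have c' := hdis' x
    tauto
  have hsub : Y₁' ∪ Y₂' ⊆ X := by
    intro x hx
    rw [mem_union, m1, m2] at hx
    rcases hx with (hx | hx) | (hx | hx)
    · exact h1 hx
    · exact hX hx.2.1
    · exact h2 hx
    · exact hX hx.1.1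
  have hW : Z ⊆ Y₁' ∪ Y₂' := by
    intro x hx
    rw [mem_union, m1, m2]
    tauto
  have hs : φ (Y₁' ∪ Y₂') ≤ φ Y₁' + φ Y₂' := by
    have := le_nu φ hsub
    omega
  have hr := sep_restrict h hdisj hs hW
  have e1 : Z ∩ Y₂' = Z \ (Z ∩ Y₁') := by
    ext x
    have a : x ∈ Z → x ∈ Y₁' ∨ x ∈ Y₂' := fun hx => mem_union.1 (hW hx)
    have b : x ∈ Y₁' → x ∉ Y₂' := fun hx hx' => disjoint_left.1 hdisj hx hx'
    rw [mem_inter, mem_sdiff, mem_inter]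
    tauto
  have hcm : c ∈ Z ∩ Y₁' := by
    rw [mem_inter, m1]
    tauto
  have hdm : d ∉ Z ∩ Y₁' := by
    rw [mem_inter, m1]
    tauto
  have hfin := hns (Z ∩ Y₁') inter_subset_left hcm hdm
  rw [← e1] at hfin
  omega

theorem st2a [Fintype α] (hA : Adm φ E Z) (hfull : ∀ z ∈ Z, 0 ≤ φ {z}) (hc : c ∈ Z)
    (hd : d ∈ Z) (hcd : c ≠ d) (hns : ∀ Y ⊆ Z, c ∈ Y → d ∉ Y → φ Y + φ (Z \ Y) < φ Z)
    {e n : ℤ} (he : EB φ Z c d e) (hn : n + 2 + e ≤ nu φ E) : Acyc (KK φ E Z c d) n := by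
  have h : SM φ := hA.good.toSM
  have hKI : KK φ E Z c d = II φ E Z := by
    ext T
    constructor
    · rintro ⟨h1, h2, -⟩
      exact ⟨h1, h2⟩
    · rintro ⟨h1, h2⟩
      refine ⟨h1, h2, st2a_conn h hfull hc hd hcd hns ?_⟩
      intro x hx
      rw [mem_sdiff]
      refine ⟨hA.sub hx, fun hxT => ?_⟩
      exact (mem_sdiff.1 (h1 hxT)).2 hx
  have hnuZ : nu φ Z ≤ φ Z := by
    rw [nu_le_iff]
    intro Y hY
    have h1 := St2a_grow h Y (Z \ Y) (fun z hz => hfull z (mem_sdiff.1 hz).1) disjoint_sdiff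
    rwa [union_sdiff_of_subset hY] at h1
  have hs := he.single ⟨c, hc⟩ (Subset.refl Z)
  rw [gg, if_pos hc, if_pos hd] at hs
  rw [hKI]
  exact lemma0 h hA.sub hA.marg (by omega)

end Pool.Agent.DT3
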