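import Pool.Agent.DT3.Cplx
import Pool.Agent.DT3.ChTwo
import Pool.Agent.DT3.ChFib
import Pool.Agent.DT3.EBb

/-!
STEP 2, case (b): a vertex `v` which is not attached to a connected subset of `Z` is moved to `Z`.

`ConnSet φ A`: `A` is not separated into two non-empty parts.

* `st2b_EB`: `EB φ (insert v Z) c d e`.  Let `Q` be a separated family in `insert v Z`.  If no member contains
  `v` it is a family in `Z`.  Otherwise let `A₀ = insert v A ∈ Q` (`v ∉ A ⊆ Z`); the other members do not
  contain `v`.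
   - `A = ∅`: `gg φ c d {v} = φ {v} + 1 ≤ 0`: delete `{v}` (`SepFam.replace` with `R = ∅`).
   - `A ≠ ∅`, `φ (insert v A) ≤ φ A`: replace `A₀` by `A` (`R = {A}`): `gg` does not decrease.
   - `A ≠ ∅`, `φ (insert v A) = φ A + 1` (the only other case by `hm`): by `hatt` `A` is not connected:
     there is `Y ⊆ A`, `Y ≠ ∅, A`, with `φ Y + φ (A \ Y) ≥ φ A` (`=` by supermodularity).  Replace `A₀` by `Y`
     and `A \ Y` (`R = {Y, A \ Y}`):
     `gg Y + gg (A \ Y) = φ A + 2 - [c ∈ A] - [d ∈ A] = gg A₀` (`v ≠ c, d`).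
* `st2b`: `Th φ E Z` from `Th φ E (insert v Z)` and `Th φ (E.erase v) Z`, given that `EB` passes to
  `insert v Z`, and `nu φ (E.erase v) = nu φ E - 1`: `acyc_glue` with `D = KK φ E Z c d`,
  `D₀ = KK φ E (insert v Z) c d` (`KK_avoid`), `D \ D₀ = {T | v ∈ T ∧ T.erase v ∈ KK φ (E.erase v) Z c d}`
  (`KK_link`), `acyc_link`: degree `n - 1`: `(n - 1) + 2 + e ≤ nu φ E - 1`.
-/

set_option autoImplicit false

namespace Pool.Agent.DT3

open Finset

/-- `A` is non-empty and has no separation into two non-empty parts. -/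
def ConnSet {α : Type*} [DecidableEq α] (φ : Finset α → ℤ) (A : Finset α) : Prop :=
  A.Nonempty ∧ ∀ Y ⊆ A, Y.Nonempty → Y ≠ A → φ Y + φ (A \ Y) < φ A

variable {α : Type*} [DecidableEq α] {φ : Finset α → ℤ} {E Z : Finset α} {c d v : α}

private theorem sb_repl (h : SM φ) {e : ℤ} (he : EB φ Z c d e) {Q : Finset (Finset α)}
    (hQ : SepFam φ (insert v Z) Q) {A₀ : Finset α} (hA₀ : A₀ ∈ Q) (hvA₀ : v ∈ A₀)
    (R : Finset (Finset α)) (hR : ∀ B ∈ R, B.Nonempty ∧ B ⊆ A₀ ∧ B ⊆ Z)
    (hRd : ∀ B ∈ R, ∀ B' ∈ R, B ≠ B' → Disjoint B B') (hRs : φ (R.biUnion id) = ∑ B ∈ R, φ B)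
    (hg : gg φ c d A₀ ≤ ∑ B ∈ R, gg φ c d B) : ∑ A ∈ Q, gg φ c d A ≤ e := by
  have hrest : ∀ B ∈ Q, B ≠ A₀ → B ⊆ Z := by
    intro B hB hne x hx
    have hvB : v ∉ B := fun h' => disjoint_left.mp (hQ.disj B hB A₀ hA₀ hne) h' hvA₀
    rcases mem_insert.mp (hQ.sub B hB hx) with h' | h'
    · exact absurd (h' ▸ hx) hvB
    · exact h'
  obtain ⟨h1, h2⟩ := SepFam.replace h hQ hA₀ R hR hRd hRs hrest
  have h3 := he _ h1
  rw [sum_union h2] at h3
  rw [← add_sum_erase Q (fun A => gg φ c d A) hA₀]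
  linarith

theorem st2b_EB (h : SM φ) (hvZ : v ∉ Z) (hc : c ∈ Z) (hd : d ∈ Z) (hv1 : φ {v} ≤ -1)
    (hm : ∀ Y, φ (insert v Y) ≤ φ Y + 1)
    (hatt : ∀ A ⊆ Z, ConnSet φ A → φ (insert v A) ≠ φ A + 1) {e : ℤ} (he : EB φ Z c d e) :
    EB φ (insert v Z) c d e := by
  intro Q hQ
  have hcv : c ≠ v := fun e' => hvZ (e' ▸ hc)
  have hdv : d ≠ v := fun e' => hvZ (e' ▸ hd)
  by_cases hno : ∀ A ∈ Q, v ∉ A
  · refine he Q ⟨hQ.nonempty, ?_, hQ.disj, hQ.sep⟩
    intro A hA x hx
    rcases mem_insert.mp (hQ.sub A hA hx) with h' | h'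
    · exact absurd (h' ▸ hx) (hno A hA)
    · exact h'
  · push Not at hno
    obtain ⟨A₀, hA₀, hvA₀⟩ := hno
    have hAZ : A₀.erase v ⊆ Z := by
      intro x hx
      rw [mem_erase] at hx
      rcases mem_insert.mp (hQ.sub A₀ hA₀ hx.2) with h' | h'
      · exact absurd h' hx.1
      · exact h'
    have hins : insert v (A₀.erase v) = A₀ := insert_erase hvA₀
    have hcA : c ∈ A₀ ↔ c ∈ A₀.erase v := by
      rw [mem_erase]
      exact ⟨fun h' => ⟨hcv, h'⟩, fun h' => h'.2⟩
    have hdA : d ∈ A₀ ↔ d ∈ A₀.erase v := by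
      rw [mem_erase]
      exact ⟨fun h' => ⟨hdv, h'⟩, fun h' => h'.2⟩
    have hmA := hm (A₀.erase v)
    rw [hins] at hmA
    have hgg0 : gg φ c d A₀ = φ A₀ + 1 - (if c ∈ A₀.erase v then 1 else 0) -
        (if d ∈ A₀.erase v then 1 else 0) := by
      unfold gg
      simp only [hcA, hdA]
    rcases (A₀.erase v).eq_empty_or_nonempty with hA | hA
    · refine sb_repl h he hQ hA₀ hvA₀ ∅ (by simp) (by simp) (by simp [h.zero]) ?_
      rw [hgg0, hA]
      rw [hA] at hins
      rw [if_neg (notMem_empty c), if_neg (notMem_empty d), ← hins, sum_empty]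
      have : insert v (∅ : Finset α) = {v} := rfl
      rw [this]
      linarith
    · by_cases hle : φ A₀ ≤ φ (A₀.erase v)
      · refine sb_repl h he hQ hA₀ hvA₀ {A₀.erase v} ?_ ?_ ?_ ?_
        · intro B hB
          rw [mem_singleton.mp hB]
          exact ⟨hA, erase_subset _ _, hAZ⟩
        · intro B hB B' hB' hne
          exact absurd ((mem_singleton.mp hB).trans (mem_singleton.mp hB').symm) hne
        · rw [sum_singleton, singleton_biUnion, id]
        · rw [sum_singleton, hgg0]
          unfold gg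
          linarith
      · have heq : φ A₀ = φ (A₀.erase v) + 1 := by omega
        have hnc : ¬ ConnSet φ (A₀.erase v) := by
          intro hcon
          exact hatt _ hAZ hcon (by rw [hins]; exact heq)
        unfold ConnSet at hnc
        rw [not_and] at hnc
        have hnc' := hnc hA
        push Not at hnc'
        obtain ⟨Y, hYA, hYn, hYne, hYle⟩ := hnc'
        have hYc : (A₀.erase v \ Y).Nonempty := by
          rw [sdiff_nonempty]
          intro hsub
          exact hYne (Subset.antisymm hYA hsub)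
        have hdis : Disjoint Y (A₀.erase v \ Y) := disjoint_sdiff
        have hun : Y ∪ (A₀.erase v \ Y) = A₀.erase v := union_sdiff_of_subset hYA
        have hadd := h.add_le hdis
        rw [hun] at hadd
        have hYY : Y ≠ A₀.erase v \ Y := by
          intro he'
          rw [← he'] at hdis
          exact hYn.ne_empty (disjoint_self.mp hdis)
        have hsums : φ Y + φ (A₀.erase v \ Y) = φ (A₀.erase v) := by omega
        refine sb_repl h he hQ hA₀ hvA₀ {Y, A₀.erase v \ Y} ?_ ?_ ?_ ?_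
        · intro B hB
          rcases mem_insert.mp hB with hB | hB
          · rw [hB]
            exact ⟨hYn, hYA.trans (erase_subset _ _), hYA.trans hAZ⟩
          · rw [mem_singleton.mp hB]
            exact ⟨hYc, sdiff_subset.trans (erase_subset _ _), sdiff_subset.trans hAZ⟩
        · intro B hB B' hB' hne
          rcases mem_insert.mp hB with hB | hB <;> rcases mem_insert.mp hB' with hB' | hB'
          · exact absurd (hB.trans hB'.symm) hne
          · rw [hB, mem_singleton.mp hB']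
            exact hdis
          · rw [hB', mem_singleton.mp hB]
            exact hdis.symm
          · exact absurd ((mem_singleton.mp hB).trans (mem_singleton.mp hB').symm) hne
        · rw [sum_pair hYY, hsums, biUnion_insert, singleton_biUnion, id, id, hun]
        · rw [sum_pair hYY, hgg0]
          have hsplit : ∀ x : α, (if x ∈ A₀.erase v then (1 : ℤ) else 0) =
              (if x ∈ Y then 1 else 0) + (if x ∈ A₀.erase v \ Y then 1 else 0) := by
            intro x
            by_cases hxY : x ∈ Y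
            · rw [if_pos hxY, if_pos (hYA hxY), if_neg (fun h' => (mem_sdiff.mp h').2 hxY)]
              ring
            · by_cases hxA : x ∈ A₀.erase v
              · rw [if_pos hxA, if_neg hxY, if_pos (mem_sdiff.mpr ⟨hxA, hxY⟩)]
                ring
              · rw [if_neg hxA, if_neg hxY, if_neg (fun h' => hxA (mem_sdiff.mp h').1)]
                ring
          rw [hsplit c, hsplit d]
          unfold gg
          linarith

theorem st2b [Fintype α] (hA : Adm φ E Z) (hv : v ∈ E \ Z)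
    (hn1 : nu φ (E.erase v) = nu φ E - 1) (hc : c ∈ Z) (hd : d ∈ Z) (hcd : c ≠ d) {e n : ℤ}
    (he : EB φ Z c d e) (he' : EB φ (insert v Z) c d e) (hn : n + 2 + e ≤ nu φ E)
    (h1 : Th φ E (insert v Z)) (h2 : Th φ (E.erase v) Z) : Acyc (KK φ E Z c d) n := by
  have hS : SM φ := hA.good.toSM
  have hcp : Cpx (KK φ E Z c d) := cpx_KK hS hA.marg hc hd
  refine acyc_glue (D := KK φ E Z c d) (D₀ := KK φ E (insert v Z) c d) hcp.cvx ?_ ?_ ?_ ?_
  · intro T hT
    exact ((KK_avoid hv T).mp hT).1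
  · intro S hS' T hT hST
    rw [KK_avoid hv] at hT ⊢
    exact ⟨hS', fun hvS => hT.2 (hST hvS)⟩
  · exact h1 c d e n (mem_insert_of_mem hc) (mem_insert_of_mem hd) hcd he' hn
  · have hset : KK φ E Z c d \ KK φ E (insert v Z) c d =
        {T : Finset α | v ∈ T ∧ T.erase v ∈ KK φ (E.erase v) Z c d} := by
      ext T
      rw [Set.mem_sdiff, Set.mem_ofPred_eq, KK_link hv hn1 T, KK_avoid hv T]
      tauto
    rw [hset]
    apply acyc_link
    · intro T hT hvT
      exact (mem_erase.mp (mem_sdiff.mp (hT.1 hvT)).1).1 rfl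
    · exact h2 c d e (n - 1) hc hd hcd he (by rw [hn1]; linarith)

end Pool.Agent.DT3
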