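import Pool.Agent.DT3.St2b

/-!
STEP 2, case (c): `Z` has a separation between `c` and `d` and every vertex is attached to a connected
subset of `Z`: then `c, d` are not connected in `E`, so `KK φ E Z c d` is empty.

Let `Y ⊆ Z`, `c ∈ Y`, `d ∉ Y`, `φ Z ≤ φ Y + φ (Z \ Y)`; `Y' = Z \ Y`.
(1) A connected `A ⊆ Z` lies in `Y` or in `Y'`: by `sep_restrict` `φ A ≤ φ (A ∩ Y) + φ (A ∩ Y')`; if both parts
were non-empty this would contradict `ConnSet φ A` (for `A ∩ Y`; `A \ (A ∩ Y) = A ∩ Y'`).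
(2) Let `V₁` be the set of the `v ∈ E \ Z` which are attached to a connected `A ⊆ Y`
(`φ (insert v A) = φ A + 1`), `V₂` the set of the other elements of `E \ Z`; they are attached to a connected
`A ⊆ Y'` by (1).
(3) If `v` is attached to `A ⊆ W`, `v ∉ W`, then `φ (insert v W) ≥ φ W + 1` (`SM.marg`).  So, adding the elements
of `V₁` to `Y` one by one, `φ (Y ∪ V₁) ≥ φ Y + |V₁|`, and `φ (Y' ∪ V₂) ≥ φ Y' + |V₂|`.
(4) `nu φ E = φ E ≤ φ Z + |E \ Z|` (`Marg`, `phi_sdiff_ge` with `T = E \ Z`: `φ E - |E \ Z| ≤ φ (E \ (E \ Z))`)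
`≤ φ Y + φ Y' + |V₁| + |V₂| ≤ φ (Y ∪ V₁) + φ (Y' ∪ V₂)`: the sets `Y ∪ V₁`, `Y' ∪ V₂` are disjoint subsets of
`E`, `d ∉ Y ∪ V₁`, `c ∉ Y' ∪ V₂`: `Conn φ E c d` fails.
`st2c_empty`: `KK φ E Z c d = ∅` because it is a complex (`cpx_KK`) which does not contain `∅`.
-/

set_option autoImplicit false

namespace Pool.Agent.DT3

open Finset

variable {α : Type*} [DecidableEq α] {φ : Finset α → ℤ} {E Z : Finset α} {c d : α}

theorem st2c (hA : Adm φ E Z) (hE : φ E = nu φ E) (hc : c ∈ Z) (hd : d ∈ Z)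
    (hsep : ∃ Y ⊆ Z, c ∈ Y ∧ d ∉ Y ∧ φ Z ≤ φ Y + φ (Z \ Y))
    (hatt : ∀ v ∈ E \ Z, ∃ A ⊆ Z, ConnSet φ A ∧ φ (insert v A) = φ A + 1) :
    ¬ Conn φ E c d := by
  classical
  have h : SM φ := hA.good.toSM
  intro hconn
  obtain ⟨Y, hY, hcY, hdY, hs⟩ := hsep
  have hdisj : Disjoint Y (Z \ Y) := disjoint_sdiff
  have hun : Y ∪ (Z \ Y) = Z := union_sdiff_of_subset hY
  -- (1)
  have h1 : ∀ A ⊆ Z, ConnSet φ A → A ⊆ Y ∨ A ⊆ Z \ Y := by
    intro A hAZ hAc
    have h2 := sep_restrict h hdisj (by rw [hun]; exact hs) (W := A) (by rw [hun]; exact hAZ)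
    have h3 : A \ (A ∩ Y) = A ∩ (Z \ Y) := by
      ext x
      rw [mem_sdiff, mem_inter, mem_inter, mem_sdiff]
      constructor
      · rintro ⟨h4, h5⟩
        exact ⟨h4, hAZ h4, fun h6 => h5 ⟨h4, h6⟩⟩
      · rintro ⟨h4, -, h5⟩
        exact ⟨h4, fun h6 => h5 h6.2⟩
    by_cases h4 : (A ∩ Y).Nonempty
    · by_cases h5 : A ∩ Y = A
      · left
        rw [← h5]
        exact inter_subset_right
      · exfalso
        have h6 := hAc.2 (A ∩ Y) inter_subset_left h4 h5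
        rw [h3] at h6
        omega
    · right
      intro x hx
      refine mem_sdiff.2 ⟨hAZ hx, fun hxY => h4 ⟨x, mem_inter.2 ⟨hx, hxY⟩⟩⟩
  -- (3)
  have key : ∀ (W V : Finset α), (∀ v ∈ V, ∃ A ⊆ W, φ (insert v A) = φ A + 1) → Disjoint V W →
      φ W + V.card ≤ φ (W ∪ V) := by
    intro W V
    induction V using Finset.induction_on with
    | empty =>
      intro _ _
      simp
    | insert v V hv ih =>
      intro h2 h3
      rw [disjoint_insert_left] at h3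
      have h4 := ih (fun w hw => h2 w (mem_insert_of_mem hw)) h3.2
      obtain ⟨A, hAW, hA1⟩ := h2 v (mem_insert_self v V)
      have hvWV : v ∉ W ∪ V := by
        rw [mem_union, not_or]
        exact ⟨h3.1, hv⟩
      have h5 := SM.marg h (hAW.trans (subset_union_left : W ⊆ W ∪ V))
        (disjoint_singleton_left.2 hvWV)
      rw [union_comm A, ← insert_eq, union_comm (W ∪ V), ← insert_eq, hA1] at h5
      rw [card_insert_of_notMem hv, union_insert]
      push_cast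
      omega
  obtain ⟨V₁, hV₁⟩ : ∃ V₁ : Finset α, V₁ = (E \ Z).filter fun v =>
    ∃ A ⊆ Y, ConnSet φ A ∧ φ (insert v A) = φ A + 1 := ⟨_, rfl⟩
  obtain ⟨V₂, hV₂⟩ : ∃ V₂ : Finset α, V₂ = (E \ Z).filter fun v =>
    ¬ ∃ A ⊆ Y, ConnSet φ A ∧ φ (insert v A) = φ A + 1 := ⟨_, rfl⟩
  have hV₁s : V₁ ⊆ E \ Z := by rw [hV₁]; exact filter_subset _ _
  have hV₂s : V₂ ⊆ E \ Z := by rw [hV₂]; exact filter_subset _ _
  have hcard : V₁.card + V₂.card = (E \ Z).card := by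
    rw [hV₁, hV₂]
    exact card_filter_add_card_filter_not _
  have hV12 : Disjoint V₁ V₂ := by
    rw [hV₁, hV₂]
    exact disjoint_filter_filter_not _ _ _
  have hEZ : Disjoint (E \ Z) Z := sdiff_disjoint
  have k1 := key Y V₁ (by
    intro v hv
    rw [hV₁, mem_filter] at hv
    obtain ⟨-, A, h2, -, h3⟩ := hv
    exact ⟨A, h2, h3⟩) (hEZ.mono hV₁s hY)
  have k2 := key (Z \ Y) V₂ (by
    intro v hv
    rw [hV₂, mem_filter] at hv
    obtain ⟨A, h2, h3, h4⟩ := hatt v hv.1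
    rcases h1 A h2 h3 with h5 | h5
    · exact absurd ⟨A, h5, h3, h4⟩ hv.2
    · exact ⟨A, h5, h4⟩) (hEZ.mono hV₂s sdiff_subset)
  have k3 := phi_sdiff_ge hA.marg (Subset.refl (E \ Z)) E
  rw [Finset.sdiff_sdiff_eq_self hA.sub] at k3
  have k4 := hconn (Y ∪ V₁) ((Z \ Y) ∪ V₂)
    (union_subset (hY.trans hA.sub) (hV₁s.trans sdiff_subset))
    (union_subset (sdiff_subset.trans hA.sub) (hV₂s.trans sdiff_subset)) (by
      rw [disjoint_union_left, disjoint_union_right, disjoint_union_right]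
      exact ⟨⟨hdisj, (hEZ.mono hV₂s hY).symm⟩, hEZ.mono hV₁s sdiff_subset, hV12⟩) (by
      rw [mem_union, not_or]
      exact ⟨hdY, fun h2 => (mem_sdiff.1 (hV₁s h2)).2 hd⟩) (by
      rw [mem_union, not_or]
      exact ⟨fun h2 => (mem_sdiff.1 h2).2 hcY, fun h2 => (mem_sdiff.1 (hV₂s h2)).2 hc⟩)
  rw [← hE] at k4
  have k5 : (V₁.card : ℤ) + V₂.card = (E \ Z).card := by exact_mod_cast hcard
  omega

theorem st2c_empty (hA : Adm φ E Z) (hc : c ∈ Z) (hd : d ∈ Z) (h : ¬ Conn φ E c d) :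
    KK φ E Z c d = ∅ := by
  ext T
  simp only [Set.mem_empty_iff_false, iff_false]
  intro hT
  have h1 := cpx_KK hA.good.toSM hA.marg hc hd T hT ∅ (empty_subset T)
  have h2 := h1.2.2
  rw [sdiff_empty] at h2
  exact h h2

end Pool.Agent.DT3
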