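import Pool.Agent.DT3.Step1
import Pool.Agent.DT3.St0
import Pool.Agent.DT3.St2a
import Pool.Agent.DT3.St2b
import Pool.Agent.DT3.St2c

/-!
THEOREM THETA: `Adm φ E Z → Th φ E Z`.  Assembly (helper23).

Induction on `E.card`, then on `(E \ Z).card`, then on `∑ z ∈ Z, (-φ {z}).toNat`.
-/

set_option autoImplicit false

namespace Pool.Agent.DT3

open Finset

variable {α : Type*} [Fintype α] [DecidableEq α]

private theorem theta_aux (N V W : ℕ) : ∀ (φ : Finset α → ℤ) (E Z : Finset α), Adm φ E Z →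
    E.card = N → (E \ Z).card = V → ∑ z ∈ Z, (-φ {z}).toNat = W →
    (∀ (φ' : Finset α → ℤ) (E' Z' : Finset α), E'.card < E.card → Adm φ' E' Z' → Th φ' E' Z') →
    (∀ (φ' : Finset α → ℤ) (Z' : Finset α), (E \ Z').card < (E \ Z).card → Adm φ' E Z' →
      Th φ' E Z') →
    (∀ (φ' : Finset α → ℤ), Adm φ' E Z →
      ∑ z ∈ Z, (-φ' {z}).toNat < ∑ z ∈ Z, (-φ {z}).toNat → Th φ' E Z) → Th φ E Z := by
  intro φ E Z hA hN hV hW IH1 IH2 IH3
  have hSM := hA.good.toSM
  by_cases hkE : kap φ E = E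
  swap
  · -- Step 0
    have : ∃ x ∈ E, x ∉ kap φ E := by
      by_contra hcon
      push Not at hcon
      exact hkE (Subset.antisymm (kap_sub φ E) hcon)
    obtain ⟨x, hxE, hxk⟩ := this
    by_cases hxZ : x ∈ Z
    · refine st0_frozen hA hxZ hxk (IH1 _ _ _ ?_ (st0_adm_frozen hA hxZ))
      exact card_erase_lt_of_mem hxE
    · have hxV : x ∈ E \ Z := mem_sdiff.mpr ⟨hxE, hxZ⟩
      refine st0_vertex hA hxV hxk (IH1 _ _ _ ?_ (st0_adm_vertex hA hxV))
      exact card_erase_lt_of_mem hxE
  have hE : φ E = nu φ E := by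
    have := phi_kap hSM E
    rwa [hkE] at this
  by_cases hneg : ∃ z ∈ Z, φ {z} < 0
  · obtain ⟨z, hz, hzn⟩ := hneg
    have hk : z ∈ kap φ E := by rw [hkE]; exact hA.sub hz
    refine step1 hA hz hk (IH3 _ (fill_adm hA hz) ?_) IH1
    refine sum_lt_sum ?_ ⟨z, hz, ?_⟩
    · intro y _
      have h0 : φ {y} ≤ fill φ z {y} := by
        unfold fill; split_ifs <;> simp
      exact Int.toNat_le_toNat (by omega)
    · have h0 : fill φ z {z} = φ {z} + 1 := by
        simp [fill]
      rw [h0]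
      omega
  push Not at hneg
  intro c d e n hc hd hcd he hn
  by_cases hns : ∀ Y ⊆ Z, c ∈ Y → d ∉ Y → φ Y + φ (Z \ Y) < φ Z
  · exact st2a hA hneg hc hd hcd hns he hn
  push Not at hns
  by_cases hv1 : ∃ v ∈ E \ Z, φ {v} = 1
  · obtain ⟨v, hv, hv1⟩ := hv1
    exact st0_cone hA hv hv1 c d e n hc hd hcd he hn
  push Not at hv1
  have hvm : ∀ v ∈ E \ Z, φ {v} ≤ -1 := by
    intro v hv
    have h1 : φ {v} ≤ 1 := by
      have := hA.marg v hv ∅
      rw [hSM.zero] at this
      simpa using this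
    have h2 : φ {v} ≠ 0 := by
      have := st0_pos hA hkE hv (Y := ∅) (empty_subset _) (notMem_empty v)
      rw [hSM.zero] at this
      simpa using this
    have h3 := hv1 v hv
    omega
  by_cases hatt : ∃ v ∈ E \ Z, ∀ A ⊆ Z, ConnSet φ A → φ (insert v A) ≠ φ A + 1
  · obtain ⟨v, hv, hatt⟩ := hatt
    have hvE := (mem_sdiff.mp hv).1
    have hvZ := (mem_sdiff.mp hv).2
    have hn1 : nu φ (E.erase v) = nu φ E - 1 := by
      have h1 : nu φ (E.erase v) < nu φ E := by
        have : v ∈ kap φ E := by rw [hkE]; exact hvE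
        exact (mem_kap.mp this).2
      have h2 := nu_le_erase (hA.marg v hv) E
      omega
    have he' := st2b_EB hSM hvZ hc hd (hvm v hv) (hA.marg v hv) hatt he
    refine st2b hA hv hn1 hc hd hcd he he' hn (IH2 _ _ ?_ ?_) (IH1 _ _ _ ?_ (st0_adm_vertex hA hv))
    · refine card_lt_card ?_
      rw [ssubset_iff_of_subset (sdiff_subset_sdiff (Subset.refl E) (subset_insert v Z))]
      exact ⟨v, hv, by simp⟩
    · refine ⟨hA.good, ?_, ?_⟩
      · exact insert_subset hvE hA.sub
      · intro u hu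
        refine hA.marg u ?_
        simp only [mem_sdiff, mem_insert, not_or] at hu ⊢
        exact ⟨hu.1, hu.2.2⟩
    · exact card_erase_lt_of_mem hvE
  · push Not at hatt
    obtain ⟨Y, hYZ, hcY, hdY, hsep⟩ := hns
    have := st2c hA hE hc hd ⟨Y, hYZ, hcY, hdY, hsep⟩ hatt
    rw [st2c_empty hA hc hd this]
    exact acyc_empty n

/-- THEOREM THETA. -/
theorem theta : ∀ (φ : Finset α → ℤ) (E Z : Finset α), Adm φ E Z → Th φ E Z := by
  have key : ∀ (N V W : ℕ) (φ : Finset α → ℤ) (E Z : Finset α), Adm φ E Z →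
      E.card = N → (E \ Z).card = V → ∑ z ∈ Z, (-φ {z}).toNat = W → Th φ E Z := by
    intro N
    induction N using Nat.strong_induction_on with
    | _ N ihN =>
      intro V
      induction V using Nat.strong_induction_on with
      | _ V ihV =>
        intro W
        induction W using Nat.strong_induction_on with
        | _ W ihW =>
          intro φ E Z hA hN hV hW
          refine theta_aux N V W φ E Z hA hN hV hW ?_ ?_ ?_
          · intro φ' E' Z' h hA'
            exact ihN E'.card (by omega) _ _ φ' E' Z' hA' rfl rfl rfl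
          · intro φ' Z' h hA'
            exact ihV (E \ Z').card (by omega) _ φ' E Z' hA' hN rfl rfl
          · intro φ' hA' h
            exact ihW _ (by omega) φ' E Z hA' hN hV rfl
  intro φ E Z hA
  exact key _ _ _ φ E Z hA rfl rfl rfl

end Pool.Agent.DT3
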