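import Pool.Agent.DT3.AppE
import Pool.Agent.DT3.AppB
import Pool.Agent.DT3.Theta

/-!
`(S1_{m+1})`, `m ≥ 2`.  Conclusion (`S1Concl`): a basis `T` of `E` which avoids `c, d` such that `|Y| ≤ m r Y` for all
`Y ⊆ E \ T` with `c ∉ Y`, and for all `Y ⊆ E \ T` with `d ∉ Y`.

`s1_core` (no critical sets missing `c` and `d`).  `φ = wr m r`, `K = KK φ E {c, d} c d`.
 * `φ E = r E + 1`, `φ Y ≤ r Y ≤ r E` for `Y ⊆ E`, `Y ≠ E`; so `nu φ E = r E + 1`.  `0 < r E` (else `|E| = 1`);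
   no loops (`loopless_of`, `|E| ≥ 2`).
 * `∅ ∈ K`: `Conn φ E c d`: let `Y₁, Y₂ ⊆ E` be disjoint, `d ∉ Y₁`, `c ∉ Y₂`; both are `≠ E`.  If `Y₁ ∪ Y₂ ≠ E`:
   `φ Y₁ + φ Y₂ ≤ φ (Y₁ ∪ Y₂) ≤ r E`.  If `Y₁ ∪ Y₂ = E`: `(m + 1) r E + 1 = |Y₁| + |Y₂| ≤ (m + 1) (r Y₁ + r Y₂)`, so
   `r Y₁ + r Y₂ ≥ r E + 1`, and `φ Y₁ + φ Y₂ = |E| - m (r Y₁ + r Y₂) ≤ (m + 1) r E + 1 - m r E - m < r E + 1`.
 * `K` is a complex (`cpx_KK`); its members are subsets of `E`.
 * for a flat `F ≠ E`: `{T ∈ K | Disjoint T F} = KK φ E (F ∪ {c, d}) c d`, and `theta` for `Z = F ∪ {c, d}`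
   (`wr_good`, `wr_marg`) with `e = r F` (`eb_bound`): `n + 2 + r F ≤ r E + 1 = nu φ E`.
 * `hall` gives `T ∈ K` with `|T| = r E = r T`: `nu φ (E \ T) = 1`; `c ∈ kap φ (E \ T)` (`Conn.mem_left`), so
   `nu φ ((E \ T).erase c) ≤ 0` (`mem_kap`): `φ Y ≤ 0` for `Y ⊆ E \ T`, `c ∉ Y`; same for `d`.
`s1_contract`: let `∅ ≠ X ⊆ E`, `c, d ∉ X`, `|X| = (m + 1) r X`, `r' Y = r (Y ∪ X) - r X`.  If `T₁` satisfies the
conclusion for `r'`, `E \ X`, then `T = T₁ ∪ T₀` satisfies it for `r`, `E`, where `T₀` is given by `block` for `X`: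
`r (T₁ ∪ X) = r' T₁ + r X = r' (E \ X) + r X = r E`, and (`submod` for `T₁ ∪ T₀`, `X`) `r (T₁ ∪ T₀) ≥ r (T₁ ∪ X) + r T₀ - r X
= r E`.  For `Y ⊆ E \ T` with `c ∉ Y`: `|Y| = |Y ∩ X| + |Y \ X| ≤ m r (Y ∩ X) + m (r (Y ∪ X) - r X) ≤ m r Y` (`submod` for
`Y`, `X`).
`s1r`: induction on `|E|`.  If the hypothesis `hcrit` of `s1_core` holds: `s1_core`.  Otherwise there is `∅ ≠ X ⊆ E`
with `c, d ∉ X` and `|X| = (m + 1) r X` (`X ≠ E`); `r'` is a rank function (`contr_rank`),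
`|E \ X| = (m + 1) r' (E \ X) + 1`, and for `Y ⊆ E \ X`, `Y ≠ E \ X`: `|Y| + |X| ≤ (m + 1) r (Y ∪ X)`.
-/

set_option autoImplicit false

namespace Pool.Agent.DT3

open Finset

/-- The conclusion of `(S1)`. -/
def S1Concl {α : Type*} [DecidableEq α] (r : Finset α → ℕ) (m : ℕ) (E : Finset α) (c d : α) :
    Prop :=
  ∃ T ⊆ E, c ∉ T ∧ d ∉ T ∧ T.card = r E ∧ r T = r E ∧
    (∀ Y ⊆ E \ T, c ∉ Y → Y.card ≤ m * r Y) ∧ ∀ Y ⊆ E \ T, d ∉ Y → Y.card ≤ m * r Y

variable {α : Type*} [Fintype α] [DecidableEq α] {r : Finset α → ℕ} {E : Finset α} {c d : α}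
  {m : ℕ}

theorem s1_core (h : RankFn r) (hm : 2 ≤ m) (hE : E.card = (m + 1) * r E + 1)
    (hY : ∀ Y ⊆ E, Y ≠ E → Y.card ≤ (m + 1) * r Y) (hc : c ∈ E) (hd : d ∈ E) (hcd : c ≠ d)
    (hcrit : ∀ X ⊆ E, X.Nonempty → c ∉ X → d ∉ X → X.card + 1 ≤ (m + 1) * r X) :
    S1Concl r m E c d := by
  have hSM := wr_sm h m
  have hphiE : wr m r E = r E + 1 := by
    unfold wr
    rw [hE]
    push_cast
    ring
  have hphiY : ∀ Y ⊆ E, Y ≠ E → wr m r Y ≤ r Y := by
    intro Y hYE hne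
    have h1 := hY Y hYE hne
    unfold wr
    have h2 : (Y.card : ℤ) ≤ (m + 1) * r Y := by exact_mod_cast h1
    linarith
  have hnu : nu (wr m r) E = r E + 1 := by
    refine le_antisymm (nu_le_iff.2 fun Y hYE => ?_) ?_
    · by_cases hne : Y = E
      · rw [hne, hphiE]
      · have h1 := hphiY Y hYE hne
        have h2 : r Y ≤ r E := h.mono Y E hYE
        have h3 : (r Y : ℤ) ≤ r E := by exact_mod_cast h2
        linarith
    · rw [← hphiE]
      exact le_nu _ (Subset.refl E)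
  have hE2 : 2 ≤ E.card := by
    have h1 : ({c, d} : Finset α) ⊆ E := by
      intro x hx
      rw [mem_insert, mem_singleton] at hx
      rcases hx with rfl | rfl
      · exact hc
      · exact hd
    have h2 := card_le_card h1
    rwa [card_pair hcd] at h2
  have hpos : 0 < r E := by
    by_contra h0
    have h1 : r E = 0 := by omega
    rw [h1] at hE
    omega
  have hl : ∀ e ∈ E, 0 < r {e} := loopless_of hY hE2
  have hmargA : Marg (wr m r) (E \ {c, d}) := wr_marg h m _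
  have hcpx : Cpx (KK (wr m r) E {c, d} c d) :=
    cpx_KK hSM hmargA (by simp) (by simp)
  have h0 : ∅ ∈ KK (wr m r) E {c, d} c d := by
    refine ⟨empty_subset _, by simp, ?_⟩
    rw [sdiff_empty]
    intro Y₁ Y₂ h1 h2 hdis hd1 hc2
    rw [hnu]
    have hne1 : Y₁ ≠ E := fun e => hd1 (e ▸ hd)
    have hne2 : Y₂ ≠ E := fun e => hc2 (e ▸ hc)
    by_cases hun : Y₁ ∪ Y₂ = E
    · have a1 := hY Y₁ h1 hne1
      have a2 := hY Y₂ h2 hne2
      have a3 : Y₁.card + Y₂.card = (m + 1) * r E + 1 := by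
        rw [← card_union_of_disjoint hdis, hun, hE]
      have a4 : r E < r Y₁ + r Y₂ := by
        by_contra hcon
        have a5 : r Y₁ + r Y₂ ≤ r E := by omega
        have a6 := Nat.mul_le_mul_left (m + 1) a5
        rw [Nat.mul_add] at a6
        omega
      have a7 : m * (r E + 1) ≤ m * (r Y₁ + r Y₂) := Nat.mul_le_mul_left m a4
      unfold wr
      have a8 : (Y₁.card : ℤ) + Y₂.card = (m + 1) * r E + 1 := by exact_mod_cast a3
      have a9 : (m : ℤ) * (r E + 1) ≤ m * (r Y₁ + r Y₂) := by exact_mod_cast a7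
      have a10 : (2 : ℤ) ≤ m := by exact_mod_cast hm
      nlinarith
    · have a1 := hSM.add_le hdis
      have a2 := hphiY (Y₁ ∪ Y₂) (union_subset h1 h2) hun
      have a3 : r (Y₁ ∪ Y₂) ≤ r E := h.mono _ _ (union_subset h1 h2)
      have a4 : (r (Y₁ ∪ Y₂) : ℤ) ≤ r E := by exact_mod_cast a3
      linarith
  obtain ⟨T, hT, hTc, hTr⟩ := hall h hl hpos hcpx (fun T hT => hT.1.trans sdiff_subset) h0
    (fun F hF hFE n hn => by
      have e : {T | T ∈ KK (wr m r) E {c, d} c d ∧ Disjoint T F} =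
          KK (wr m r) E (F ∪ {c, d}) c d := by
        ext T
        constructor
        · rintro ⟨⟨h1, h2, h3⟩, h4⟩
          refine ⟨?_, h2, h3⟩
          intro x hx
          have hx1 := mem_sdiff.1 (h1 hx)
          rw [mem_sdiff, mem_union, not_or]
          exact ⟨hx1.1, fun hxF => disjoint_left.1 h4 hx hxF, hx1.2⟩
        · rintro ⟨h1, h2, h3⟩
          refine ⟨⟨?_, h2, h3⟩, ?_⟩
          · intro x hx
            have hx1 := mem_sdiff.1 (h1 hx)
            rw [mem_union, not_or] at hx1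
            exact mem_sdiff.2 ⟨hx1.1, hx1.2.2⟩
          · rw [disjoint_left]
            intro x hx hxF
            exact (mem_sdiff.1 (h1 hx)).2 (mem_union_left _ hxF)
      rw [e]
      have hsub : F ∪ {c, d} ⊆ E := by
        refine union_subset hF.1 ?_
        intro x hx
        rw [mem_insert, mem_singleton] at hx
        rcases hx with rfl | rfl
        · exact hc
        · exact hd
      refine theta (wr m r) E (F ∪ {c, d}) ⟨wr_good h hm, hsub, wr_marg h m _⟩ c d (r F) n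
        (by simp) (by simp) hcd (eb_bound h hm hY hc hd hcd hcrit hF hFE) ?_
      rw [hnu]
      linarith)
  obtain ⟨hT1, hT2, hT3⟩ := hT
  have hcT : c ∉ T := fun hh => (mem_sdiff.1 (hT1 hh)).2 (by simp)
  have hdT : d ∉ T := fun hh => (mem_sdiff.1 (hT1 hh)).2 (by simp)
  have hnT : nu (wr m r) (E \ T) = 1 := by
    rw [hT2, hnu, hTc]
    ring
  have key : ∀ x, x ∈ kap (wr m r) (E \ T) → ∀ Y ⊆ E \ T, x ∉ Y → Y.card ≤ m * r Y := by
    intro x hx Y hYT hxY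
    have h1 := (mem_kap.1 hx).2
    rw [hnT] at h1
    have h2 : Y ⊆ (E \ T).erase x := by
      intro y hy
      exact mem_erase.2 ⟨fun e => hxY (e ▸ hy), hYT hy⟩
    have h3 := le_nu (wr m r) h2
    have h4 : wr m r Y ≤ 0 := by omega
    unfold wr at h4
    have h5 : (Y.card : ℤ) ≤ m * r Y := by linarith
    exact_mod_cast h5
  exact ⟨T, hT1.trans sdiff_subset, hcT, hdT, hTc, hTr, key c (hT3.mem_left hSM),
    key d (hT3.mem_right hSM)⟩

theorem s1_contract (h : RankFn r) {X : Finset α} (hX : X ⊆ E) (hcX : c ∉ X) (hdX : d ∉ X)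
    (hXc : X.card = (m + 1) * r X) (hXY : ∀ Y ⊆ X, Y.card ≤ (m + 1) * r Y)
    (h1 : S1Concl (fun Y => r (Y ∪ X) - r X) m (E \ X) c d) : S1Concl r m E c d := by
  obtain ⟨T₁, hT1, hcT, hdT, hTc, hTr, hYc, hYd⟩ := h1
  obtain ⟨T₀, hT0, h0c, h0r, h0Y⟩ := block h hXc hXY
  simp only at hTc hTr hYc hYd
  have hEX : E \ X ∪ X = E := sdiff_union_of_subset hX
  rw [hEX] at hTc hTr
  have hXE : r X ≤ r E := h.mono X E hX
  have hdis : Disjoint T₁ X := by
    rw [disjoint_left]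
    intro x hx
    exact (mem_sdiff.1 (hT1 hx)).2
  have hdis2 : Disjoint T₁ T₀ := hdis.mono_right hT0
  have hTX : r (T₁ ∪ X) = r E := by
    have := h.mono X (T₁ ∪ X) subset_union_right
    omega
  have hrT : r (T₁ ∪ T₀) = r E := by
    refine le_antisymm (h.mono _ _ (union_subset (hT1.trans sdiff_subset) (hT0.trans hX))) ?_
    have h2 := h.submod (T₁ ∪ T₀) X
    have e1 : (T₁ ∪ T₀) ∪ X = T₁ ∪ X := by
      rw [union_assoc, union_eq_right.2 hT0]
    have e2 : (T₁ ∪ T₀) ∩ X = T₀ := by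
      rw [union_inter_distrib_right, disjoint_iff_inter_eq_empty.1 hdis, empty_union,
        inter_eq_left.2 hT0]
    rw [e1, e2] at h2
    omega
  have key : ∀ x, (∀ Y ⊆ (E \ X) \ T₁, x ∉ Y → Y.card ≤ m * (r (Y ∪ X) - r X)) →
      ∀ Y ⊆ E \ (T₁ ∪ T₀), x ∉ Y → Y.card ≤ m * r Y := by
    intro x hx Y hYE hxY
    have h2 : (Y \ X).card ≤ m * (r (Y \ X ∪ X) - r X) := by
      refine hx (Y \ X) ?_ (fun hh => hxY (mem_sdiff.1 hh).1)
      intro y hy
      have hy1 := mem_sdiff.1 hy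
      have hy2 := mem_sdiff.1 (hYE hy1.1)
      rw [mem_union, not_or] at hy2
      exact mem_sdiff.2 ⟨mem_sdiff.2 ⟨hy2.1, hy1.2⟩, hy2.2.1⟩
    have h3 : (Y ∩ X).card ≤ m * r (Y ∩ X) := by
      refine h0Y (Y ∩ X) ?_
      intro y hy
      have hy1 := mem_inter.1 hy
      have hy2 := mem_sdiff.1 (hYE hy1.1)
      rw [mem_union, not_or] at hy2
      exact mem_sdiff.2 ⟨hy1.2, hy2.2.2⟩
    have h4 := h.submod Y X
    have h5 : (Y \ X).card + (Y ∩ X).card = Y.card := card_sdiff_add_card_inter Y X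
    rw [sdiff_union_self_eq_union] at h2
    have h6 : r X ≤ r (Y ∪ X) := h.mono _ _ subset_union_right
    have h7 : m * ((r (Y ∪ X) - r X) + r (Y ∩ X)) ≤ m * r Y :=
      Nat.mul_le_mul_left m (by omega)
    rw [Nat.mul_add] at h7
    omega
  refine ⟨T₁ ∪ T₀, union_subset (hT1.trans sdiff_subset) (hT0.trans hX), ?_, ?_, ?_, hrT,
    key c hYc, key d hYd⟩
  · rw [mem_union, not_or]
    exact ⟨hcT, fun hh => hcX (hT0 hh)⟩
  · rw [mem_union, not_or]
    exact ⟨hdT, fun hh => hdX (hT0 hh)⟩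
  · rw [card_union_of_disjoint hdis2, hTc, h0c]
    omega

private theorem s1r_aux (N : ℕ) : ∀ (r : Finset α → ℕ) (E : Finset α), E.card = N → RankFn r →
    2 ≤ m → E.card = (m + 1) * r E + 1 →
    (∀ Y ⊆ E, Y ≠ E → Y.card ≤ (m + 1) * r Y) → c ∈ E → d ∈ E → c ≠ d →
    S1Concl r m E c d := by
  induction N using Nat.strong_induction_on with
  | _ N ih =>
    intro r E hN h hm hE hY hc hd hcd
    by_cases hcrit : ∀ X ⊆ E, X.Nonempty → c ∉ X → d ∉ X → X.card + 1 ≤ (m + 1) * r X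
    · exact s1_core h hm hE hY hc hd hcd hcrit
    push Not at hcrit
    obtain ⟨X, hXE, hXne, hcX, hdX, hXlt⟩ := hcrit
    have hne : X ≠ E := fun e => hcX (e ▸ hc)
    have hXc : X.card = (m + 1) * r X := by
      have := hY X hXE hne
      omega
    have hXY : ∀ Y ⊆ X, Y.card ≤ (m + 1) * r Y := by
      intro Y hYX
      refine hY Y (hYX.trans hXE) ?_
      intro e
      exact hcX (hYX (e ▸ hc))
    refine s1_contract h hXE hcX hdX hXc hXY ?_
    have hcard : (E \ X).card + X.card = E.card := card_sdiff_add_card_eq_card hXE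
    have hXpos : 0 < X.card := card_pos.2 hXne
    have hEX : E \ X ∪ X = E := sdiff_union_of_subset hXE
    have hXr : r X ≤ r E := h.mono X E hXE
    refine ih (E \ X).card (by omega) _ _ rfl (contr_rank h X) hm ?_ ?_ ?_ ?_ hcd
    · rw [hEX, Nat.mul_sub]
      have h1 : (m + 1) * r X ≤ (m + 1) * r E := Nat.mul_le_mul_left _ hXr
      omega
    · intro Y hYE hYne
      have hdis : Disjoint Y X := by
        rw [disjoint_left]
        intro x hx
        exact (mem_sdiff.1 (hYE hx)).2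
      have hYX : Y ∪ X ≠ E := by
        intro e
        apply hYne
        rw [← e, union_sdiff_cancel_right hdis]
      have h1 := hY (Y ∪ X) (union_subset (hYE.trans sdiff_subset) hXE) hYX
      rw [card_union_of_disjoint hdis] at h1
      have h2 : r X ≤ r (Y ∪ X) := h.mono _ _ subset_union_right
      rw [Nat.mul_sub]
      omega
    · exact mem_sdiff.2 ⟨hc, hcX⟩
    · exact mem_sdiff.2 ⟨hd, hdX⟩

theorem s1r (h : RankFn r) (hm : 2 ≤ m) (hE : E.card = (m + 1) * r E + 1)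
    (hY : ∀ Y ⊆ E, Y ≠ E → Y.card ≤ (m + 1) * r Y) (hc : c ∈ E) (hd : d ∈ E) (hcd : c ≠ d) :
    S1Concl r m E c d :=
  s1r_aux E.card r E rfl h hm hE hY hc hd hcd

end Pool.Agent.DT3
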