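import Pool.Agent.DT3.Rk
import Pool.Agent.DT3.EBb

/-!
The bound `EB` for `φ = wr m r`, `m ≥ 2`, and `Z = F ∪ {c, d}`, `F` a proper flat of `E`: the sum is at most `r F`.

Hypotheses: `|Y| ≤ (m + 1) r Y` for `Y ⊆ E`, `Y ≠ E`; `|X| + 1 ≤ (m + 1) r X` for `∅ ≠ X ⊆ E` with `c, d ∉ X`.

(1) `gg φ c d A ≤ r (A ∩ F)` for `∅ ≠ A ⊆ F ∪ {c, d}`.  Let `A₀ = A ∩ F` (`≠ E`, so `φ A₀ ≤ r A₀`).
 * `c, d ∉ A`: `A = A₀`, `gg = |A| - m r A + 1 ≤ r A`.
 * exactly one of `c, d` is in `A`, say `c`: `gg = φ A`.  If `c ∈ F` then `A = A₀`.  If `c ∉ F`: `A = insert c A₀`,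
   `r A = r A₀ + 1` (`RankFn.mono_insert`, `F` is a flat), `φ A = φ A₀ + 1 - m ≤ r A₀`.
 * both: `gg = φ A - 1`.  If both are in `F`: `A = A₀`.  If exactly one is in `F`: `φ A = φ A₀ + 1 - m`.  If none is in `F`:
   `|A| = |A₀| + 2`, `r A ≥ r A₀ + 1`, `φ A - 1 ≤ φ A₀ + 2 - m - 1 ≤ r A₀`.
(2) Let `P` be separated for `φ` in `F ∪ {c, d}`.  `SepFam.shrink` for `f A = A ∩ F`: `φ (⋃ f A) = ∑ φ (f A)`; the sets
`f A` are disjoint, so `|⋃ f A| = ∑ |f A|` and therefore `m r (⋃ f A) = m ∑ r (f A)`, so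
`∑ r (A ∩ F) = r (⋃ (A ∩ F)) ≤ r F`.
-/

set_option autoImplicit false

namespace Pool.Agent.DT3

open Finset

variable {α : Type*} [DecidableEq α] {r : Finset α → ℕ} {E F : Finset α} {c d : α} {m : ℕ}

private theorem appe_rank (h : RankFn r) (hF : IsFlat r E F) {A : Finset α} {x : α}
    (hxA : x ∈ A) (hxE : x ∈ E) (hxF : x ∉ F) : r (A ∩ F) + 1 ≤ r A := by
  have h1 := hF.2 x (mem_sdiff.2 ⟨hxE, hxF⟩)
  have h2 : insert x (A ∩ F) ⊆ A := insert_subset hxA inter_subset_left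
  have h3 := h.mono _ _ h2
  have h4 := h.mono _ _ (subset_insert x (A ∩ F))
  have h5 : r (insert x (A ∩ F)) ≠ r (A ∩ F) := by
    intro h6
    have h7 := h.mono_insert h6 (inter_subset_right (s₁ := A) (s₂ := F))
    omega
  omega

private theorem appe_gg (h : RankFn r) (hm : 2 ≤ m)
    (hY : ∀ Y ⊆ E, Y ≠ E → Y.card ≤ (m + 1) * r Y) (hc : c ∈ E) (hd : d ∈ E)
    (hcrit : ∀ X ⊆ E, X.Nonempty → c ∉ X → d ∉ X → X.card + 1 ≤ (m + 1) * r X)
    (hF : IsFlat r E F) (hFE : F ≠ E) {A : Finset α} (hA : A.Nonempty)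
    (hAF : A ⊆ F ∪ {c, d}) : gg (wr m r) c d A ≤ r (A ∩ F) := by
  have hA0E : A ∩ F ⊆ E := inter_subset_right.trans hF.1
  have hA0 : A ∩ F ≠ E := by
    intro h1
    apply hFE
    refine Subset.antisymm hF.1 ?_
    rw [← h1]
    exact inter_subset_right
  have hb := hY (A ∩ F) hA0E hA0
  have hbZ : ((A ∩ F).card : ℤ) ≤ (m + 1) * r (A ∩ F) := by exact_mod_cast hb
  have hmZ : (2 : ℤ) ≤ m := by exact_mod_cast hm
  -- `A` minus `F`
  have hcard : A.card = (A ∩ F).card + (A \ F).card := by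
    rw [add_comm, card_sdiff_add_card_inter]
  have hsd : A \ F ⊆ ({c, d} : Finset α) := by
    intro x hx
    rw [mem_sdiff] at hx
    rcases mem_union.1 (hAF hx.1) with h1 | h1
    · exact absurd h1 hx.2
    · exact h1
  by_cases hAs : A ⊆ F
  · have hAe : A ∩ F = A := inter_eq_left.2 hAs
    rw [hAe] at hbZ ⊢
    by_cases hcA : c ∈ A
    · unfold gg wr
      rw [if_pos hcA]
      split_ifs <;> nlinarith
    · by_cases hdA : d ∈ A
      · unfold gg wr
        rw [if_neg hcA, if_pos hdA]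
        nlinarith
      · have h1 := hcrit A (hAs.trans hF.1) hA hcA hdA
        have h1Z : (A.card : ℤ) + 1 ≤ (m + 1) * r A := by exact_mod_cast h1
        unfold gg wr
        rw [if_neg hcA, if_neg hdA]
        nlinarith
  · -- some element of `A` is outside of `F`
    obtain ⟨x, hxA, hxF⟩ := not_subset.1 hAs
    have hx : x = c ∨ x = d := by
      have := hsd (mem_sdiff.2 ⟨hxA, hxF⟩)
      simpa using this
    have hxE : x ∈ E := by
      rcases hx with rfl | rfl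
      · exact hc
      · exact hd
    have hr := appe_rank h hF hxA hxE hxF
    have hrZ : (r (A ∩ F) : ℤ) + 1 ≤ r A := by exact_mod_cast hr
    have hmul : (m : ℤ) * (r (A ∩ F) + 1) ≤ m * r A :=
      mul_le_mul_of_nonneg_left hrZ (by omega)
    have hcardZ : (A.card : ℤ) = (A ∩ F).card + (A \ F).card := by exact_mod_cast hcard
    -- the number of elements of `A \ F`
    have hcnt : ((A \ F).card : ℤ) ≤ (if c ∈ A then 1 else 0) + (if d ∈ A then 1 else 0) := by
      have h1 : A \ F ⊆ (if c ∈ A then {c} else ∅) ∪ (if d ∈ A then {d} else ∅) := by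
        intro y hy
        have hy1 := hsd hy
        have hyA := (mem_sdiff.1 hy).1
        rw [mem_insert, mem_singleton] at hy1
        rcases hy1 with rfl | rfl
        · rw [if_pos hyA]
          exact mem_union_left _ (mem_singleton_self y)
        · rw [if_pos hyA]
          exact mem_union_right _ (mem_singleton_self y)
      have h2 := (card_le_card h1).trans (card_union_le _ _)
      have h3 : ((if c ∈ A then ({c} : Finset α) else ∅).card : ℤ) = if c ∈ A then 1 else 0 := by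
        split_ifs <;> simp
      have h4 : ((if d ∈ A then ({d} : Finset α) else ∅).card : ℤ) = if d ∈ A then 1 else 0 := by
        split_ifs <;> simp
      rw [← h3, ← h4]
      exact_mod_cast h2
    unfold gg wr
    nlinarith

theorem eb_bound (h : RankFn r) (hm : 2 ≤ m)
    (hY : ∀ Y ⊆ E, Y ≠ E → Y.card ≤ (m + 1) * r Y) (hc : c ∈ E) (hd : d ∈ E) (hcd : c ≠ d)
    (hcrit : ∀ X ⊆ E, X.Nonempty → c ∉ X → d ∉ X → X.card + 1 ≤ (m + 1) * r X)
    (hF : IsFlat r E F) (hFE : F ≠ E) : EB (wr m r) (F ∪ {c, d}) c d (r F) := by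
  intro P hP
  have h1 : ∑ A ∈ P, gg (wr m r) c d A ≤ ∑ A ∈ P, (r (A ∩ F) : ℤ) :=
    sum_le_sum fun A hA =>
      appe_gg h hm hY hc hd hcrit hF hFE (hP.nonempty A hA) (hP.sub A hA)
  have h2 := hP.shrink (wr_sm h m) (fun A => A ∩ F) fun A _ => inter_subset_left
  have h3 : (P.biUnion fun A => A ∩ F).card = ∑ A ∈ P, (A ∩ F).card := by
    refine card_biUnion fun A hA B hB hAB => ?_
    exact ((hP.disj A hA B hB hAB).mono_left inter_subset_left).mono_right inter_subset_left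
  have h3Z : ((P.biUnion fun A => A ∩ F).card : ℤ) = ∑ A ∈ P, ((A ∩ F).card : ℤ) := by
    exact_mod_cast h3
  simp only [wr] at h2
  rw [sum_sub_distrib, ← mul_sum, h3Z] at h2
  have hmZ : (0 : ℤ) < m := by
    have : 0 < m := by omega
    exact_mod_cast this
  have h4 : (r (P.biUnion fun A => A ∩ F) : ℤ) = ∑ A ∈ P, (r (A ∩ F) : ℤ) := by
    have h5 : (m : ℤ) * r (P.biUnion fun A => A ∩ F) = m * ∑ A ∈ P, (r (A ∩ F) : ℤ) := by
      linarith
    exact mul_left_cancel₀ hmZ.ne' h5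
  have h6 : r (P.biUnion fun A => A ∩ F) ≤ r F := by
    refine h.mono _ _ ?_
    rw [biUnion_subset]
    intro A _
    exact inter_subset_right
  have h6Z : (r (P.biUnion fun A => A ∩ F) : ℤ) ≤ r F := by exact_mod_cast h6
  linarith

end Pool.Agent.DT3
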