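import Pool.Agent.DT3.Fill
import Pool.Agent.DT3.ChFib

/-!
CASE 1 of the filling step.  `D = {T ∈ KK (fill φ z) E Z c d | nu φ (E \ T) ≠ nu φ E - |T|}`.  In the sequel
`φ' = fill φ z`, `ν = nu φ`, `ν' = nu φ'`; `ν' E = ν E + 1`.

(1) For `T ∈ D`: `ν (E \ T) = ν E - |T| + 1 = ν' (E \ T)`: `ν' (E \ T) = ν E + 1 - |T|`,
`ν' - 1 ≤ ν ≤ ν'`, and `ν (E \ T) ≠ ν E - |T|`.  By `conn_fill_iff` `Conn φ (E \ T) c d`.
(2) `σ T = {t ∈ T | ν (E \ T.erase t) = ν (E \ T)}`, i.e. `T.erase t ∈ II φ E Z` (for `t ∈ T`: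
`E \ T.erase t = insert t (E \ T)`; its `ν` is `ν (E \ T)` or `ν (E \ T) + 1`).
(3) `acyc_fib` for `D`, `σ`, degree `n`: let `T, insert x T ∈ D`, `x ∉ T`; `T₁ = insert x T`.
`ν (E \ T) = ν (E \ T₁) + 1` by (1), so `x ∉ σ T₁`.  For `t ∈ T`: by `nu_marg` (marginal of `t` over
`E \ T₁ ⊆ E \ T`): `ν (insert t (E \ T₁)) - ν (E \ T₁) ≤ ν (insert t (E \ T)) - ν (E \ T)`, so `t ∈ σ T`
implies `t ∈ σ T₁`.  Conversely if `t ∉ σ T`: `ν (insert t (E \ T)) = ν (E \ T) + 1 = ν (E \ T₁) + 2`, and
`insert t (E \ T) = insert x (insert t (E \ T₁))`, so `ν (insert t (E \ T₁)) ≥ ν (E \ T₁) + 1` by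
`nu_insert_le`, i.e. `t ∉ σ T₁`.
(4) The piece `D_S = {T' | S ∩ T' = ∅, S ∪ T' ∈ D, σ (S ∪ T') = S}`.  If it is empty use `acyc_empty`.
Otherwise fix `T₀'` in it, `T₀ = S ∪ T₀'`, `X₀ = E \ T₀`.
 * for `t ∈ T₀'`: `ν (insert t X₀) = ν X₀ + 1`; by `nu_union_marg` `ν (X₀ ∪ T₀') ≥ ν X₀ + |T₀'|`, so
   (`X₀ ∪ T₀' = E \ S`, `nu_union_le`) `ν (E \ S) = ν E - |S| + 1`.  In particular `S ≠ ∅`.
 * `T₀ ∈ II φ' E Z`, so `S ∈ II φ' E Z` (`cpx_II`): `ν' (E \ S) = ν E + 1 - |S| = ν (E \ S)`.
 * for `s ∈ S`: `T₀.erase s ∈ II φ E Z`, so `S.erase s ∈ II φ E Z`: `ν (insert s (E \ S)) = ν (E \ S)`.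
 Claim `D_S = KK φ (E \ S) Z c d`.
 `⊆`: `T' ∈ D_S`, `T = S ∪ T'`: `(E \ S) \ T' = E \ T`, `ν = ν E - |T| + 1 = ν (E \ S) - |T'|`, `Conn φ` by (1).
 `⊇`: `T' ∈ KK φ (E \ S) Z c d`, `T = S ∪ T'` (disjoint, `T ⊆ E \ Z`).  `ν (E \ T) = ν (E \ S) - |T'| =
 ν E - |T| + 1 ≠ ν E - |T|`.  `ν' (E \ T) = ν (E \ T)`: otherwise it is `ν (E \ T) + 1` (`nu_le_fill`,
 `nu_fill_le`) and by `nu_fill_persist` `ν' (E \ S) = ν (E \ S) + 1`, a contradiction.  So
 `ν' (E \ T) = ν' E - |T|`, and `Conn φ' (E \ T) c d` by `conn_fill_iff`: `T ∈ D`.  `σ T = S`: for `s ∈ S` by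
 `nu_marg` (`E \ T ⊆ E \ S`): `ν (insert s (E \ T)) - ν (E \ T) ≤ ν (insert s (E \ S)) - ν (E \ S) = 0`; for
 `t ∈ T'`: `T'.erase t ∈ II φ (E \ S) Z` (`cpx_II`) gives `ν (insert t (E \ T)) = ν (E \ T) + 1`.
(5) The piece is acyclic in degree `n - |S|` by `IH` for `E \ S`, `φ`, `Z` (`Adm φ (E \ S) Z`, `|E \ S| < |E|`):
`(n - |S|) + 2 + e ≤ ν E - |S| + 1 = ν (E \ S)`.
-/

set_option autoImplicit false
set_option linter.unusedSectionVars false

namespace Pool.Agent.DT3

open Finset

variable {α : Type*} [Fintype α] [DecidableEq α] {φ : Finset α → ℤ} {E Z : Finset α} {c d z : α}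

private theorem c1_mem (hA : Adm φ E Z) (hk : z ∈ kap φ E) (T : Finset α) :
    (T ∈ KK (fill φ z) E Z c d ∧ nu φ (E \ T) ≠ nu φ E - T.card) ↔
      T ⊆ E \ Z ∧ nu φ (E \ T) = nu φ E + 1 - T.card ∧
        nu (fill φ z) (E \ T) = nu φ (E \ T) ∧ Conn φ (E \ T) c d := by
  have hF := nu_fill_kap hA.good.toSM hk
  have h1 := nu_le_fill φ z (E \ T)
  have h2 := nu_fill_le φ z (E \ T)
  constructor
  · rintro ⟨⟨hT, hn, hC⟩, hne⟩
    rw [hF] at hn
    have h3 : nu (fill φ z) (E \ T) = nu φ (E \ T) := by omega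
    exact ⟨hT, by omega, h3, (conn_fill_iff hA.good.toSM h3).1 hC⟩
  · rintro ⟨hT, hn, h3, hC⟩
    refine ⟨⟨hT, by rw [hF]; omega, (conn_fill_iff hA.good.toSM h3).2 hC⟩, by omega⟩

private theorem c1_erase {T : Finset α} {t : α} (hT : T ⊆ E) (ht : t ∈ T) :
    E \ T.erase t = insert t (E \ T) := by
  ext x
  simp only [mem_sdiff, mem_erase, mem_insert, not_and]
  constructor
  · rintro ⟨h1, h2⟩
    by_cases hx : x ∈ T
    · left
      by_contra hne
      exact h2 hne hx
    · exact Or.inr ⟨h1, hx⟩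
  · rintro (rfl | ⟨h1, h2⟩)
    · exact ⟨hT ht, fun h => absurd rfl h⟩
    · exact ⟨h1, fun _ h => absurd h h2⟩

theorem case1 (hA : Adm φ E Z) (hz : z ∈ Z) (hk : z ∈ kap φ E) (hc : c ∈ Z) (hd : d ∈ Z)
    (hcd : c ≠ d) {e n : ℤ} (he : EB φ Z c d e) (hn : n + 1 + e ≤ nu φ E)
    (IH : ∀ (φ' : Finset α → ℤ) (E' Z' : Finset α), E'.card < E.card → Adm φ' E' Z' →
      Th φ' E' Z') :
    Acyc {T : Finset α | T ∈ KK (fill φ z) E Z c d ∧ nu φ (E \ T) ≠ nu φ E - T.card} n := by
  classical
  have hsm := hA.good.toSM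
  have hV := hA.marg
  have hsub := hA.sub
  have hVE : E \ Z ⊆ E := sdiff_subset
  have hF := nu_fill_kap hsm hk
  set D : Set (Finset α) :=
    {T : Finset α | T ∈ KK (fill φ z) E Z c d ∧ nu φ (E \ T) ≠ nu φ E - T.card} with hD
  have hmem : ∀ T, T ∈ D ↔ T ⊆ E \ Z ∧ nu φ (E \ T) = nu φ E + 1 - T.card ∧
        nu (fill φ z) (E \ T) = nu φ (E \ T) ∧ Conn φ (E \ T) c d := fun T => c1_mem hA hk T
  set σ : Finset α → Finset α :=
    fun T => T.filter fun t => nu φ (insert t (E \ T)) = nu φ (E \ T) with hσ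
  have hσm : ∀ T t, t ∈ σ T ↔ t ∈ T ∧ nu φ (insert t (E \ T)) = nu φ (E \ T) := by
    intro T t
    simp only [hσ, mem_filter]
  apply acyc_fib σ (fun T _ => filter_subset _ _)
  · -- the covering relations
    intro T hT x hx hTx
    obtain ⟨hTs, hTn, -, -⟩ := (hmem T).1 hT
    obtain ⟨hTs1, hTn1, -, -⟩ := (hmem (insert x T)).1 hTx
    rw [card_insert_of_notMem hx] at hTn1
    push_cast at hTn1
    have hxE : x ∈ E := hVE (hTs1 (mem_insert_self x T))
    have hxins : insert x (E \ insert x T) = E \ T := by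
      rw [← c1_erase (hTs1.trans hVE) (mem_insert_self x T), erase_insert hx]
    have hle : nu φ (E \ T) = nu φ (E \ insert x T) + 1 := by omega
    ext t
    rw [hσm, hσm]
    constructor
    · rintro ⟨ht, h1⟩
      rcases mem_insert.1 ht with rfl | ht'
      · exfalso
        rw [hxins] at h1
        omega
      · refine ⟨ht', ?_⟩
        -- nu (insert t (E \ T)) ≤ nu (insert t (E \ T1)) + 1
        have h2 : insert t (E \ T) = insert x (insert t (E \ insert x T)) := by
          rw [insert_comm, hxins]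
        have h3 := nu_insert_le (hV x (hTs1 (mem_insert_self x T))) (insert t (E \ insert x T))
        rw [← h2] at h3
        have h4 := nu_mono φ (subset_insert t (E \ T))
        omega
    · rintro ⟨ht, h1⟩
      refine ⟨mem_insert_of_mem ht, ?_⟩
      have h2 := nu_marg hsm (v := t) (X := E \ insert x T) (X' := E \ T)
        (sdiff_subset_sdiff (subset_refl E) (subset_insert x T))
        (fun h => (mem_sdiff.1 h).2 ht)
      have h4 := nu_mono φ (subset_insert t (E \ insert x T))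
      omega
  · -- the pieces
    intro S
    by_cases hne : ∃ T₀ : Finset α, Disjoint S T₀ ∧ S ∪ T₀ ∈ D ∧ σ (S ∪ T₀) = S
    swap
    · have he0 : {T' : Finset α | Disjoint S T' ∧ S ∪ T' ∈ D ∧ σ (S ∪ T') = S} = ∅ := by
        ext T'
        simp only [Set.mem_ofPred_eq, Set.mem_empty_iff_false, iff_false]
        exact fun h => hne ⟨T', h⟩
      rw [he0]
      exact acyc_empty _
    obtain ⟨T₀, hdis, hT₀D, hT₀σ⟩ := hne
    obtain ⟨hs0, hn0, hf0, hc0⟩ := (hmem _).1 hT₀D
    rw [card_union_of_disjoint hdis] at hn0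
    push_cast at hn0
    have hSV : S ⊆ E \ Z := subset_union_left.trans hs0
    have hTV : T₀ ⊆ E \ Z := subset_union_right.trans hs0
    have hES : E \ (S ∪ T₀) ∪ T₀ = E \ S := by
      ext x
      simp only [mem_union, mem_sdiff, not_or]
      constructor
      · rintro (⟨h1, h2, -⟩ | h1)
        · exact ⟨h1, h2⟩
        · exact ⟨hVE (hTV h1), fun h2 => disjoint_left.1 hdis h2 h1⟩
      · rintro ⟨h1, h2⟩
        by_cases h3 : x ∈ T₀
        · exact Or.inr h3
        · exact Or.inl ⟨h1, h2, h3⟩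
    -- the value at E \ S
    have hnS : nu φ (E \ S) = nu φ E + 1 - S.card := by
      have h1 := nu_union_le hV hTV (E \ (S ∪ T₀))
      have h2 := nu_union_marg hsm (R := T₀) (X := E \ (S ∪ T₀))
        (by
          rw [disjoint_left]
          intro a ha hb
          exact (mem_sdiff.1 hb).2 (mem_union_right S ha))
        (by
          intro t ht
          have h3 : t ∉ σ (S ∪ T₀) := by
            rw [hT₀σ]
            exact fun h => disjoint_left.1 hdis h ht
          rw [hσm, not_and] at h3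
          have h4 := h3 (mem_union_right S ht)
          have h5 := nu_mono φ (subset_insert t (E \ (S ∪ T₀)))
          omega)
      rw [hES] at h1 h2
      omega
    have hSne : S.Nonempty := by
      rw [nonempty_iff_ne_empty]
      rintro rfl
      rw [sdiff_empty, card_empty] at hnS
      push_cast at hnS
      omega
    have hFS : nu (fill φ z) (E \ S) = nu φ (E \ S) := by
      have h1 := nu_sdiff_ge (φ := fill φ z) (fill_adm hA hz).marg hSV E
      have h2 := nu_union_le (φ := fill φ z) (fill_adm hA hz).marg hTV (E \ (S ∪ T₀))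
      rw [hES] at h2
      rw [hF] at h1
      omega
    -- marginals of the elements of S
    have hSs : ∀ s ∈ S, nu φ (insert s (E \ S)) = nu φ (E \ S) := by
      intro s hs
      have h1 : s ∈ σ (S ∪ T₀) := by rw [hT₀σ]; exact hs
      rw [hσm] at h1
      have h2 := nu_union_le hV hTV (insert s (E \ (S ∪ T₀)))
      rw [insert_union, hES] at h2
      have h3 := nu_mono φ (subset_insert s (E \ S))
      omega
    have hcard : (E \ S).card < E.card := by
      apply card_lt_card
      rw [ssubset_iff_of_subset sdiff_subset]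
      obtain ⟨s, hs⟩ := hSne
      exact ⟨s, hVE (hSV hs), fun h => (mem_sdiff.1 h).2 hs⟩
    have hZS : Z ⊆ E \ S := by
      intro x hx
      refine mem_sdiff.2 ⟨hsub hx, fun h => (mem_sdiff.1 (hSV h)).2 hx⟩
    have hAdm : Adm φ (E \ S) Z := by
      refine ⟨hA.good, hZS, ?_⟩
      intro v hv
      exact hV v (sdiff_subset_sdiff sdiff_subset (subset_refl Z) hv)
    have hEq : {T' : Finset α | Disjoint S T' ∧ S ∪ T' ∈ D ∧ σ (S ∪ T') = S} =
        KK φ (E \ S) Z c d := by
      ext T'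
      simp only [Set.mem_ofPred_eq]
      have hsd : (E \ S) \ T' = E \ (S ∪ T') := by
        rw [sdiff_sdiff_left]
        rfl
      constructor
      · rintro ⟨h1, h2, h3⟩
        obtain ⟨k1, k2, k3, k4⟩ := (hmem _).1 h2
        rw [card_union_of_disjoint h1] at k2
        push_cast at k2
        refine ⟨?_, ?_, ?_⟩
        · intro x hx
          have h4 := k1 (mem_union_right S hx)
          rw [mem_sdiff] at h4 ⊢
          exact ⟨mem_sdiff.2 ⟨h4.1, fun h => disjoint_left.1 h1 h hx⟩, h4.2⟩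
        · rw [hsd]
          omega
        · rw [hsd]
          exact k4
      · rintro ⟨h1, h2, h3⟩
        rw [hsd] at h2 h3
        have hd' : Disjoint S T' := by
          rw [disjoint_left]
          intro x hx hx'
          exact (mem_sdiff.1 (mem_sdiff.1 (h1 hx')).1).2 hx
        have hTV' : T' ⊆ E \ Z := by
          intro x hx
          have h4 := mem_sdiff.1 (h1 hx)
          exact mem_sdiff.2 ⟨(mem_sdiff.1 h4.1).1, h4.2⟩
        have hle := nu_le_fill φ z (E \ (S ∪ T'))
        have hle2 := nu_fill_le φ z (E \ (S ∪ T'))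
        have hfeq : nu (fill φ z) (E \ (S ∪ T')) = nu φ (E \ (S ∪ T')) := by
          by_contra hcon
          have h5 : nu (fill φ z) (E \ (S ∪ T')) = nu φ (E \ (S ∪ T')) + 1 := by omega
          have h6 := nu_fill_persist hsm
            (sdiff_subset_sdiff (subset_refl E) (subset_union_left (s₁ := S) (s₂ := T'))) h5
          omega
        refine ⟨hd', (hmem _).2 ⟨union_subset hSV hTV', ?_, hfeq, h3⟩, ?_⟩
        · rw [card_union_of_disjoint hd']
          push_cast
          omega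
        · ext t
          rw [hσm]
          constructor
          · rintro ⟨h5, h6⟩
            rcases mem_union.1 h5 with h7 | h7
            · exact h7
            · exfalso
              -- T'.erase t ∈ II φ (E \ S) Z
              have h8 : T' ∈ II φ (E \ S) Z := ⟨h1, by rw [hsd]; exact h2⟩
              have h9 := cpx_II hsm hAdm.marg T' h8 (T'.erase t) (erase_subset t T')
              have h10 := h9.2
              rw [card_erase_of_mem h7] at h10
              have h11 : (E \ S) \ T'.erase t = insert t (E \ (S ∪ T')) := by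
                rw [c1_erase (h1.trans sdiff_subset) h7, hsd]
              rw [h11] at h10
              have h12 : 0 < T'.card := card_pos.2 ⟨t, h7⟩
              have h13 : ((T'.card - 1 : ℕ) : ℤ) = (T'.card : ℤ) - 1 := by
                push_cast [Nat.cast_sub h12]
                omega
              omega
          · intro hs
            refine ⟨mem_union_left T' hs, ?_⟩
            have h5 := nu_marg hsm (v := t) (X := E \ (S ∪ T')) (X' := E \ S)
              (sdiff_subset_sdiff (subset_refl E) subset_union_left)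
              (fun h => (mem_sdiff.1 h).2 hs)
            have h6 := hSs t hs
            have h7 := nu_mono φ (subset_insert t (E \ (S ∪ T')))
            omega
    rw [hEq]
    refine IH φ (E \ S) Z hcard hAdm c d e (n - S.card) hc hd hcd he ?_
    rw [hnS]
    linarith

end Pool.Agent.DT3
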