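import Pool.Agent.DT3.PCi
import Pool.Agent.DT3.ChFib

/-!
CASE 2 of the filling step.  `D = {T ∈ KK (fill φ z) E Z c d | T ∈ II φ E Z, T ∉ KK φ E Z c d}`.
`φ' = fill φ z`, `ν = nu φ`.  `hPC` is the statement `pc_all` for the smaller sets `E \ S`.

(0) For `T ∈ D`: `z ∉ kap φ (E \ T)` (else `conn_of_fill_kap` gives `Conn φ (E \ T) c d`).
(1) `σ T = {t ∈ T | z ∈ kap φ (E \ T.erase t)}` (`E \ T.erase t = insert t (E \ T)`).
(2) LEMMA U: let `X`, `R` be disjoint, `z ∉ kap φ X`, and for all `t ∈ R`: `z ∉ kap φ (insert t X)` and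
`ν (insert t X) = ν X + 1`, and `ν (X ∪ R) = ν X + |R|` (as in `II`; every subset `R' ⊆ R` then has
`ν (X ∪ R') = ν X + |R'|`).  Then `z ∉ kap φ (X ∪ R)`.  Induction on `R`: for `t ∉ R'`, `K₁ = kap φ (X ∪ R')`,
`K₂ = kap φ (insert t X)`: `K₁ ∩ K₂ ⊆ X`, so `φ (K₁ ∪ K₂) ≥ φ K₁ + φ K₂ - ν X = ν X + |R'| + 1`: a maximiser
of `X ∪ R' ∪ {t}` without `z` (`kap_sub_of_max`).
(3) `acyc_fib` for `D`, `σ`: let `T, T₁ = insert x T ∈ D`, `x ∉ T`.  `x ∉ σ T₁` by (0) for `T`.  For `t ∈ T`:
`t ∈ σ T₁` implies `t ∈ σ T` by `kap_mono`.  Conversely, if `t ∉ σ T₁` then with `X = E \ T₁`: `z` is not in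
`kap φ (insert t X)` and not in `kap φ (insert x X)`, so by LEMMA U not in `kap φ (X ∪ {t, x}) =
kap φ (E \ T.erase t)`: `t ∉ σ T`.
(4) The piece `D_S` (see `acyc_fib`); if it is empty: `acyc_empty`.  Otherwise let `T₀ = S ∪ T₀'`, `T₀' ∈ D_S`,
`E' = E \ S`.  `S ∈ II φ E Z` (`cpx_II`), `ν E' = ν E - |S|`.
 * `z ∉ kap φ E'`: LEMMA U with `X = E \ T₀`, `R = T₀'`.
 * `S ≠ ∅` because `z ∈ kap φ E`.
 * for `s ∈ S`: `z ∈ kap φ (insert s (E \ T₀)) ⊆ kap φ (insert s E')` (`kap_mono`).
 * a maximiser of `E'` containing `z`: `kap φ E \ S` (`phi_sdiff_ge`: its value is `≥ ν E - |S| = ν E'`).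
(5) Claim `D_S = PC φ E' Z c d z`.  `⊆`: clear (`E' \ T' = E \ (S ∪ T')`).  `⊇`: let `T' ∈ PC φ E' Z c d z`,
`T = S ∪ T'` (disjoint), `X = E \ T = E' \ T'`.  `ν X = ν E' - |T'| = ν E - |T|`, so `T ∈ II φ E Z ⊆ II φ' E Z`
(`II_sub_fill`), `Conn φ' X c d`, not `Conn φ X c d`: `T ∈ D`.  `σ T = S`: for `t ∈ T'`,
`insert t X ⊆ E'`, so `z ∉ kap φ (insert t X)`.  For `s ∈ S`: let `Kˢ = kap φ (insert s X)`, `G = kap φ E'`;
`φ Kˢ = ν (insert s X) = ν X + 1` (`T.erase s ∈ II φ E Z`), `Kˢ ∩ G ⊆ X`, so
`φ (Kˢ ∪ G) ≥ ν X + 1 + ν E' - ν X = ν E' + 1 = ν (insert s E')` (`S.erase s ∈ II φ E Z`): `Kˢ ∪ G` is a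
maximiser of `insert s E'`, so it contains `z ∈ kap φ (insert s E')`; `z ∉ G`, so `z ∈ Kˢ`.
(6) `hPC` for `E'`: `Adm φ E' Z`, `EB`, `(n - |S|) + 1 + e ≤ ν E - |S| = ν E'`.
-/

set_option autoImplicit false

namespace Pool.Agent.DT3

open Finset

variable {α : Type*} [Fintype α] [DecidableEq α] {φ : Finset α → ℤ} {E Z : Finset α}
  {c d z : α}

theorem case2_union (h : SM φ) {X R : Finset α} (hR : Disjoint R X) (hz : z ∉ kap φ X)
    (ht : ∀ t ∈ R, z ∉ kap φ (insert t X)) (ht1 : ∀ t ∈ R, nu φ X + 1 ≤ nu φ (insert t X))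
    (hn : nu φ (X ∪ R) ≤ nu φ X + R.card) : z ∉ kap φ (X ∪ R) := by
  induction R using Finset.induction_on with
  | empty => rw [union_empty]; exact hz
  | insert t R htR ih =>
    rw [disjoint_insert_left] at hR
    have htX : t ∉ X ∪ R := by
      rw [mem_union]; exact fun c => c.elim hR.1 htR
    have e1 : X ∪ insert t R = insert t (X ∪ R) := union_insert t X R
    have hm := nu_marg h (v := t) (subset_union_left (s₁ := X) (s₂ := R)) htX
    have h1 := ht1 t (mem_insert_self t R)
    rw [e1, card_insert_of_notMem htR] at hn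
    push_cast at hn
    have ih' := ih hR.2 (fun s hs => ht s (mem_insert_of_mem hs))
      (fun s hs => ht1 s (mem_insert_of_mem hs)) (by omega)
    have hlow := nu_union_marg h hR.2 (fun s hs => ht1 s (mem_insert_of_mem hs))
    rw [e1]
    -- the maximiser without `z`
    have hsup := h.super (kap φ (X ∪ R)) (kap φ (insert t X))
    rw [phi_kap h, phi_kap h] at hsup
    have hint : φ (kap φ (X ∪ R) ∩ kap φ (insert t X)) ≤ nu φ X := by
      refine le_nu φ fun w hw => ?_
      rw [mem_inter] at hw
      have hw1 := kap_sub φ _ hw.1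
      rcases mem_insert.1 (kap_sub φ _ hw.2) with hw2 | hw2
      · rw [hw2] at hw1
        exact absurd hw1 htX
      · exact hw2
    have hsub : kap φ (X ∪ R) ∪ kap φ (insert t X) ⊆ insert t (X ∪ R) := by
      refine union_subset ((kap_sub φ _).trans (subset_insert _ _)) ((kap_sub φ _).trans ?_)
      exact insert_subset_insert t subset_union_left
    have hle := le_nu φ hsub
    have hk := kap_sub_of_max h hsub (by omega)
    intro hzk
    rcases mem_union.1 (hk hzk) with h2 | h2
    · exact ih' h2
    · exact ht t (mem_insert_self t R) h2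

private theorem II_erase {T : Finset α} {t : α} (h : SM φ) (hm : Marg φ (E \ Z))
    (hT : T ∈ II φ E Z) (ht : t ∈ T) :
    nu φ (insert t (E \ T)) = nu φ (E \ T) + 1 ∧ E \ T.erase t = insert t (E \ T) := by
  have htE : t ∈ E := (mem_sdiff.1 (hT.1 ht)).1
  have h1 : T.erase t ∈ II φ E Z := cpx_II h hm T hT _ (erase_subset t T)
  have h2 := h1.2
  have h3 := hT.2
  have h4 := card_erase_add_one ht
  have h5 : E \ T.erase t = insert t (E \ T) := sdiff_erase htE
  rw [h5] at h2
  refine ⟨?_, h5⟩
  have h6 : ((T.erase t).card : ℤ) + 1 = T.card := by exact_mod_cast h4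
  omega

theorem case2 (hA : Adm φ E Z) (hz : z ∈ Z) (hk : z ∈ kap φ E) (hc : c ∈ Z) (hd : d ∈ Z)
    {e n : ℤ} (hn : n + 1 + e ≤ nu φ E)
    (hPC : ∀ (E' : Finset α) (n' : ℤ), E' ⊆ E → E'.card < E.card → Adm φ E' Z →
      z ∉ kap φ E' → (∃ Y ⊆ E', z ∈ Y ∧ φ Y = nu φ E') → n' + 1 + e ≤ nu φ E' →
      Acyc (PC φ E' Z c d z) n') :
    Acyc {T : Finset α | T ∈ KK (fill φ z) E Z c d ∧ nu φ (E \ T) = nu φ E - T.card ∧
      ¬ Conn φ (E \ T) c d} n := by
  have h : SM φ := hA.good.toSM
  have hm : Marg φ (E \ Z) := hA.marg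
  set D : Set (Finset α) := {T : Finset α | T ∈ KK (fill φ z) E Z c d ∧
      nu φ (E \ T) = nu φ E - T.card ∧ ¬ Conn φ (E \ T) c d} with hD
  have hDII : ∀ T ∈ D, T ∈ II φ E Z := fun T hT => ⟨hT.1.1, hT.2.1⟩
  have h0 : ∀ T ∈ D, z ∉ kap φ (E \ T) := fun T hT hzk =>
    hT.2.2 (conn_of_fill_kap h hzk hT.1.2.2)
  classical
  refine acyc_fib (fun T => T.filter fun t => z ∈ kap φ (E \ T.erase t))
    (fun T _ => filter_subset _ _) ?_ n ?_
  · -- `σ` is constant along covering pairs
    intro T hT x hx hT1
    ext t
    simp only [mem_filter]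
    by_cases htx : t = x
    · subst htx
      constructor
      · rintro ⟨-, h2⟩
        rw [erase_insert hx] at h2
        exact absurd h2 (h0 T hT)
      · rintro ⟨h1, -⟩
        exact absurd h1 hx
    · rw [mem_insert]
      constructor
      · rintro ⟨h1, h2⟩
        refine ⟨h1.resolve_left htx, kap_mono h ?_ h2⟩
        exact sdiff_subset_sdiff (Subset.refl E) (erase_subset_erase t (subset_insert x T))
      · rintro ⟨h1, h2⟩
        refine ⟨Or.inr h1, ?_⟩
        by_contra hcon
        have htT1 : t ∈ insert x T := mem_insert_of_mem h1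
        have hxT1 : x ∈ insert x T := mem_insert_self x T
        have et := II_erase h hm (hDII _ hT1) htT1
        have ex := II_erase h hm (hDII _ hT1) hxT1
        rw [erase_insert hx] at ex
        rw [et.2] at hcon
        have hx0 := h0 T hT
        rw [ex.2] at hx0
        have hTE : ∀ w ∈ insert x T, w ∈ E := fun w hw => (mem_sdiff.1 ((hDII _ hT1).1 hw)).1
        have eU : E \ insert x T ∪ {t, x} = E \ T.erase t := by
          ext w
          simp only [mem_union, mem_sdiff, mem_insert, mem_singleton, mem_erase]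
          constructor
          · rintro (⟨h3, h4⟩ | h3 | h3)
            · exact ⟨h3, fun h5 => h4 (Or.inr h5.2)⟩
            · subst h3
              exact ⟨hTE _ htT1, fun h5 => h5.1 rfl⟩
            · subst h3
              exact ⟨hTE _ hxT1, fun h5 => hx h5.2⟩
          · rintro ⟨h3, h4⟩
            by_cases hwt : w = t
            · exact Or.inr (Or.inl hwt)
            · by_cases hwx : w = x
              · exact Or.inr (Or.inr hwx)
              · exact Or.inl ⟨h3, fun h5 => h5.elim hwx fun h6 => h4 ⟨hwt, h6⟩⟩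
        have hU := case2_union h (X := E \ insert x T) (R := {t, x}) (z := z) ?_
          (h0 _ hT1) ?_ ?_ ?_
        · rw [eU] at hU
          exact hU h2
        · rw [disjoint_left]
          intro w hw hw2
          rw [mem_insert, mem_singleton] at hw
          rw [mem_sdiff] at hw2
          rcases hw with rfl | rfl
          · exact hw2.2 htT1
          · exact hw2.2 hxT1
        · intro w hw
          rw [mem_insert, mem_singleton] at hw
          rcases hw with rfl | rfl
          · exact hcon
          · exact hx0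
        · intro w hw
          rw [mem_insert, mem_singleton] at hw
          rcases hw with rfl | rfl
          · exact et.1.ge
          · exact ex.1.ge
        · rw [eU, card_pair htx]
          have h3 : T.erase t ∈ II φ E Z := cpx_II h hm T (hDII T hT) _ (erase_subset t T)
          have h4 := h3.2
          have h5 := (hDII _ hT1).2
          rw [card_insert_of_notMem hx] at h5
          have h6 : ((T.erase t).card : ℤ) + 1 = T.card := by
            exact_mod_cast card_erase_add_one h1
          push_cast at h5 ⊢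
          omega
  · -- the pieces
    intro S
    rcases Set.eq_empty_or_nonempty {T' : Finset α | Disjoint S T' ∧ S ∪ T' ∈ D ∧
      (S ∪ T').filter (fun t => z ∈ kap φ (E \ (S ∪ T').erase t)) = S} with he | ⟨T0, hd0, hT0, hs0⟩
    · rw [he]
      exact acyc_empty _
    · have hSII : S ∈ II φ E Z := cpx_II h hm _ (hDII _ hT0) _ subset_union_left
      have hSE : S ⊆ E := fun s hs => (mem_sdiff.1 (hSII.1 hs)).1
      have hSZ : ∀ s ∈ S, s ∉ Z := fun s hs => (mem_sdiff.1 (hSII.1 hs)).2
      have hnuE' : nu φ (E \ S) = nu φ E - S.card := hSII.2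
      have hmem0 : ∀ t, t ∈ S ↔ t ∈ S ∪ T0 ∧ z ∈ kap φ (E \ (S ∪ T0).erase t) := by
        intro t
        conv_lhs => rw [← hs0]
        rw [mem_filter]
      have hzE' : z ∉ kap φ (E \ S) := by
        have eU : E \ (S ∪ T0) ∪ T0 = E \ S := by
          ext w
          simp only [mem_union, mem_sdiff]
          constructor
          · rintro (⟨h3, h4⟩ | h3)
            · exact ⟨h3, fun h5 => h4 (Or.inl h5)⟩
            · exact ⟨(mem_sdiff.1 ((hDII _ hT0).1 (mem_union_right _ h3))).1,
                fun h5 => disjoint_left.1 hd0 h5 h3⟩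
          · rintro ⟨h3, h4⟩
            by_cases hw : w ∈ T0
            · exact Or.inr hw
            · exact Or.inl ⟨h3, fun h5 => h5.elim h4 hw⟩
        rw [← eU]
        refine case2_union h ?_ (h0 _ hT0) ?_ ?_ ?_
        · rw [disjoint_left]
          intro w hw hw2
          exact (mem_sdiff.1 hw2).2 (mem_union_right _ hw)
        · intro t ht hcon
          have et := II_erase h hm (hDII _ hT0) (mem_union_right S ht)
          rw [← et.2] at hcon
          exact disjoint_left.1 hd0 ((hmem0 t).2 ⟨mem_union_right S ht, hcon⟩) ht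
        · intro t ht
          exact (II_erase h hm (hDII _ hT0) (mem_union_right S ht)).1.ge
        · rw [eU, hnuE', (hDII _ hT0).2, card_union_of_disjoint hd0]
          push_cast
          omega
      have hSne : S.Nonempty := by
        rw [nonempty_iff_ne_empty]
        intro hS
        rw [hS, sdiff_empty] at hzE'
        exact hzE' hk
      have hzs : ∀ s ∈ S, z ∈ kap φ (insert s (E \ S)) := by
        intro s hs
        have h1 := ((hmem0 s).1 hs).2
        have et := II_erase h hm (hDII _ hT0) (mem_union_left T0 hs)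
        rw [et.2] at h1
        exact kap_mono h (insert_subset_insert s
          (sdiff_subset_sdiff (Subset.refl E) subset_union_left)) h1
      have hY : ∃ Y ⊆ E \ S, z ∈ Y ∧ φ Y = nu φ (E \ S) := by
        refine ⟨kap φ E \ S, sdiff_subset_sdiff (kap_sub φ E) (Subset.refl S),
          mem_sdiff.2 ⟨hk, fun hzS => hSZ z hzS hz⟩, ?_⟩
        have h1 := phi_sdiff_ge hm hSII.1 (kap φ E)
        rw [phi_kap h E] at h1
        have h2 := le_nu φ (sdiff_subset_sdiff (kap_sub φ E) (Subset.refl S))
        omega
      have hA' : Adm φ (E \ S) Z :=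
        { good := hA.good
          sub := fun w hw => mem_sdiff.2 ⟨hA.sub hw, fun hwS => hSZ w hwS hw⟩
          marg := fun v hv => hm v (by
            rw [mem_sdiff, mem_sdiff] at hv
            exact mem_sdiff.2 ⟨hv.1.1, hv.2⟩) }
      have hcard : (E \ S).card < E.card := by
        apply card_lt_card
        rw [ssubset_iff_of_subset sdiff_subset]
        obtain ⟨s, hs⟩ := hSne
        exact ⟨s, hSE hs, fun h1 => (mem_sdiff.1 h1).2 hs⟩
      have hfin := hPC (E \ S) (n - S.card) sdiff_subset hcard hA' hzE' hY (by omega)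
      have hset : {T' : Finset α | Disjoint S T' ∧ S ∪ T' ∈ D ∧
          (S ∪ T').filter (fun t => z ∈ kap φ (E \ (S ∪ T').erase t)) = S}
          = PC φ (E \ S) Z c d z := by
        ext T'
        have eE : (E \ S) \ T' = E \ (S ∪ T') := by
          rw [sdiff_sdiff, sup_eq_union]
        constructor
        · rintro ⟨h1, h2, -⟩
          have hII := hDII _ h2
          refine ⟨⟨?_, ?_⟩, ?_, ?_⟩
          · intro w hw
            have h3 := mem_sdiff.1 (hII.1 (mem_union_right S hw))
            exact mem_sdiff.2 ⟨mem_sdiff.2 ⟨h3.1, fun h4 => disjoint_left.1 h1 h4 hw⟩, h3.2⟩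
          · rw [eE, hII.2, hnuE', card_union_of_disjoint h1]
            push_cast
            omega
          · rw [eE]
            exact h2.1.2.2
          · rw [eE]
            exact h2.2.2
        · rintro ⟨⟨h1, h2⟩, h3, h4⟩
          rw [eE] at h2 h3 h4
          have hdis : Disjoint S T' := by
            rw [disjoint_left]
            intro w hw hw2
            exact (mem_sdiff.1 (mem_sdiff.1 (h1 hw2)).1).2 hw
          have hII : S ∪ T' ∈ II φ E Z := by
            refine ⟨union_subset hSII.1 ?_, ?_⟩
            · intro w hw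
              have h5 := mem_sdiff.1 (h1 hw)
              exact mem_sdiff.2 ⟨(mem_sdiff.1 h5.1).1, h5.2⟩
            · rw [h2, hnuE', card_union_of_disjoint hdis]
              push_cast
              omega
          have hII' := II_sub_fill hA hz hk hII
          refine ⟨hdis, ⟨⟨hII.1, hII'.2, h3⟩, hII.2, h4⟩, ?_⟩
          ext t
          rw [mem_filter]
          constructor
          · rintro ⟨ht, hzt⟩
            rcases mem_union.1 ht with ht' | ht'
            · exact ht'
            · exfalso
              refine hzE' (kap_mono h ?_ hzt)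
              intro w hw
              rw [mem_sdiff, mem_erase] at hw
              rw [mem_sdiff]
              refine ⟨hw.1, fun hwS => hw.2 ⟨?_, mem_union_left _ hwS⟩⟩
              rintro rfl
              exact disjoint_left.1 hdis hwS ht'
          · intro ht
            refine ⟨mem_union_left _ ht, ?_⟩
            have et := II_erase h hm hII (mem_union_left T' ht)
            have eS := II_erase h hm hSII ht
            rw [et.2]
            have hsup := h.super (kap φ (insert t (E \ (S ∪ T')))) (kap φ (E \ S))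
            rw [phi_kap h, phi_kap h, et.1] at hsup
            have hint : φ (kap φ (insert t (E \ (S ∪ T'))) ∩ kap φ (E \ S))
                ≤ nu φ (E \ (S ∪ T')) := by
              refine le_nu φ fun w hw => ?_
              rw [mem_inter] at hw
              have hw2 := kap_sub φ _ hw.2
              rcases mem_insert.1 (kap_sub φ _ hw.1) with hw1 | hw1
              · rw [hw1] at hw2
                exact absurd ht (mem_sdiff.1 hw2).2
              · exact hw1
            have hsub : kap φ (insert t (E \ (S ∪ T'))) ∪ kap φ (E \ S) ⊆ insert t (E \ S) := by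
              refine union_subset ((kap_sub φ _).trans ?_)
                ((kap_sub φ _).trans (subset_insert _ _))
              exact insert_subset_insert t
                (sdiff_subset_sdiff (Subset.refl E) subset_union_left)
            have hle := le_nu φ hsub
            have eS1 := eS.1
            have hkk := kap_sub_of_max h hsub (by omega)
            rcases mem_union.1 (hkk (hzs t ht)) with h5 | h5
            · exact h5
            · exact absurd h5 hzE'
      rw [hset]
      exact hfin

end Pool.Agent.DT3
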