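import Pool.Agent.DT3.Defs

/-!
Chains of finite sets modulo 2: elementary facts on `bd`, `Supp`, `Acyc` (see `Defs`).

* `bd_zero`, `bd_add`, `bd_sum`: linearity.
* `bd_bd`: `bd (bd c) S = ∑_{x ∉ S} ∑_{y ∉ S + x} c (S + x + y)`; the terms `(x, y)` and `(y, x)` are
  equal and cancel modulo 2 (`Finset.sum_involution` on the sigma type, or split in `x < y` ...).
* `bd_card`: if `c` is supported on sets of cardinality `n` then `bd c S = 0` unless
  `S.card = n - 1`.
* `acyc_neg`: for `n < 0` a chain supported on `n`-sets is zero, take `b = 0`.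
* `acyc_empty`: chains supported on the empty family are zero.
-/

set_option autoImplicit false

set_option linter.unusedSectionVars false

namespace Pool.Agent.DT3

open Finset

variable {α : Type*} [Fintype α] [DecidableEq α]

theorem bd_zero (S : Finset α) : bd (0 : Finset α → ZMod 2) S = 0 := by
  simp [bd]

theorem bd_add (c c' : Finset α → ZMod 2) (S : Finset α) :
    bd (c + c') S = bd c S + bd c' S := by
  simp [bd, Finset.sum_add_distrib]

theorem bd_sum {ι : Type*} (s : Finset ι) (c : ι → Finset α → ZMod 2) (S : Finset α) :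
    bd (fun T => ∑ i ∈ s, c i T) S = ∑ i ∈ s, bd (c i) S := by
  unfold bd
  exact Finset.sum_comm

theorem bd_congr {c c' : Finset α → ZMod 2} {S : Finset α}
    (h : ∀ x, x ∉ S → c (insert x S) = c' (insert x S)) : bd c S = bd c' S := by
  unfold bd
  exact Finset.sum_congr rfl fun x hx => h x (Finset.mem_compl.1 hx)

theorem bd_bd (c : Finset α → ZMod 2) (S : Finset α) : bd (bd c) S = 0 := by
  unfold bd
  rw [Finset.sum_sigma']
  refine Finset.sum_involution (fun a _ => ⟨a.2, a.1⟩) ?_ ?_ ?_ ?_
  · rintro ⟨x, y⟩ _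
    show c (insert y (insert x S)) + c (insert x (insert y S)) = 0
    rw [Finset.insert_comm y x S]
    exact CharTwo.add_self_eq_zero _
  · rintro ⟨x, y⟩ hxy _ he
    have h1 : y = x := (Sigma.mk.inj he).1
    rw [Finset.mem_sigma, Finset.mem_compl, Finset.mem_compl, Finset.mem_insert] at hxy
    exact hxy.2 (Or.inl h1)
  · rintro ⟨x, y⟩ hxy
    rw [Finset.mem_sigma, Finset.mem_compl, Finset.mem_compl, Finset.mem_insert] at hxy
    rw [Finset.mem_sigma, Finset.mem_compl, Finset.mem_compl, Finset.mem_insert]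
    exact ⟨fun h => hxy.2 (Or.inr h), fun h => h.elim (fun h => hxy.2 (Or.inl h.symm)) hxy.1⟩
  · rintro ⟨x, y⟩ _
    rfl

theorem bd_card {D : Set (Finset α)} {n : ℤ} {c : Finset α → ZMod 2} (hc : Supp D n c)
    {S : Finset α} (h : bd c S ≠ 0) : (S.card : ℤ) = n - 1 := by
  obtain ⟨x, hx, hcx⟩ := Finset.exists_ne_zero_of_sum_ne_zero h
  have h1 := (hc _ hcx).2
  rw [Finset.card_insert_of_notMem (Finset.mem_compl.1 hx)] at h1
  push_cast at h1
  omega

theorem Supp.add {D : Set (Finset α)} {n : ℤ} {c c' : Finset α → ZMod 2} (hc : Supp D n c)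
    (hc' : Supp D n c') : Supp D n (c + c') := by
  intro T hT
  by_cases h : c T = 0
  · refine hc' T fun h' => hT ?_
    rw [Pi.add_apply, h, h', add_zero]
  · exact hc T h

theorem Supp.mono {D D' : Set (Finset α)} {n : ℤ} {c : Finset α → ZMod 2} (hc : Supp D n c)
    (h : D ⊆ D') : Supp D' n c := by
  intro T hT
  exact ⟨h (hc T hT).1, (hc T hT).2⟩

theorem acyc_neg {D : Set (Finset α)} {n : ℤ} (hn : n < 0) : Acyc D n := by
  intro c hc _
  refine ⟨0, fun T hT => absurd rfl hT, fun T _ => ?_⟩
  rw [bd_zero]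
  by_contra hcon
  have h1 := (hc T fun h => hcon h.symm).2
  omega

theorem acyc_empty (n : ℤ) : Acyc (∅ : Set (Finset α)) n := by
  intro c _ _
  exact ⟨0, fun T hT => absurd rfl hT, fun T hT => absurd hT (Set.notMem_empty T)⟩

end Pool.Agent.DT3
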