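import Pool.Agent.DT3.Kap

/-!
Connectivity of `c` and `d` in `X` (definition `Conn` in `Defs`).  `φ` supermodular, `φ ∅ = 0`.

* `sep_restrict`: if `Y₁, Y₂` are disjoint and `φ (Y₁ ∪ Y₂) ≤ φ Y₁ + φ Y₂` and `W ⊆ Y₁ ∪ Y₂` then
  `φ W ≤ φ (W ∩ Y₁) + φ (W ∩ Y₂)`.  Proof: `φ W + φ Y₁ ≤ φ (W ∪ Y₁) + φ (W ∩ Y₁)`, and
  `φ (W ∪ Y₁) + φ Y₂ ≤ φ (Y₁ ∪ Y₂) + φ (W ∩ Y₂)` (`(W ∪ Y₁) ∪ Y₂ = Y₁ ∪ Y₂`,
  `(W ∪ Y₁) ∩ Y₂ = W ∩ Y₂` by disjointness); add.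
* `conn_kap`: if `Y₁, Y₂ ⊆ X` are disjoint and `nu φ X ≤ φ Y₁ + φ Y₂`, `K = kap φ X`, then
  `nu φ X ≤ φ (K ∩ Y₁) + φ (K ∩ Y₂)`: `Y₁ ∪ Y₂` is a maximiser (`φ (Y₁ ∪ Y₂) ≥ φ Y₁ + φ Y₂` by
  supermodularity and `φ ∅ = 0`), so `K ⊆ Y₁ ∪ Y₂`; use `sep_restrict` with `W = K`.
* `Conn.mem_left`: if `c ∉ K = kap φ X` take `Y₁ = ∅`, `Y₂ = K` in the definition (`d ∉ ∅`, `c ∉ K`).
  `Conn.mem_right`: `Y₁ = K`, `Y₂ = ∅`.
* `conn_congr_kap`: for `kap φ X ⊆ Y ⊆ X`: `Conn φ X c d ↔ Conn φ Y c d` (`nu_congr`, `conn_kap`).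
* `conn_congr_nu`: for `X ⊆ X'` with `nu φ X = nu φ X'`: `Conn φ X c d ↔ Conn φ X' c d`.
* `Conn.symm`: exchange `Y₁`, `Y₂`.
* `Conn.insert`: if `φ (insert v Y) ≤ φ Y + 1` for all `Y`, `nu φ (X.erase v) = nu φ X - 1` and
  `Conn φ (X.erase v) c d`, `v ≠ c`, `v ≠ d`, then `Conn φ X c d`: given `Y₁, Y₂` for `X`, remove `v`:
  `φ Y₁ + φ Y₂ ≤ φ (Y₁.erase v) + φ (Y₂.erase v) + 1` (`v` lies in at most one of them)
  `< nu φ (X.erase v) + 1 = nu φ X`.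
-/

set_option autoImplicit false

namespace Pool.Agent.DT3

open Finset

variable {α : Type*} [DecidableEq α] {φ : Finset α → ℤ} {X X' Y W Y₁ Y₂ : Finset α} {c d : α}

theorem sep_restrict (h : SM φ) (hd : Disjoint Y₁ Y₂) (hs : φ (Y₁ ∪ Y₂) ≤ φ Y₁ + φ Y₂)
    (hW : W ⊆ Y₁ ∪ Y₂) : φ W ≤ φ (W ∩ Y₁) + φ (W ∩ Y₂) := by
  have h1 := h.super W Y₁
  have h2 := h.super (W ∪ Y₁) Y₂
  have e1 : (W ∪ Y₁) ∪ Y₂ = Y₁ ∪ Y₂ := by
    rw [union_assoc]; exact union_eq_right.2 hW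
  have e2 : (W ∪ Y₁) ∩ Y₂ = W ∩ Y₂ := by
    rw [union_inter_distrib_right, disjoint_iff_inter_eq_empty.1 hd, union_empty]
  rw [e1, e2] at h2
  omega

theorem SM.add_le (h : SM φ) (hd : Disjoint Y₁ Y₂) : φ Y₁ + φ Y₂ ≤ φ (Y₁ ∪ Y₂) := by
  have h1 := h.super Y₁ Y₂
  rw [disjoint_iff_inter_eq_empty.1 hd, h.zero] at h1
  omega

theorem conn_kap (h : SM φ) (h1 : Y₁ ⊆ X) (h2 : Y₂ ⊆ X) (hd : Disjoint Y₁ Y₂)
    (hs : nu φ X ≤ φ Y₁ + φ Y₂) :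
    nu φ X ≤ φ (kap φ X ∩ Y₁) + φ (kap φ X ∩ Y₂) := by
  have h3 := h.add_le hd
  have h4 : φ (Y₁ ∪ Y₂) ≤ nu φ X := le_nu φ (union_subset h1 h2)
  have hK : kap φ X ⊆ Y₁ ∪ Y₂ := kap_sub_of_max h (union_subset h1 h2) (by omega)
  have h5 := sep_restrict h hd (by omega) hK
  rw [phi_kap h X] at h5
  exact h5

theorem Conn.mem_left (h : SM φ) (hc : Conn φ X c d) : c ∈ kap φ X := by
  by_contra hn
  have h1 := hc ∅ (kap φ X) (empty_subset _) (kap_sub φ X) (disjoint_empty_left _)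
    (notMem_empty d) hn
  rw [h.zero, phi_kap h X] at h1
  omega

theorem Conn.mem_right (h : SM φ) (hc : Conn φ X c d) : d ∈ kap φ X := by
  by_contra hn
  have h1 := hc (kap φ X) ∅ (kap_sub φ X) (empty_subset _) (disjoint_empty_right _)
    hn (notMem_empty c)
  rw [h.zero, phi_kap h X] at h1
  omega

theorem conn_congr_kap (h : SM φ) (hY : kap φ X ⊆ Y) (hYX : Y ⊆ X) :
    Conn φ X c d ↔ Conn φ Y c d := by
  have hn : nu φ Y = nu φ X := nu_congr h hY hYX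
  constructor
  · intro hc Y₁ Y₂ h1 h2 hd hd1 hc2
    rw [hn]
    exact hc Y₁ Y₂ (h1.trans hYX) (h2.trans hYX) hd hd1 hc2
  · intro hc Y₁ Y₂ h1 h2 hd hd1 hc2
    by_contra hlt
    have h3 := conn_kap h h1 h2 hd (by omega)
    have h4 := hc (kap φ X ∩ Y₁) (kap φ X ∩ Y₂) (inter_subset_left.trans hY)
      (inter_subset_left.trans hY)
      (hd.mono inter_subset_right inter_subset_right)
      (fun hh => hd1 (mem_inter.1 hh).2) (fun hh => hc2 (mem_inter.1 hh).2)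
    omega

theorem conn_congr_nu (h : SM φ) (hX : X ⊆ X') (hn : nu φ X = nu φ X') :
    Conn φ X c d ↔ Conn φ X' c d := by
  have hk : kap φ X = kap φ X' := kap_eq_of_nu h hX hn
  refine (conn_congr_kap h ?_ hX).symm
  rw [← hk]
  exact kap_sub φ X

theorem Conn.symm (hc : Conn φ X c d) : Conn φ X d c := by
  intro Y₁ Y₂ h1 h2 hd hd1 hc2
  rw [add_comm]
  exact hc Y₂ Y₁ h2 h1 hd.symm hc2 hd1

theorem Conn.of_erase {v : α} (hv : ∀ Y, φ (insert v Y) ≤ φ Y + 1) (hvc : v ≠ c) (hvd : v ≠ d)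
    (hn : nu φ (X.erase v) = nu φ X - 1) (hc : Conn φ (X.erase v) c d) : Conn φ X c d := by
  intro Y₁ Y₂ h1 h2 hd hd1 hc2
  have h3 := hc (Y₁.erase v) (Y₂.erase v) (erase_subset_erase v h1) (erase_subset_erase v h2)
    (hd.mono (erase_subset v Y₁) (erase_subset v Y₂))
    (fun hh => hd1 (mem_erase.1 hh).2) (fun hh => hc2 (mem_erase.1 hh).2)
  by_cases hv1 : v ∈ Y₁
  · have hv2 : v ∉ Y₂ := fun hh => disjoint_left.1 hd hv1 hh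
    have h4 := hv (Y₁.erase v)
    rw [insert_erase hv1] at h4
    rw [erase_eq_of_notMem hv2] at h3
    omega
  · rw [erase_eq_of_notMem hv1] at h3
    by_cases hv2 : v ∈ Y₂
    · have h4 := hv (Y₂.erase v)
      rw [insert_erase hv2] at h4
      omega
    · rw [erase_eq_of_notMem hv2] at h3
      omega

end Pool.Agent.DT3
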