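import Pool.Agent.DT3.Fill

/-!
Collapsing.  `CD φ E G P z`: `G = kap φ E`, `z ∉ G`, and `G ∪ P` (disjoint union, `z ∈ P`) is the smallest
maximiser of `φ` in `E` which contains `z`.

* `exists_CD`: the maximisers of `φ` in `E` which contain `z` are closed under intersection (`max_inter`);
  take one, `C₀`, of least cardinality; it is contained in every other one; `G = kap φ E ⊆ C₀`;
  `P = C₀ \ G`.
* `CD.good_coll`: `coll φ G P z Y = φ (π (Y ∩ (G + z))) + [z ∈ Y]` with `π Y = (Y \ {z}) ∪ P` if `z ∈ Y` and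
  `π Y = Y` otherwise; on subsets of `G + z` `π` preserves unions and intersections because `P` is disjoint
  from `G`: so the gap of `A, B` for `coll` is the gap of `π(A ∩ (G + z))`, `π (B ∩ (G + z))` for `φ`.
  (Direct check in the four cases `z ∈ A`, `z ∈ B`.)
* `CD.union_le`: for `Y ⊆ G`: `φ (Y ∪ P) ≤ φ Y`: supermodularity for `Y ∪ P` and `G`: union `G ∪ P`,
  intersection `Y`; `φ (G ∪ P) = nu φ E = φ G` (`phi_kap`).
* `CD.coll_marg`, `CD.coll_marg_z`: from `Marg` of `φ`, resp. `CD.union_le`.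
* `CD.nu_coll_sub`: on subsets of `G` `coll` is `φ`.
* `CD.nu_coll_le`: for `X ⊆ G`: `nu coll (insert z X) ≤ nu φ X + 1` (`CD.union_le`).
* `CD.nu_coll_top`: `nu coll (insert z G) = nu φ E + 1` (`coll (insert z G) = φ (G ∪ P) + 1`).
* `CD.nu_coll_II`: for `T ∈ II φ E Z` (`T ⊆ G`, `II_sub_kap`): `nu coll (insert z (G \ T)) = nu φ (E \ T) + 1`:
  `≥`: `φ ((G ∪ P) \ T) ≥ nu φ E - |T| = nu φ (E \ T)` (`phi_sdiff_ge`), and
  `(G ∪ P) \ T = (G \ T) ∪ P`; `≤`: `CD.nu_coll_le` and `nu_kap_sdiff`.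
* `CD.max_sdiff`: for `T ∈ II φ E Z`: `φ ((G ∪ P) \ T) = nu φ (E \ T)`.
* `CD.P_sub`: `Y₁, Y₂ ⊆ E \ T` disjoint, `z ∈ Y₁`, `nu φ (E \ T) ≤ φ Y₁ + φ Y₂` (any `T`): then `P ⊆ Y₁`.
  `φ (Y₁ ∩ G) + φ Y₂ ≤ φ ((Y₁ ∩ G) ∪ Y₂) ≤ nu φ (E \ T) ≤ φ Y₁ + φ Y₂`, so `φ (Y₁ ∩ G) ≤ φ Y₁`, so
  `φ (Y₁ ∪ G) ≥ φ Y₁ + φ G - φ (Y₁ ∩ G) ≥ φ G = nu φ E`: `Y₁ ∪ G` is a maximiser in `E` containing `z`, so
  `P ⊆ Y₁ ∪ G`, and `P ∩ G = ∅`.
-/

set_option autoImplicit false

namespace Pool.Agent.DT3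

open Finset

variable {α : Type*} [DecidableEq α]

/-- Collapse data, see the header. -/
structure CD (φ : Finset α → ℤ) (E G P : Finset α) (z : α) : Prop where
  good : Good φ
  hG : G = kap φ E
  zG : z ∉ G
  zP : z ∈ P
  disj : Disjoint G P
  PE : P ⊆ E
  max : φ (G ∪ P) = nu φ E
  min : ∀ Y ⊆ E, z ∈ Y → φ Y = nu φ E → P ⊆ Y

variable {φ : Finset α → ℤ} {E Z G P X Y T Y₁ Y₂ : Finset α} {c d z : α}

theorem exists_CD (h : Good φ) (hz : z ∉ kap φ E) (hY : ∃ Y ⊆ E, z ∈ Y ∧ φ Y = nu φ E) :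
    ∃ P, CD φ E (kap φ E) P z := by
  obtain ⟨C, hC, hmin⟩ := Finset.exists_min_image
    (E.powerset.filter fun Y => z ∈ Y ∧ φ Y = nu φ E) card (by
    obtain ⟨Y, hY, h1⟩ := hY
    exact ⟨Y, mem_filter.2 ⟨mem_powerset.2 hY, h1⟩⟩)
  rw [mem_filter, mem_powerset] at hC
  obtain ⟨hCE, hzC, hCm⟩ := hC
  have hk : kap φ E ⊆ C := kap_sub_of_max h.toSM hCE hCm
  refine ⟨C \ kap φ E, ⟨h, rfl, hz, mem_sdiff.2 ⟨hzC, hz⟩, disjoint_sdiff,
    sdiff_subset.trans hCE, ?_, ?_⟩⟩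
  · rw [union_sdiff_of_subset hk]
    exact hCm
  · intro Y hYE hzY hYm
    have h1 : φ (C ∩ Y) = nu φ E := max_inter h.toSM hCE hCm hYE hYm
    have h2 := hmin (C ∩ Y) (mem_filter.2 ⟨mem_powerset.2 (inter_subset_left.trans hCE),
      mem_inter.2 ⟨hzC, hzY⟩, h1⟩)
    have h3 := Finset.eq_of_subset_of_card_le (inter_subset_left : C ∩ Y ⊆ C) h2
    refine sdiff_subset.trans ?_
    rw [← h3]
    exact inter_subset_right

private def pj_coll (G P : Finset α) (z : α) (Y : Finset α) : Finset α :=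
  if z ∈ Y then (Y ∩ G) ∪ P else Y ∩ G

private theorem mem_pj_coll {x : α} :
    x ∈ pj_coll G P z Y ↔ (x ∈ Y ∧ x ∈ G) ∨ (z ∈ Y ∧ x ∈ P) := by
  unfold pj_coll
  by_cases hz : z ∈ Y
  · rw [if_pos hz, mem_union, mem_inter]
    tauto
  · rw [if_neg hz, mem_inter]
    tauto

private theorem coll_eq_coll (φ : Finset α → ℤ) (G P : Finset α) (z : α) (Y : Finset α) :
    coll φ G P z Y = φ (pj_coll G P z Y) + if z ∈ Y then 1 else 0 := by
  unfold coll pj_coll
  by_cases hz : z ∈ Y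
  · rw [if_pos hz, if_pos hz, if_pos hz]
  · rw [if_neg hz, if_neg hz, if_neg hz, add_zero]

private theorem gap_coll (hd : Disjoint G P) (A B : Finset α) :
    coll φ G P z (A ∪ B) + coll φ G P z (A ∩ B) - coll φ G P z A - coll φ G P z B =
      φ (pj_coll G P z A ∪ pj_coll G P z B) + φ (pj_coll G P z A ∩ pj_coll G P z B) -
        φ (pj_coll G P z A) - φ (pj_coll G P z B) := by
  have e1 : pj_coll G P z (A ∪ B) = pj_coll G P z A ∪ pj_coll G P z B := by
    ext x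
    rw [mem_union, mem_pj_coll, mem_pj_coll, mem_pj_coll, mem_union, mem_union]
    tauto
  have e2 : pj_coll G P z (A ∩ B) = pj_coll G P z A ∩ pj_coll G P z B := by
    ext x
    rw [mem_inter, mem_pj_coll, mem_pj_coll, mem_pj_coll, mem_inter, mem_inter]
    have h1 : x ∈ G → x ∉ P := fun h => disjoint_left.1 hd h
    tauto
  rw [coll_eq_coll, coll_eq_coll, coll_eq_coll, coll_eq_coll, e1, e2]
  by_cases hA : z ∈ A
  · by_cases hB : z ∈ B
    · rw [if_pos (mem_union_left B hA), if_pos (mem_inter.2 ⟨hA, hB⟩), if_pos hA, if_pos hB]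
      ring
    · rw [if_pos (mem_union_left B hA), if_neg (fun h => hB (mem_inter.1 h).2), if_pos hA,
        if_neg hB]
      ring
  · by_cases hB : z ∈ B
    · rw [if_pos (mem_union_right A hB), if_neg (fun h => hA (mem_inter.1 h).1), if_neg hA,
        if_pos hB]
      ring
    · rw [if_neg (fun h => (mem_union.1 h).elim hA hB), if_neg (fun h => hA (mem_inter.1 h).1),
        if_neg hA, if_neg hB]
      ring

theorem CD.good_coll (h : CD φ E G P z) : Good (coll φ G P z) := by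
  refine ⟨⟨?_, ?_⟩, ?_⟩
  · unfold coll
    rw [if_neg (notMem_empty z), empty_inter]
    exact h.good.zero
  · intro A B
    have h1 := gap_coll (φ := φ) (z := z) h.disj A B
    have h2 := h.good.super (pj_coll G P z A) (pj_coll G P z B)
    omega
  · intro A B
    have h1 := gap_coll (φ := φ) (z := z) h.disj A B
    have h2 := h.good.gap (pj_coll G P z A) (pj_coll G P z B)
    omega

theorem CD.GE (h : CD φ E G P z) : G ⊆ E := by
  rw [h.hG]
  exact kap_sub φ E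

private theorem phiG_coll (h : CD φ E G P z) : φ G = nu φ E := by
  rw [h.hG]
  exact phi_kap h.good.toSM E

theorem CD.coll_sub (h : CD φ E G P z) (hY : Y ⊆ G) : coll φ G P z Y = φ Y := by
  unfold coll
  rw [if_neg fun hz => h.zG (hY hz), inter_eq_left.2 hY]

theorem CD.coll_insert (h : CD φ E G P z) (hY : Y ⊆ G) :
    coll φ G P z (insert z Y) = φ (Y ∪ P) + 1 := by
  unfold coll
  rw [if_pos (mem_insert_self z Y), insert_inter_of_notMem h.zG, inter_eq_left.2 hY]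

theorem CD.union_le (h : CD φ E G P z) (hY : Y ⊆ G) : φ (Y ∪ P) ≤ φ Y := by
  have h1 := h.good.super (Y ∪ P) G
  have e1 : (Y ∪ P) ∪ G = G ∪ P := by
    rw [union_right_comm, union_eq_right.2 hY]
  have e2 : (Y ∪ P) ∩ G = Y := by
    rw [union_inter_distrib_right, inter_eq_left.2 hY, inter_comm P G,
      disjoint_iff_inter_eq_empty.1 h.disj, union_empty]
  rw [e1, e2, h.max, phiG_coll h] at h1
  omega

theorem CD.coll_marg (h : CD φ E G P z) {v : α} (hv : v ∈ G)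
    (hm : ∀ Y, φ (insert v Y) ≤ φ Y + 1) (Y : Finset α) :
    coll φ G P z (insert v Y) ≤ coll φ G P z Y + 1 := by
  have hne : z ≠ v := fun e => h.zG (e ▸ hv)
  unfold coll
  rw [insert_inter_of_mem hv]
  by_cases hz : z ∈ Y
  · rw [if_pos (mem_insert_of_mem hz), if_pos hz, insert_union]
    have := hm (Y ∩ G ∪ P)
    omega
  · rw [if_neg (fun h => (mem_insert.1 h).elim hne hz), if_neg hz]
    exact hm _

theorem CD.coll_marg_z (h : CD φ E G P z) (Y : Finset α) :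
    coll φ G P z (insert z Y) ≤ coll φ G P z Y + 1 := by
  by_cases hz : z ∈ Y
  · rw [insert_eq_of_mem hz]
    omega
  · unfold coll
    rw [if_pos (mem_insert_self z Y), if_neg hz, insert_inter_of_notMem h.zG]
    have := h.union_le (inter_subset_right : Y ∩ G ⊆ G)
    omega

theorem CD.nu_coll_sub (h : CD φ E G P z) (hX : X ⊆ G) : nu (coll φ G P z) X = nu φ X := by
  apply le_antisymm
  · refine nu_le_iff.2 fun Y hY => ?_
    rw [h.coll_sub (hY.trans hX)]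
    exact le_nu φ hY
  · refine nu_le_iff.2 fun Y hY => ?_
    rw [← h.coll_sub (hY.trans hX)]
    exact le_nu _ hY

theorem CD.nu_coll_le (h : CD φ E G P z) (hX : X ⊆ G) :
    nu (coll φ G P z) (insert z X) ≤ nu φ X + 1 := by
  rw [← h.nu_coll_sub hX]
  exact nu_insert_le h.coll_marg_z X

theorem CD.nu_coll_top (h : CD φ E G P z) : nu (coll φ G P z) (insert z G) = nu φ E + 1 := by
  apply le_antisymm
  · have h1 := h.nu_coll_le (subset_refl G)
    have h2 : nu φ G ≤ nu φ E := nu_mono φ h.GE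
    omega
  · have h1 : coll φ G P z (insert z G) ≤ nu (coll φ G P z) (insert z G) :=
      le_nu _ (subset_refl _)
    rw [h.coll_insert (subset_refl G), h.max] at h1
    exact h1

theorem CD.max_sdiff (h : CD φ E G P z) (hm : Marg φ (E \ Z)) (hT : T ∈ II φ E Z) :
    φ ((G ∪ P) \ T) = nu φ (E \ T) := by
  apply le_antisymm
  · exact le_nu φ (sdiff_subset_sdiff (union_subset h.GE h.PE) (subset_refl T))
  · have h1 := phi_sdiff_ge hm hT.1 (G ∪ P)
    have h2 := hT.2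
    rw [h.max] at h1
    omega

private theorem sd_coll (h : CD φ E G P z) (hm : Marg φ (E \ Z)) (hT : T ∈ II φ E Z) :
    (G ∪ P) \ T = (G \ T) ∪ P := by
  have hTG : T ⊆ G := by
    rw [h.hG]
    exact II_sub_kap h.good.toSM hm hT
  ext x
  rw [mem_sdiff, mem_union, mem_union, mem_sdiff]
  have h1 : x ∈ P → x ∉ T := fun hx hxT => disjoint_left.1 h.disj (hTG hxT) hx
  tauto

theorem CD.nu_coll_II (h : CD φ E G P z) (hm : Marg φ (E \ Z)) (hT : T ∈ II φ E Z) :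
    nu (coll φ G P z) (insert z (G \ T)) = nu φ (E \ T) + 1 := by
  apply le_antisymm
  · have h1 := h.nu_coll_le (sdiff_subset : G \ T ⊆ G)
    have h2 := nu_kap_sdiff h.good.toSM E T
    rw [← h.hG] at h2
    omega
  · have h1 : coll φ G P z (insert z (G \ T)) ≤ nu (coll φ G P z) (insert z (G \ T)) :=
      le_nu _ (subset_refl _)
    rw [h.coll_insert sdiff_subset, ← sd_coll h hm hT, h.max_sdiff hm hT] at h1
    exact h1

theorem CD.nu_fill_II (h : CD φ E G P z) (hm : Marg φ (E \ Z)) (hT : T ∈ II φ E Z) :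
    nu (fill φ z) (E \ T) = nu φ (E \ T) + 1 := by
  rw [nu_fill_iff]
  refine ⟨(G ∪ P) \ T, sdiff_subset_sdiff (union_subset h.GE h.PE) (subset_refl T), ?_,
    h.max_sdiff hm hT⟩
  rw [sd_coll h hm hT]
  exact mem_union_right _ h.zP

theorem CD.P_sub (h : CD φ E G P z) (h1 : Y₁ ⊆ E \ T) (h2 : Y₂ ⊆ E \ T)
    (hd : Disjoint Y₁ Y₂) (hz : z ∈ Y₁) (hs : nu φ (E \ T) ≤ φ Y₁ + φ Y₂) : P ⊆ Y₁ := by
  have h3 := h.good.toSM.add_le (Y₁ := Y₁ ∩ G) (Y₂ := Y₂) (hd.mono inter_subset_left subset_rfl)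
  have h4 : φ (Y₁ ∩ G ∪ Y₂) ≤ nu φ (E \ T) :=
    le_nu φ (union_subset (inter_subset_left.trans h1) h2)
  have h5 := h.good.super Y₁ G
  have h6 : Y₁ ∪ G ⊆ E := union_subset (h1.trans sdiff_subset) h.GE
  have h7 : φ (Y₁ ∪ G) ≤ nu φ E := le_nu φ h6
  have h8 := phiG_coll h
  have h9 := h.min (Y₁ ∪ G) h6 (mem_union_left _ hz) (by omega)
  intro x hx
  exact (mem_union.1 (h9 hx)).resolve_right fun hG => disjoint_left.1 h.disj hG hx

theorem CD.conn_coll_sub (h : CD φ E G P z) (hX : X ⊆ G) :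
    Conn (coll φ G P z) X c d ↔ Conn φ X c d := by
  unfold Conn
  rw [h.nu_coll_sub hX]
  constructor
  · intro hc Y₁ Y₂ h1 h2 hd hd1 hc2
    rw [← h.coll_sub (h1.trans hX), ← h.coll_sub (h2.trans hX)]
    exact hc Y₁ Y₂ h1 h2 hd hd1 hc2
  · intro hc Y₁ Y₂ h1 h2 hd hd1 hc2
    rw [h.coll_sub (h1.trans hX), h.coll_sub (h2.trans hX)]
    exact hc Y₁ Y₂ h1 h2 hd hd1 hc2

end Pool.Agent.DT3
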