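import Pool.Agent.DT3.Coll

/-!
Connectivity after collapsing.  `CD φ E G P z`, `T ∈ II φ E Z` (so `T ⊆ G`, `T ∩ P = ∅`), `X = E \ T`,
`X^ = insert z (G \ T)`, `φ^ = coll φ G P z`, `ν = nu φ X`; `nu (fill φ z) X = ν + 1 = nu φ^ X^`
(`CD.nu_fill_II`, `CD.nu_coll_II`).

(A) From `X^` to `X`: let `Y₁', Y₂' ⊆ X^` be disjoint with `φ^ Y₁' + φ^ Y₂' ≥ ν + 1`.  `z ∈ Y₁' ∪ Y₂'`
(otherwise both are subsets of `G \ T`, `φ (Y₁' ∪ Y₂') ≥ φ Y₁' + φ Y₂' ≥ ν + 1`).  If `z ∈ Y₁'` put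
`Y₁ = (Y₁'.erase z) ∪ P`, `Y₂ = Y₂'`: disjoint subsets of `X`, `fill Y₁ + fill Y₂ = φ^ Y₁' + φ^ Y₂'`.
(B) From `X` to `X^`: let `Y₁, Y₂ ⊆ X` be disjoint with `fill Y₁ + fill Y₂ ≥ ν + 1`.  `z ∈ Y₁ ∪ Y₂` (as
before).  If `z ∈ Y₁` then `φ Y₁ + φ Y₂ ≥ ν`, `P ⊆ Y₁` (`CD.P_sub`).  `W = Y₁ ∪ Y₂` is a maximiser of `φ`
in `X`, and so is `(G ∪ P) \ T` (`CD.max_sdiff`), so `W' = W ∩ ((G ∪ P) \ T)` is a maximiser
(`max_inter`), and by `sep_restrict` `ν = φ W' ≤ φ (W' ∩ Y₁) + φ (W' ∩ Y₂)` with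
`W' ∩ Y₁ = (Y₁ ∩ G) ∪ P`, `W' ∩ Y₂ = Y₂ ∩ G`.  Put `Y₁' = insert z (Y₁ ∩ G)`, `Y₂' = Y₂ ∩ G`
(subsets of `X^`): `φ^ Y₁' + φ^ Y₂' ≥ ν + 1`.

* `collC_GG` (`c, d ∈ G`): the conditions `d ∉ Y₁`, `c ∉ Y₂` are preserved in (A), (B) (`P ∩ G = ∅`); if
  `z ∈ Y₂` do the same with the roles exchanged.
* `collC_PG` (`c ∈ P`, `d ∈ G`): `Conn (fill φ z) X c d ↔ Conn φ^ X^ z d`.  `→`: by (A): `z ∉ Y₂'`, so
  `z ∈ Y₁'`; `Y₂ = Y₂' ⊆ G` does not contain `c ∈ P`; `d ∉ Y₁` since `d ∈ G`.  `←`: by (B): if `z ∈ Y₂` then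
  `P ⊆ Y₂` (`CD.P_sub` with exchanged roles), `c ∈ Y₂`, a contradiction.  So `z ∈ Y₁`.
* `collC_PP` (`c, d ∈ P`): `Conn (fill φ z) X c d` holds: if `z ∈ Y₁` then `d ∈ P ⊆ Y₁`; if `z ∈ Y₂` then
  `c ∈ P ⊆ Y₂`.
* `collC_out`: if `c ∉ G ∪ P` then `Conn (fill φ z) X c d` fails: `(G ∪ P) \ T` is a maximiser of `fill φ z`
  in `X` (value `ν + 1`), so `kap (fill φ z) X ⊆ G ∪ P` (`kap_sub_of_max`), `Conn.mem_left`.
-/

set_option autoImplicit false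

namespace Pool.Agent.DT3

open Finset

variable {α : Type*} [DecidableEq α] {φ : Finset α → ℤ} {E Z G P T : Finset α} {c d z : α}

private theorem collC_TG (h : CD φ E G P z) (hm : Marg φ (E \ Z)) (hT : T ∈ II φ E Z) :
    T ⊆ G := by
  rw [h.hG]
  exact II_sub_kap h.good.toSM hm hT

private theorem collC_A (h : CD φ E G P z) (hTG : T ⊆ G) {Y₁ Y₂ : Finset α}
    (h1 : Y₁ ⊆ insert z (G \ T)) (h2 : Y₂ ⊆ insert z (G \ T)) (hd : Disjoint Y₁ Y₂)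
    (hz : z ∈ Y₁) :
    (Y₁.erase z ∪ P ⊆ E \ T) ∧ (Y₂ ⊆ E \ T) ∧ Disjoint (Y₁.erase z ∪ P) Y₂ ∧ Y₂ ⊆ G ∧
      fill φ z (Y₁.erase z ∪ P) + fill φ z Y₂ = coll φ G P z Y₁ + coll φ G P z Y₂ := by
  have hz2 : z ∉ Y₂ := fun hh => disjoint_left.1 hd hz hh
  have hGP := h.disj
  have hPT : ∀ x ∈ P, x ∉ T := fun x hx hxT => disjoint_left.1 hGP (hTG hxT) hx
  have hY2 : Y₂ ⊆ G \ T := by
    intro x hx
    rcases mem_insert.1 (h2 hx) with e | e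
    · rw [e] at hx; exact absurd hx hz2
    · exact e
  have hY1 : Y₁.erase z ⊆ G \ T := by
    intro x hx
    rw [mem_erase] at hx
    rcases mem_insert.1 (h1 hx.2) with e | e
    · exact absurd e hx.1
    · exact e
  have hGE : G \ T ⊆ E \ T := sdiff_subset_sdiff h.GE (Subset.refl T)
  have hY2G : Y₂ ⊆ G := hY2.trans sdiff_subset
  refine ⟨?_, hY2.trans hGE, ?_, hY2G, ?_⟩
  · refine union_subset (hY1.trans hGE) fun x hx => ?_
    exact mem_sdiff.2 ⟨h.PE hx, hPT x hx⟩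
  · rw [disjoint_union_left]
    refine ⟨hd.mono_left (erase_subset _ _), ?_⟩
    exact (hGP.mono_left hY2G).symm
  · have e1 : Y₁ ∩ G = Y₁.erase z := by
      ext x
      rw [mem_inter, mem_erase]
      constructor
      · rintro ⟨a, b⟩
        refine ⟨?_, a⟩
        rintro rfl
        exact h.zG b
      · rintro ⟨a, b⟩
        exact ⟨b, (mem_sdiff.1 (hY1 (mem_erase.2 ⟨a, b⟩))).1⟩
    have e2 : Y₂ ∩ G = Y₂ := inter_eq_left.2 hY2G
    have e3 : z ∈ Y₁.erase z ∪ P := mem_union_right _ h.zP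
    unfold fill coll
    rw [if_pos e3, if_neg hz2, if_pos hz, if_neg hz2, e1, e2]
    ring

private theorem collC_A0 (h : CD φ E G P z) {Y₁ Y₂ : Finset α}
    (h1 : Y₁ ⊆ insert z (G \ T)) (h2 : Y₂ ⊆ insert z (G \ T)) (hd : Disjoint Y₁ Y₂)
    (hz1 : z ∉ Y₁) (hz2 : z ∉ Y₂) :
    coll φ G P z Y₁ + coll φ G P z Y₂ ≤ nu φ (E \ T) := by
  have key : ∀ Y : Finset α, Y ⊆ insert z (G \ T) → z ∉ Y → Y ⊆ G \ T := by
    intro Y hY hzY x hx
    rcases mem_insert.1 (hY hx) with e | e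
    · rw [e] at hx; exact absurd hx hzY
    · exact e
  have k1 := key Y₁ h1 hz1
  have k2 := key Y₂ h2 hz2
  have e1 : Y₁ ∩ G = Y₁ := inter_eq_left.2 (k1.trans sdiff_subset)
  have e2 : Y₂ ∩ G = Y₂ := inter_eq_left.2 (k2.trans sdiff_subset)
  unfold coll
  rw [if_neg hz1, if_neg hz2, e1, e2]
  refine (h.good.toSM.add_le hd).trans (le_nu φ ?_)
  exact (union_subset k1 k2).trans (sdiff_subset_sdiff h.GE (Subset.refl T))

private theorem collC_B (h : CD φ E G P z) (hm : Marg φ (E \ Z)) (hT : T ∈ II φ E Z)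
    {Y₁ Y₂ : Finset α} (h1 : Y₁ ⊆ E \ T) (h2 : Y₂ ⊆ E \ T) (hd : Disjoint Y₁ Y₂)
    (hz : z ∈ Y₁) (hs : nu φ (E \ T) + 1 ≤ fill φ z Y₁ + fill φ z Y₂) :
    P ⊆ Y₁ ∧ insert z (Y₁ ∩ G) ⊆ insert z (G \ T) ∧ Y₂ ∩ G ⊆ insert z (G \ T) ∧
      Disjoint (insert z (Y₁ ∩ G)) (Y₂ ∩ G) ∧
      nu φ (E \ T) + 1 ≤ coll φ G P z (insert z (Y₁ ∩ G)) + coll φ G P z (Y₂ ∩ G) := by
  have hTG := collC_TG h hm hT
  have hz2 : z ∉ Y₂ := fun hh => disjoint_left.1 hd hz hh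
  have hGP := h.disj
  have hPT : ∀ x ∈ P, x ∉ T := fun x hx hxT => disjoint_left.1 hGP (hTG hxT) hx
  have hs' : nu φ (E \ T) ≤ φ Y₁ + φ Y₂ := by
    unfold fill at hs
    rw [if_pos hz, if_neg hz2] at hs
    linarith
  have hP : P ⊆ Y₁ := h.P_sub h1 h2 hd hz hs'
  have hW : φ (Y₁ ∪ Y₂) = nu φ (E \ T) :=
    le_antisymm (le_nu φ (union_subset h1 h2)) (hs'.trans (h.good.toSM.add_le hd))
  have hsub : (G ∪ P) \ T ⊆ E \ T :=
    sdiff_subset_sdiff (union_subset h.GE h.PE) (Subset.refl T)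
  have hW' := max_inter h.good.toSM (union_subset h1 h2) hW hsub (h.max_sdiff hm hT)
  have hr := sep_restrict h.good.toSM hd (hW.le.trans hs')
    (inter_subset_left : (Y₁ ∪ Y₂) ∩ ((G ∪ P) \ T) ⊆ Y₁ ∪ Y₂)
  have e1 : (Y₁ ∪ Y₂) ∩ ((G ∪ P) \ T) ∩ Y₁ = (Y₁ ∩ G) ∪ P := by
    ext x
    simp only [mem_inter, mem_union, mem_sdiff]
    constructor
    · rintro ⟨⟨-, a, -⟩, b⟩
      rcases a with a | a
      · exact Or.inl ⟨b, a⟩
      · exact Or.inr a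
    · rintro (⟨a, b⟩ | a)
      · exact ⟨⟨Or.inl a, Or.inl b, (mem_sdiff.1 (h1 a)).2⟩, a⟩
      · exact ⟨⟨Or.inl (hP a), Or.inr a, hPT x a⟩, hP a⟩
  have e2 : (Y₁ ∪ Y₂) ∩ ((G ∪ P) \ T) ∩ Y₂ = Y₂ ∩ G := by
    ext x
    simp only [mem_inter, mem_union, mem_sdiff]
    constructor
    · rintro ⟨⟨-, a, -⟩, b⟩
      rcases a with a | a
      · exact ⟨b, a⟩
      · exact absurd b (fun hb => disjoint_left.1 hd (hP a) hb)
    · rintro ⟨a, b⟩
      exact ⟨⟨Or.inr a, Or.inl b, (mem_sdiff.1 (h2 a)).2⟩, a⟩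
  rw [hW', e1, e2] at hr
  have key : ∀ Y : Finset α, Y ⊆ E \ T → Y ∩ G ⊆ G \ T := by
    intro Y hY x hx
    rw [mem_inter] at hx
    exact mem_sdiff.2 ⟨hx.2, (mem_sdiff.1 (hY hx.1)).2⟩
  refine ⟨hP, insert_subset_insert _ (key Y₁ h1), (key Y₂ h2).trans (subset_insert _ _), ?_, ?_⟩
  · rw [disjoint_insert_left]
    exact ⟨fun hh => hz2 (mem_inter.1 hh).1,
      (hd.mono_left inter_subset_left).mono_right inter_subset_left⟩
  · have e3 : insert z (Y₁ ∩ G) ∩ G = Y₁ ∩ G := by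
      rw [insert_inter_of_notMem h.zG, inter_assoc, inter_self]
    have e4 : Y₂ ∩ G ∩ G = Y₂ ∩ G := by rw [inter_assoc, inter_self]
    have e5 : z ∉ Y₂ ∩ G := fun hh => hz2 (mem_inter.1 hh).1
    unfold coll
    rw [if_pos (mem_insert_self _ _), if_neg e5, e3, e4]
    linarith

private theorem collC_B0 (h : CD φ E G P z) {Y₁ Y₂ : Finset α}
    (h1 : Y₁ ⊆ E \ T) (h2 : Y₂ ⊆ E \ T) (hd : Disjoint Y₁ Y₂)
    (hz1 : z ∉ Y₁) (hz2 : z ∉ Y₂) : fill φ z Y₁ + fill φ z Y₂ ≤ nu φ (E \ T) := by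
  unfold fill
  rw [if_neg hz1, if_neg hz2, add_zero, add_zero]
  exact (h.good.toSM.add_le hd).trans (le_nu φ (union_subset h1 h2))

theorem collC_GG (h : CD φ E G P z) (hm : Marg φ (E \ Z)) (hT : T ∈ II φ E Z) (hc : c ∈ G)
    (hd : d ∈ G) :
    Conn (fill φ z) (E \ T) c d ↔ Conn (coll φ G P z) (insert z (G \ T)) c d := by
  have hTG := collC_TG h hm hT
  have hcP : c ∉ P := fun hh => disjoint_left.1 h.disj hc hh
  have hdP : d ∉ P := fun hh => disjoint_left.1 h.disj hd hh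
  have hcz : c ≠ z := by rintro rfl; exact h.zG hc
  have hdz : d ≠ z := by rintro rfl; exact h.zG hd
  constructor
  · intro hC Y₁ Y₂ h1 h2 hdj hd1 hc2
    rw [h.nu_coll_II hm hT]
    by_contra hlt
    rw [not_lt] at hlt
    by_cases hz1 : z ∈ Y₁
    · obtain ⟨a1, a2, a3, -, a5⟩ := collC_A h hTG h1 h2 hdj hz1
      have := hC _ _ a1 a2 a3 (by
        rw [mem_union, mem_erase, not_or]
        exact ⟨fun hh => hd1 hh.2, hdP⟩) hc2
      rw [h.nu_fill_II hm hT, a5] at this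
      linarith
    · by_cases hz2 : z ∈ Y₂
      · obtain ⟨a1, a2, a3, -, a5⟩ := collC_A h hTG h2 h1 hdj.symm hz2
        have := hC _ _ a2 a1 a3.symm hd1 (by
          rw [mem_union, mem_erase, not_or]
          exact ⟨fun hh => hc2 hh.2, hcP⟩)
        rw [h.nu_fill_II hm hT] at this
        linarith
      · have := collC_A0 h h1 h2 hdj hz1 hz2
        linarith
  · intro hC Y₁ Y₂ h1 h2 hdj hd1 hc2
    rw [h.nu_fill_II hm hT]
    by_contra hlt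
    rw [not_lt] at hlt
    by_cases hz1 : z ∈ Y₁
    · obtain ⟨-, a1, a2, a3, a5⟩ := collC_B h hm hT h1 h2 hdj hz1 hlt
      have := hC _ _ a1 a2 a3 (by
        rw [mem_insert, mem_inter, not_or]
        exact ⟨hdz, fun hh => hd1 hh.1⟩) (fun hh => hc2 (mem_inter.1 hh).1)
      rw [h.nu_coll_II hm hT] at this
      linarith
    · by_cases hz2 : z ∈ Y₂
      · rw [add_comm] at hlt
        rw [add_comm 1] at hlt
        obtain ⟨-, a1, a2, a3, a5⟩ := collC_B h hm hT h2 h1 hdj.symm hz2 (by linarith)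
        have := hC _ _ a2 a1 a3.symm (fun hh => hd1 (mem_inter.1 hh).1) (by
          rw [mem_insert, mem_inter, not_or]
          exact ⟨hcz, fun hh => hc2 hh.1⟩)
        rw [h.nu_coll_II hm hT] at this
        linarith
      · have := collC_B0 h h1 h2 hdj hz1 hz2
        linarith

theorem collC_PG (h : CD φ E G P z) (hm : Marg φ (E \ Z)) (hT : T ∈ II φ E Z) (hc : c ∈ P)
    (hd : d ∈ G) :
    Conn (fill φ z) (E \ T) c d ↔ Conn (coll φ G P z) (insert z (G \ T)) z d := by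
  have hTG := collC_TG h hm hT
  have hdP : d ∉ P := fun hh => disjoint_left.1 h.disj hd hh
  have hdz : d ≠ z := by rintro rfl; exact h.zG hd
  constructor
  · intro hC Y₁ Y₂ h1 h2 hdj hd1 hz2
    rw [h.nu_coll_II hm hT]
    by_contra hlt
    rw [not_lt] at hlt
    by_cases hz1 : z ∈ Y₁
    · obtain ⟨a1, a2, a3, a4, a5⟩ := collC_A h hTG h1 h2 hdj hz1
      have := hC _ _ a1 a2 a3 (by
        rw [mem_union, mem_erase, not_or]
        exact ⟨fun hh => hd1 hh.2, hdP⟩) (fun hh => disjoint_left.1 h.disj (a4 hh) hc)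
      rw [h.nu_fill_II hm hT, a5] at this
      linarith
    · have := collC_A0 h h1 h2 hdj hz1 hz2
      linarith
  · intro hC Y₁ Y₂ h1 h2 hdj hd1 hc2
    rw [h.nu_fill_II hm hT]
    by_contra hlt
    rw [not_lt] at hlt
    by_cases hz1 : z ∈ Y₁
    · obtain ⟨-, a1, a2, a3, a5⟩ := collC_B h hm hT h1 h2 hdj hz1 hlt
      have := hC _ _ a1 a2 a3 (by
        rw [mem_insert, mem_inter, not_or]
        exact ⟨hdz, fun hh => hd1 hh.1⟩) (fun hh => h.zG (mem_inter.1 hh).2)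
      rw [h.nu_coll_II hm hT] at this
      linarith
    · by_cases hz2 : z ∈ Y₂
      · obtain ⟨a0, -⟩ := collC_B h hm hT h2 h1 hdj.symm hz2 (by linarith)
        exact hc2 (a0 hc)
      · have := collC_B0 h h1 h2 hdj hz1 hz2
        linarith

theorem collC_PP (h : CD φ E G P z) (hm : Marg φ (E \ Z)) (hT : T ∈ II φ E Z) (hc : c ∈ P)
    (hd : d ∈ P) : Conn (fill φ z) (E \ T) c d := by
  intro Y₁ Y₂ h1 h2 hdj hd1 hc2
  rw [h.nu_fill_II hm hT]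
  by_contra hlt
  rw [not_lt] at hlt
  by_cases hz1 : z ∈ Y₁
  · exact hd1 ((collC_B h hm hT h1 h2 hdj hz1 hlt).1 hd)
  · by_cases hz2 : z ∈ Y₂
    · exact hc2 ((collC_B h hm hT h2 h1 hdj.symm hz2 (by linarith)).1 hc)
    · have := collC_B0 h h1 h2 hdj hz1 hz2
      linarith

theorem collC_out (h : CD φ E G P z) (hm : Marg φ (E \ Z)) (hT : T ∈ II φ E Z)
    (hc : c ∉ G ∪ P) : ¬ Conn (fill φ z) (E \ T) c d := by
  intro hC
  have hTG := collC_TG h hm hT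
  have hzT : z ∉ T := fun hh => h.zG (hTG hh)
  have hmem := hC.mem_left (fill_sm h.good.toSM z)
  have hsub : kap (fill φ z) (E \ T) ⊆ (G ∪ P) \ T := by
    apply kap_sub_of_max (fill_sm h.good.toSM z)
    · exact sdiff_subset_sdiff (union_subset h.GE h.PE) (Subset.refl T)
    · rw [h.nu_fill_II hm hT, ← h.max_sdiff hm hT]
      unfold fill
      rw [if_pos (mem_sdiff.2 ⟨mem_union_right _ h.zP, hzT⟩)]
  exact hc (mem_sdiff.1 (hsub hmem)).1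

end Pool.Agent.DT3
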