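import Pool.Agent.DT3.Cnn

/-!
`II φ E Z` and `KK φ E Z c d` are simplicial complexes, and the elementary identities used in the
inductions.  Hypotheses: `SM φ`, `Marg φ (E \ Z)`.

* `cpx_II`: `T' ⊆ T ∈ II`: `nu φ (E \ T') ≤ nu φ (E \ T) + |T \ T'| = nu φ E - |T'|` (`nu_union_le`) and
  `≥` by `nu_sdiff_ge`.
* `cpx_KK`: moreover `Conn φ (E \ T) c d → Conn φ (E \ T') c d`: remove the elements of `T \ T'` one at a
  time (`Conn.of_erase`; the sets in between are in `II`), or directly as in the proof of `Conn.of_erase`: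
  `φ Y₁ + φ Y₂ ≤ φ (Y₁ \ T) + φ (Y₂ \ T) + |T \ T'|`.
* `Cpx.cvx`: a simplicial complex is convex.  `cvx_sdiff`: if `D, D₀` are complexes, `D \ D₀` is convex.
* `mem_II_iff_of_sub`: for `T' ∈ II φ E Z`, `T'` is contained in `kap φ E` (`t ∉ kap φ E` means
  `nu φ (E.erase t) = nu φ E`).
* `II_kap`: for `G = kap φ E`: `T ∈ II φ E Z ↔ T ∈ II φ G (Z ∩ G)`, and for such `T`:
  `kap φ (E \ T) ⊆ G \ T`, `nu φ (G \ T) = nu φ (E \ T)`.  (If `T ∈ II φ E Z` then `T ⊆ G`, and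
  `kap φ (E \ T) ⊆ kap φ E ∩ (E \ T) = G \ T` by `kap_mono`; so `nu φ (G \ T) = nu φ (E \ T)` and
  `nu φ G = nu φ E`.  Conversely, if `T ∈ II φ G (Z ∩ G)` then
  `nu φ (E \ T) = ` ? we have `kap φ (E \ T) ⊆ G \ T` as before, so `nu φ (E \ T) = nu φ (G \ T)`.)
* `KK_kap`: the same for `KK` when `c, d ∈ G`: `KK φ E Z c d = KK φ G (Z ∩ G) c d`
  (`conn_congr_kap`).  Here `T ⊆ E \ Z ` and `T ⊆ G` give `T ⊆ G \ (Z ∩ G)`.
-/

set_option autoImplicit false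

namespace Pool.Agent.DT3

open Finset

variable {α : Type*} [DecidableEq α] {φ : Finset α → ℤ} {E Z : Finset α} {c d : α}

theorem Cpx.cvx {D : Set (Finset α)} (h : Cpx D) : Cvx D :=
  fun _ _ C hC B _ hBC => h C hC B hBC

private theorem nu_between {B C : Finset α} (hm : Marg φ (E \ Z)) (hC : C ⊆ E \ Z) (hBC : B ⊆ C)
    (hn : nu φ (E \ C) = nu φ E - C.card) : nu φ (E \ B) = nu φ E - B.card := by
  have h1 := nu_sdiff_ge hm (hBC.trans hC) E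
  have h2 := nu_union_le hm (sdiff_subset.trans hC : C \ B ⊆ E \ Z) (E \ C)
  have h3 : nu φ (E \ B) ≤ nu φ (E \ C ∪ C \ B) := nu_mono φ (by
    intro x hx
    rw [mem_sdiff] at hx
    rw [mem_union, mem_sdiff, mem_sdiff]
    by_cases hxC : x ∈ C
    · exact Or.inr ⟨hxC, hx.2⟩
    · exact Or.inl ⟨hx.1, hxC⟩)
  have h4 := card_sdiff_add_card_eq_card hBC
  omega

theorem cpx_II (h : SM φ) (hm : Marg φ (E \ Z)) : Cpx (II φ E Z) := by
  rintro C ⟨hC, hn⟩ B hBC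
  exact ⟨hBC.trans hC, nu_between hm hC hBC hn⟩

theorem cpx_KK (h : SM φ) (hm : Marg φ (E \ Z)) (hc : c ∈ Z) (hd : d ∈ Z) :
    Cpx (KK φ E Z c d) := by
  rintro C ⟨hC, hn, hcon⟩ B hBC
  have hnB := nu_between hm hC hBC hn
  refine ⟨hBC.trans hC, hnB, ?_⟩
  intro Y₁ Y₂ h1 h2 hdis hd1 hc2
  have h3 := hcon (Y₁ \ C) (Y₂ \ C)
    (fun x hx => mem_sdiff.2 ⟨(mem_sdiff.1 (h1 (mem_sdiff.1 hx).1)).1, (mem_sdiff.1 hx).2⟩)
    (fun x hx => mem_sdiff.2 ⟨(mem_sdiff.1 (h2 (mem_sdiff.1 hx).1)).1, (mem_sdiff.1 hx).2⟩)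
    (hdis.mono sdiff_subset sdiff_subset)
    (fun hh => hd1 (mem_sdiff.1 hh).1) (fun hh => hc2 (mem_sdiff.1 hh).1)
  have h4 := phi_sdiff_ge hm (inter_subset_right.trans hC : Y₁ ∩ C ⊆ E \ Z) Y₁
  have h5 := phi_sdiff_ge hm (inter_subset_right.trans hC : Y₂ ∩ C ⊆ E \ Z) Y₂
  have e1 : Y₁ \ (Y₁ ∩ C) = Y₁ \ C := by
    ext x
    simp only [mem_sdiff, mem_inter]
    tauto
  have e2 : Y₂ \ (Y₂ ∩ C) = Y₂ \ C := by
    ext x
    simp only [mem_sdiff, mem_inter]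
    tauto
  rw [e1] at h4
  rw [e2] at h5
  have h6 : (Y₁ ∩ C).card + (Y₂ ∩ C).card ≤ (C \ B).card := by
    rw [← card_union_of_disjoint (hdis.mono inter_subset_left inter_subset_left)]
    refine card_le_card ?_
    intro x hx
    rw [mem_union, mem_inter, mem_inter] at hx
    rw [mem_sdiff]
    rcases hx with hx | hx
    · exact ⟨hx.2, (mem_sdiff.1 (h1 hx.1)).2⟩
    · exact ⟨hx.2, (mem_sdiff.1 (h2 hx.1)).2⟩
  have h7 := card_sdiff_add_card_eq_card hBC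
  omega

theorem KK_sub_II : KK φ E Z c d ⊆ II φ E Z := fun _ hT => ⟨hT.1, hT.2.1⟩

theorem II_sub_kap {T : Finset α} (h : SM φ) (hm : Marg φ (E \ Z)) (hT : T ∈ II φ E Z) :
    T ⊆ kap φ E := by
  intro t ht
  obtain ⟨h1, h2⟩ := cpx_II h hm T hT {t} (singleton_subset_iff.2 ht)
  rw [sdiff_singleton_eq_erase, card_singleton] at h2
  rw [mem_kap]
  refine ⟨(mem_sdiff.1 (h1 (mem_singleton_self t))).1, ?_⟩
  push_cast at h2
  omega

theorem kap_sdiff_sub {T : Finset α} (h : SM φ) : kap φ (E \ T) ⊆ kap φ E \ T := by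
  intro x hx
  rw [mem_sdiff]
  exact ⟨kap_mono h sdiff_subset hx, (mem_sdiff.1 (kap_sub φ _ hx)).2⟩

theorem nu_kap_sdiff (h : SM φ) (E T : Finset α) : nu φ (kap φ E \ T) = nu φ (E \ T) :=
  nu_congr h (kap_sdiff_sub h) (sdiff_subset_sdiff (kap_sub φ E) subset_rfl)

private theorem nu_kap_self (h : SM φ) (E : Finset α) : nu φ (kap φ E) = nu φ E :=
  nu_congr h subset_rfl (kap_sub φ E)

private theorem sub_kap_iff {T : Finset α} (hT : T ⊆ kap φ E) :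
    T ⊆ E \ Z ↔ T ⊆ kap φ E \ (Z ∩ kap φ E) := by
  constructor
  · intro h1 t ht
    rw [mem_sdiff, mem_inter]
    exact ⟨hT ht, fun h2 => (mem_sdiff.1 (h1 ht)).2 h2.1⟩
  · intro h1 t ht
    rw [mem_sdiff]
    refine ⟨kap_sub φ E (hT ht), fun h2 => (mem_sdiff.1 (h1 ht)).2 ?_⟩
    rw [mem_inter]
    exact ⟨h2, hT ht⟩

theorem II_kap (h : SM φ) (hm : Marg φ (E \ Z)) :
    II φ E Z = II φ (kap φ E) (Z ∩ kap φ E) := by
  ext T
  constructor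
  · intro hT
    have h1 := II_sub_kap h hm hT
    refine ⟨(sub_kap_iff h1).1 hT.1, ?_⟩
    rw [nu_kap_sdiff h, nu_kap_self h, hT.2]
  · intro hT
    have h1 : T ⊆ kap φ E := hT.1.trans sdiff_subset
    refine ⟨(sub_kap_iff h1).2 hT.1, ?_⟩
    have h2 := hT.2
    rw [nu_kap_sdiff h, nu_kap_self h] at h2
    exact h2

theorem KK_kap (h : SM φ) (hm : Marg φ (E \ Z)) :
    KK φ E Z c d = KK φ (kap φ E) (Z ∩ kap φ E) c d := by
  have key : ∀ T : Finset α, Conn φ (E \ T) c d ↔ Conn φ (kap φ E \ T) c d := fun T =>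
    conn_congr_kap h (kap_sdiff_sub h) (sdiff_subset_sdiff (kap_sub φ E) subset_rfl)
  ext T
  constructor
  · intro hT
    have h1 := II_sub_kap h hm (KK_sub_II hT)
    refine ⟨(sub_kap_iff h1).1 hT.1, ?_, (key T).1 hT.2.2⟩
    rw [nu_kap_sdiff h, nu_kap_self h, hT.2.1]
  · intro hT
    have h1 : T ⊆ kap φ E := hT.1.trans sdiff_subset
    refine ⟨(sub_kap_iff h1).2 hT.1, ?_, (key T).2 hT.2.2⟩
    have h2 := hT.2.1
    rw [nu_kap_sdiff h, nu_kap_self h] at h2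
    exact h2

private theorem sub_insert_iff {v : α} {T : Finset α} :
    T ⊆ E \ insert v Z ↔ T ⊆ E \ Z ∧ v ∉ T := by
  constructor
  · intro h1
    refine ⟨fun t ht => ?_, fun hv => ?_⟩
    · have h2 := mem_sdiff.1 (h1 ht)
      exact mem_sdiff.2 ⟨h2.1, fun h3 => h2.2 (mem_insert_of_mem h3)⟩
    · exact (mem_sdiff.1 (h1 hv)).2 (mem_insert_self v Z)
  · rintro ⟨h1, h2⟩ t ht
    have h3 := mem_sdiff.1 (h1 ht)
    refine mem_sdiff.2 ⟨h3.1, fun h4 => ?_⟩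
    rcases mem_insert.1 h4 with rfl | h4
    · exact h2 ht
    · exact h3.2 h4

/-- The part of a complex avoiding `v`: move `v` to `Z`. -/
theorem KK_avoid {v : α} (hv : v ∈ E \ Z) (T : Finset α) :
    T ∈ KK φ E (insert v Z) c d ↔ T ∈ KK φ E Z c d ∧ v ∉ T := by
  constructor
  · rintro ⟨h1, h2, h3⟩
    obtain ⟨h4, h5⟩ := sub_insert_iff.1 h1
    exact ⟨⟨h4, h2, h3⟩, h5⟩
  · rintro ⟨⟨h1, h2, h3⟩, h4⟩
    exact ⟨sub_insert_iff.2 ⟨h1, h4⟩, h2, h3⟩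

theorem II_avoid {v : α} (hv : v ∈ E \ Z) (T : Finset α) :
    T ∈ II φ E (insert v Z) ↔ T ∈ II φ E Z ∧ v ∉ T := by
  constructor
  · rintro ⟨h1, h2⟩
    obtain ⟨h4, h5⟩ := sub_insert_iff.1 h1
    exact ⟨⟨h4, h2⟩, h5⟩
  · rintro ⟨⟨h1, h2⟩, h4⟩
    exact ⟨sub_insert_iff.2 ⟨h1, h4⟩, h2⟩

private theorem link_sub {v : α} {T : Finset α} (hv : v ∈ E \ Z) (hT : v ∈ T) :
    T.erase v ⊆ E.erase v \ Z ↔ T ⊆ E \ Z := by
  constructor
  · intro h1 t ht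
    by_cases htv : t = v
    · rw [htv]
      exact hv
    · have h2 := mem_sdiff.1 (h1 (mem_erase.2 ⟨htv, ht⟩))
      exact mem_sdiff.2 ⟨(mem_erase.1 h2.1).2, h2.2⟩
  · intro h1 t ht
    have h2 := mem_erase.1 ht
    have h3 := mem_sdiff.1 (h1 h2.2)
    exact mem_sdiff.2 ⟨mem_erase.2 ⟨h2.1, h3.1⟩, h3.2⟩

private theorem link_eq {v : α} {T : Finset α} (hT : v ∈ T) :
    E.erase v \ T.erase v = E \ T := by
  ext x
  simp only [mem_sdiff, mem_erase]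
  constructor
  · rintro ⟨⟨h1, h2⟩, h3⟩
    exact ⟨h2, fun h4 => h3 ⟨h1, h4⟩⟩
  · rintro ⟨h1, h2⟩
    refine ⟨⟨?_, h1⟩, fun h3 => h2 h3.2⟩
    rintro rfl
    exact h2 hT

private theorem link_nu {v : α} {T : Finset α} (hn : nu φ (E.erase v) = nu φ E - 1) (hT : v ∈ T) :
    nu φ (E.erase v \ T.erase v) = nu φ (E.erase v) - (T.erase v).card ↔
      nu φ (E \ T) = nu φ E - T.card := by
  rw [link_eq hT, hn]
  have h1 := card_erase_add_one hT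
  constructor
  · intro h2
    omega
  · intro h2
    omega

/-- The part of a complex containing `v`: delete `v`. -/
theorem KK_link {v : α} (hv : v ∈ E \ Z) (hn : nu φ (E.erase v) = nu φ E - 1) (T : Finset α) :
    (v ∈ T ∧ T.erase v ∈ KK φ (E.erase v) Z c d) ↔ T ∈ KK φ E Z c d ∧ v ∈ T := by
  constructor
  · rintro ⟨hT, h1, h2, h3⟩
    rw [link_eq hT] at h3
    exact ⟨⟨(link_sub hv hT).1 h1, (link_nu hn hT).1 h2, h3⟩, hT⟩
  · rintro ⟨⟨h1, h2, h3⟩, hT⟩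
    refine ⟨hT, (link_sub hv hT).2 h1, (link_nu hn hT).2 h2, ?_⟩
    rw [link_eq hT]
    exact h3

theorem II_link {v : α} (hv : v ∈ E \ Z) (hn : nu φ (E.erase v) = nu φ E - 1) (T : Finset α) :
    (v ∈ T ∧ T.erase v ∈ II φ (E.erase v) Z) ↔ T ∈ II φ E Z ∧ v ∈ T := by
  constructor
  · rintro ⟨hT, h1, h2⟩
    exact ⟨⟨(link_sub hv hT).1 h1, (link_nu hn hT).1 h2⟩, hT⟩
  · rintro ⟨⟨h1, h2⟩, hT⟩
    exact ⟨hT, (link_sub hv hT).2 h1, (link_nu hn hT).2 h2⟩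

end Pool.Agent.DT3
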