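import Mathlib

/-!
# DT3: the toric ideal of every matroid is generated in degree at most 3 (problem MP_e6151a_ag)

Paper proof: note 1381 (helper23) of the problem.  This folder proves `(S1_q)` for all `q ≥ 3`:
a topological Hall theorem (`Hall`) and an acyclicity theorem for supermodular functions
(`Theta`).

Definitions.

* `bd c S` : the boundary (mod 2) of a chain `c : Finset α → ZMod 2`, evaluated at `S`;
* `Supp D n c` : `c` is a chain of `n`-sets of the family `D`;
* `Acyc D n` : every relative cycle of `n`-sets of `D` is a relative boundary (inside `D`);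
* `Cvx D` : the family `D` is convex;
* `nu φ X` : the maximum of `φ` over the subsets of `X`;
* `kap φ X` : the smallest maximiser;
* `Conn φ X c d` : `c` and `d` are connected in the smallest maximiser;
* `Good φ` : `φ ∅ = 0`, supermodular, no gap is equal to `1`;
* `II φ E Z` : the independence complex; `KK φ E Z c d` : the complex of Theorem Theta;
* `EB φ Z c d e` : the bound for separated families.
-/

set_option autoImplicit false

namespace Pool.Agent.DT3

open Finset

variable {α : Type*} [DecidableEq α]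

/-- The boundary (mod 2) of a chain of finite sets, evaluated at `S`. -/
def bd [Fintype α] (c : Finset α → ZMod 2) (S : Finset α) : ZMod 2 := ∑ x ∈ Sᶜ, c (insert x S)

/-- `c` is a chain of `n`-sets of the family `D`. -/
def Supp (D : Set (Finset α)) (n : ℤ) (c : Finset α → ZMod 2) : Prop :=
  ∀ T, c T ≠ 0 → T ∈ D ∧ (T.card : ℤ) = n

/-- Every relative cycle of `n`-sets in `D` is a relative boundary in `D`. -/
def Acyc [Fintype α] (D : Set (Finset α)) (n : ℤ) : Prop :=
  ∀ c : Finset α → ZMod 2, Supp D n c → (∀ S ∈ D, bd c S = 0) →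
    ∃ b : Finset α → ZMod 2, Supp D (n + 1) b ∧ ∀ T ∈ D, bd b T = c T

/-- A convex family of finite sets. -/
def Cvx (D : Set (Finset α)) : Prop := ∀ A ∈ D, ∀ C ∈ D, ∀ B, A ⊆ B → B ⊆ C → B ∈ D

/-- A simplicial complex (possibly empty). -/
def Cpx (D : Set (Finset α)) : Prop := ∀ C ∈ D, ∀ B, B ⊆ C → B ∈ D

/-- The maximum of `φ` over the subsets of `X`. -/
def nu (φ : Finset α → ℤ) (X : Finset α) : ℤ :=
  X.powerset.sup' ⟨∅, empty_mem_powerset X⟩ φ

/-- The smallest maximiser of `φ` in `X` (see `Kap.lean`). -/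
def kap (φ : Finset α → ℤ) (X : Finset α) : Finset α :=
  X.filter fun z => nu φ (X.erase z) < nu φ X

/-- `c` and `d` lie in the smallest maximiser in `X` and are not separated there. -/
def Conn (φ : Finset α → ℤ) (X : Finset α) (c d : α) : Prop :=
  ∀ Y₁ Y₂ : Finset α, Y₁ ⊆ X → Y₂ ⊆ X → Disjoint Y₁ Y₂ → d ∉ Y₁ → c ∉ Y₂ → φ Y₁ + φ Y₂ < nu φ X

/-- Normalised supermodular functions. -/
structure SM (φ : Finset α → ℤ) : Prop where
  zero : φ ∅ = 0
  super : ∀ A B : Finset α, φ A + φ B ≤ φ (A ∪ B) + φ (A ∩ B)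

/-- Normalised supermodular functions all of whose gaps are different from one. -/
structure Good (φ : Finset α → ℤ) : Prop extends SM φ where
  gap : ∀ A B : Finset α, φ (A ∪ B) + φ (A ∩ B) ≠ φ A + φ B + 1

/-- The elements of `V` have marginal at most one. -/
def Marg (φ : Finset α → ℤ) (V : Finset α) : Prop :=
  ∀ v ∈ V, ∀ Y : Finset α, φ (insert v Y) ≤ φ Y + 1

/-- The independence complex. -/
def II (φ : Finset α → ℤ) (E Z : Finset α) : Set (Finset α) :=
  {T | T ⊆ E \ Z ∧ nu φ (E \ T) = nu φ E - T.card}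

/-- The complex of Theorem Theta. -/
def KK (φ : Finset α → ℤ) (E Z : Finset α) (c d : α) : Set (Finset α) :=
  {T | T ⊆ E \ Z ∧ nu φ (E \ T) = nu φ E - T.card ∧ Conn φ (E \ T) c d}

/-- The contribution of a set to the bound `EB`. -/
def gg (φ : Finset α → ℤ) (c d : α) (A : Finset α) : ℤ :=
  φ A + 1 - (if c ∈ A then 1 else 0) - (if d ∈ A then 1 else 0)

/-- `P` is a separated family of disjoint nonempty subsets of `Z`. -/
structure SepFam (φ : Finset α → ℤ) (Z : Finset α) (P : Finset (Finset α)) : Prop where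
  nonempty : ∀ A ∈ P, A.Nonempty
  sub : ∀ A ∈ P, A ⊆ Z
  disj : ∀ A ∈ P, ∀ B ∈ P, A ≠ B → Disjoint A B
  sep : φ (P.biUnion id) = ∑ A ∈ P, φ A

/-- The bound for separated families. -/
def EB (φ : Finset α → ℤ) (Z : Finset α) (c d : α) (e : ℤ) : Prop :=
  ∀ P : Finset (Finset α), SepFam φ Z P → ∑ A ∈ P, gg φ c d A ≤ e

/-- Adding one to the weight of `z`. -/
def fill (φ : Finset α → ℤ) (z : α) (Y : Finset α) : ℤ := φ Y + if z ∈ Y then 1 else 0

/-- Collapsing the set `P` to the element `z ∈ P` and adding one to its weight; the remaining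
elements are those of `G`. -/
def coll (φ : Finset α → ℤ) (G P : Finset α) (z : α) (Y : Finset α) : ℤ :=
  if z ∈ Y then φ ((Y ∩ G) ∪ P) + 1 else φ (Y ∩ G)

/-- The hypotheses of Theorem Theta. -/
structure Adm (φ : Finset α → ℤ) (E Z : Finset α) : Prop where
  good : Good φ
  sub : Z ⊆ E
  marg : Marg φ (E \ Z)

/-- The statement of Theorem Theta. -/
def Th [Fintype α] (φ : Finset α → ℤ) (E Z : Finset α) : Prop :=
  ∀ (c d : α) (e n : ℤ), c ∈ Z → d ∈ Z → c ≠ d → EB φ Z c d e → n + 2 + e ≤ nu φ E →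
    Acyc (KK φ E Z c d) n

/-- Matroid rank functions. -/
structure RankFn (r : Finset α → ℕ) : Prop where
  empty : r ∅ = 0
  mono : ∀ X Y : Finset α, X ⊆ Y → r X ≤ r Y
  insert_le : ∀ (x : α) (X : Finset α), r (insert x X) ≤ r X + 1
  submod : ∀ X Y : Finset α, r (X ∪ Y) + r (X ∩ Y) ≤ r X + r Y

end Pool.Agent.DT3
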