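import Pool.Agent.DT3.Cplx
import Pool.Agent.DT3.EBb

/-!
Adding one to the weight of `z`: `fill φ z Y = φ Y + [z ∈ Y]`.

* `fill_good`: `[z ∈ ·]` is modular, so all gaps are unchanged.  `fill_adm`: for `v ∈ E \ Z`, `v ≠ z`.
* `fill_EB`: the family `P` is separated for `fill φ z` iff it is separated for `φ` (the members are
  disjoint, so `∑_A [z ∈ A] = [z ∈ ⋃ A]`), and the sum of the `gg` increases by `[z ∈ ⋃ A] ≤ 1`.
* `nu_le_fill`, `nu_fill_le`, `nu_fill_notMem`: clear.  `nu_fill_iff`: clear from the definition.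
* `nu_fill_kap`: for `z ∈ kap φ X`: `kap φ X` is a maximiser containing `z`.
* `nu_fill_persist`: `X₂ ⊆ X₁` and `nu (fill φ z) X₂ = nu φ X₂ + 1` imply the same for `X₁`: by `nu_fill_iff`
  there is a maximiser `Y ∋ z` of `X₂`; `Y ∪ kap φ X₁` is a maximiser of `X₁` (`max_union`) containing `z`.
* `conn_fill_of`: if `nu (fill φ z) X = nu φ X + 1` then `Conn φ X c d → Conn (fill φ z) X c d`
  (`z` lies in at most one of `Y₁, Y₂`).
* `conn_of_fill_kap`: `z ∈ kap φ X`, `Conn (fill φ z) X c d → Conn φ X c d`: if `φ Y₁ + φ Y₂ ≥ nu φ X`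
  then `Y₁ ∪ Y₂` is a maximiser, contains `z`, and `fill Y₁ + fill Y₂ ≥ nu φ X + 1 = nu (fill φ z) X`.
* `conn_fill_iff`: if `nu (fill φ z) X = nu φ X` then `Conn (fill φ z) X c d ↔ Conn φ X c d`.
  `→` is clear (`φ ≤ fill φ z`).  `←`: let `K = kap φ X`; `z ∉ K` (`nu_fill_kap`); `c ∈ K`, `d ∈ K`.
  Let `Y₁, Y₂ ⊆ X` be disjoint, `d ∉ Y₁`, `c ∉ Y₂`, `fill Y₁ + fill Y₂ ≥ nu φ X`.  If `z ∉ Y₁ ∪ Y₂` this
  contradicts `Conn φ X c d`.  So e.g. `z ∈ Y₁` (the other case is the same), and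
  `φ Y₁ + φ Y₂ ≥ nu φ X - 1`.  `φ (K ∪ Y₁) ≤ nu φ X - 1` as this set contains `z`
  (`nu_fill_iff`), so `φ (K ∩ Y₁) ≥ φ K + φ Y₁ - φ (K ∪ Y₁) ≥ φ Y₁ + 1`; and
  `φ (K ∩ Y₂) ≥ φ K + φ Y₂ - φ (K ∪ Y₂) ≥ φ Y₂`.  The sum is `≥ nu φ X`, contradicting `Conn φ X c d` for
  `K ∩ Y₁`, `K ∩ Y₂`.
* `II_sub_fill`: `z ∈ kap φ E`, `z ∈ Z`, `T ∈ II φ E Z`.  `M = kap φ E`; `φ (M \ T) ≥ nu φ E - |T|`
  (`phi_sdiff_ge`), `z ∈ M \ T ⊆ E \ T`, so `nu (fill φ z) (E \ T) ≥ nu φ E - |T| + 1`, and `≤` by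
  `nu_fill_le`; `nu (fill φ z) E = nu φ E + 1`.
-/

set_option autoImplicit false

namespace Pool.Agent.DT3

open Finset

variable {α : Type*} [DecidableEq α] {φ : Finset α → ℤ} {E Z X X₁ X₂ : Finset α} {c d z : α}

private theorem fl_ind (z : α) (A B : Finset α) :
    (if z ∈ A ∪ B then (1 : ℤ) else 0) + (if z ∈ A ∩ B then 1 else 0) =
      (if z ∈ A then 1 else 0) + (if z ∈ B then 1 else 0) := by
  by_cases hA : z ∈ A <;> by_cases hB : z ∈ B <;> simp [hA, hB]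

private theorem fl_mem {A : Finset α} (h : z ∈ A) : fill φ z A = φ A + 1 := by
  unfold fill
  rw [if_pos h]

private theorem fl_notMem {A : Finset α} (h : z ∉ A) : fill φ z A = φ A := by
  unfold fill
  rw [if_neg h, add_zero]

private theorem fl_ge (φ : Finset α → ℤ) (z : α) (A : Finset α) : φ A ≤ fill φ z A := by
  unfold fill
  split_ifs <;> omega

private theorem fl_le (φ : Finset α → ℤ) (z : α) (A : Finset α) : fill φ z A ≤ φ A + 1 := by
  unfold fill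
  split_ifs <;> omega

private theorem fl_sum (z : α) (P : Finset (Finset α))
    (hd : ∀ A ∈ P, ∀ B ∈ P, A ≠ B → Disjoint A B) :
    ∑ A ∈ P, (if z ∈ A then (1 : ℤ) else 0) = if z ∈ P.biUnion id then 1 else 0 := by
  by_cases h : z ∈ P.biUnion id
  · rw [if_pos h]
    obtain ⟨A, hA, hzA⟩ := mem_biUnion.mp h
    rw [sum_eq_single A]
    · rw [if_pos (show z ∈ A from hzA)]
    · intro B hB hne
      rw [if_neg]
      intro hzB
      exact disjoint_left.mp (hd A hA B hB (Ne.symm hne)) hzA hzB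
    · intro hA'
      exact absurd hA hA'
  · rw [if_neg h]
    apply sum_eq_zero
    intro A hA
    rw [if_neg]
    intro hzA
    exact h (mem_biUnion.mpr ⟨A, hA, hzA⟩)

theorem fill_sm (h : SM φ) (z : α) : SM (fill φ z) := by
  refine ⟨?_, ?_⟩
  · rw [fl_notMem (notMem_empty z), h.zero]
  · intro A B
    have h1 := h.super A B
    have h2 := fl_ind z A B
    unfold fill
    omega

theorem fill_good (h : Good φ) (z : α) : Good (fill φ z) := by
  refine ⟨fill_sm h.toSM z, ?_⟩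
  intro A B
  have h1 := h.gap A B
  have h2 := fl_ind z A B
  unfold fill
  omega

theorem fill_adm (h : Adm φ E Z) (hz : z ∈ Z) : Adm (fill φ z) E Z := by
  refine ⟨fill_good h.good z, h.sub, ?_⟩
  intro v hv Y
  have h1 := h.marg v hv Y
  have hvz : z ≠ v := fun e => (mem_sdiff.mp hv).2 (e ▸ hz)
  by_cases hY : z ∈ Y
  · rw [fl_mem (mem_insert_of_mem hY), fl_mem hY]
    omega
  · rw [fl_notMem hY, fl_notMem (by rw [mem_insert, not_or]; exact ⟨hvz, hY⟩)]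
    omega

theorem fill_EB {e : ℤ} (h : EB φ Z c d e) (z : α) : EB (fill φ z) Z c d (e + 1) := by
  intro P hP
  have hs := fl_sum z P hP.disj
  have hsep : φ (P.biUnion id) = ∑ A ∈ P, φ A := by
    have h1 := hP.sep
    unfold fill at h1
    rw [sum_add_distrib, hs] at h1
    omega
  have h2 := h P ⟨hP.nonempty, hP.sub, hP.disj, hsep⟩
  have h3 : ∑ A ∈ P, gg (fill φ z) c d A =
      ∑ A ∈ P, gg φ c d A + ∑ A ∈ P, (if z ∈ A then (1 : ℤ) else 0) := by
    rw [← sum_add_distrib]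
    apply sum_congr rfl
    intro A _
    unfold gg fill
    ring
  rw [h3, hs]
  split_ifs <;> omega

theorem nu_le_fill (φ : Finset α → ℤ) (z : α) (X : Finset α) : nu φ X ≤ nu (fill φ z) X := by
  rw [nu_le_iff]
  intro Y hY
  exact (fl_ge φ z Y).trans (le_nu _ hY)

theorem nu_fill_le (φ : Finset α → ℤ) (z : α) (X : Finset α) :
    nu (fill φ z) X ≤ nu φ X + 1 := by
  rw [nu_le_iff]
  intro Y hY
  have h1 := fl_le φ z Y
  have h2 := le_nu φ hY
  omega

theorem nu_fill_notMem (h : z ∉ X) : nu (fill φ z) X = nu φ X := by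
  apply le_antisymm
  · rw [nu_le_iff]
    intro Y hY
    rw [fl_notMem (fun h' => h (hY h'))]
    exact le_nu φ hY
  · exact nu_le_fill φ z X

theorem nu_fill_iff : nu (fill φ z) X = nu φ X + 1 ↔ ∃ Y ⊆ X, z ∈ Y ∧ φ Y = nu φ X := by
  constructor
  · intro h
    obtain ⟨Y, hY, hYn⟩ := exists_nu (fill φ z) X
    have h2 := le_nu φ hY
    by_cases hz : z ∈ Y
    · rw [fl_mem hz] at hYn
      exact ⟨Y, hY, hz, by omega⟩
    · rw [fl_notMem hz] at hYn
      omega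
  · rintro ⟨Y, hY, hz, hYn⟩
    have h1 := le_nu (fill φ z) hY
    rw [fl_mem hz] at h1
    have h2 := nu_fill_le φ z X
    omega

theorem nu_fill_kap (h : SM φ) (hz : z ∈ kap φ X) : nu (fill φ z) X = nu φ X + 1 :=
  nu_fill_iff.mpr ⟨kap φ X, kap_sub φ X, hz, phi_kap h X⟩

theorem nu_fill_persist (h : SM φ) (hX : X₂ ⊆ X₁) (hn : nu (fill φ z) X₂ = nu φ X₂ + 1) :
    nu (fill φ z) X₁ = nu φ X₁ + 1 := by
  obtain ⟨Y, hY, hz, hYn⟩ := nu_fill_iff.mp hn
  exact nu_fill_iff.mpr ⟨Y ∪ kap φ X₁, union_subset (hY.trans hX) (kap_sub φ X₁),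
    mem_union_left _ hz, max_union h hY hYn hX (kap_sub φ X₁) (phi_kap h X₁)⟩

theorem conn_fill_of (hn : nu (fill φ z) X = nu φ X + 1) (hc : Conn φ X c d) :
    Conn (fill φ z) X c d := by
  intro Y₁ Y₂ h1 h2 hdis hd1 hc2
  have h3 := hc Y₁ Y₂ h1 h2 hdis hd1 hc2
  rw [hn]
  by_cases hz1 : z ∈ Y₁
  · have hz2 : z ∉ Y₂ := fun h' => disjoint_left.mp hdis hz1 h'
    rw [fl_mem hz1, fl_notMem hz2]
    omega
  · rw [fl_notMem hz1]
    have := fl_le φ z Y₂
    omega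

theorem conn_of_fill_kap (h : SM φ) (hz : z ∈ kap φ X) (hc : Conn (fill φ z) X c d) :
    Conn φ X c d := by
  intro Y₁ Y₂ h1 h2 hdis hd1 hc2
  by_contra hcon
  have hcon' : nu φ X ≤ φ Y₁ + φ Y₂ := not_lt.mp hcon
  have h3 := h.add_le hdis
  have h4 := le_nu φ (union_subset h1 h2)
  have h5 : φ (Y₁ ∪ Y₂) = nu φ X := by omega
  have h6 := kap_sub_of_max h (union_subset h1 h2) h5 hz
  have h7 := hc Y₁ Y₂ h1 h2 hdis hd1 hc2
  rw [nu_fill_kap h hz] at h7
  rcases mem_union.mp h6 with h8 | h8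
  · rw [fl_mem h8] at h7
    have := fl_ge φ z Y₂
    omega
  · rw [fl_mem h8] at h7
    have := fl_ge φ z Y₁
    omega

theorem conn_fill_iff (h : SM φ) (hn : nu (fill φ z) X = nu φ X) :
    Conn (fill φ z) X c d ↔ Conn φ X c d := by
  constructor
  · intro hc Y₁ Y₂ h1 h2 hdis hd1 hc2
    have h3 := hc Y₁ Y₂ h1 h2 hdis hd1 hc2
    have h4 := fl_ge φ z Y₁
    have h5 := fl_ge φ z Y₂
    omega
  · intro hc Y₁ Y₂ h1 h2 hdis hd1 hc2
    rw [hn]
    have hKX := kap_sub φ X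
    have hK := phi_kap h X
    have hup : ∀ W : Finset α, W ⊆ X → z ∈ W → φ W ≤ nu φ X - 1 := by
      intro W hW hzW
      have h6 := le_nu φ hW
      by_contra hcon
      have h7 : nu (fill φ z) X = nu φ X + 1 := nu_fill_iff.mpr ⟨W, hW, hzW, by omega⟩
      omega
    have hc' := hc (kap φ X ∩ Y₁) (kap φ X ∩ Y₂) (inter_subset_left.trans hKX)
      (inter_subset_left.trans hKX)
      (disjoint_of_subset_left inter_subset_right (disjoint_of_subset_right inter_subset_right hdis))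
      (fun h' => hd1 (mem_inter.mp h').2) (fun h' => hc2 (mem_inter.mp h').2)
    have hs1 := h.super (kap φ X) Y₁
    have hs2 := h.super (kap φ X) Y₂
    have hu1 := le_nu φ (union_subset hKX h1)
    have hu2 := le_nu φ (union_subset hKX h2)
    by_cases hz1 : z ∈ Y₁
    · have hz2 : z ∉ Y₂ := fun h' => disjoint_left.mp hdis hz1 h'
      rw [fl_mem hz1, fl_notMem hz2]
      have := hup _ (union_subset hKX h1) (mem_union_right _ hz1)
      omega
    · by_cases hz2 : z ∈ Y₂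
      · rw [fl_mem hz2, fl_notMem hz1]
        have := hup _ (union_subset hKX h2) (mem_union_right _ hz2)
        omega
      · rw [fl_notMem hz1, fl_notMem hz2]
        exact hc Y₁ Y₂ h1 h2 hdis hd1 hc2

private theorem fl_nuT (hA : Adm φ E Z) (hz : z ∈ Z) (hk : z ∈ kap φ E) {T : Finset α}
    (hT : T ∈ II φ E Z) : nu (fill φ z) (E \ T) = nu φ (E \ T) + 1 := by
  have hS : SM φ := hA.good.toSM
  have hTs : T ⊆ E \ Z := hT.1
  have hTn : nu φ (E \ T) = nu φ E - T.card := hT.2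
  have h1 := phi_sdiff_ge hA.marg hTs (kap φ E)
  have hzT : z ∉ T := fun h' => (mem_sdiff.mp (hTs h')).2 hz
  have h2 : kap φ E \ T ⊆ E \ T := sdiff_subset_sdiff (kap_sub φ E) (Subset.refl _)
  have h3 : z ∈ kap φ E \ T := mem_sdiff.mpr ⟨hk, hzT⟩
  have h4 := phi_kap hS E
  have h5 := le_nu φ h2
  exact nu_fill_iff.mpr ⟨kap φ E \ T, h2, h3, by omega⟩

theorem II_sub_fill (hA : Adm φ E Z) (hz : z ∈ Z) (hk : z ∈ kap φ E) :
    II φ E Z ⊆ II (fill φ z) E Z := by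
  intro T hT
  have h1 := fl_nuT hA hz hk hT
  have h2 := nu_fill_kap hA.good.toSM hk
  refine ⟨hT.1, ?_⟩
  have h3 : nu φ (E \ T) = nu φ E - T.card := hT.2
  rw [h1, h2, h3]
  ring

theorem KK_sub_fill (hA : Adm φ E Z) (hz : z ∈ Z) (hk : z ∈ kap φ E) :
    KK φ E Z c d ⊆ KK (fill φ z) E Z c d := by
  intro T hT
  have hT' : T ∈ II φ E Z := KK_sub_II hT
  have h1 := II_sub_fill hA hz hk hT'
  exact ⟨h1.1, h1.2, conn_fill_of (fl_nuT hA hz hk hT') hT.2.2⟩

end Pool.Agent.DT3
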