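import Pool.Agent.DT3.HFlat

/-!
(B) Chains with one member missing.  `C' ∈ PF r E`, `|C'| + 1 = r E = f`, no loops, `T ⊆ E`, `|T| = f`, and `T` is
disjoint from some member of `C'`.  Then the number of flats `F ∉ C'` with `insert F C' ∈ PF r E` and
`Trv r E (insert F C') T` is even (`0` or `2`).

Proof.  Suppose there is such an `F`; `C = insert F C'`, `i = r F`.
The least member `F₁` of `C'` is disjoint from `T` and `|T ∩ F₁| = r F₁`, so `r F₁ = 0`; so `i ≥ 1` (a member of
`C` of rank `0` is equal to `F₁`, `pf_eq_of_rank`).  Let `F⁻ ∈ C` be the member of rank `i - 1`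
(`ff_exists`), `F⁻ ∈ C'`, and `F⁺` the member of rank `i + 1`, or `F⁺ = E` if `i + 1 = f`.  `F⁻ ⊆ F ⊆ F⁺`,
`|T ∩ F⁻| = i - 1`, `|T ∩ F| = i`, `|T ∩ F⁺| = i + 1`: so `T ∩ (F⁺ \ F⁻) = {x, y}` with `x ∈ F`, `y ∉ F`,
`x ≠ y`.  `F = clo (insert x F⁻)` (`flat_cover`).  Put `F' = clo (insert y F⁻)`: a flat of rank `i`,
`F⁻ ⊆ F' ⊆ F⁺`.  `x ∉ F'` (otherwise `F' = clo (insert x F⁻) = F ∋ y`).  So `|T ∩ F'| = i`, `F' ≠ F`, `F' ≠ E`,
`F' ∉ C'` (rank `i`), `insert F' C'` is a chain: every member of `C'` has rank `≤ i - 1` (and is contained in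
`F⁻`) or `≥ i + 1` (and contains `F⁺`).  Any other flat `F''` of the set has rank `i` (the ranks of
`insert F'' C'` are `0, …, f - 1`, `ff_exists`), contains `F⁻`, is contained in `F⁺`, `|T ∩ F''| = i`, so it
contains `x` or `y`, so it is `F` or `F'` by `flat_cover`.  So the number is `2`.
-/

set_option autoImplicit false
set_option linter.unusedVariables false

namespace Pool.Agent.DT3

open Finset

variable {α : Type*} [DecidableEq α] {r : Finset α → ℕ} {E : Finset α}

private theorem trb_diff {T A B : Finset α} {i : ℕ} (hAB : A ⊆ B) (hA : (T ∩ A).card = i)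
    (hB : (T ∩ B).card = i + 1) : ∃ x ∈ T, x ∈ B ∧ x ∉ A ∧ ∀ z ∈ T, z ∈ B → z ∉ A → z = x := by
  have h1 : ((T ∩ B) \ (T ∩ A)).card = 1 := by
    rw [card_sdiff_of_subset (inter_subset_inter_left hAB)]
    omega
  obtain ⟨x, hx⟩ := card_eq_one.1 h1
  have hx' : x ∈ (T ∩ B) \ (T ∩ A) := by rw [hx]; exact mem_singleton_self x
  rw [mem_sdiff, mem_inter, mem_inter] at hx'
  refine ⟨x, hx'.1.1, hx'.1.2, fun h => hx'.2 ⟨hx'.1.1, h⟩, ?_⟩
  intro z hz hzB hzA
  have : z ∈ (T ∩ B) \ (T ∩ A) := by
    rw [mem_sdiff, mem_inter, mem_inter]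
    exact ⟨⟨hz, hzB⟩, fun h => hzA h.2⟩
  rw [hx] at this
  exact mem_singleton.1 this

open Classical in
theorem trv_even' [Fintype α] (h : RankFn r) (hl : ∀ e ∈ E, 0 < r {e})
    {C' : Finset (Finset α)} (hC : C' ∈ PF r E) (hc : C'.card + 1 = r E) {T : Finset α}
    (hT : T ⊆ E) (hTc : T.card = r E) (hTd : ∃ F ∈ C', Disjoint T F) :
    Even ((Finset.univ : Finset (Finset α)).filter fun F =>
      F ∉ C' ∧ insert F C' ∈ PF r E ∧ Trv r E (insert F C') T).card := by
  set S := (Finset.univ : Finset (Finset α)).filter fun F =>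
      F ∉ C' ∧ insert F C' ∈ PF r E ∧ Trv r E (insert F C') T with hS
  rcases S.eq_empty_or_nonempty with he | ⟨F, hF⟩
  · rw [he, card_empty]
    exact Even.zero
  have hmem : ∀ G, G ∈ S ↔ G ∉ C' ∧ insert G C' ∈ PF r E ∧ Trv r E (insert G C') T := by
    intro G
    rw [hS, mem_filter]
    exact ⟨fun hh => hh.2, fun hh => ⟨mem_univ _, hh⟩⟩
  obtain ⟨hFC, hFP, -, -, hFT⟩ := (hmem F).1 hF
  have hcard : (insert F C').card = r E := by rw [card_insert_of_notMem hFC, hc]
  have hFm : F ∈ insert F C' := mem_insert_self F C'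
  obtain ⟨hFfl, hFne⟩ := hFP.1 F hFm
  -- rank of F
  have hpos : 0 < r F := by
    obtain ⟨G, hG, hGd⟩ := hTd
    have h1 := hFT G (mem_insert_of_mem hG)
    rw [disjoint_iff_inter_eq_empty.1 hGd, card_empty] at h1
    by_contra h2
    have h3 : F = G := pf_eq_of_rank h hFP hFm (mem_insert_of_mem hG) (by omega)
    exact hFC (h3 ▸ hG)
  have hlt : r F < r E := flat_lt_E h hFfl hFne
  obtain ⟨i, hi⟩ : ∃ i, r F = i + 1 := ⟨r F - 1, by omega⟩
  have hrk : ∀ G ∈ C', r G ≠ r F := by
    intro G hG hr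
    exact hFC (pf_eq_of_rank h hFP (mem_insert_of_mem hG) hFm hr ▸ hG)
  -- the lower neighbour
  obtain ⟨M, hM, hMr⟩ := ff_exists h hFP hcard (i := i) (by omega)
  have hMC : M ∈ C' := by
    rcases mem_insert.1 hM with h1 | h1
    · rw [h1] at hMr
      omega
    · exact h1
  have hMF : M ⊆ F := pf_sub_of_le h hFP hM hFm (by omega)
  have hMfl := (hFP.1 M hM).1
  have hMT := hFT M hM
  have hFTc := hFT F hFm
  -- the upper neighbour
  obtain ⟨P, hPfl, hPr, hPT, hFP', hPG, hGP⟩ : ∃ P : Finset α, IsFlat r E P ∧ r P = i + 2 ∧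
      (T ∩ P).card = i + 2 ∧ F ⊆ P ∧ (∀ G ∈ C', r F < r G → P ⊆ G) ∧
      (∀ G, insert G C' ∈ PF r E → r G = r F → G ⊆ P) := by
    by_cases hif : i + 2 < r E
    · obtain ⟨P, hP, hPr⟩ := ff_exists h hFP hcard hif
      have hPC : P ∈ C' := by
        rcases mem_insert.1 hP with h1 | h1
        · rw [h1] at hPr
          omega
        · exact h1
      refine ⟨P, (hFP.1 P hP).1, hPr, by rw [hFT P hP, hPr], ?_, ?_, ?_⟩
      · exact pf_sub_of_le h hFP hFm hP (by omega)
      · intro G hG hr
        exact pf_sub_of_le h hFP hP (mem_insert_of_mem hG) (by omega)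
      · intro G hG hr
        exact pf_sub_of_le h hG (mem_insert_self G C') (mem_insert_of_mem hPC) (by omega)
    · refine ⟨E, ⟨subset_refl E, ?_⟩, by omega, ?_, hFfl.1, ?_, ?_⟩
      · intro e he
        rw [sdiff_self] at he
        exact absurd he (notMem_empty e)
      · rw [inter_eq_left.2 hT, hTc]
        omega
      · intro G hG hr
        obtain ⟨h1, h2⟩ := hC.1 G hG
        have := flat_lt_E h h1 h2
        omega
      · intro G hG hr
        exact (hG.1 G (mem_insert_self G C')).1.1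
  obtain ⟨x, hxT, hxF, hxM, hxu⟩ := trb_diff (T := T) (i := i) hMF (by omega) (by omega)
  obtain ⟨y, hyT, hyP, hyF, hyu⟩ := trb_diff (T := T) (i := i + 1) hFP' (by omega) (by omega)
  have hkey : ∀ z ∈ T, z ∈ P → z ∉ M → z = x ∨ z = y := by
    intro z hz hzP hzM
    by_cases hzF : z ∈ F
    · exact Or.inl (hxu z hz hzF hzM)
    · exact Or.inr (hyu z hz hzP hzF)
  have hyM : y ∉ M := fun hh => hyF (hMF hh)
  have hxE : x ∈ E \ M := mem_sdiff.2 ⟨hFfl.1 hxF, hxM⟩
  have hyE : y ∈ E \ M := mem_sdiff.2 ⟨hPfl.1 hyP, hyM⟩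
  have hcovx := flat_cover h hMfl hxE
  have hcovy := flat_cover h hMfl hyE
  have hFx : F = clo r E (insert x M) := (hcovx.2 F hFfl hMF hxF).2 (by omega)
  set F' := clo r E (insert y M) with hF'
  have hyME : insert y M ⊆ E := insert_subset (mem_sdiff.1 hyE).1 hMfl.1
  have hF'fl : IsFlat r E F' := clo_flat h hyME
  have hyF' : y ∈ F' := subset_clo hyME (mem_insert_self y M)
  have hMF' : M ⊆ F' := (subset_insert y M).trans (subset_clo hyME)
  have hF'r : r F' = i + 1 := by rw [hcovy.1, hMr]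
  have hF'P : F' ⊆ P := (hcovy.2 P hPfl (hMF.trans hFP') hyP).1
  have hxF' : x ∉ F' := by
    intro hh
    have h1 := (hcovx.2 F' hF'fl hMF' hh).2 (by omega)
    rw [← hFx] at h1
    exact hyF (h1 ▸ hyF')
  have hTF' : (T ∩ F').card = i + 1 := by
    have h1 : T ∩ F' = insert y (T ∩ M) := by
      ext z
      rw [mem_inter, mem_insert, mem_inter]
      constructor
      · rintro ⟨h1, h2⟩
        by_cases hzM : z ∈ M
        · exact Or.inr ⟨h1, hzM⟩
        · rcases hkey z h1 (hF'P h2) hzM with h3 | h3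
          · exact absurd (h3 ▸ h2) hxF'
          · exact Or.inl h3
      · rintro (h1 | ⟨h1, h2⟩)
        · rw [h1]
          exact ⟨hyT, hyF'⟩
        · exact ⟨h1, hMF' h2⟩
    rw [h1, card_insert_of_notMem (fun hh => hyM (mem_inter.1 hh).2), hMT, hMr]
  have hFF' : F ≠ F' := fun hh => hyF (hh ▸ hyF')
  have hlow : ∀ G ∈ C', G ⊆ M ∨ P ⊆ G := by
    intro G hG
    rcases lt_or_gt_of_ne (hrk G hG) with h1 | h1
    · exact Or.inl (pf_sub_of_le h hC hG hMC (by omega))
    · exact Or.inr (hPG G hG h1)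
  have hS2 : S = {F, F'} := by
    ext G
    rw [mem_insert, mem_singleton]
    constructor
    · intro hG
      obtain ⟨hGC, hGP', -, -, hGT⟩ := (hmem G).1 hG
      have hGm : G ∈ insert G C' := mem_insert_self G C'
      have hGcard : (insert G C').card = r E := by rw [card_insert_of_notMem hGC, hc]
      have hGr : r G = i + 1 := by
        obtain ⟨H, hH, hHr⟩ := ff_exists h hGP' hGcard (i := i + 1) (by omega)
        rcases mem_insert.1 hH with h1 | h1
        · rw [← h1]
          exact hHr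
        · exact absurd (by omega) (hrk H h1)
      have hGfl := (hGP'.1 G hGm).1
      have hMG : M ⊆ G := pf_sub_of_le h hGP' (mem_insert_of_mem hMC) hGm (by omega)
      have hGsP : G ⊆ P := hGP G hGP' (by omega)
      obtain ⟨z, hzT, hzG, hzM, -⟩ := trb_diff (T := T) (i := i) hMG (by omega)
        (by rw [hGT G hGm, hGr])
      rcases hkey z hzT (hGsP hzG) hzM with h1 | h1
      · left
        rw [h1] at hzG
        rw [hFx]
        exact (hcovx.2 G hGfl hMG hzG).2 (by omega)
      · right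
        rw [h1] at hzG
        exact (hcovy.2 G hGfl hMG hzG).2 (by omega)
    · rintro (rfl | rfl)
      · exact hF
      · rw [hmem]
        refine ⟨fun hh => hrk F' hh (by omega), ⟨?_, ?_⟩, hT, hTc, ?_⟩
        · intro G hG
          rcases mem_insert.1 hG with h1 | h1
          · rw [h1]
            refine ⟨hF'fl, ?_⟩
            intro hE
            rw [hE] at hF'r
            omega
          · exact hC.1 G h1
        · intro G hG H hH
          rcases mem_insert.1 hG with h1 | h1 <;> rcases mem_insert.1 hH with h2 | h2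
          · rw [h1, h2]
            exact Or.inl (subset_refl _)
          · rw [h1]
            rcases hlow H h2 with h3 | h3
            · exact Or.inr (h3.trans hMF')
            · exact Or.inl (hF'P.trans h3)
          · rw [h2]
            rcases hlow G h1 with h3 | h3
            · exact Or.inl (h3.trans hMF')
            · exact Or.inr (hF'P.trans h3)
          · exact hC.2 G h1 H h2
        · intro G hG
          rcases mem_insert.1 hG with h1 | h1
          · rw [h1, hTF', hF'r]
          · exact hFT G (mem_insert_of_mem h1)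
  rw [hS2, card_pair hFF']
  exact even_two

end Pool.Agent.DT3
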