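import Pool.Agent.DT3.HTrA
import Pool.Agent.DT3.HTrB
import Pool.Agent.DT3.Ch

/-!
The two vanishing sums of the homotopy argument (mod 2).

* `count_A`: for a complete flag `C` and a chain `c` supported on `(r E + 1)`-subsets of `E`:
  `∑_{T, Trv r E C T} bd c T = ∑_T ∑_{x ∉ T} c (T + x) = ∑_B c B · #{x ∈ B | Trv r E C (B - x)}`
  (exchange the sums: the pairs `(T, x)`, `x ∉ T`, correspond to the pairs `(B, x)`, `x ∈ B`, `B = T + x`), and the
  number is even for `B ⊆ E`, `|B| = r E + 1` (`trv_even`).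
* `count_B`: `H ∅ = 0`, and for non-empty `C ∈ PF r E` the chain `H C` is supported on `(|C| + 1)`-sets of `Kf E C`:
  `∑_{C ∈ FF r E} ∑_{T, Trv r E C T} ∑_{F ∈ C} H (C - F) T = ∑_{C'} ∑_T H C' T · #{F ∉ C' | insert F C' ∈ FF r E,
  Trv r E (insert F C') T}` (the pairs `(C, F)`, `F ∈ C`, correspond to the pairs `(C', F)`, `F ∉ C'`, `C' = C - F`;
  `C'` runs over the members of `PF r E` with `|C'| + 1 = r E`).  For `C' = ∅` the term is `0` as `H ∅ = 0`; for
  `C' ≠ ∅` and `H C' T ≠ 0` we have `T ⊆ E`, `|T| = r E`, `T` is disjoint from a member of `C'`, and the number is even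
  (`trv_even'`).
-/

set_option autoImplicit false

namespace Pool.Agent.DT3

open Finset

variable {α : Type*} [Fintype α] [DecidableEq α] {r : Finset α → ℕ} {E : Finset α}

private theorem nsmul_even {n : ℕ} (hn : Even n) (a : ZMod 2) : n • a = 0 := by
  obtain ⟨k, rfl⟩ := hn
  rw [add_nsmul]
  exact CharTwo.add_self_eq_zero _

open Classical in
theorem count_A (h : RankFn r) (hl : ∀ e ∈ E, 0 < r {e}) {C : Finset (Finset α)}
    (hC : C ∈ PF r E) (hc : C.card = r E) (c : Finset α → ZMod 2)
    (hs : ∀ B, c B ≠ 0 → B ⊆ E ∧ B.card = r E + 1) :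
    ∑ T ∈ (Finset.univ : Finset (Finset α)).filter (fun T => Trv r E C T), bd c T = 0 := by
  have e1 : ∑ T ∈ (Finset.univ : Finset (Finset α)).filter (fun T => Trv r E C T), bd c T
      = ∑ B : Finset α, ∑ x ∈ B.filter (fun x => Trv r E C (B.erase x)), c B := by
    unfold bd
    rw [Finset.sum_sigma', Finset.sum_sigma']
    refine Finset.sum_nbij' (fun p => ⟨insert p.2 p.1, p.2⟩) (fun q => ⟨q.1.erase q.2, q.2⟩)
      ?_ ?_ ?_ ?_ ?_
    · rintro ⟨T, x⟩ hp
      simp only [mem_sigma, mem_filter, mem_univ, true_and, mem_compl] at hp ⊢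
      refine ⟨mem_insert_self x T, ?_⟩
      rw [erase_insert hp.2]
      exact hp.1
    · rintro ⟨B, x⟩ hp
      simp only [mem_sigma, mem_filter, mem_univ, true_and, mem_compl] at hp ⊢
      exact ⟨hp.2, notMem_erase x B⟩
    · rintro ⟨T, x⟩ hp
      simp only [mem_sigma, mem_filter, mem_univ, true_and, mem_compl] at hp ⊢
      rw [erase_insert hp.2]
    · rintro ⟨B, x⟩ hp
      simp only [mem_sigma, mem_filter, mem_univ, true_and] at hp ⊢
      rw [insert_erase hp.1]
    · rintro ⟨T, x⟩ hp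
      rfl
  rw [e1]
  refine Finset.sum_eq_zero fun B _ => ?_
  rw [Finset.sum_const]
  by_cases hB : c B = 0
  · rw [hB, smul_zero]
  · exact nsmul_even (trv_even h hl hC hc (hs B hB).1 (hs B hB).2) _

open Classical in
theorem count_B (h : RankFn r) (hl : ∀ e ∈ E, 0 < r {e})
    (H : Finset (Finset α) → Finset α → ZMod 2) (h0 : H ∅ = 0)
    (hs : ∀ C ∈ PF r E, C.Nonempty → ∀ T, H C T ≠ 0 → T ∈ Kf E C ∧ T.card = C.card + 1) :
    ∑ C ∈ FF r E, ∑ T ∈ (Finset.univ : Finset (Finset α)).filter (fun T => Trv r E C T),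
      ∑ F ∈ C, H (C.erase F) T = 0 := by
  rw [Finset.sum_comm' (t' := (Finset.univ : Finset (Finset α)))
    (s' := fun T => (FF r E).filter fun C => Trv r E C T) (by
      intro C T
      simp only [mem_filter, mem_univ, true_and, and_true])]
  refine Finset.sum_eq_zero fun T _ => ?_
  have e1 : ∑ C ∈ (FF r E).filter (fun C => Trv r E C T), ∑ F ∈ C, H (C.erase F) T
      = ∑ C' : Finset (Finset α), ∑ F ∈ (Finset.univ : Finset (Finset α)).filter (fun F =>
          F ∉ C' ∧ insert F C' ∈ FF r E ∧ Trv r E (insert F C') T), H C' T := by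
    rw [Finset.sum_sigma', Finset.sum_sigma']
    refine Finset.sum_nbij' (fun p => ⟨p.1.erase p.2, p.2⟩) (fun q => ⟨insert q.2 q.1, q.2⟩)
      ?_ ?_ ?_ ?_ ?_
    · rintro ⟨C, F⟩ hp
      simp only [mem_sigma, mem_filter, mem_univ, true_and] at hp ⊢
      rw [insert_erase hp.2]
      exact ⟨notMem_erase F C, hp.1.1, hp.1.2⟩
    · rintro ⟨C', F⟩ hp
      simp only [mem_sigma, mem_filter, mem_univ, true_and] at hp ⊢
      exact ⟨⟨hp.2.1, hp.2.2⟩, mem_insert_self F C'⟩
    · rintro ⟨C, F⟩ hp
      simp only [mem_sigma, mem_filter, mem_univ, true_and] at hp ⊢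
      rw [insert_erase hp.2]
    · rintro ⟨C', F⟩ hp
      simp only [mem_sigma, mem_filter, mem_univ, true_and] at hp ⊢
      rw [erase_insert hp.1]
    · rintro ⟨C, F⟩ hp
      rfl
  rw [e1]
  refine Finset.sum_eq_zero fun C' _ => ?_
  rw [Finset.sum_const]
  by_cases hH : H C' T = 0
  · rw [hH, smul_zero]
  · refine nsmul_even ?_ _
    rcases (Finset.univ.filter (fun F : Finset α =>
      F ∉ C' ∧ insert F C' ∈ FF r E ∧ Trv r E (insert F C') T)).eq_empty_or_nonempty with he | hne
    · rw [he, card_empty]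
      exact ⟨0, rfl⟩
    · obtain ⟨F, hF⟩ := hne
      rw [mem_filter] at hF
      obtain ⟨-, hF1, hF2, hF3⟩ := hF
      unfold FF at hF2
      rw [mem_filter] at hF2
      have hcard : C'.card + 1 = r E := by
        rw [← hF2.2.2, card_insert_of_notMem hF1]
      have hPF : C' ∈ PF r E := by
        refine ⟨fun F' hF' => hF2.2.1.1 F' (mem_insert_of_mem hF'), fun F' hF' F'' hF'' =>
          hF2.2.1.2 F' (mem_insert_of_mem hF') F'' (mem_insert_of_mem hF'')⟩
      have hne' : C'.Nonempty := by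
        rw [nonempty_iff_ne_empty]
        rintro rfl
        rw [h0] at hH
        exact hH rfl
      have h1 := hs C' hPF hne' T hH
      have h2 := trv_even' h hl hPF hcard h1.1.1 (h1.2.trans hcard) h1.1.2
      have e2 : (Finset.univ : Finset (Finset α)).filter (fun F =>
          F ∉ C' ∧ insert F C' ∈ FF r E ∧ Trv r E (insert F C') T)
          = (Finset.univ : Finset (Finset α)).filter (fun F =>
          F ∉ C' ∧ insert F C' ∈ PF r E ∧ Trv r E (insert F C') T) := by
        ext F'
        simp only [mem_filter, mem_univ, true_and]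
        constructor
        · rintro ⟨h3, h4, h5⟩
          unfold FF at h4
          rw [mem_filter] at h4
          exact ⟨h3, h4.2.1, h5⟩
        · rintro ⟨h3, h4, h5⟩
          refine ⟨h3, ?_, h5⟩
          unfold FF
          rw [mem_filter]
          exact ⟨mem_univ _, h4, by rw [card_insert_of_notMem h3, hcard]⟩
      rw [e2]
      exact h2

end Pool.Agent.DT3
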