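import Pool.Agent.DT3.Defs

/-!
Definitions for the topological Hall theorem.  `r` is a matroid rank function (`RankFn`), `E` the ground
set.

* `IsFlat r E F`, `clo r E X`;
* `PF r E`: the chains of proper flats (as finite sets of flats);
* `FF r E`: the complete ones (`r E` members);
* `Trv r E C T`: `T ⊆ E` has `r E` elements and `|T ∩ F| = r F` for all `F ∈ C`;
* `gv v C T`: the vertex map (a chain map);
* `Kf E C`: the carrier for the full simplex.
-/

set_option autoImplicit false

namespace Pool.Agent.DT3

open Finset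

variable {α : Type*} [DecidableEq α]

/-- Flats (of the restriction to `E`). -/
def IsFlat (r : Finset α → ℕ) (E F : Finset α) : Prop :=
  F ⊆ E ∧ ∀ e ∈ E \ F, r F < r (insert e F)

/-- The closure in `E`. -/
def clo (r : Finset α → ℕ) (E X : Finset α) : Finset α := E.filter fun e => r (insert e X) = r X

/-- Chains of proper flats. -/
def PF (r : Finset α → ℕ) (E : Finset α) : Set (Finset (Finset α)) :=
  {C | (∀ F ∈ C, IsFlat r E F ∧ F ≠ E) ∧ ∀ F ∈ C, ∀ F' ∈ C, F ⊆ F' ∨ F' ⊆ F}

open Classical in
/-- Complete chains of proper flats. -/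
noncomputable def FF [Fintype α] (r : Finset α → ℕ) (E : Finset α) : Finset (Finset (Finset α)) :=
  Finset.univ.filter fun C => C ∈ PF r E ∧ C.card = r E

/-- `T` meets every step of the complete flag `C` in one element. -/
def Trv (r : Finset α → ℕ) (E : Finset α) (C : Finset (Finset α)) (T : Finset α) : Prop :=
  T ⊆ E ∧ T.card = r E ∧ ∀ F ∈ C, (T ∩ F).card = r F

open Classical in
/-- The chain map of a vertex map. -/
noncomputable def gv {β : Type*} (v : β → α) (C : Finset β) (T : Finset α) : ZMod 2 :=
  if Set.InjOn v C ∧ C.image v = T then 1 else 0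

/-- The full carrier. -/
def Kf (E : Finset α) (C : Finset (Finset α)) : Set (Finset α) :=
  {T | T ⊆ E ∧ ∃ F ∈ C, Disjoint T F}

/-- The augmentation: the chain `{∅}`. -/
def dlt (T : Finset α) : ZMod 2 := if T = ∅ then 1 else 0

end Pool.Agent.DT3
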