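import Pool.Agent.DT3.HDefs

/-!
Elementary facts on flats.

* `RankFn.insert_eq`: `r (insert x X)` is `r X` or `r X + 1` (`mono`, `insert_le`).
* `RankFn.mono_insert`: if `r (insert x X) = r X` and `X ⊆ Y` then `r (insert x Y) = r Y`
  (`submod` for `insert x X`, `Y`: if `x ∉ Y`, the intersection is `X`).
* `clo_sub`, `subset_clo`, `rank_clo` (`r (clo X) = r X`: add the elements one by one, by
  `RankFn.mono_insert`), `clo_flat` (if `e ∈ E \ clo X` and `r (insert e (clo X)) = r (clo X)` then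
  `r (insert e X) ≤ r (clo X) = r X`, so `e ∈ clo X`), `clo_sub_flat`: `X ⊆ F` flat: `clo X ⊆ F`
  (`e ∈ clo X`, `e ∉ F`: `r (insert e F) = r F` by `RankFn.mono_insert`, contradiction).
* `flat_lt`: `F ⊂ F'` flats: `r F < r F'`: take `e ∈ F' \ F`, `r F < r (insert e F) ≤ r F'`.
* `flat_lt_E`: for a proper flat.
* `flat_cover`: `F` flat, `x ∈ E \ F`, `F' = clo (insert x F)`: `r F' = r F + 1`; every flat `F'' ⊇ F`
  containing `x` contains `F'`, and it is equal to `F'` if `r F'' = r F + 1` (`flat_lt`).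
* `empty_flat`: if there are no loops (`0 < r {e}` for `e ∈ E`) then `∅` is a flat.
* `rank_zero_flat`: without loops a flat of rank `0` is empty.
* `pf_card`: for `C ∈ PF r E` and `F ∈ C` contained in all members: `C.card + r F ≤ r E`: the map
  `C → {r F, …, r E - 1}`, `F' ↦ r F'` is injective (`flat_lt`).
* `ff_exists`: for `C ∈ PF r E` with `C.card = r E` and `i < r E` there is `F ∈ C` with `r F = i` (an injective map
  `C → range (r E)` is onto).
* `pf_eq_of_rank`: members of a chain with the same rank are equal; `pf_sub_of_le`: `r F ≤ r F'` implies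
  `F ⊆ F'`.
* `pf_min`: a non-empty chain has a least member.
-/

set_option autoImplicit false

namespace Pool.Agent.DT3

open Finset

variable {α : Type*} [DecidableEq α] {r : Finset α → ℕ} {E F F' X Y : Finset α} {x : α}
  {C : Finset (Finset α)}

theorem RankFn.insert_eq (h : RankFn r) (x : α) (X : Finset α) :
    r (insert x X) = r X ∨ r (insert x X) = r X + 1 := by
  have h1 := h.mono X (insert x X) (subset_insert x X)
  have h2 := h.insert_le x X
  omega

theorem RankFn.mono_insert (h : RankFn r) (hx : r (insert x X) = r X) (hXY : X ⊆ Y) :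
    r (insert x Y) = r Y := by
  by_cases hxY : x ∈ Y
  · rw [insert_eq_of_mem hxY]
  · have h1 := h.submod (insert x X) Y
    have h2 : insert x X ∪ Y = insert x Y := by
      rw [insert_union, union_eq_right.2 hXY]
    have h3 : insert x X ∩ Y = X := by
      rw [insert_inter_of_notMem hxY, inter_eq_left.2 hXY]
    rw [h2, h3] at h1
    have h4 := h.mono Y (insert x Y) (subset_insert x Y)
    omega

theorem RankFn.le_card (h : RankFn r) (X : Finset α) : r X ≤ X.card := by
  induction X using Finset.induction_on with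
  | empty => rw [h.empty, card_empty]
  | insert x X hx ih =>
    have h1 := h.insert_le x X
    rw [card_insert_of_notMem hx]
    omega

theorem clo_sub : clo r E X ⊆ E := by
  exact filter_subset _ _

theorem subset_clo (hX : X ⊆ E) : X ⊆ clo r E X := by
  intro e he
  rw [clo, mem_filter]
  exact ⟨hX he, by rw [insert_eq_of_mem he]⟩

private lemma HFlat_mem {e : α} : e ∈ clo r E X ↔ e ∈ E ∧ r (insert e X) = r X := by
  rw [clo, mem_filter]

theorem rank_clo (h : RankFn r) (hX : X ⊆ E) : r (clo r E X) = r X := by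
  have key : ∀ S : Finset α, S ⊆ clo r E X → r (X ∪ S) = r X := by
    intro S
    induction S using Finset.induction_on with
    | empty => intro _; rw [union_empty]
    | insert s S hs ih =>
      intro hS
      have h1 := ih ((subset_insert s S).trans hS)
      have h2 := (HFlat_mem.1 (hS (mem_insert_self s S))).2
      have h3 := h.mono_insert h2 (subset_union_left (s₁ := X) (s₂ := S))
      rw [union_insert, h3, h1]
  have h1 := key _ (Subset.refl _)
  rwa [union_eq_right.2 (subset_clo hX)] at h1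

theorem clo_flat (h : RankFn r) (hX : X ⊆ E) : IsFlat r E (clo r E X) := by
  refine ⟨clo_sub, fun e he => ?_⟩
  rw [mem_sdiff] at he
  have h1 := rank_clo h hX
  have h2 := h.mono X (insert e X) (subset_insert e X)
  have h3 := h.mono (insert e X) (insert e (clo r E X)) (insert_subset_insert e (subset_clo hX))
  have h4 : r (insert e X) ≠ r X := fun h5 => he.2 (HFlat_mem.2 ⟨he.1, h5⟩)
  omega

theorem clo_sub_flat (h : RankFn r) (hF : IsFlat r E F) (hX : X ⊆ F) : clo r E X ⊆ F := by
  intro e he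
  by_contra heF
  have h1 := HFlat_mem.1 he
  have h2 := h.mono_insert h1.2 hX
  have h3 := hF.2 e (mem_sdiff.2 ⟨h1.1, heF⟩)
  omega

theorem flat_lt (h : RankFn r) (hF : IsFlat r E F) (hF' : F' ⊆ E) (hs : F ⊂ F') :
    r F < r F' := by
  obtain ⟨e, he, heF⟩ := exists_of_ssubset hs
  have h1 := hF.2 e (mem_sdiff.2 ⟨hF' he, heF⟩)
  have h2 := h.mono (insert e F) F' (insert_subset he hs.1)
  omega

theorem flat_lt_E (h : RankFn r) (hF : IsFlat r E F) (hne : F ≠ E) : r F < r E := by
  exact flat_lt h hF (Subset.refl E) (Finset.ssubset_iff_subset_ne.2 ⟨hF.1, hne⟩)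

theorem flat_cover (h : RankFn r) (hF : IsFlat r E F) (hx : x ∈ E \ F) :
    r (clo r E (insert x F)) = r F + 1 ∧
      ∀ F'', IsFlat r E F'' → F ⊆ F'' → x ∈ F'' → clo r E (insert x F) ⊆ F'' ∧
        (r F'' = r F + 1 → F'' = clo r E (insert x F)) := by
  have hxE := (mem_sdiff.1 hx).1
  have hins : insert x F ⊆ E := insert_subset hxE hF.1
  have h1 : r (clo r E (insert x F)) = r F + 1 := by
    rw [rank_clo h hins]
    have h2 := hF.2 x hx
    have h3 := h.insert_le x F
    omega
  refine ⟨h1, fun F'' hF'' hs hxF => ?_⟩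
  have h4 : clo r E (insert x F) ⊆ F'' := clo_sub_flat h hF'' (insert_subset hxF hs)
  refine ⟨h4, fun h5 => ?_⟩
  by_contra hne
  have h6 := flat_lt h (clo_flat h hins) hF''.1 (Finset.ssubset_iff_subset_ne.2 ⟨h4, fun h7 => hne h7.symm⟩)
  omega

theorem empty_flat (h : RankFn r) (hl : ∀ e ∈ E, 0 < r {e}) : IsFlat r E ∅ := by
  refine ⟨empty_subset E, fun e he => ?_⟩
  have h1 := hl e (mem_sdiff.1 he).1
  rw [h.empty, insert_empty_eq]
  exact h1

theorem rank_zero_flat (h : RankFn r) (hl : ∀ e ∈ E, 0 < r {e}) (hF : F ⊆ E) (h0 : r F = 0) :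
    F = ∅ := by
  by_contra hne
  obtain ⟨e, he⟩ := nonempty_iff_ne_empty.2 hne
  have h1 := hl e (hF he)
  have h2 := h.mono {e} F (singleton_subset_iff.2 he)
  omega

theorem pf_sub {C' : Finset (Finset α)} (hC : C ∈ PF r E) (h : C' ⊆ C) : C' ∈ PF r E := by
  exact ⟨fun F hF => hC.1 F (h hF), fun F hF F' hF' => hC.2 F (h hF) F' (h hF')⟩

theorem pf_eq_of_rank (h : RankFn r) (hC : C ∈ PF r E) (hF : F ∈ C) (hF' : F' ∈ C)
    (hr : r F = r F') : F = F' := by
  by_contra hne
  have f1 := (hC.1 F hF).1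
  have f2 := (hC.1 F' hF').1
  rcases hC.2 F hF F' hF' with hs | hs
  · have := flat_lt h f1 f2.1 (Finset.ssubset_iff_subset_ne.2 ⟨hs, hne⟩)
    omega
  · have := flat_lt h f2 f1.1 (Finset.ssubset_iff_subset_ne.2 ⟨hs, fun h3 => hne h3.symm⟩)
    omega

theorem pf_sub_of_le (h : RankFn r) (hC : C ∈ PF r E) (hF : F ∈ C) (hF' : F' ∈ C)
    (hr : r F ≤ r F') : F ⊆ F' := by
  have f1 := (hC.1 F hF).1
  have f2 := (hC.1 F' hF').1
  rcases hC.2 F hF F' hF' with hs | hs
  · exact hs
  · by_cases hne : F' = F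
    · rw [hne]
    · have := flat_lt h f2 f1.1 (Finset.ssubset_iff_subset_ne.2 ⟨hs, hne⟩)
      omega

theorem pf_card (h : RankFn r) (hC : C ∈ PF r E) (hF : F ∈ C) (hmin : ∀ F' ∈ C, F ⊆ F') :
    C.card + r F ≤ r E := by
  have hFE : r F ≤ r E := h.mono F E (hC.1 F hF).1.1
  have h1 : C.card ≤ (Finset.Ico (r F) (r E)).card := by
    apply card_le_card_of_injOn r
    · intro F' hF'
      have h2 := h.mono F F' (hmin F' hF')
      have h3 := flat_lt_E h (hC.1 F' hF').1 (hC.1 F' hF').2
      simp only [coe_Ico, Set.mem_Ico]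
      exact ⟨h2, h3⟩
    · intro F₁ h₁ F₂ h₂ h₃
      exact pf_eq_of_rank h hC h₁ h₂ h₃
  rw [Nat.card_Ico] at h1
  omega

theorem ff_exists (h : RankFn r) (hC : C ∈ PF r E) (hc : C.card = r E) {i : ℕ} (hi : i < r E) :
    ∃ F ∈ C, r F = i := by
  have h1 : C.image r ⊆ range (r E) := by
    intro j hj
    obtain ⟨F, hF, rfl⟩ := mem_image.1 hj
    exact mem_range.2 (flat_lt_E h (hC.1 F hF).1 (hC.1 F hF).2)
  have h2 : (C.image r).card = r E := by
    rw [card_image_of_injOn, hc]
    intro F₁ h₁ F₂ h₂ h₃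
    exact pf_eq_of_rank h hC h₁ h₂ h₃
  have h3 : C.image r = range (r E) :=
    eq_of_subset_of_card_le h1 (by rw [h2, card_range])
  have h4 : i ∈ C.image r := by rw [h3]; exact mem_range.2 hi
  obtain ⟨F, hF, h5⟩ := mem_image.1 h4
  exact ⟨F, hF, h5⟩

theorem pf_min (hC : C ∈ PF r E) (hne : C.Nonempty) : ∃ F ∈ C, ∀ F' ∈ C, F ⊆ F' := by
  obtain ⟨F, hF, hm⟩ := exists_min_image C card hne
  refine ⟨F, hF, fun F' hF' => ?_⟩
  rcases hC.2 F hF F' hF' with hs | hs
  · exact hs
  · rw [eq_of_subset_of_card_le hs (hm F' hF')]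

end Pool.Agent.DT3
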