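import Pool.Agent.DT3.HFlat

/-!
Transversals of a complete flag `C` (`C ∈ PF r E`, `C.card = r E = f`), no loops.

* `trv_basis`: `Trv r E C T → r T = r E`.  Show `r (T ∩ F) = r F` for all `F ∈ C` by induction on
  `i = r F`: `i = 0` clear.  `i + 1`: let `F⁻ ∈ C` have rank `i` (`ff_exists`), `F⁻ ⊆ F` (`pf_sub_of_le`);
  `|T ∩ F| = i + 1`, `|T ∩ F⁻| = i`: there is `x ∈ T ∩ (F \ F⁻)`; `r (insert x F⁻) > r F⁻ = r (T ∩ F⁻)`, so by
  `submod` for `insert x (T ∩ F⁻)`, `F⁻` (union `insert x F⁻`, intersection `T ∩ F⁻`) `r (insert x (T ∩ F⁻)) ≥ i + 1`.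
  The same argument for `E` in place of `F` gives `r T = f`.
* `trv_even` (A): `B ⊆ E`, `|B| = f + 1`: the number of `x ∈ B` with `Trv r E C (B.erase x)` is even.  If
  there is such an `x` (otherwise the number is `0`): for `F ∈ C`: `|B ∩ F| = r F + [x ∈ F]`, so for
  `y ∈ B`: `Trv r E C (B.erase y)` iff `∀ F ∈ C, (y ∈ F ↔ x ∈ F)`.  Let `F⁻ ∈ C` be the largest member not
  containing `x` (exists: the member of rank `0` is `∅`; `f ≥ 1` because `E ≠ ∅` has no loops), `F⁺` the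
  smallest member containing `x`, or `F⁺ = E` if there is none.  `r F⁺ = r F⁻ + 1` (a member of rank
  strictly between contains `x` or not, both impossible), and the set in question is
  `B ∩ (F⁺ \ F⁻)`, of cardinality `(r F⁺ + 1) - r F⁻ = 2`.
-/

set_option autoImplicit false

namespace Pool.Agent.DT3

open Finset

variable {α : Type*} [DecidableEq α] {r : Finset α → ℕ} {E : Finset α} {C : Finset (Finset α)}

private theorem tr_all (h : RankFn r) (hC : C ∈ PF r E) (hc : C.card = r E) {T : Finset α}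
    (hT : Trv r E C T) (i : ℕ) :
    ∀ G : Finset α, (G = E ∨ G ∈ C) → r G = i → r (T ∩ G) = r G := by
  obtain ⟨hTE, hTc, hTF⟩ := hT
  have hcard : ∀ G : Finset α, (G = E ∨ G ∈ C) → (T ∩ G).card = r G := by
    rintro G (rfl | hG)
    · rw [inter_eq_left.2 hTE, hTc]
    · exact hTF G hG
  have hsub : ∀ G : Finset α, (G = E ∨ G ∈ C) → G ⊆ E := by
    rintro G (rfl | hG)
    · exact subset_rfl
    · exact (hC.1 G hG).1.1
  induction i with
  | zero =>
    intro G hG h0
    have h1 := h.le_card (T ∩ G)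
    rw [hcard G hG] at h1
    omega
  | succ i ih =>
    intro G hG hi
    have hle : r G ≤ r E := h.mono _ _ (hsub G hG)
    obtain ⟨F, hF, hFi⟩ := ff_exists h hC hc (i := i) (by omega)
    have hFG : F ⊆ G := by
      rcases hG with rfl | hG
      · exact (hC.1 F hF).1.1
      · exact pf_sub_of_le h hC hF hG (by omega)
    have h1 := ih F (Or.inr hF) hFi
    have h2 := hcard F (Or.inr hF)
    have h3 := hcard G hG
    obtain ⟨x, hx, hxF⟩ : ∃ x ∈ T ∩ G, x ∉ T ∩ F := by
      by_contra hcon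
      push Not at hcon
      have h4 := card_le_card (fun x hx => hcon x hx : T ∩ G ⊆ T ∩ F)
      omega
    have hxT := (mem_inter.1 hx).1
    have hxG := (mem_inter.1 hx).2
    have hxF' : x ∉ F := fun h' => hxF (mem_inter.2 ⟨hxT, h'⟩)
    have h4 := (hC.1 F hF).1.2 x (mem_sdiff.2 ⟨hsub G hG hxG, hxF'⟩)
    have h5 := h.submod (insert x (T ∩ F)) F
    have e1 : insert x (T ∩ F) ∪ F = insert x F := by
      ext z
      simp only [mem_union, mem_insert, mem_inter]
      tauto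
    have e2 : insert x (T ∩ F) ∩ F = T ∩ F := by
      ext z
      simp only [mem_insert, mem_inter]
      constructor
      · rintro ⟨rfl | h6, h7⟩
        · exact absurd h7 hxF'
        · exact h6
      · exact fun h6 => ⟨Or.inr h6, h6.2⟩
    rw [e1, e2] at h5
    have h6 : insert x (T ∩ F) ⊆ T ∩ G := by
      intro z hz
      rcases mem_insert.1 hz with rfl | hz
      · exact hx
      · exact mem_inter.2 ⟨(mem_inter.1 hz).1, hFG (mem_inter.1 hz).2⟩
    have h7 := h.mono _ _ h6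
    have h8 := h.le_card (T ∩ G)
    omega

theorem trv_basis (h : RankFn r) (hC : C ∈ PF r E) (hc : C.card = r E) {T : Finset α}
    (hT : Trv r E C T) : r T = r E := by
  have h1 := tr_all h hC hc hT (r E) E (Or.inl rfl) rfl
  rwa [inter_eq_left.2 hT.1] at h1

private theorem tr_erase {B F : Finset α} {y : α} (hy : y ∈ B) :
    (B.erase y ∩ F).card + (if y ∈ F then 1 else 0) = (B ∩ F).card := by
  rw [erase_inter]
  split_ifs with h
  · exact card_erase_add_one (mem_inter.2 ⟨hy, h⟩)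
  · rw [erase_eq_of_notMem (fun h' => h (mem_inter.1 h').2), add_zero]

open Classical in
theorem trv_even (h : RankFn r) (hl : ∀ e ∈ E, 0 < r {e}) (hC : C ∈ PF r E) (hc : C.card = r E)
    {B : Finset α} (hB : B ⊆ E) (hBc : B.card = r E + 1) :
    Even (B.filter fun x => Trv r E C (B.erase x)).card := by
  by_cases hex : ∃ x ∈ B, Trv r E C (B.erase x)
  swap
  · rw [filter_eq_empty_iff.2 (fun x hx h' => hex ⟨x, hx, h'⟩), card_empty]
    exact ⟨0, rfl⟩
  obtain ⟨x, hxB, hxT⟩ := hex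
  have hBF : ∀ F ∈ C, (B ∩ F).card = r F + (if x ∈ F then 1 else 0) := by
    intro F hF
    rw [← tr_erase hxB, hxT.2.2 F hF]
  have hiff : ∀ y ∈ B, (Trv r E C (B.erase y) ↔ ∀ F ∈ C, (y ∈ F ↔ x ∈ F)) := by
    intro y hy
    constructor
    · intro hT F hF
      have h1 := tr_erase (F := F) hy
      rw [hT.2.2 F hF, hBF F hF] at h1
      by_cases ha : y ∈ F <;> by_cases hb : x ∈ F <;> simp [ha, hb] at h1 ⊢
    · intro hT
      refine ⟨(erase_subset _ _).trans hB, ?_, fun F hF => ?_⟩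
      · rw [card_erase_of_mem hy, hBc]
        omega
      · have h1 := tr_erase (F := F) hy
        rw [hBF F hF] at h1
        have h2 := hT F hF
        by_cases ha : y ∈ F
        · rw [if_pos ha, if_pos (h2.1 ha)] at h1
          omega
        · rw [if_neg ha, if_neg (fun h' => ha (h2.2 h'))] at h1
          omega
  have hE : 0 < r E := lt_of_lt_of_le (hl x (hB hxB)) (h.mono _ _ (singleton_subset_iff.2 (hB hxB)))
  obtain ⟨F0, hF0, hF0r⟩ := ff_exists h hC hc hE
  have hF0e : F0 = ∅ := rank_zero_flat h hl (hC.1 F0 hF0).1.1 hF0r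
  have hne : (C.filter fun F => x ∉ F).Nonempty :=
    ⟨F0, mem_filter.2 ⟨hF0, by rw [hF0e]; exact notMem_empty x⟩⟩
  obtain ⟨F1, hF1, hmax⟩ := exists_max_image (C.filter fun F => x ∉ F) r hne
  obtain ⟨hF1C, hxF1⟩ := mem_filter.1 hF1
  have hlt : r F1 < r E := flat_lt_E h (hC.1 F1 hF1C).1 (hC.1 F1 hF1C).2
  have hgt : ∀ F ∈ C, r F1 < r F → x ∈ F := by
    intro F hF hr
    by_contra hx
    have := hmax F (mem_filter.2 ⟨hF, hx⟩)
    omega
  have hle : ∀ F ∈ C, r F ≤ r F1 → F ⊆ F1 := fun F hF hr => pf_sub_of_le h hC hF hF1C hr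
  -- the upper member
  obtain ⟨F2, hF2, hF12, hxF2, hF2r, hF2up, hF2c⟩ : ∃ F2 : Finset α, (F2 = E ∨ F2 ∈ C) ∧ F1 ⊆ F2 ∧
      x ∈ F2 ∧ r F2 = r F1 + 1 ∧ (∀ F ∈ C, r F1 < r F → F2 ⊆ F) ∧ (B ∩ F2).card = r F1 + 2 := by
    by_cases hk : r F1 + 1 < r E
    · obtain ⟨F2, hF2, hF2r⟩ := ff_exists h hC hc hk
      refine ⟨F2, Or.inr hF2, pf_sub_of_le h hC hF1C hF2 (by omega), hgt F2 hF2 (by omega), hF2r,
        fun F hF hr => pf_sub_of_le h hC hF2 hF (by omega), ?_⟩
      rw [hBF F2 hF2, if_pos (hgt F2 hF2 (by omega))]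
      omega
    · refine ⟨E, Or.inl rfl, (hC.1 F1 hF1C).1.1, hB hxB, by omega, fun F hF hr => ?_, ?_⟩
      · have := flat_lt_E h (hC.1 F hF).1 (hC.1 F hF).2
        omega
      · rw [inter_eq_left.2 hB, hBc]
        omega
  have hset : (B.filter fun x => Trv r E C (B.erase x)) = (B ∩ F2) \ (B ∩ F1) := by
    ext y
    rw [mem_filter, mem_sdiff, mem_inter, mem_inter]
    constructor
    · rintro ⟨hy, hT⟩
      have h1 := (hiff y hy).1 hT
      refine ⟨⟨hy, ?_⟩, fun h' => hxF1 ((h1 F1 hF1C).1 h'.2)⟩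
      rcases hF2 with rfl | hF2
      · exact hB hy
      · exact (h1 F2 hF2).2 hxF2
    · rintro ⟨⟨hy, hy2⟩, hy1⟩
      refine ⟨hy, (hiff y hy).2 fun F hF => ?_⟩
      by_cases hr : r F ≤ r F1
      · have h1 := hle F hF hr
        exact ⟨fun h' => absurd ⟨hy, h1 h'⟩ hy1, fun h' => absurd (h1 h') hxF1⟩
      · exact ⟨fun _ => hgt F hF (by omega), fun _ => hF2up F hF (by omega) hy2⟩
  rw [hset, card_sdiff_of_subset (inter_subset_inter_left hF12), hF2c, hBF F1 hF1C, if_neg hxF1]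
  exact ⟨1, by omega⟩

end Pool.Agent.DT3
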