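import Pool.Agent.DT3.Nu

/-!
The smallest maximiser `kap φ X = {z ∈ X | nu φ (X.erase z) < nu φ X}`, `φ` supermodular.

* the maximisers of `φ` in `X` are closed under intersection: `φ A + φ B ≤ φ (A ∪ B) + φ (A ∩ B)` and
  both values on the right are `≤ nu φ X`.  Let `K` be a maximiser of least cardinality; it is contained in
  every maximiser.  `z ∈ K ↔ nu φ (X.erase z) < nu φ X`: if `z ∉ K` (or `z ∉ X`) then `K ⊆ X.erase z`;
  if `z ∈ K` every maximiser contains `z`.  So `K = kap φ X`; this gives `phi_kap`, `kap_sub_of_max`.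
* `kap_mono`: `K = kap φ X`, `K' = kap φ X'`, `X ⊆ X'`: `φ (K ∪ K') ≥ φ K + φ K' - φ (K ∩ K')` and
  `φ (K ∩ K') ≤ nu φ X = φ K`, so `K ∪ K'` ... more precisely `φ (K ∪ K') ≤ nu φ X' = φ K'`, so
  `φ (K ∩ K') ≥ φ K`, i.e. `K ∩ K'` is a maximiser in `X`, so `K ⊆ K ∩ K'`.
* `max_union`: if `Y ⊆ X` is a maximiser of `X` and `X ⊆ X'` and `W` is a maximiser of `X'` then `Y ∪ W` is a
  maximiser of `X'` (`φ (Y ∩ W) ≤ nu φ X = φ Y`).
* `kap_congr`: if `kap φ X ⊆ Y ⊆ X` then `nu φ Y = nu φ X` and `kap φ Y = kap φ X`.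
* `kap_eq_of_nu`: if `X ⊆ X'` and `nu φ X = nu φ X'` then `kap φ X = kap φ X'` (a maximiser of `X` is one
  of `X'`, so `kap φ X' ⊆ kap φ X`; and `kap_mono`).
-/

set_option autoImplicit false

namespace Pool.Agent.DT3

open Finset

variable {α : Type*} [DecidableEq α] {φ : Finset α → ℤ} {X X' Y W : Finset α}

theorem kap_sub (φ : Finset α → ℤ) (X : Finset α) : kap φ X ⊆ X := by
  exact Finset.filter_subset _ _

theorem mem_kap {z : α} : z ∈ kap φ X ↔ z ∈ X ∧ nu φ (X.erase z) < nu φ X := by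
  exact Finset.mem_filter

private theorem kap_spec (h : SM φ) (X : Finset α) : φ (kap φ X) = nu φ X ∧
    ∀ Y ⊆ X, φ Y = nu φ X → kap φ X ⊆ Y := by
  obtain ⟨K, hK, hmin⟩ := Finset.exists_min_image (X.powerset.filter fun Y => φ Y = nu φ X) card (by
    obtain ⟨Y, hY, h1⟩ := exists_nu φ X
    exact ⟨Y, mem_filter.2 ⟨mem_powerset.2 hY, h1⟩⟩)
  rw [mem_filter, mem_powerset] at hK
  have hmin' : ∀ Y ⊆ X, φ Y = nu φ X → K ⊆ Y := by
    intro Y hY hm
    have h1 : φ (K ∩ Y) = nu φ X := by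
      have h1 := h.super K Y
      have h2 : φ (K ∪ Y) ≤ nu φ X := le_nu φ (union_subset hK.1 hY)
      have h3 : φ (K ∩ Y) ≤ nu φ X := le_nu φ (inter_subset_left.trans hK.1)
      omega
    have h2 := hmin (K ∩ Y) (mem_filter.2 ⟨mem_powerset.2 (inter_subset_left.trans hK.1), h1⟩)
    have h3 := Finset.eq_of_subset_of_card_le (inter_subset_left : K ∩ Y ⊆ K) h2
    rw [← h3]
    exact inter_subset_right
  have hKe : kap φ X = K := by
    ext z
    rw [mem_kap]
    constructor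
    · rintro ⟨h1, h2⟩
      by_contra hz
      have h3 : φ K ≤ nu φ (X.erase z) := le_nu φ fun w hw =>
        mem_erase.2 ⟨fun e => hz (e ▸ hw), hK.1 hw⟩
      omega
    · intro hz
      refine ⟨hK.1 hz, ?_⟩
      obtain ⟨Y, hY, h1⟩ := exists_nu φ (X.erase z)
      have h2 : nu φ (X.erase z) ≤ nu φ X := nu_mono φ (erase_subset z X)
      rcases lt_or_eq_of_le h2 with h3 | h3
      · exact h3
      · exfalso
        have h4 := hmin' Y (hY.trans (erase_subset z X)) (h1.trans h3) hz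
        exact (mem_erase.1 (hY h4)).1 rfl
  rw [hKe]
  exact ⟨hK.2, hmin'⟩

theorem phi_kap (h : SM φ) (X : Finset α) : φ (kap φ X) = nu φ X := by
  exact (kap_spec h X).1

theorem kap_sub_of_max (h : SM φ) (hY : Y ⊆ X) (hm : φ Y = nu φ X) : kap φ X ⊆ Y := by
  exact (kap_spec h X).2 Y hY hm

theorem kap_mono (h : SM φ) (hX : X ⊆ X') : kap φ X ⊆ kap φ X' := by
  have h1 := h.super (kap φ X) (kap φ X')
  have h2 : φ (kap φ X ∪ kap φ X') ≤ nu φ X' :=
    le_nu φ (union_subset ((kap_sub φ X).trans hX) (kap_sub φ X'))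
  have h3 : φ (kap φ X ∩ kap φ X') ≤ nu φ X := le_nu φ (inter_subset_left.trans (kap_sub φ X))
  have h4 := phi_kap h X
  have h5 := phi_kap h X'
  exact (kap_sub_of_max h (inter_subset_left.trans (kap_sub φ X))
    (le_antisymm h3 (by omega))).trans inter_subset_right

theorem max_inter (h : SM φ) (hY : Y ⊆ X) (hm : φ Y = nu φ X) (hW : W ⊆ X)
    (hw : φ W = nu φ X) : φ (Y ∩ W) = nu φ X := by
  have h1 := h.super Y W
  have h2 : φ (Y ∪ W) ≤ nu φ X := le_nu φ (union_subset hY hW)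
  have h3 : φ (Y ∩ W) ≤ nu φ X := le_nu φ (inter_subset_left.trans hY)
  omega

theorem max_union (h : SM φ) (hY : Y ⊆ X) (hm : φ Y = nu φ X) (hX : X ⊆ X') (hW : W ⊆ X')
    (hw : φ W = nu φ X') : φ (Y ∪ W) = nu φ X' := by
  have h1 := h.super Y W
  have h2 : φ (Y ∪ W) ≤ nu φ X' := le_nu φ (union_subset (hY.trans hX) hW)
  have h3 : φ (Y ∩ W) ≤ nu φ X := le_nu φ (inter_subset_left.trans hY)
  omega

theorem nu_congr (h : SM φ) (hY : kap φ X ⊆ Y) (hYX : Y ⊆ X) : nu φ Y = nu φ X := by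
  refine le_antisymm (nu_mono φ hYX) ?_
  rw [← phi_kap h X]
  exact le_nu φ hY

theorem kap_congr (h : SM φ) (hY : kap φ X ⊆ Y) (hYX : Y ⊆ X) : kap φ Y = kap φ X := by
  refine subset_antisymm (kap_mono h hYX) ?_
  refine kap_sub_of_max h ((kap_sub φ Y).trans hYX) ?_
  rw [phi_kap h Y, nu_congr h hY hYX]

theorem kap_eq_of_nu (h : SM φ) (hX : X ⊆ X') (hn : nu φ X = nu φ X') :
    kap φ X = kap φ X' := by
  refine subset_antisymm (kap_mono h hX) ?_
  refine kap_sub_of_max h ((kap_sub φ X).trans hX) ?_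
  rw [phi_kap h X, hn]

end Pool.Agent.DT3
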