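import Pool.Agent.DT3.PCii
import Pool.Agent.DT3.Lem0

/-!
All pieces of Case 2.  `z ∈ Z`, `z ∉ kap φ E`, some maximiser of `φ` in `E` contains `z`.
Take `P` from `exists_CD`, `G = kap φ E`.

* If `c ∉ G ∪ P` or `d ∉ G ∪ P`: `PC φ E Z c d z = ∅` by `collC_out` (for `d` use `Conn.symm`).
* `c, d ∈ G`: `pc_i` (with `IH` for `coll φ G P z`, `insert z G`, `Z ∩ G`; `insert z G ⊆ E`).
* `c ∈ P`, `d ∈ G`: `pc_ii` with `IH` for `insert z G`, `insert z (Z ∩ G)`.
* `c ∈ G`, `d ∈ P`: `PC φ E Z c d z = PC φ E Z d c z` (`Conn.symm`), `EB.symm`, `pc_ii`.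
* `c, d ∈ P` (`pc_iii`): `PC φ E Z c d z = II φ E Z`: `collC_PP`, and `Conn φ (E \ T) c d` fails since
  `c ∉ G ⊇ kap φ (E \ T)`.  `II φ E Z = II φ G (Z ∩ G)` (`II_kap`) and `lemma0`:
  `nu φ (Z ∩ G) ≤ e` by `EB.nu_le` (`c, d ∉ G`), `nu φ G = nu φ E` (`nu_congr`), so
  `n + 1 + nu φ (Z ∩ G) ≤ nu φ G`.
-/

set_option autoImplicit false

namespace Pool.Agent.DT3

open Finset

variable {α : Type*} [Fintype α] [DecidableEq α] {φ : Finset α → ℤ} {E Z : Finset α}
  {c d z : α}

theorem pc_all (hA : Adm φ E Z) (hz : z ∈ Z) (hk : z ∉ kap φ E)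
    (hY : ∃ Y ⊆ E, z ∈ Y ∧ φ Y = nu φ E) (hc : c ∈ Z) (hd : d ∈ Z) (hcd : c ≠ d) {e n : ℤ}
    (he : EB φ Z c d e) (hn : n + 1 + e ≤ nu φ E)
    (IH : ∀ (φ' : Finset α → ℤ) (E' Z' : Finset α), E'.card ≤ E.card → Adm φ' E' Z' →
      Th φ' E' Z') :
    Acyc (PC φ E Z c d z) n := by
  obtain ⟨P, hCD⟩ := exists_CD hA.good hk hY
  have hm := hA.marg
  have hsm := hA.good.toSM
  have hout : ∀ a b : α, a ∉ kap φ E ∪ P → PC φ E Z a b z = ∅ := by
    intro a b hab
    rw [Set.eq_empty_iff_forall_notMem]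
    rintro T ⟨hT, hf, -⟩
    exact collC_out hCD hm hT hab hf
  have hsym : PC φ E Z c d z = PC φ E Z d c z := by
    ext T
    exact ⟨fun h => ⟨h.1, h.2.1.symm, fun h4 => h.2.2 h4.symm⟩,
      fun h => ⟨h.1, h.2.1.symm, fun h4 => h.2.2 h4.symm⟩⟩
  have hcard : (insert z (kap φ E)).card ≤ E.card :=
    card_le_card (insert_subset (hA.sub hz) hCD.GE)
  by_cases hc1 : c ∈ kap φ E ∪ P
  · by_cases hd1 : d ∈ kap φ E ∪ P
    · rcases mem_union.1 hc1 with hcG | hcP
      · rcases mem_union.1 hd1 with hdG | hdP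
        · exact pc_i hA hCD hz hc hd hcd hcG hdG he hn (IH _ _ _ hcard (pc_adm hA hCD))
        · rw [hsym]
          exact pc_ii hA hCD hz hd hc hdP hcG he.symm hn (IH _ _ _ hcard (pc_ii_adm hA hCD))
      · rcases mem_union.1 hd1 with hdG | hdP
        · exact pc_ii hA hCD hz hc hd hcP hdG he hn (IH _ _ _ hcard (pc_ii_adm hA hCD))
        · have hcG : c ∉ kap φ E := fun hh => disjoint_left.1 hCD.disj hh hcP
          have hdG : d ∉ kap φ E := fun hh => disjoint_left.1 hCD.disj hh hdP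
          have h1 : PC φ E Z c d z = II φ E Z := by
            ext T
            constructor
            · exact fun h => h.1
            · intro hT
              refine ⟨hT, collC_PP hCD hm hT hcP hdP, fun hC => hcG ?_⟩
              exact kap_mono hsm sdiff_subset (hC.mem_left hsm)
          rw [h1, II_kap hsm hm]
          have h2 : nu φ (Z ∩ kap φ E) ≤ e := he.nu_le hsm.zero inter_subset_left
            (fun hh => hcG (mem_inter.1 hh).2) (fun hh => hdG (mem_inter.1 hh).2)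
          have h3 : nu φ (kap φ E) = nu φ E := nu_congr hsm subset_rfl (kap_sub φ E)
          refine lemma0 hsm inter_subset_right ?_ ?_
          · intro v hv
            refine hm v ?_
            rw [mem_sdiff, mem_inter, not_and] at hv
            exact mem_sdiff.2 ⟨kap_sub φ E hv.1, fun hZ => hv.2 hZ hv.1⟩
          · rw [h3]
            omega
    · rw [hsym, hout d c hd1]
      exact acyc_empty n
  · rw [hout c d hc1]
    exact acyc_empty n

end Pool.Agent.DT3
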