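import Pool.Agent.DT3.CollC
import Pool.Agent.DT3.ChTwo
import Pool.Agent.DT3.ChCone

/-!
The pieces of Case 2, first type.  `PC φ E Z c d z` is the family of all `T ∈ II φ E Z` such that `c, d` are
connected in `E \ T` for `fill φ z` but not for `φ`.  Here `c, d ∈ G` (`CD φ E G P z`).

Notation: `φ^ = coll φ G P z`, `E^ = insert z G`, `Z₀ = Z ∩ G`, `K^ = KK φ^ E^ Z₀ c d`,
`K₀ = KK φ G Z₀ c d = KK φ E Z c d` (`KK_kap`), `ν E = nu φ E`, `nu φ^ E^ = ν E + 1`.

(1) `Adm φ^ E^ Z₀`: `CD.good_coll`; `E^ \ Z₀ = {z} ∪ (G \ Z)`, `CD.coll_marg`, `CD.coll_marg_z`.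
    `EB φ^ Z₀ c d e`: on subsets of `G` `φ^ = φ` (`CD.coll_sub`), `EB.mono`.
    `n + 2 + e ≤ nu φ^ E^`.  So `Acyc K^ n` by the hypothesis `Th`.
(2) `Cn = {T | T.erase z ∈ K₀}` is a simplicial complex, a cone with apex `z` (`acyc_cone`), and
    `Cn ⊆ K^`: let `T.erase z = T' ∈ K₀ = KK φ E Z c d ⊆ II φ E Z`.  If `z ∉ T` (`T = T'`):
    `E^ \ T = insert z (G \ T)`, `nu φ^ (E^ \ T) = nu φ (E \ T) + 1 = ν E - |T| + 1` (`CD.nu_coll_II`), and
    `Conn φ (E \ T) c d` gives `Conn (fill φ z) (E \ T) c d` (`conn_fill_of`, `CD.nu_fill_II`), hence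
    `Conn φ^ (E^ \ T) c d` (`collC_GG`).  If `z ∈ T`: `E^ \ T = G \ T'`, `nu φ^ (G \ T') = nu φ (G \ T') =
    ν E - |T'| = (ν E + 1) - |T|`, `Conn φ^ (G \ T')` iff `Conn φ (G \ T')` (`CD.conn_coll_sub`).
    The same computation shows: if `z ∈ T ∈ K^` then `T.erase z ∈ K₀`, `T ∈ Cn`.
(3) `acyc_up` with `D = K^`, `D₀ = Cn` (both complexes): `Acyc (K^ \ Cn) n`.  Its members avoid `z`.
(4) `K^ \ Cn = D₁ ∪ D₂` with `D₁ = PC φ E Z c d z` (the members in `II φ E Z`) and
    `D₂ = {T ∈ K^ \ Cn | T ∉ II φ E Z}`: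
    `T ∈ PC`: `z ∉ T`, `T ∈ K^` as in (2) (`collC_GG`), and `T ∉ Cn` since `Conn φ (E \ T) c d` fails
    (`T = T.erase z ∉ K₀ = KK φ E Z c d`).  Conversely `T ∈ K^ \ Cn`, `T ∈ II φ E Z`: `collC_GG` gives
    `Conn (fill φ z) (E \ T) c d`, and `T ∉ K₀`, so `Conn φ (E \ T) c d` fails.
(5) no covering pairs (`acyc_split`).  `S ∈ D₂`, `insert x S ∈ D₁`: `II φ E Z` is a complex, contradiction.
    `S ∈ D₁`, `T = insert x S ∈ D₂`: `T ∈ K^`: `nu φ^ (E^ \ T) = ν E + 1 - |T|`, and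
    `nu φ^ (E^ \ T) ≤ nu φ (G \ T) + 1` (`CD.nu_coll_le`), `T ∉ II φ E Z` (with `T ⊆ E^ \ Z₀`, `z ∉ T`, so
    `T ⊆ G \ Z`), so `nu φ (G \ T) = ν E + 1 - |T| = nu φ^ (E^ \ T)`
    [`nu φ (G \ T) = nu φ (E \ T)` by `nu_kap_sdiff`, and it is `≤ nu φ^ (E^ \ T)`].  By `conn_congr_nu` for
    `φ^` (`G \ T ⊆ E^ \ T`): `Conn φ^ (G \ T) c d`, i.e. `Conn φ (G \ T) c d`.  And `S ∈ II φ E Z`:
    `nu φ (G \ S) = ν E - |S| = nu φ (G \ T)`, so `Conn φ (G \ S) c d` (`conn_congr_nu`), so `S ∈ K₀`,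
    `S ∈ Cn`, a contradiction.
-/

set_option autoImplicit false

namespace Pool.Agent.DT3

open Finset

/-- The pieces of Case 2. -/
def PC {α : Type*} [DecidableEq α] (φ : Finset α → ℤ) (E Z : Finset α) (c d z : α) :
    Set (Finset α) :=
  {T | T ∈ II φ E Z ∧ Conn (fill φ z) (E \ T) c d ∧ ¬ Conn φ (E \ T) c d}

variable {α : Type*} [Fintype α] [DecidableEq α] {φ : Finset α → ℤ} {E Z G P : Finset α}
  {c d z : α}

theorem pc_adm (hA : Adm φ E Z) (h : CD φ E G P z) :
    Adm (coll φ G P z) (insert z G) (Z ∩ G) := by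
  refine ⟨h.good_coll, inter_subset_right.trans (subset_insert z G), ?_⟩
  intro v hv Y
  rw [mem_sdiff, mem_insert, mem_inter] at hv
  obtain ⟨h1, h3⟩ := hv
  rcases h1 with rfl | hvG
  · exact h.coll_marg_z Y
  · have hvZ : v ∉ Z := fun hh => h3 ⟨hh, hvG⟩
    exact h.coll_marg hvG (hA.marg v (mem_sdiff.2 ⟨h.GE hvG, hvZ⟩)) Y

omit [Fintype α] in
private theorem pci_K0 (hA : Adm φ E Z) (h : CD φ E G P z) (T : Finset α) :
    T ∈ KK φ E Z c d ↔ T ⊆ G \ (Z ∩ G) ∧ nu φ (G \ T) = nu φ E - T.card ∧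
      Conn φ (G \ T) c d := by
  have hSM := h.good.toSM
  have h1 : KK φ E Z c d = KK φ G (Z ∩ G) c d := by
    rw [h.hG]
    exact KK_kap hSM hA.marg
  have h2 : nu φ G = nu φ E := by
    rw [h.hG]
    exact nu_congr hSM (Subset.refl _) (kap_sub φ E)
  rw [h1]
  simp only [KK, Set.mem_ofPred_eq, h2]

omit [Fintype α] in
private theorem pci_A1 (hA : Adm φ E Z) (h : CD φ E G P z) (hcG : c ∈ G) (hdG : d ∈ G)
    {T : Finset α} (hzT : z ∉ T) (hT : T ∈ KK φ E Z c d) :
    T ∈ KK (coll φ G P z) (insert z G) (Z ∩ G) c d := by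
  have hII : T ∈ II φ E Z := KK_sub_II hT
  have h1 := (pci_K0 hA h T).1 hT
  have hsd : insert z G \ T = insert z (G \ T) := by
    rw [insert_sdiff_of_notMem G hzT]
  refine ⟨h1.1.trans (sdiff_subset_sdiff (subset_insert z G) (Subset.refl _)), ?_, ?_⟩
  · rw [hsd, h.nu_coll_II hA.marg hII, h.nu_coll_top, hT.2.1]
    ring
  · rw [hsd]
    exact (collC_GG h hA.marg hII hcG hdG).1 (conn_fill_of (h.nu_fill_II hA.marg hII) hT.2.2)

omit [Fintype α] in
private theorem pci_A2 (hA : Adm φ E Z) (h : CD φ E G P z) {T : Finset α} (hzT : z ∈ T) :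
    T ∈ KK (coll φ G P z) (insert z G) (Z ∩ G) c d ↔ T.erase z ∈ KK φ E Z c d := by
  rw [pci_K0 hA h]
  have hsd : insert z G \ T = G \ T.erase z := by
    ext x
    simp only [mem_sdiff, mem_insert, mem_erase, ne_eq, not_and]
    constructor
    · rintro ⟨h1 | h1, h2⟩
      · rw [h1] at h2
        exact absurd hzT h2
      · exact ⟨h1, fun _ => h2⟩
    · rintro ⟨h1, h2⟩
      have hxz : ¬ x = z := fun hh => h.zG (hh ▸ h1)
      exact ⟨Or.inr h1, h2 hxz⟩
  have hsub : G \ T.erase z ⊆ G := sdiff_subset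
  have hcard : (T.card : ℤ) = (T.erase z).card + 1 := by
    exact_mod_cast (card_erase_add_one hzT).symm
  have hss : T ⊆ insert z G \ (Z ∩ G) ↔ T.erase z ⊆ G \ (Z ∩ G) := by
    constructor
    · intro hh x hx
      rw [mem_erase] at hx
      have h3 := hh hx.2
      rw [mem_sdiff, mem_insert] at h3
      exact mem_sdiff.2 ⟨h3.1.resolve_left hx.1, h3.2⟩
    · intro hh x hx
      by_cases hxz : x = z
      · rw [hxz, mem_sdiff, mem_insert, mem_inter]
        exact ⟨Or.inl rfl, fun h5 => h.zG h5.2⟩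
      · have h3 := hh (mem_erase.2 ⟨hxz, hx⟩)
        rw [mem_sdiff] at h3
        exact mem_sdiff.2 ⟨mem_insert_of_mem h3.1, h3.2⟩
  simp only [KK, Set.mem_ofPred_eq]
  rw [hsd, hss, h.nu_coll_sub hsub, h.nu_coll_top, h.conn_coll_sub hsub, hcard]
  constructor
  · rintro ⟨h1, h2, h3⟩
    exact ⟨h1, by linarith, h3⟩
  · rintro ⟨h1, h2, h3⟩
    exact ⟨h1, by linarith, h3⟩

theorem pc_i (hA : Adm φ E Z) (h : CD φ E G P z) (hz : z ∈ Z) (hc : c ∈ Z) (hd : d ∈ Z)
    (hcd : c ≠ d) (hcG : c ∈ G) (hdG : d ∈ G) {e n : ℤ} (he : EB φ Z c d e)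
    (hn : n + 1 + e ≤ nu φ E) (hT : Th (coll φ G P z) (insert z G) (Z ∩ G)) :
    Acyc (PC φ E Z c d z) n := by
  have hSM := h.good.toSM
  have hadm := pc_adm hA h
  have hcZ : c ∈ Z ∩ G := mem_inter.2 ⟨hc, hcG⟩
  have hdZ : d ∈ Z ∩ G := mem_inter.2 ⟨hd, hdG⟩
  have hnuG : nu φ G = nu φ E := by
    rw [h.hG]
    exact nu_congr hSM (Subset.refl _) (kap_sub φ E)
  -- the bound for the collapsed function
  have hEB : EB (coll φ G P z) (Z ∩ G) c d e := by
    intro Q hQ
    have hs : ∀ A ∈ Q, A ⊆ G := fun A hA' => (hQ.sub A hA').trans inter_subset_right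
    have hsep : SepFam φ Z Q := by
      refine ⟨hQ.nonempty, fun A hA' => (hQ.sub A hA').trans inter_subset_left, hQ.disj, ?_⟩
      have h1 := hQ.sep
      have hsub : Q.biUnion id ⊆ G := biUnion_subset.2 hs
      rw [h.coll_sub hsub] at h1
      rw [h1]
      exact sum_congr rfl fun A hA' => h.coll_sub (hs A hA')
    have h2 := he Q hsep
    refine le_trans (le_of_eq (sum_congr rfl fun A hA' => ?_)) h2
    unfold gg
    rw [h.coll_sub (hs A hA')]
  have hK : Acyc (KK (coll φ G P z) (insert z G) (Z ∩ G) c d) n := by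
    refine hT c d e n hcZ hdZ hcd hEB ?_
    rw [h.nu_coll_top]
    omega
  have hcK : Cpx (KK (coll φ G P z) (insert z G) (Z ∩ G) c d) :=
    cpx_KK h.good_coll.toSM hadm.marg hcZ hdZ
  have hcK0 : Cpx (KK φ E Z c d) := cpx_KK hSM hA.marg hc hd
  have hcII : Cpx (II φ E Z) := cpx_II hSM hA.marg
  set Kh := KK (coll φ G P z) (insert z G) (Z ∩ G) c d with hKh
  let Cn : Set (Finset α) := {T | T.erase z ∈ KK φ E Z c d}
  have hCnK : Cn ⊆ Kh := by
    intro T hTC
    by_cases hzT : z ∈ T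
    · exact (pci_A2 hA h hzT).2 hTC
    · have h1 : T.erase z ∈ KK φ E Z c d := hTC
      rw [erase_eq_of_notMem hzT] at h1
      exact pci_A1 hA h hcG hdG hzT h1
  have hCndown : ∀ S ∈ Kh, ∀ T ∈ Cn, S ⊆ T → S ∈ Cn := by
    intro S _ T hTC hST
    exact hcK0 _ hTC _ (erase_subset_erase z hST)
  have hCnA : Acyc Cn (n - 1) := by
    refine acyc_cone z (fun T hzT => ?_) _
    change T.erase z ∈ KK φ E Z c d ↔ (insert z T).erase z ∈ KK φ E Z c d
    rw [erase_eq_of_notMem hzT, erase_insert hzT]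
  have hup : Acyc (Kh \ Cn) n := acyc_up hcK.cvx hCnK hCndown hK hCnA
  have hzn : ∀ T ∈ Kh \ Cn, z ∉ T := by
    intro T hTT hzT
    exact hTT.2 ((pci_A2 hA h hzT).1 hTT.1)
  refine acyc_split (D₁ := PC φ E Z c d z) (D₂ := {T | T ∈ Kh \ Cn ∧ T ∉ II φ E Z}) ?_ ?_ ?_ hup
  · -- the decomposition
    ext T
    constructor
    · intro hTT
      have hzT := hzn T hTT
      by_cases hII : T ∈ II φ E Z
      · left
        have hsd : insert z G \ T = insert z (G \ T) := by
          rw [insert_sdiff_of_notMem G hzT]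
        have h1 := hTT.1.2.2
        rw [hsd] at h1
        refine ⟨hII, (collC_GG h hA.marg hII hcG hdG).2 h1, fun h2 => ?_⟩
        apply hTT.2
        change T.erase z ∈ KK φ E Z c d
        rw [erase_eq_of_notMem hzT]
        exact ⟨hII.1, hII.2, h2⟩
      · right
        exact ⟨hTT, hII⟩
    · rintro (hTT | hTT)
      · obtain ⟨hII, h1, h2⟩ := hTT
        have hzT : z ∉ T := fun hh => (mem_sdiff.1 (hII.1 hh)).2 hz
        have hsd : insert z G \ T = insert z (G \ T) := by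
          rw [insert_sdiff_of_notMem G hzT]
        have hTG : T ⊆ G := by
          rw [h.hG]
          exact II_sub_kap hSM hA.marg hII
        refine ⟨⟨?_, ?_, ?_⟩, ?_⟩
        · intro x hx
          rw [mem_sdiff, mem_insert, mem_inter]
          exact ⟨Or.inr (hTG hx), fun h5 => (mem_sdiff.1 (hII.1 hx)).2 h5.1⟩
        · rw [hsd, h.nu_coll_II hA.marg hII, h.nu_coll_top, hII.2]
          ring
        · rw [hsd]
          exact (collC_GG h hA.marg hII hcG hdG).1 h1
        · intro h3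
          have h4 : T.erase z ∈ KK φ E Z c d := h3
          rw [erase_eq_of_notMem hzT] at h4
          exact h2 h4.2.2
      · exact hTT.1
  · -- no covering pairs, first direction
    intro S hS x hxS hT2
    obtain ⟨hTT, hnII⟩ := hT2
    have hzT := hzn _ hTT
    have hsd : insert z G \ insert x S = insert z (G \ insert x S) := by
      rw [insert_sdiff_of_notMem G hzT]
    have hzS : z ∉ S := fun hh => hzT (mem_insert_of_mem hh)
    have hTE : insert x S ⊆ E \ Z := by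
      intro y hy
      have h1 := hTT.1.1 hy
      rw [mem_sdiff, mem_insert, mem_inter, not_and] at h1
      have hyz : y ≠ z := fun hh => hzT (hh ▸ hy)
      have hyG : y ∈ G := h1.1.resolve_left hyz
      exact mem_sdiff.2 ⟨h.GE hyG, fun hh => h1.2 hh hyG⟩
    have hnuT := hTT.1.2.1
    rw [hsd, h.nu_coll_top] at hnuT
    have hsubG : G \ insert x S ⊆ G := sdiff_subset
    have hle := h.nu_coll_le hsubG
    have hkapsd : nu φ (G \ insert x S) = nu φ (E \ insert x S) := by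
      rw [h.hG]
      exact nu_kap_sdiff hSM E _
    have hge := nu_sdiff_ge hA.marg hTE E
    have hne : nu φ (E \ insert x S) ≠ nu φ E - (insert x S).card := fun hh => hnII ⟨hTE, hh⟩
    have hub : nu φ (G \ insert x S) ≤ nu (coll φ G P z) (insert z (G \ insert x S)) := by
      rw [← h.nu_coll_sub hsubG]
      exact nu_mono _ (subset_insert _ _)
    have hval : nu φ (G \ insert x S) = nu φ E + 1 - (insert x S).card := by
      rw [hkapsd] at hub ⊢
      omega
    have hconn : Conn (coll φ G P z) (G \ insert x S) c d := by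
      refine (conn_congr_nu h.good_coll.toSM (subset_insert z _) ?_).2 ?_
      · rw [h.nu_coll_sub hsubG, hval, hnuT]
      · have := hTT.1.2.2
        rwa [hsd] at this
    have hconn2 : Conn φ (G \ insert x S) c d := (h.conn_coll_sub hsubG).1 hconn
    have hcard : ((insert x S).card : ℤ) = S.card + 1 := by
      exact_mod_cast card_insert_of_notMem hxS
    have hSG : nu φ (G \ S) = nu φ E - S.card := by
      have : nu φ (G \ S) = nu φ (E \ S) := by
        rw [h.hG]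
        exact nu_kap_sdiff hSM E _
      rw [this]
      exact hS.1.2
    have hconn3 : Conn φ (G \ S) c d := by
      refine (conn_congr_nu hSM (sdiff_subset_sdiff (Subset.refl G) (subset_insert x S)) ?_).1
        hconn2
      rw [hval, hSG, hcard]
      ring
    apply hS.2.2
    have hSE : kap φ (E \ S) ⊆ G \ S := by
      rw [h.hG]
      exact kap_sdiff_sub hSM
    exact (conn_congr_kap hSM hSE (sdiff_subset_sdiff h.GE (Subset.refl S))).2 hconn3
  · intro S hS x _ hT1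
    exact hS.2 (hcII _ hT1.1 _ (subset_insert x S))

end Pool.Agent.DT3
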