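import Pool.Agent.DT3.PCi

/-!
The pieces of Case 2, second type: `c ∈ P`, `d ∈ G` (`CD φ E G P z`).

Notation: `φ^ = coll φ G P z`, `E^ = insert z G`, `Z^ = insert z (Z ∩ G)`, `K^ = KK φ^ E^ Z^ z d`.

(1) `pc_ii_adm`: `Adm φ^ E^ Z^` (`E^ \ Z^ = G \ Z`).
(2) `φ P ≤ 0` (`CD.union_le` for `Y = ∅`).  Case `φ P = 0`: `PC φ E Z c d z` is empty: let `T` be in it; by
    `collC_PG` `Conn φ^ (insert z (G \ T)) z d`; take `Y₁ = {z}` (`φ^ {z} = φ P + 1 = 1`) and
    `Y₂ = kap φ (G \ T)` (`φ^ Y₂ = nu φ (G \ T) = nu φ (E \ T)`): disjoint, `d ∉ {z}`, `z ∉ Y₂`, sum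
    `nu φ (E \ T) + 1 = nu φ^ (insert z (G \ T))`: contradiction.  `acyc_empty`.
(3) `pc_ii_EB`: if `φ P ≤ -1` then `EB φ^ Z^ z d e`.  Note `c ∉ G`.  Let `Q` be a separated family for `φ^` in
    `Z^`.  If no member contains `z`, all members are subsets of `Z ∩ G`, `φ^ = φ` there, `Q` is separated for
    `φ`, and `gg φ^ z d A = gg φ c d A` (`z, c ∉ A`).  Otherwise let `A₀ = insert z A ∈ Q`, `A ⊆ Z ∩ G`.
    Replace `A₀` by `A` (or delete it if `A = ∅`): `SepFam.replace` for `φ^` with `R = {A}` or `R = ∅` and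
    `Z' = Z ∩ G`, then `EB φ Z c d e` for the new family.
    `gg φ^ z d A₀ = φ (A ∪ P) + 1 - [d ∈ A] ≤ φ A + 1 - [d ∈ A] = gg φ c d A` (`CD.union_le`) if `A ≠ ∅`;
    `gg φ^ z d {z} = φ P + 1 ≤ 0` if `A = ∅`.
(4) `PC φ E Z c d z = K^`.  `⊆`: `T ∈ PC`: `T ⊆ G \ Z`, `nu φ^ (E^ \ T) = nu φ (E \ T) + 1 = nu φ^ E^ - |T|`
    (`CD.nu_coll_II`, `CD.nu_coll_top`), `collC_PG`.  `⊇`: `T ∈ K^`: `T ⊆ G \ Z`, `E^ \ T = insert z (G \ T)`,
    `nu φ^ (E^ \ T) = ν E + 1 - |T|`.  `T ∈ II φ E Z`: otherwise (`nu_sdiff_ge`, `nu_kap_sdiff`,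
    `CD.nu_coll_sub`) `nu φ^ (G \ T) = nu φ (G \ T) = ν E + 1 - |T| = nu φ^ (E^ \ T)`, but
    `z ∈ kap φ^ (E^ \ T)` (`Conn.mem_left`) means that `nu φ^` of `(E^ \ T).erase z = G \ T` is smaller.
    Then `collC_PG` gives `Conn (fill φ z) (E \ T) c d`, and `Conn φ (E \ T) c d` fails because
    `c ∉ G = kap φ E ⊇ kap φ (E \ T)` (`Conn.mem_left`, `kap_mono`).
(5) `Th φ^ E^ Z^` for the pair `z, d`: `z ≠ d` (`z ∉ G`), `n + 2 + e ≤ ν E + 1 = nu φ^ E^`.
-/

set_option autoImplicit false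

namespace Pool.Agent.DT3

open Finset

variable {α : Type*} [Fintype α] [DecidableEq α] {φ : Finset α → ℤ} {E Z G P : Finset α}
  {c d z : α}

theorem pc_ii_adm (hA : Adm φ E Z) (h : CD φ E G P z) :
    Adm (coll φ G P z) (insert z G) (insert z (Z ∩ G)) := by
  refine ⟨h.good_coll, insert_subset_insert z inter_subset_right, ?_⟩
  intro v hv Y
  rw [mem_sdiff, mem_insert, mem_insert, mem_inter, not_or] at hv
  obtain ⟨h1, h2, h3⟩ := hv
  have hvG : v ∈ G := h1.resolve_left h2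
  have hvZ : v ∉ Z := fun hh => h3 ⟨hh, hvG⟩
  exact h.coll_marg hvG (hA.marg v (mem_sdiff.2 ⟨h.GE hvG, hvZ⟩)) Y

omit [Fintype α] in
private theorem pii_gg (h : CD φ E G P z) (hcP : c ∈ P) {A : Finset α} (hA : A ⊆ Z ∩ G) :
    gg (coll φ G P z) z d A = gg φ c d A := by
  have hAG : A ⊆ G := hA.trans inter_subset_right
  have hzA : z ∉ A := fun hh => h.zG (hAG hh)
  have hcA : c ∉ A := fun hh => disjoint_left.1 h.disj (hAG hh) hcP
  unfold gg
  rw [h.coll_sub hAG, if_neg hzA, if_neg hcA]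

omit [Fintype α] in
private theorem pii_sep (h : CD φ E G P z) {F : Finset (Finset α)}
    (hF : SepFam (coll φ G P z) (Z ∩ G) F) : SepFam φ Z F := by
  have hs : ∀ A ∈ F, A ⊆ G := fun A hA => (hF.sub A hA).trans inter_subset_right
  refine ⟨hF.nonempty, fun A hA => (hF.sub A hA).trans inter_subset_left, hF.disj, ?_⟩
  have h1 := hF.sep
  have hsub : F.biUnion id ⊆ G := biUnion_subset.2 hs
  rw [h.coll_sub hsub] at h1
  rw [h1]
  exact sum_congr rfl fun A hA => h.coll_sub (hs A hA)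

omit [Fintype α] in
private theorem pii_sum (h : CD φ E G P z) (hcP : c ∈ P) {e : ℤ} (he : EB φ Z c d e)
    {F : Finset (Finset α)} (hF : SepFam (coll φ G P z) (Z ∩ G) F) :
    ∑ A ∈ F, gg (coll φ G P z) z d A ≤ e := by
  rw [sum_congr rfl fun A hA => pii_gg h hcP (hF.sub A hA)]
  exact he F (pii_sep h hF)

theorem pc_ii_EB (h : CD φ E G P z) (hP : φ P ≤ -1) (hcP : c ∈ P) (hdG : d ∈ G) {e : ℤ}
    (he : EB φ Z c d e) : EB (coll φ G P z) (insert z (Z ∩ G)) z d e := by
  intro Q hQ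
  have hzd : d ≠ z := by
    rintro rfl
    exact h.zG hdG
  have key : ∀ A ∈ Q, z ∉ A → A ⊆ Z ∩ G := by
    intro A hA hz x hx
    rcases mem_insert.1 (hQ.sub A hA hx) with e1 | e1
    · rw [e1] at hx
      exact absurd hx hz
    · exact e1
  by_cases hex : ∃ A₀ ∈ Q, z ∈ A₀
  · obtain ⟨A₀, hA₀, hz⟩ := hex
    have hrest : ∀ B ∈ Q, B ≠ A₀ → B ⊆ Z ∩ G := by
      intro B hB hne
      refine key B hB fun hzB => ?_
      exact disjoint_left.1 (hQ.disj B hB A₀ hA₀ hne) hzB hz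
    have hAs : A₀.erase z ⊆ Z ∩ G := by
      intro x hx
      rw [mem_erase] at hx
      exact (mem_insert.1 (hQ.sub A₀ hA₀ hx.2)).resolve_left hx.1
    have hAG : A₀.erase z ⊆ G := hAs.trans inter_subset_right
    have hval : gg (coll φ G P z) z d A₀
        = φ (A₀.erase z ∪ P) + 1 - (if d ∈ A₀.erase z then 1 else 0) := by
      have e1 : coll φ G P z A₀ = φ (A₀.erase z ∪ P) + 1 := by
        rw [← h.coll_insert hAG, insert_erase hz]
      have e2 : (d ∈ A₀) ↔ d ∈ A₀.erase z := by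
        rw [mem_erase]
        exact ⟨fun hh => ⟨hzd, hh⟩, fun hh => hh.2⟩
      unfold gg
      rw [e1, if_pos hz]
      simp only [e2]
      ring
    rw [← add_sum_erase Q _ hA₀]
    by_cases hne : A₀.erase z = ∅
    · have hr := hQ.replace h.good_coll.toSM hA₀ (∅ : Finset (Finset α)) (Z' := Z ∩ G)
        (by simp) (by simp) (by simp [h.good_coll.zero]) hrest
      rw [union_empty] at hr
      have h1 := pii_sum h hcP he hr.1
      rw [hval, hne, empty_union, if_neg (notMem_empty d)]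
      omega
    · have hne' : (A₀.erase z).Nonempty := nonempty_iff_ne_empty.2 hne
      have hr := hQ.replace h.good_coll.toSM hA₀ ({A₀.erase z} : Finset (Finset α)) (Z' := Z ∩ G)
        (by
          intro B hB
          rw [mem_singleton] at hB
          subst hB
          exact ⟨hne', erase_subset _ _, hAs⟩)
        (by
          intro B hB C hC hBC
          rw [mem_singleton] at hB hC
          exact absurd (hB.trans hC.symm) hBC)
        (by simp) hrest
      have h1 := pii_sum h hcP he hr.1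
      rw [sum_union hr.2, sum_singleton] at h1
      have h2 : gg (coll φ G P z) z d A₀ ≤ gg (coll φ G P z) z d (A₀.erase z) := by
        have h3 := h.union_le hAG
        rw [hval]
        unfold gg
        rw [h.coll_sub hAG, if_neg (notMem_erase z A₀)]
        omega
      omega
  · have hF : SepFam (coll φ G P z) (Z ∩ G) Q :=
      ⟨hQ.nonempty, fun A hA => key A hA fun hz => hex ⟨A, hA, hz⟩, hQ.disj, hQ.sep⟩
    exact pii_sum h hcP he hF

omit [Fintype α] in
private theorem pii_empty (hA : Adm φ E Z) (h : CD φ E G P z)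
    (hcP : c ∈ P) (hdG : d ∈ G) (hP : φ P = 0) : PC φ E Z c d z = ∅ := by
  rw [Set.eq_empty_iff_forall_notMem]
  rintro T ⟨hT, hf, -⟩
  have hC := (collC_PG h hA.marg hT hcP hdG).1 hf
  have hdz : d ≠ z := by
    rintro rfl
    exact h.zG hdG
  have hk : kap φ (G \ T) ⊆ G \ T := kap_sub φ _
  have hkG : kap φ (G \ T) ⊆ G := hk.trans sdiff_subset
  have hzk : z ∉ kap φ (G \ T) := fun hh => h.zG (hkG hh)
  have h1 := hC {z} (kap φ (G \ T))
    (singleton_subset_iff.2 (mem_insert_self z _)) (hk.trans (subset_insert z _))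
    (disjoint_singleton_left.2 hzk) (by rwa [mem_singleton]) hzk
  have e1 : coll φ G P z {z} = φ P + 1 := by
    have e2 := h.coll_insert (empty_subset G)
    rw [empty_union] at e2
    exact e2
  have e3 := nu_kap_sdiff h.good.toSM E T
  rw [← h.hG] at e3
  rw [e1, hP, h.coll_sub hkG, phi_kap h.good.toSM, e3, h.nu_coll_II hA.marg hT] at h1
  omega

omit [Fintype α] in
private theorem pii_eq (hA : Adm φ E Z) (h : CD φ E G P z) (hcP : c ∈ P) (hdG : d ∈ G) :
    PC φ E Z c d z = KK (coll φ G P z) (insert z G) (insert z (Z ∩ G)) z d := by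
  have hm := hA.marg
  have hsm := h.good.toSM
  have hid : ∀ T : Finset α, T ⊆ G → insert z G \ T = insert z (G \ T) := by
    intro T hTG
    exact insert_sdiff_of_notMem G fun hh => h.zG (hTG hh)
  ext T
  constructor
  · rintro ⟨hT, hf, -⟩
    have hTG : T ⊆ G := by
      rw [h.hG]
      exact II_sub_kap hsm hm hT
    refine ⟨?_, ?_, ?_⟩
    · intro t ht
      rw [mem_sdiff, mem_insert, mem_insert, mem_inter, not_or]
      refine ⟨Or.inr (hTG ht), ?_, fun hh => (mem_sdiff.1 (hT.1 ht)).2 hh.1⟩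
      rintro rfl
      exact h.zG (hTG ht)
    · rw [hid T hTG, h.nu_coll_II hm hT, h.nu_coll_top, hT.2]
      ring
    · rw [hid T hTG]
      exact (collC_PG h hm hT hcP hdG).1 hf
  · rintro ⟨hs, hn, hC⟩
    have hTG : T ⊆ G := by
      intro t ht
      have h1 := hs ht
      rw [mem_sdiff, mem_insert, mem_insert, mem_inter, not_or] at h1
      exact h1.1.resolve_left h1.2.1
    have hTE : T ⊆ E \ Z := by
      intro t ht
      have h1 := hs ht
      rw [mem_sdiff, mem_insert, mem_insert, mem_inter, not_or] at h1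
      exact mem_sdiff.2 ⟨h.GE (hTG ht), fun hh => h1.2.2 ⟨hh, hTG ht⟩⟩
    rw [hid T hTG] at hn hC
    have hzk := hC.mem_left h.good_coll.toSM
    rw [mem_kap, erase_insert (fun hh => h.zG (mem_sdiff.1 hh).1)] at hzk
    have h2 := h.nu_coll_sub (sdiff_subset : G \ T ⊆ G)
    have h3 := nu_kap_sdiff hsm E T
    rw [← h.hG] at h3
    have h4 := nu_sdiff_ge hm hTE E
    have h5 := h.nu_coll_top
    have hT : T ∈ II φ E Z := by
      refine ⟨hTE, ?_⟩
      have h6 := hzk.2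
      rw [h2, h3, hn, h5] at h6
      omega
    refine ⟨hT, (collC_PG h hm hT hcP hdG).2 hC, fun hc => ?_⟩
    have h7 := kap_mono hsm (sdiff_subset : E \ T ⊆ E) (hc.mem_left hsm)
    rw [← h.hG] at h7
    exact disjoint_left.1 h.disj h7 hcP

theorem pc_ii (hA : Adm φ E Z) (h : CD φ E G P z) (hz : z ∈ Z) (hc : c ∈ Z) (hd : d ∈ Z)
    (hcP : c ∈ P) (hdG : d ∈ G) {e n : ℤ} (he : EB φ Z c d e)
    (hn : n + 1 + e ≤ nu φ E) (hT : Th (coll φ G P z) (insert z G) (insert z (Z ∩ G))) :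
    Acyc (PC φ E Z c d z) n := by
  have h0 : φ P ≤ 0 := by
    have h1 := h.union_le (empty_subset G)
    rw [empty_union, h.good.zero] at h1
    exact h1
  by_cases hP : φ P = 0
  · rw [pii_empty hA h hcP hdG hP]
    exact acyc_empty n
  · rw [pii_eq hA h hcP hdG]
    have hzd : z ≠ d := by
      rintro rfl
      exact h.zG hdG
    refine hT z d e n (mem_insert_self z _) (mem_insert_of_mem (mem_inter.2 ⟨hd, hdG⟩)) hzd
      (pc_ii_EB h (by omega) hcP hdG he) ?_
    rw [h.nu_coll_top]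
    omega

end Pool.Agent.DT3
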