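import Pool.Agent.DT3.Case1
import Pool.Agent.DT3.Case2
import Pool.Agent.DT3.PCall

/-!
STEP 1 (filling).  `z ∈ Z`, `z ∈ kap φ E`.  Let `c, d, e, n` be as in `Th`.
`A = KK (fill φ z) E Z c d` is acyclic in degree `n` by `hfill` with `e + 1` (`fill_EB`,
`nu (fill φ z) E = nu φ E + 1`).  `A₁ = {T ∈ A | T ∈ II φ E Z}`, `B = KK φ E Z c d ⊆ A₁` (`KK_sub_fill`).
`A \ A₁` is the family of `case1` (degree `n + 1`: `(n + 1) + 1 + e ≤ nu φ E`), `A₁ \ B` the family of `case2`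
(degree `n + 1`; `hPC` is `pc_all` for `E'`, with `IH` because `E'.card < E.card`).  `A`, `A₁`, `B` are
complexes (`cpx_KK` for `fill φ z`, `φ`, `cpx_II`).  `acyc_down` twice.
-/

set_option autoImplicit false

namespace Pool.Agent.DT3

open Finset

variable {α : Type*} [Fintype α] [DecidableEq α] {φ : Finset α → ℤ} {E Z : Finset α} {z : α}

theorem step1 (hA : Adm φ E Z) (hz : z ∈ Z) (hk : z ∈ kap φ E) (hfill : Th (fill φ z) E Z)
    (IH : ∀ (φ' : Finset α → ℤ) (E' Z' : Finset α), E'.card < E.card → Adm φ' E' Z' →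
      Th φ' E' Z') : Th φ E Z := by
  intro c d e n hc hd hcd he hn
  have hsm : SM φ := hA.good.toSM
  have hA' : Adm (fill φ z) E Z := fill_adm hA hz
  have hnu : nu (fill φ z) E = nu φ E + 1 := nu_fill_kap hsm hk
  have hcA : Cpx (KK (fill φ z) E Z c d) := cpx_KK hA'.good.toSM hA'.marg hc hd
  have hcI : Cpx (II φ E Z) := cpx_II hsm hA.marg
  have hcB : Cpx (KK φ E Z c d) := cpx_KK hsm hA.marg hc hd
  have h1 : Acyc (KK (fill φ z) E Z c d) n :=
    hfill c d (e + 1) n hc hd hcd (fill_EB he z) (by rw [hnu]; linarith)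
  have hc1 : Cpx (KK (fill φ z) E Z c d ∩ II φ E Z) :=
    fun C hC B hB => ⟨hcA C hC.1 B hB, hcI C hC.2 B hB⟩
  have h2 : Acyc (KK (fill φ z) E Z c d ∩ II φ E Z) n := by
    refine acyc_down hcA.cvx Set.inter_subset_left ?_ h1 ?_
    · intro S _ T hT hST
      exact hc1 T hT S hST
    · have h3 := case1 (n := n + 1) hA hz hk hc hd hcd he (by linarith) IH
      have e1 : KK (fill φ z) E Z c d \ (KK (fill φ z) E Z c d ∩ II φ E Z) =
          {T : Finset α | T ∈ KK (fill φ z) E Z c d ∧ nu φ (E \ T) ≠ nu φ E - T.card} := by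
        ext T
        constructor
        · rintro ⟨hT, hT'⟩
          exact ⟨hT, fun hn => hT' ⟨hT, hT.1, hn⟩⟩
        · rintro ⟨hT, hT'⟩
          exact ⟨hT, fun hn => hT' hn.2.2⟩
      rw [e1]
      exact h3
  refine acyc_down hc1.cvx ?_ ?_ h2 ?_
  · intro T hT
    exact ⟨KK_sub_fill hA hz hk hT, KK_sub_II hT⟩
  · intro S _ T hT hST
    exact hcB T hT S hST
  · have h3 := case2 (n := n + 1) (e := e) hA hz hk hc hd (by linarith) (by
      intro E' n' _ hE' hAE hzE hY hn'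
      exact pc_all hAE hz hzE hY hc hd hcd he hn' (fun φ' E'' Z' hE'' hAd =>
        IH φ' E'' Z' (lt_of_le_of_lt hE'' hE') hAd))
    have e1 : (KK (fill φ z) E Z c d ∩ II φ E Z) \ KK φ E Z c d =
        {T : Finset α | T ∈ KK (fill φ z) E Z c d ∧ nu φ (E \ T) = nu φ E - T.card ∧
          ¬ Conn φ (E \ T) c d} := by
      ext T
      constructor
      · rintro ⟨⟨hT, hT2⟩, hT'⟩
        exact ⟨hT, hT2.2, fun hn => hT' ⟨hT2.1, hT2.2, hn⟩⟩
      · rintro ⟨hT, hT2, hT'⟩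
        exact ⟨⟨hT, hT.1, hT2⟩, fun hn => hT' hn.2.2⟩
    rw [e1]
    exact h3

end Pool.Agent.DT3
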